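import Pool.Agent.Lib.MP_9d59e9_gt.KS.Spec

/-!
# MP_9d59e9_gt, project KS, module Ad: skew endomorphisms act skewly
-/

set_option autoImplicit false

namespace Pool.Agent.Lib.MP_9d59e9_gt.KS

open scoped BigOperators ContDiff
open Set KO KO3

section Ad

variable {V : Type} [AddCommGroup V] [Module ℝ V] {n : ℕ}

private lemma Ad_congr (f : Fin n → V) (k : ℕ) (F G : List V → ℝ)
    (h : ∀ l : List V, l.length = k → F l = G l) : sumL f k F = sumL f k G := by
  induction k generalizing F G with
  | zero => exact h [] rfl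
  | succ k ih =>
    refine Finset.sum_congr rfl fun i _ => ih _ _ fun l hl => h (f i :: l) (by simp [hl])

private lemma Ad_lin (f : Fin n → V) (k : ℕ) (F G : List V → ℝ) (a b : ℝ) :
    sumL f k (fun l => a * F l + b * G l) = a * sumL f k F + b * sumL f k G := by
  induction k generalizing F G with
  | zero => rfl
  | succ k ih =>
    change ∑ i, sumL f k (fun l => a * F (f i :: l) + b * G (f i :: l)) =
      a * ∑ i, sumL f k (fun l => F (f i :: l)) + b * ∑ i, sumL f k (fun l => G (f i :: l))
    rw [Finset.mul_sum, Finset.mul_sum, ← Finset.sum_add_distrib]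
    exact Finset.sum_congr rfl fun i _ => ih (fun l => F (f i :: l)) (fun l => G (f i :: l))

private lemma Ad_add (f : Fin n → V) (k : ℕ) (F G : List V → ℝ) :
    sumL f k (fun l => F l + G l) = sumL f k F + sumL f k G := by
  have h := Ad_lin f k F G 1 1
  simpa using h

private lemma Ad_zero (f : Fin n → V) (k : ℕ) : sumL f k (fun _ => (0 : ℝ)) = 0 := by
  have h := Ad_lin f k (fun _ => 0) (fun _ => 0) 0 0
  simpa using h

private lemma Ad_fsum (f : Fin n → V) (k : ℕ) {ι : Type} (s : Finset ι) (P : ι → List V → ℝ) :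
    sumL f k (fun l => ∑ i ∈ s, P i l) = ∑ i ∈ s, sumL f k (P i) := by
  classical
  induction s using Finset.induction_on with
  | empty =>
    rw [Finset.sum_empty]
    have : (fun l : List V => ∑ i ∈ (∅ : Finset ι), P i l) = fun _ => 0 := by
      funext l
      exact Finset.sum_empty
    rw [this]
    exact Ad_zero f k
  | insert a s ha ih =>
    rw [Finset.sum_insert ha, ← ih, ← Ad_add]
    refine Ad_congr f k _ _ fun l _ => ?_
    exact Finset.sum_insert ha

private lemma Ad_nonneg (f : Fin n → V) (k : ℕ) (F : List V → ℝ) (h : ∀ l, 0 ≤ F l) :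
    0 ≤ sumL f k F := by
  induction k generalizing F with
  | zero => exact h []
  | succ k ih => exact Finset.sum_nonneg fun i _ => ih _ fun l => h _

private lemma Ad_skew (b c : Fin n → Fin n → ℝ) (hb : ∀ i s, b s i = -b i s)
    (hc : ∀ i s, c s i = c i s) : ∑ i, ∑ s, b i s * c i s = 0 := by
  have h : ∑ i, ∑ s, b i s * c i s = -∑ i, ∑ s, b i s * c i s := by
    conv_lhs => rw [Finset.sum_comm]
    rw [← Finset.sum_neg_distrib]
    refine Finset.sum_congr rfl fun i _ => ?_
    rw [← Finset.sum_neg_distrib]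
    refine Finset.sum_congr rfl fun s _ => ?_
    rw [hb i s, hc i s, neg_mul]
  linarith

private lemma Ad_sum {f : V → ℝ} (h : Lin1 f) {ι : Type} (s : Finset ι) (w : ι → ℝ) (v : ι → V) :
    f (∑ i ∈ s, w i • v i) = ∑ i ∈ s, w i * f (v i) := by
  classical
  induction s using Finset.induction_on with
  | empty =>
    rw [Finset.sum_empty, Finset.sum_empty]
    have := h.smul 0 0
    rwa [zero_smul, zero_mul] at this
  | insert a s ha ih => rw [Finset.sum_insert ha, Finset.sum_insert ha, h.add, h.smul, ih]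

private lemma Ad_cons (F : List V → ℝ) (a b : V) (l m : List V) :
    dS F (a :: l) (b :: m) = F (b :: l) + dS (fun l' => F (a :: l')) l m := by
  simp [dS]

private lemma Ad_exp (hLa : S_La) (f : Fin n → V) {B : V → V → ℝ} (hf : Fr B f) {F : List V → ℝ}
    {k : ℕ} (hF : MlL F (k + 1)) (a : V) (l : List V) (hl : l.length = k) :
    F (a :: l) = ∑ s, B a (f s) * F (f s :: l) := by
  have h := ((hLa V).2.2.2.2.2.2.2.1 F k hF).2 l hl
  conv_lhs => rw [hf.ex a]
  exact Ad_sum h Finset.univ (fun s => B a (f s)) f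

private lemma Ad_two (hLa : S_La) (f : Fin n → V) {B : V → V → ℝ} (hB : IP B) (hf : Fr B f)
    (k : ℕ) (F G : List V → ℝ) (hF : MlL F k) (hG : MlL G k) (Φ : V → V)
    (hΦ : ∀ a b, B (Φ a) b = -B a (Φ b)) :
    sumL f k (fun l => dS F l (l.map Φ) * G l + F l * dS G l (l.map Φ)) = 0 := by
  induction k generalizing F G with
  | zero =>
    change dS F [] [] * G [] + F [] * dS G [] [] = 0
    simp [dS]
  | succ k ih =>
    have hF1 := ((hLa V).2.2.2.2.2.2.2.1 F k hF).1
    have hG1 := ((hLa V).2.2.2.2.2.2.2.1 G k hG).1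
    change ∑ i, sumL f k (fun l => dS F (f i :: l) ((f i :: l).map Φ) * G (f i :: l) +
      F (f i :: l) * dS G (f i :: l) ((f i :: l).map Φ)) = 0
    have h1 : ∀ i, sumL f k (fun l => dS F (f i :: l) ((f i :: l).map Φ) * G (f i :: l) +
        F (f i :: l) * dS G (f i :: l) ((f i :: l).map Φ)) =
        sumL f k (fun l => F (Φ (f i) :: l) * G (f i :: l) + F (f i :: l) * G (Φ (f i) :: l)) := by
      intro i
      have h2 := ih (fun l => F (f i :: l)) (fun l => G (f i :: l)) (hF1 _) (hG1 _)
      rw [← add_zero (sumL f k (fun l => F (Φ (f i) :: l) * G (f i :: l) +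
        F (f i :: l) * G (Φ (f i) :: l))), ← h2, ← Ad_add]
      refine Ad_congr f k _ _ fun l _ => ?_
      change dS F (f i :: l) (Φ (f i) :: l.map Φ) * G (f i :: l) +
        F (f i :: l) * dS G (f i :: l) (Φ (f i) :: l.map Φ) = _
      rw [Ad_cons, Ad_cons]
      ring
    rw [Finset.sum_congr rfl fun i _ => h1 i, ← Ad_fsum, ← Ad_zero f k]
    refine Ad_congr f k _ _ fun l hl => ?_
    have h3 : ∀ i, F (Φ (f i) :: l) * G (f i :: l) + F (f i :: l) * G (Φ (f i) :: l) =
        ∑ s, B (Φ (f i)) (f s) * (F (f s :: l) * G (f i :: l) + F (f i :: l) * G (f s :: l)) := by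
      intro i
      rw [Ad_exp hLa f hf hF (Φ (f i)) l hl, Ad_exp hLa f hf hG (Φ (f i)) l hl, Finset.sum_mul,
        Finset.mul_sum, ← Finset.sum_add_distrib]
      refine Finset.sum_congr rfl fun s _ => ?_
      ring
    rw [Finset.sum_congr rfl fun i _ => h3 i]
    refine Ad_skew (fun i s => B (Φ (f i)) (f s))
      (fun i s => F (f s :: l) * G (f i :: l) + F (f i :: l) * G (f s :: l)) ?_ ?_
    · intro i s
      rw [hΦ, hB.symm]
    · intro i s
      ring

private lemma Ad_three (hLa : S_La) (f : Fin n → V) {B : V → V → ℝ} (hf : Fr B f)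
    (k : ℕ) (F : List V → ℝ) (hF : MlL F k) (h0 : sumL f k (fun l => F l ^ 2) = 0) :
    ∀ l : List V, l.length = k → F l = 0 := by
  induction k generalizing F with
  | zero =>
    intro l hl
    have hl0 : l = [] := List.length_eq_zero_iff.1 hl
    subst hl0
    have h1 : F [] ^ 2 = 0 := h0
    exact pow_eq_zero_iff (two_ne_zero) |>.1 h1
  | succ k ih =>
    have hF1 := ((hLa V).2.2.2.2.2.2.2.1 F k hF).1
    have h1 : ∑ i, sumL f k (fun l => F (f i :: l) ^ 2) = 0 := h0
    have h2 := (Finset.sum_eq_zero_iff_of_nonneg (fun i _ =>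
      Ad_nonneg f k (fun l => F (f i :: l) ^ 2) fun l => sq_nonneg _)).1 h1
    have h3 : ∀ i, ∀ l : List V, l.length = k → F (f i :: l) = 0 := fun i =>
      ih (fun l => F (f i :: l)) (hF1 _) (h2 i (Finset.mem_univ i))
    intro l hl
    cases l with
    | nil => simp at hl
    | cons a l =>
      have hl' : l.length = k := by simpa using hl
      rw [Ad_exp hLa f hf hF a l hl']
      exact Finset.sum_eq_zero fun s _ => by rw [h3 s l hl', mul_zero]

private lemma Ad_five (hLa : S_La) (f : Fin n → V) (k : ℕ) (F : List V → ℝ) (hF : MlL F k)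
    (hs : ∀ v, ∃ a : Fin n → ℝ, v = ∑ i, a i • f i)
    (h0 : ∀ l : List V, l.length = k → (∀ v ∈ l, ∃ i, v = f i) → F l = 0) :
    ∀ l : List V, l.length = k → F l = 0 := by
  induction k generalizing F with
  | zero =>
    intro l hl
    refine h0 l hl fun v hv => ?_
    rw [List.length_eq_zero_iff.1 hl] at hv
    simp at hv
  | succ k ih =>
    obtain ⟨hF1, hF2⟩ := (hLa V).2.2.2.2.2.2.2.1 F k hF
    have h3 : ∀ i, ∀ l : List V, l.length = k → F (f i :: l) = 0 := by
      intro i
      refine ih (fun l => F (f i :: l)) (hF1 _) fun l hl hl2 => ?_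
      refine h0 (f i :: l) (by simp [hl]) fun v hv => ?_
      rcases List.mem_cons.1 hv with rfl | hv
      · exact ⟨i, rfl⟩
      · exact hl2 v hv
    intro l hl
    cases l with
    | nil => simp at hl
    | cons a l =>
      have hl' : l.length = k := by simpa using hl
      obtain ⟨w, hw⟩ := hs a
      have h4 := Ad_sum (hF2 l hl') Finset.univ w f
      rw [← hw] at h4
      refine h4.trans (Finset.sum_eq_zero fun s _ => ?_)
      rw [h3 s l hl', mul_zero]

end Ad

theorem tAd (h1 : S_La) : S_Ad := by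
  intro V _ _ n f
  refine ⟨Ad_lin f, fun B hB hf => ⟨fun k F G hF hG Φ hΦ => Ad_two h1 f hB hf k F G hF hG Φ hΦ,
    fun k F hF h0 => Ad_three h1 f hf k F hF h0, ?_⟩,
    fun k F hF hs h0 => Ad_five h1 f k F hF hs h0⟩
  intro k F hF Φ hΦ c hc
  have h2 := Ad_two h1 f hB hf k F F hF hF Φ hΦ
  have h3 : sumL f k (fun l => dS F l (l.map Φ) * F l + F l * dS F l (l.map Φ)) =
      2 * c * sumL f k (fun l => F l ^ 2) := by
    have h4 := Ad_lin f k (fun l => F l ^ 2) (fun _ => 0) (2 * c) 0
    have h5 : 2 * c * sumL f k (fun l => F l ^ 2) = 2 * c * sumL f k (fun l => F l ^ 2) +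
        0 * sumL f k (fun _ => (0 : ℝ)) := by ring
    rw [h5, ← h4]
    refine Ad_congr f k _ _ fun l hl => ?_
    rw [hc l hl]
    ring
  rw [h3] at h2
  rcases mul_eq_zero.1 h2 with h5 | h5
  · left
    linarith
  · right
    exact Ad_three h1 f hf k F hF h5

end Pool.Agent.Lib.MP_9d59e9_gt.KS
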