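import Pool.Agent.Lib.MP_9d59e9_gt.KS.Spec

/-!
# MP_9d59e9_gt, project KS, module Bn: consequences of the second Bianchi identity
-/

set_option autoImplicit false

namespace Pool.Agent.Lib.MP_9d59e9_gt.KS

open scoped BigOperators ContDiff
open Set KO KO3

noncomputable section

set_option linter.unusedSimpArgs false

private theorem Bn_ex {m : ℕ} (hm : 3 ≤ m) (i k : Fin (m + 1)) :
    ∃ j : Fin (m + 1), j ≠ 0 ∧ j ≠ i ∧ j ≠ k := by
  by_cases h1 : (i : ℕ) ≠ 1 ∧ (k : ℕ) ≠ 1
  · refine ⟨⟨1, by omega⟩, ?_, ?_, ?_⟩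
    · intro h
      have := congrArg Fin.val h
      simp at this
    · intro h
      have := congrArg Fin.val h
      simp only at this
      omega
    · intro h
      have := congrArg Fin.val h
      simp only at this
      omega
  by_cases h2 : (i : ℕ) ≠ 2 ∧ (k : ℕ) ≠ 2
  · refine ⟨⟨2, by omega⟩, ?_, ?_, ?_⟩
    · intro h
      have := congrArg Fin.val h
      simp at this
    · intro h
      have := congrArg Fin.val h
      simp only at this
      omega
    · intro h
      have := congrArg Fin.val h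
      simp only at this
      omega
  · refine ⟨⟨3, by omega⟩, ?_, ?_, ?_⟩
    · intro h
      have := congrArg Fin.val h
      simp at this
    · intro h
      have := congrArg Fin.val h
      simp only at this
      omega
    · intro h
      have := congrArg Fin.val h
      simp only at this
      omega

section
variable {V : Type} [AddCommGroup V] [Module ℝ V]

private theorem Bn_alg {B : V → V → ℝ} (hB : IP B) {m : ℕ} (hm : 3 ≤ m)
    {f : Fin (m + 1) → V} (hf : Fr B f) {th : V → ℝ} (hth : ∀ v, th v = B (f 0) v)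
    {b : V → V → ℝ} (hb1 : ∀ a, Lin1 (b a)) (hb2 : ∀ v, Lin1 fun a => b a v)
    (hb0 : ∀ X, b X (f 0) = 0) {da db : V → ℝ} (hda : Lin1 da) (hdb : Lin1 db) {β : ℝ}
    (hβ : β ≠ 0) {N : V → V → V → V → V → ℝ}
    (hN : ∀ z a b' c d, N z a b' c d = da z * G0 B a b' c d
      + db z * KN B (fun p q => th p * th q) a b' c d + β * KN B (sy2 th (b z)) a b' c d)
    (bi : ∀ a b c d e, N a b c d e + N b c a d e + N c a b d e = 0) :
    ∃ c : ℝ, (∀ u v, th u = 0 → th v = 0 → b u v = c * B u v) ∧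
      (∀ v, da v = 2 * (c * β) * th v) ∧ ∀ z, th z = 0 → db z = β * b (f 0) z := by
  have on0 : ∀ i, B (f i) (f i) = 1 := fun i => by rw [hf.on, if_pos rfl]
  have on1 : ∀ i j, i ≠ j → B (f i) (f j) = 0 := fun i j h => by rw [hf.on, if_neg h]
  have t0 : th (f 0) = 1 := by rw [hth, on0]
  have t1 : ∀ i, i ≠ 0 → th (f i) = 0 := fun i h => by rw [hth, on1 0 i (Ne.symm h)]
  -- (1)
  have A : ∀ i, i ≠ 0 → da (f i) = 0 := by
    intro i hi
    obtain ⟨j, hj0, hji, -⟩ := Bn_ex hm i i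
    obtain ⟨k, hk0, hki, hkj⟩ := Bn_ex hm i j
    have h := bi (f i) (f j) (f k) (f k) (f j)
    rw [hN, hN, hN] at h
    simp only [G0, KN, sy2, on0, t1 i hi, t1 j hj0, t1 k hk0, on1 j i hji, on1 i j hji.symm,
      on1 k i hki, on1 i k hki.symm, on1 k j hkj, on1 j k hkj.symm] at h
    linarith
  -- (2)
  have C1 : ∀ i j, i ≠ 0 → j ≠ 0 → i ≠ j → β * (b (f i) (f i) + b (f j) (f j)) = da (f 0) := by
    intro i j hi hj hij
    have h := bi (f i) (f j) (f 0) (f i) (f j)
    rw [hN, hN, hN] at h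
    simp only [G0, KN, sy2, on0, t0, t1 i hi, t1 j hj, on1 i j hij, on1 j i hij.symm,
      on1 0 i hi.symm, on1 i 0 hi, on1 0 j hj.symm, on1 j 0 hj] at h
    linarith
  have C2 : ∀ i k, i ≠ 0 → k ≠ 0 → i ≠ k → b (f i) (f k) = 0 := by
    intro i k hi hk hik
    obtain ⟨j, hj0, hji, hjk⟩ := Bn_ex hm i k
    have h := bi (f i) (f j) (f 0) (f k) (f j)
    rw [hN, hN, hN] at h
    simp only [G0, KN, sy2, on0, t0, t1 i hi, t1 j hj0, t1 k hk, on1 j i hji,
      on1 i j hji.symm, on1 k i hik.symm, on1 i k hik, on1 j k hjk, on1 k j hjk.symm,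
      on1 0 i hi.symm, on1 i 0 hi, on1 0 j hj0.symm, on1 j 0 hj0, on1 0 k hk.symm,
      on1 k 0 hk] at h
    have h' : β * b (f i) (f k) = 0 := by linarith
    exact (mul_eq_zero.1 h').resolve_left hβ
  -- (3)
  have D1 : ∀ i, i ≠ 0 → db (f i) = β * b (f 0) (f i) := by
    intro i hi
    obtain ⟨j, hj0, hji, -⟩ := Bn_ex hm i i
    have h := bi (f i) (f j) (f 0) (f j) (f 0)
    rw [hN, hN, hN] at h
    simp only [G0, KN, sy2, on0, t0, t1 i hi, t1 j hj0, on1 j i hji, on1 i j hji.symm,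
      on1 0 i hi.symm, on1 i 0 hi, on1 0 j hj0.symm, on1 j 0 hj0, A i hi, A j hj0, hb0] at h
    linarith
  obtain ⟨o, ho, -, -⟩ := Bn_ex hm 0 0
  obtain ⟨c, hc⟩ : ∃ c, c = b (f o) (f o) := ⟨_, rfl⟩
  have E1 : ∀ j, j ≠ 0 → b (f j) (f j) = c := by
    intro j hj
    by_cases h : j = o
    · rw [h, hc]
    · obtain ⟨i, hi0, hij, hio⟩ := Bn_ex hm j o
      have h1 := C1 i j hi0 hj hij
      have h2 := C1 i o hi0 ho hio
      have h3 : β * (b (f j) (f j) - c) = 0 := by rw [hc]; linarith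
      have h4 := (mul_eq_zero.1 h3).resolve_left hβ
      linarith
  have E2 : da (f 0) = 2 * (c * β) := by
    obtain ⟨i, hi0, hio, -⟩ := Bn_ex hm o o
    rw [← C1 i o hi0 ho hio, E1 i hi0, E1 o ho]
    ring
  have z0 : ∀ v, th v = 0 → B v (f 0) = 0 := fun v h => by rw [hB.symm, ← hth, h]
  refine ⟨c, ?_, ?_, ?_⟩
  · intro u v hu hv
    have hv' : ∀ i, i ≠ 0 → b (f i) v = c * B v (f i) := by
      intro i hi
      have e : b (f i) v = ∑ j, B v (f j) * b (f i) (f j) := by
        conv_lhs => rw [hf.ex v]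
        exact Sur.lin_sum (hb1 (f i)) _ _
      rw [e, Finset.sum_eq_single i]
      · rw [E1 i hi]
        ring
      · intro j _ hj
        by_cases h : j = 0
        · rw [h, z0 v hv, zero_mul]
        · rw [C2 i j hi h (Ne.symm hj), mul_zero]
      · intro h
        exact absurd (Finset.mem_univ i) h
    have e : b u v = ∑ j, B u (f j) * b (f j) v := by
      conv_lhs => rw [hf.ex u]
      exact Sur.lin_sum (hb2 v) _ _
    have e' : B u v = ∑ j, B u (f j) * B (f j) v := by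
      conv_lhs => rw [hf.ex u]
      exact Sur.lin_sum (hB.lin v) _ _
    rw [e, e', Finset.mul_sum]
    refine Finset.sum_congr rfl fun j _ => ?_
    by_cases h : j = 0
    · rw [h, z0 u hu]
      ring
    · rw [hv' j h, hB.symm v]
      ring
  · intro v
    have e : da v = ∑ j, B v (f j) * da (f j) := by
      conv_lhs => rw [hf.ex v]
      exact Sur.lin_sum hda _ _
    rw [e, Finset.sum_eq_single 0]
    · rw [E2, hB.symm v, ← hth]
      ring
    · intro j _ hj
      rw [A j hj, mul_zero]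
    · intro h
      exact absurd (Finset.mem_univ _) h
  · intro z hz
    have e : db z = ∑ j, B z (f j) * db (f j) := by
      conv_lhs => rw [hf.ex z]
      exact Sur.lin_sum hdb _ _
    have e' : b (f 0) z = ∑ j, B z (f j) * b (f 0) (f j) := by
      conv_lhs => rw [hf.ex z]
      exact Sur.lin_sum (hb1 (f 0)) _ _
    rw [e, e', Finset.mul_sum]
    refine Finset.sum_congr rfl fun j _ => ?_
    by_cases h : j = 0
    · rw [h, z0 z hz]
      ring
    · rw [D1 j h]
      ring

end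

theorem tBn (h1 : S_Nn) : S_Bn := by
  intro n g U θ α β hn hR x hx
  obtain ⟨m, rfl⟩ : ∃ m, n = m + 1 := ⟨n - 1, by omega⟩
  have hE : Eu (ip g x) m := sFrm (m + 1) m g x rfl (hR.met.pos x hx)
  obtain ⟨f, hf, hf0⟩ := hE.fr (du g θ x) (hR.un.one x hx)
  obtain ⟨hN, hW, -⟩ := h1 (m + 1) g U θ α β hR x hx
  have hL := (sLin (m + 1) x).2.2.2.2.1 (D g θ)
  have hlin : ∀ L : Pt (m + 1) →L[ℝ] ℝ, Lin1 fun v => L v := fun L =>
    ⟨fun a b => map_add L a b, fun r a => by rw [map_smul, smul_eq_mul]⟩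
  obtain ⟨c, c1, c2, c3⟩ := Bn_alg (B := ip g x) hE.ip (m := m) (by omega) hf
    (th := e1 θ x) (fun v => by rw [hf0]; exact hR.un.dual x hx v) (b := e2 (D g θ) x)
    hL.1 hL.2 (fun X => by rw [hf0]; exact hW X) (hlin (fderiv ℝ α x)) (hlin (fderiv ℝ β x))
    (hR.nb x hx) hN (sBi2 (m + 1) g U hR.met x hx).bi2
  rw [hf0] at c3
  exact ⟨c, c1, c2, c3⟩

end

end Pool.Agent.Lib.MP_9d59e9_gt.KS
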