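import Pool.Agent.Lib.MP_9d59e9_gt.KS.Spec

/-!
# MP_9d59e9_gt, project KS, module Br2: the equation on vectors (helper49)
-/

set_option autoImplicit false

namespace Pool.Agent.Lib.MP_9d59e9_gt.KS

open scoped BigOperators ContDiff
open Set KO KO3

noncomputable section

private theorem br2_mul_left {V : Type} [AddCommGroup V] [Module ℝ V] {f : V → ℝ} (h : Lin1 f)
    (c : ℝ) : Lin1 fun a => c * f a :=
  ⟨fun a b => by rw [h.add]; ring, fun r a => by rw [h.smul]; ring⟩

private theorem br2_mul_right {V : Type} [AddCommGroup V] [Module ℝ V] {f : V → ℝ} (h : Lin1 f)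
    (c : ℝ) : Lin1 fun a => f a * c :=
  ⟨fun a b => by rw [h.add]; ring, fun r a => by rw [h.smul]; ring⟩

private theorem br2_add {V : Type} [AddCommGroup V] [Module ℝ V] {f f' : V → ℝ} (h : Lin1 f)
    (h' : Lin1 f') : Lin1 fun a => f a + f' a :=
  ⟨fun a b => by rw [h.add, h'.add]; ring, fun r a => by rw [h.smul, h'.smul]; ring⟩

private theorem br2_sum {V : Type} [AddCommGroup V] [Module ℝ V] (s : Finset ℕ)
    (f : ℕ → V → ℝ) (h : ∀ i ∈ s, Lin1 (f i)) : Lin1 fun a => ∑ i ∈ s, f i a :=
  ⟨fun a b => by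
    rw [← Finset.sum_add_distrib]
    exact Finset.sum_congr rfl fun i hi => (h i hi).add a b,
   fun r a => by
    rw [Finset.mul_sum]
    exact Finset.sum_congr rfl fun i hi => (h i hi).smul r a⟩

/-- The left side of the equation is multilinear. -/
private theorem br2_mll {V : Type} [AddCommGroup V] [Module ℝ V] (S' : List V → ℝ)
    (E : ℕ → List V → ℝ) (r : ℕ) (hS : ∀ k : ℕ, 4 ≤ k → MlL S' k) (hE : ∀ k, MlL (E k) k) :
    MlL (fun l => S' l + ∑ m ∈ Finset.Icc 1 r, E m (l.take m) * S' (l.drop m)) (r + 4) := by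
  intro l₁ l₂ hlen
  refine br2_add (hS (r + 4) (by omega) l₁ l₂ hlen) (br2_sum _ _ fun m hm => ?_)
  rw [Finset.mem_Icc] at hm
  by_cases hml : m ≤ l₁.length
  · have e1 : ∀ a : V, (l₁ ++ a :: l₂).take m = l₁.take m := fun a =>
      List.take_append_of_le_length hml
    have e2 : ∀ a : V, (l₁ ++ a :: l₂).drop m = l₁.drop m ++ a :: l₂ := fun a =>
      List.drop_append_of_le_length hml
    simp only [e1, e2]
    exact br2_mul_left (hS (r + 4 - m) (by omega) _ _ (by rw [List.length_drop]; omega)) _
  · obtain ⟨q, hq⟩ : ∃ q, m = l₁.length + (q + 1) := ⟨m - l₁.length - 1, by omega⟩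
    have e1 : ∀ a : V, (l₁ ++ a :: l₂).take m = l₁ ++ a :: l₂.take q := fun a => by
      rw [hq, List.take_length_add_append, List.take_succ_cons]
    have e2 : ∀ a : V, (l₁ ++ a :: l₂).drop m = l₂.drop q := fun a => by
      rw [hq, List.drop_length_add_append, List.drop_succ_cons]
    simp only [e1, e2]
    refine br2_mul_right (hE m l₁ (l₂.take q) ?_) _
    rw [List.length_take]
    omega

/-- A list of coordinate vectors. -/
private theorem br2_list {n : ℕ} (l : List (Pt n)) (h : ∀ v ∈ l, ∃ i : Fin n, v = bv i) :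
    ∃ L : List (Fin n), l = L.map fun i => bv i := by
  induction l with
  | nil => exact ⟨[], rfl⟩
  | cons v l ih =>
    obtain ⟨i, hi⟩ := h v List.mem_cons_self
    obtain ⟨L, hL⟩ := ih fun w hw => h w (List.mem_cons_of_mem _ hw)
    exact ⟨i :: L, by rw [List.map_cons, ← hi, ← hL]⟩

theorem tBr2 (h1 : S_Ad) (h2 : S_Sb) (h3 : S_Br1) : S_Br2 := by
  intro n g Ω r hg t hK x hx l hl
  obtain ⟨⟨hel, hS⟩, -, -, -, hco⟩ := h2 n g x
  obtain ⟨-, -, hfr⟩ := h1 (Pt n) n fun i => bv i
  refine hfr (r + 4) (fun l => S g x l +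
    ∑ m ∈ Finset.Icc 1 r, el (tT t m) x (l.take m) * S g x (l.drop m))
    (br2_mll _ (fun m => el (tT t m) x) r hS fun k => hel k _) ?_ ?_ l hl
  · intro v
    refine ⟨v, ?_⟩
    ext i
    rw [Finset.sum_apply, Finset.sum_eq_single i]
    · simp
    · intro j _ hj
      rw [Pi.smul_apply]
      show v j • (Pi.single j (1 : ℝ) : Pt n) i = 0
      rw [Pi.single_eq_of_ne hj.symm, smul_zero]
    · intro h
      exact absurd (Finset.mem_univ i) h
  · intro l' hl' hb
    obtain ⟨L, rfl⟩ := br2_list l' hb
    rw [List.length_map] at hl'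
    obtain ⟨c, m, p, b, d, hc, rfl⟩ : ∃ (c : List (Fin n)) (m p b d : Fin n), c.length = r ∧
        L = c ++ [m, p, b, d] := by
      have h4 : (L.drop r).length = 4 := by rw [List.length_drop]; omega
      match hd : L.drop r, h4 with
      | [m, p, b, d], _ =>
        exact ⟨L.take r, m, p, b, d, by rw [List.length_take]; omega, by
          rw [← hd, List.take_append_drop]⟩
    have hT : ∀ (k : ℕ) (C : List (Fin n)), C.length = k →
        el (tT t k) x (C.map fun i => bv i) = t k C x := by
      intro k C hC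
      subst hC
      have h5 := hco C.length (tT t C.length) C.get
      rw [List.ofFn_get] at h5
      rw [h5]
      unfold tT
      rw [List.ofFn_get]
    have hSum : ∀ C : List (Fin n), S g x ((C ++ [m, p, b, d]).map fun i => bv i) =
        ∑ e, g x e d * nablaR g C.length e (C ++ [b, m, p]) x := fun C =>
      h3 n g Ω hg x hx C m p b d
    have hterm : ∀ k ∈ Finset.Icc 1 r,
        el (tT t k) x (((c ++ [m, p, b, d]).map fun i => bv i).take k) *
          S g x (((c ++ [m, p, b, d]).map fun i => bv i).drop k) =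
        ∑ e, g x e d * (t k ((c ++ [b, m, p]).take k) x *
          nablaR g (r - k) e ((c ++ [b, m, p]).drop k) x) := by
      intro k hk
      rw [Finset.mem_Icc] at hk
      have hkc : k ≤ c.length := by omega
      rw [← List.map_take, ← List.map_drop, List.take_append_of_le_length hkc,
        List.drop_append_of_le_length hkc, List.take_append_of_le_length hkc,
        List.drop_append_of_le_length hkc, hT k _ (by rw [List.length_take]; omega), hSum,
        List.length_drop, hc, Finset.mul_sum]
      exact Finset.sum_congr rfl fun e _ => by ring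
    have hmain : ∀ e : Fin n, nablaR g r e (c ++ [b, m, p]) x +
        ∑ k ∈ Finset.Icc 1 r, t k ((c ++ [b, m, p]).take k) x *
          nablaR g (r - k) e ((c ++ [b, m, p]).drop k) x = 0 := fun e =>
      hK x hx e (c ++ [b, m, p]) (by simp [hc])
    show S g x ((c ++ [m, p, b, d]).map fun i => bv i) + ∑ k ∈ Finset.Icc 1 r,
      el (tT t k) x (((c ++ [m, p, b, d]).map fun i => bv i).take k) *
        S g x (((c ++ [m, p, b, d]).map fun i => bv i).drop k) = 0
    rw [Finset.sum_congr rfl hterm, hSum, hc, Finset.sum_comm, ← Finset.sum_add_distrib]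
    refine Finset.sum_eq_zero fun e _ => ?_
    rw [← Finset.mul_sum, ← mul_add, hmain e, mul_zero]

end

end Pool.Agent.Lib.MP_9d59e9_gt.KS
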