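import Pool.Agent.Lib.MP_9d59e9_gt.KS.Spec

/-!
# MP_9d59e9_gt, project KS, module Br3 (helper47): the symmetry condition on vectors
-/

set_option autoImplicit false

namespace Pool.Agent.Lib.MP_9d59e9_gt.KS

open scoped BigOperators ContDiff
open KO KO3

noncomputable section

private theorem Br3_zero {V : Type} [AddCommGroup V] [Module ℝ V] {f : V → ℝ} (h : Lin1 f) :
    f 0 = 0 := by
  have h1 := h.smul 0 0
  rwa [zero_smul, zero_mul] at h1

private theorem Br3_sum {V : Type} [AddCommGroup V] [Module ℝ V] {f : V → ℝ} (h : Lin1 f)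
    {ι : Type} (s : Finset ι) (w : ι → ℝ) (b : ι → V) :
    f (∑ i ∈ s, w i • b i) = ∑ i ∈ s, w i * f (b i) := by
  classical
  induction s using Finset.induction_on with
  | empty => simpa using Br3_zero h
  | insert i s hi ih => rw [Finset.sum_insert hi, Finset.sum_insert hi, h.add, h.smul, ih]

private theorem Br3_exp {n : ℕ} (u : Pt n) : u = ∑ i, u i • (bv i : Pt n) := by
  funext j
  rw [Finset.sum_apply]
  simp [bv, Pi.single_apply]

/-- The value on a list of coordinate vectors. -/
private theorem Br3_val {n m : ℕ} (h2 : S_Sb) (t : ℕ → List (Fin n) → Pt n → ℝ) (x : Pt n)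
    (K : List (Fin n)) (hK : K.length = m) : el (tT t m) x (K.map fun i => bv i) = t m K x := by
  subst hK
  have h := (h2 n (fun _ => 0) x).2.2.2.2 K.length (tT t K.length) K.get
  rw [List.ofFn_get] at h
  rw [h]
  unfold tT
  rw [List.ofFn_get]

theorem tBr3 (h1 : S_Ad) (h2 : S_Sb) : S_Br3 := by
  intro n Ω r t hsym x hx m hm3 hmr u v hu hv l hl
  have hML : ∀ k : ℕ, MlL (el (tT t k) x) k := fun k => (h2 n (fun _ => 0) x).1.1 k (tT t k)
  -- the value of the form `t 1`
  have h1form : ∀ w : Pt n, e1 (tT t 1) x w = ∑ i, t 1 [i] x * w i := by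
    intro w
    rw [← (h2 n (fun _ => 0) x).2.2.1.1 (tT t 1) w]
    have hlin : Lin1 fun a => el (tT t 1) x [a] := hML 1 [] [] rfl
    conv_lhs => rw [Br3_exp w]
    rw [Br3_sum (f := fun a => el (tT t 1) x [a]) hlin]
    apply Finset.sum_congr rfl
    intro i _
    have h3 := Br3_val (m := 1) h2 t x [i] rfl
    rw [List.map_cons, List.map_nil] at h3
    rw [h3, mul_comm]
  rw [h1form] at hu hv
  have hS := hsym x hx m hm3 hmr u v hu hv
  -- the difference is multilinear in the tail
  let F : List (Pt n) → ℝ := fun l' => el (tT t m) x (u :: v :: l') - el (tT t m) x (v :: u :: l')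
  have hF : MlL F (m - 2) := by
    intro l₁ l₂ hl'
    have e1 : Lin1 fun a => el (tT t m) x (u :: v :: (l₁ ++ a :: l₂)) :=
      hML m (u :: v :: l₁) l₂ (by simp only [List.length_cons]; omega)
    have e2 : Lin1 fun a => el (tT t m) x (v :: u :: (l₁ ++ a :: l₂)) :=
      hML m (v :: u :: l₁) l₂ (by simp only [List.length_cons]; omega)
    refine ⟨fun a b => ?_, fun c a => ?_⟩
    · change el (tT t m) x (u :: v :: (l₁ ++ (a + b) :: l₂)) -
        el (tT t m) x (v :: u :: (l₁ ++ (a + b) :: l₂)) = _ - _ + (_ - _)
      rw [e1.add, e2.add]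
      ring
    · change el (tT t m) x (u :: v :: (l₁ ++ (c • a) :: l₂)) -
        el (tT t m) x (v :: u :: (l₁ ++ (c • a) :: l₂)) = c * (_ - _)
      rw [e1.smul, e2.smul]
      ring
  have key : F l = 0 := by
    refine (h1 (Pt n) n (fun i => bv i)).2.2 (m - 2) F hF (fun w => ⟨w, Br3_exp w⟩) ?_ l (by omega)
    intro l' hl' hl''
    obtain ⟨L, rfl⟩ : l' ∈ Set.range (List.map fun i : Fin n => (bv i : Pt n)) := by
      rw [Set.range_list_map]
      intro w hw
      obtain ⟨i, hi⟩ := hl'' w hw
      exact ⟨i, hi.symm⟩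
    rw [List.length_map] at hl'
    have hexp : ∀ a b : Pt n, el (tT t m) x (a :: b :: L.map fun i => bv i) =
        ∑ i, ∑ j, t m (i :: j :: L) x * (a i * b j) := by
      intro a b
      have e1 : Lin1 fun c => el (tT t m) x (c :: b :: L.map fun i => bv i) :=
        hML m [] (b :: L.map fun i => bv i) (by
          simp only [List.length_cons, List.length_nil, List.length_map]; omega)
      conv_lhs => rw [Br3_exp a]
      rw [Br3_sum (f := fun c => el (tT t m) x (c :: b :: L.map fun i => bv i)) e1]
      apply Finset.sum_congr rfl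
      intro i _
      have e2 : Lin1 fun c => el (tT t m) x (bv i :: c :: L.map fun i => bv i) :=
        hML m [bv i] (L.map fun i => bv i) (by
          simp only [List.length_cons, List.length_nil, List.length_map]; omega)
      conv_lhs => rw [Br3_exp b]
      rw [Br3_sum (f := fun c => el (tT t m) x (bv i :: c :: L.map fun i => bv i)) e2,
        Finset.mul_sum]
      apply Finset.sum_congr rfl
      intro j _
      have h3 := Br3_val (m := m) h2 t x (i :: j :: L) (by
        simp only [List.length_cons]; omega)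
      rw [List.map_cons, List.map_cons] at h3
      rw [h3]
      ring
    change el (tT t m) x (u :: v :: L.map fun i => bv i) -
      el (tT t m) x (v :: u :: L.map fun i => bv i) = 0
    rw [hexp, hexp, ← hS L (by omega), ← Finset.sum_sub_distrib]
    apply Finset.sum_congr rfl
    intro i _
    rw [← Finset.sum_sub_distrib]
    apply Finset.sum_congr rfl
    intro j _
    ring
  exact sub_eq_zero.1 key

end

end Pool.Agent.Lib.MP_9d59e9_gt.KS
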