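import Pool.Agent.Lib.MP_9d59e9_gt.KS.Spec

/-!
# MP_9d59e9_gt, project KS: the data on the nonsingular set (helper72)
-/

set_option autoImplicit false

namespace Pool.Agent.Lib.MP_9d59e9_gt.KS

open scoped BigOperators ContDiff
open KO KO3

noncomputable section

theorem tBt (h1 : S_Br2) : S_Bt := by
  intro n g Ω r hg t ht hks
  have hm : IsMetricOn g {x | x ∈ Ω ∧ NonSing g x} :=
    { isOpen := KO3.sNsO n g Ω hg
      smooth := fun i j => (hg.smooth i j).mono (fun x hx => hx.1)
      pos := fun x hx => hg.pos x hx.1 }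
  exact
    { met := hm
      sm := fun m I => (ht m (List.ofFn I)).mono (fun x hx => hx.1)
      ks := fun x hx l hl => h1 n g Ω r hg t hks x hx.1 l hl
      ns := fun x hx => KO3.sNsC n g Ω hg x hx.1 hx.2 }

end

end Pool.Agent.Lib.MP_9d59e9_gt.KS
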