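import Pool.Agent.Lib.MP_9d59e9_gt.KS.Spec

/-!
# MP_9d59e9_gt, project KS, module Cl: closed forms by telescoping
-/

set_option autoImplicit false

namespace Pool.Agent.Lib.MP_9d59e9_gt.KS

open scoped BigOperators ContDiff
open Set KO KO3

noncomputable section

/-- `P` is a local additive operator on the smooth functions on `U`. -/
private structure Cl_Op {n : ℕ} (U : Set (Pt n)) (P : (Pt n → ℝ) → Pt n → ℝ) : Prop where
  sm : ∀ φ, ContDiffOn ℝ ∞ φ U → ContDiffOn ℝ ∞ (P φ) U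
  add : ∀ φ ψ, ContDiffOn ℝ ∞ φ U → ContDiffOn ℝ ∞ ψ U → ∀ x ∈ U,
    P (fun y => φ y + ψ y) x = P φ x + P ψ x
  cg : ∀ φ ψ, (∀ x ∈ U, φ x = ψ x) → ∀ x ∈ U, P φ x = P ψ x

private theorem Cl_Op.zero {n : ℕ} {U : Set (Pt n)} {P : (Pt n → ℝ) → Pt n → ℝ} (h : Cl_Op U P) :
    ∀ x ∈ U, P (fun _ => 0) x = 0 := by
  intro x hx
  have h1 := h.add (fun _ => 0) (fun _ => 0) contDiffOn_const contDiffOn_const x hx
  simp only [add_zero] at h1
  linarith

private theorem Cl_Op.sum {n : ℕ} {U : Set (Pt n)} {P : (Pt n → ℝ) → Pt n → ℝ} (h : Cl_Op U P)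
    (s : Finset ℕ) (F : ℕ → Pt n → ℝ) (hF : ∀ i, ContDiffOn ℝ ∞ (F i) U) :
    ∀ x ∈ U, P (fun y => ∑ i ∈ s, F i y) x = ∑ i ∈ s, P (F i) x := by
  classical
  induction s using Finset.induction_on with
  | empty =>
    intro x hx
    simp only [Finset.sum_empty]
    exact h.zero x hx
  | insert a s ha ih =>
    intro x hx
    rw [Finset.sum_insert ha, ← ih x hx]
    simp only [Finset.sum_insert ha]
    exact h.add (F a) (fun y => ∑ i ∈ s, F i y) (hF a) (ContDiffOn.sum fun i _ => hF i) x hx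

private theorem Cl_Op.iter {n : ℕ} {U : Set (Pt n)} {P : (Pt n → ℝ) → Pt n → ℝ} (h : Cl_Op U P)
    (p : ℕ) : Cl_Op U (P^[p]) := by
  induction p with
  | zero => exact ⟨fun φ hφ => hφ, fun φ ψ _ _ x _ => rfl, fun φ ψ hφψ x hx => hφψ x hx⟩
  | succ p ih =>
    refine ⟨fun φ hφ => ?_, fun φ ψ hφ hψ x hx => ?_, fun φ ψ hφψ x hx => ?_⟩
    · rw [Function.iterate_succ_apply']
      exact h.sm _ (ih.sm φ hφ)
    · rw [Function.iterate_succ_apply', Function.iterate_succ_apply', Function.iterate_succ_apply',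
        ← h.add _ _ (ih.sm φ hφ) (ih.sm ψ hψ) x hx]
      exact h.cg _ _ (fun y hy => ih.add φ ψ hφ hψ y hy) x hx
    · rw [Function.iterate_succ_apply', Function.iterate_succ_apply']
      exact h.cg _ _ (fun y hy => ih.cg φ ψ hφψ y hy) x hx

/-- Telescoping. -/
private theorem Cl_tele {n : ℕ} {U : Set (Pt n)} {P Q : (Pt n → ℝ) → Pt n → ℝ} (hP : Cl_Op U P)
    (hQ : Cl_Op U Q) (c : Pt n → ℝ) (hc : ContDiffOn ℝ ∞ c U)
    (hPQ : ∀ ψ y, P ψ y = Q ψ y + c y * ψ y) (φ : Pt n → ℝ) (hφ : ContDiffOn ℝ ∞ φ U) (q : ℕ) :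
    ∀ x ∈ U, (P^[q] φ) x = (Q^[q] φ) x
      + ∑ i ∈ Finset.range q, (P^[i] (fun y => c y * (Q^[q - 1 - i] φ) y)) x := by
  have hsm : ∀ i j : ℕ, ContDiffOn ℝ ∞ (P^[i] (fun y => c y * (Q^[j] φ) y)) U := fun i j =>
    (hP.iter i).sm _ (hc.mul ((hQ.iter j).sm φ hφ))
  induction q with
  | zero =>
    intro x _
    simp
  | succ q ih =>
    intro x hx
    have h1 : (P^[q + 1] φ) x = P (fun y => (Q^[q] φ) y
        + ∑ i ∈ Finset.range q, (P^[i] (fun y => c y * (Q^[q - 1 - i] φ) y)) y) x := by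
      rw [Function.iterate_succ_apply']
      exact hP.cg _ _ ih x hx
    rw [h1, hP.add _ _ ((hQ.iter q).sm φ hφ) (ContDiffOn.sum fun i _ => hsm i _) x hx,
      hP.sum (Finset.range q) (fun i => P^[i] (fun y => c y * (Q^[q - 1 - i] φ) y))
        (fun i => hsm i _) x hx, hPQ, Finset.sum_range_succ', Function.iterate_succ_apply']
    have h2 : ∑ i ∈ Finset.range q, P (P^[i] (fun y => c y * (Q^[q - 1 - i] φ) y)) x
        = ∑ i ∈ Finset.range q, (P^[i + 1] (fun y => c y * (Q^[q + 1 - 1 - (i + 1)] φ) y)) x := by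
      refine Finset.sum_congr rfl fun i _ => ?_
      rw [Function.iterate_succ_apply']
      have h3 : q + 1 - 1 - (i + 1) = q - 1 - i := by omega
      rw [h3]
    rw [h2]
    simp only [Function.iterate_zero, id_eq, Nat.add_sub_cancel, Nat.sub_zero]
    ring

private theorem Cl_dV {n : ℕ} {U : Set (Pt n)} (hU : IsOpen U) {W : Pt n → Pt n}
    (hW : ∀ a, ContDiffOn ℝ ∞ (fun x => W x a) U) : Cl_Op U (dV W) := by
  have hW' : ContDiffOn ℝ ∞ W U := contDiffOn_pi.2 hW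
  refine ⟨fun φ hφ => ?_, fun φ ψ hφ hψ x hx => ?_, fun φ ψ h x hx => ?_⟩
  · exact (hφ.fderiv_of_isOpen hU (by simp)).clm_apply hW'
  · have h1 : DifferentiableAt ℝ φ x :=
      (hφ.contDiffAt (hU.mem_nhds hx)).differentiableAt (by simp)
    have h2 : DifferentiableAt ℝ ψ x :=
      (hψ.contDiffAt (hU.mem_nhds hx)).differentiableAt (by simp)
    unfold dV
    rw [fderiv_fun_add h1 h2]
    rfl
  · have h1 : φ =ᶠ[nhds x] ψ := by
      filter_upwards [hU.mem_nhds hx] with y hy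
      exact h y hy
    unfold dV
    rw [h1.fderiv_eq]

private theorem Cl_dE {n : ℕ} {U : Set (Pt n)} {W : Pt n → Pt n} (h : Cl_Op U (dV W))
    {c : Pt n → ℝ} (hc : ContDiffOn ℝ ∞ c U) (k : ℝ) : Cl_Op U (dE W c k) := by
  refine ⟨fun φ hφ => ?_, fun φ ψ hφ hψ x hx => ?_, fun φ ψ hφψ x hx => ?_⟩
  · exact (h.sm φ hφ).sub (contDiffOn_const.mul (hc.mul hφ))
  · have h1 := h.add φ ψ hφ hψ x hx
    unfold dE
    rw [h1]
    ring
  · have h1 := h.cg φ ψ hφψ x hx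
    unfold dE
    rw [h1, hφψ x hx]

theorem tCl : S_Cl := by
  intro n U W c β hU hW hc hβ
  have hV := Cl_dV hU hW
  have hE1 := Cl_dE hV hc 1
  have hE2 := Cl_dE hV hc 2
  have h1 : ∀ ψ y, dV W ψ y = dE W c 1 ψ y + c y * ψ y := by
    intro ψ y
    unfold dE
    ring
  have h2 : ∀ ψ y, dE W c 1 ψ y = dE W c 2 ψ y + c y * ψ y := by
    intro ψ y
    unfold dE
    ring
  have hT : ∀ q, ContDiffOn ℝ ∞ (fun y => c y * ((dE W c 2)^[q] β) y) U := fun q =>
    hc.mul ((hE2.iter q).sm β hβ)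
  have hA : ∀ p q, ContDiffOn ℝ ∞ (Apq W c β p q) U := fun p q =>
    hc.mul ((hE1.iter p).sm _ (hT q))
  refine ⟨fun q x hx => ?_, fun p q x hx => ?_⟩
  · have h3 := Cl_tele hV hE1 c hc h1 β hβ q x hx
    rw [h3]
    change c x * ((dE W c 1)^[q] β) x = c x * (((dE W c 1)^[q] β) x
      + ∑ i ∈ Finset.range q, ((dV W)^[i] (Xq W c β (q - 1 - i))) x
      - ∑ i ∈ Finset.range q, ((dV W)^[i] (Xq W c β (q - 1 - i))) x)
    ring
  · have ha := Cl_tele hV hE1 c hc h1 (fun y => c y * ((dE W c 2)^[q] β) y) (hT q) p x hx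
    have hb : ∀ y ∈ U, Xq W c β q y = c y * ((dE W c 2)^[q] β) y
        + ∑ i ∈ Finset.range q, Apq W c β i (q - 1 - i) y := by
      intro y hy
      have h3 := Cl_tele hE1 hE2 c hc h2 β hβ q y hy
      unfold Xq Apq
      rw [h3, mul_add, Finset.mul_sum]
    have hcd : ((dV W)^[p] (Xq W c β q)) x = ((dV W)^[p] (fun y => c y * ((dE W c 2)^[q] β) y)) x
        + ∑ i ∈ Finset.range q, ((dV W)^[p] (Apq W c β i (q - 1 - i))) x := by
      rw [(hV.iter p).cg _ _ hb x hx, (hV.iter p).add _ _ (hT q)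
        (ContDiffOn.sum fun i _ => hA i (q - 1 - i)) x hx,
        (hV.iter p).sum (Finset.range q) (fun i => Apq W c β i (q - 1 - i))
          (fun i => hA i (q - 1 - i)) x hx]
    rw [hcd, ha]
    change c x * ((dE W c 1)^[p] (fun y => c y * ((dE W c 2)^[q] β) y)) x
      = c x * (((dE W c 1)^[p] (fun y => c y * ((dE W c 2)^[q] β) y)) x
      + ∑ i ∈ Finset.range p, ((dV W)^[i] (Apq W c β (p - 1 - i) q)) x
      + ∑ i ∈ Finset.range q, ((dV W)^[p] (Apq W c β i (q - 1 - i))) x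
      - ∑ i ∈ Finset.range p, ((dV W)^[i] (Apq W c β (p - 1 - i) q)) x
      - ∑ i ∈ Finset.range q, ((dV W)^[p] (Apq W c β i (q - 1 - i))) x)
    ring

end

end Pool.Agent.Lib.MP_9d59e9_gt.KS
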