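import Pool.Agent.Lib.MP_9d59e9_gt.KS.Spec

/-!
# MP_9d59e9_gt, project KS: module Cw

Curves of vectors for the words.
-/

set_option autoImplicit false

namespace Pool.Agent.Lib.MP_9d59e9_gt.KS

open scoped BigOperators ContDiff Topology
open Set KO KO3

noncomputable section

private theorem Cw_near {n : ℕ} {Ω : Set (Pt n)} (hO : IsOpen Ω) {p : Pt n} (hp : p ∈ Ω)
    (X : Pt n) : ∀ᶠ t in 𝓝 (0 : ℝ), p + t • X ∈ Ω := by
  have h1 : Continuous fun t : ℝ => p + t • X :=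
    continuous_const.add (continuous_id.smul continuous_const)
  have h2 : (fun t : ℝ => p + t • X) 0 ∈ Ω := by simpa using hp
  exact h1.continuousAt.eventually (hO.mem_nhds h2)

private theorem Cw_snoc {n : ℕ} (X z : Pt n) :
    (Fin.snoc (α := fun _ => Pt n) (![X] : Fin 1 → Pt n) z : Fin 2 → Pt n) = ![X, z] := by
  funext i
  fin_cases i <;> rfl

/-- subtracting a multiple of a curve, the coefficient vanishes at `0` -/
private theorem Cw_sub {n : ℕ} {g : Pt n → Matrix (Fin n) (Fin n) ℝ} {p X : Pt n} {u : ℝ → Pt n}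
    {u₀ δ : Pt n} {v : ℝ → Pt n} {v₀ ε : Pt n} {f : ℝ → ℝ} {f' : ℝ} (hu : Cv g p X u u₀ δ)
    (hv : Cv g p X v v₀ ε) (hf : HasDerivAt f f' 0) (h0 : f 0 = 0) :
    Cv g p X (fun t => u t - f t • v t) u₀ (δ - f' • v₀) := by
  obtain ⟨-, -, hadd, hsm⟩ := KO.sCvb n g p X
  have h1 := hsm (fun t => -f t) (-f') v v₀ ε hf.neg hv
  have h2 := hadd _ _ _ _ _ _ hu h1
  have e1 : (fun t => u t + -f t • v t) = fun t => u t - f t • v t := by
    funext t
    rw [neg_smul, sub_eq_add_neg]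
  have e2 : u₀ + -f 0 • v₀ = u₀ := by
    rw [h0, neg_zero, zero_smul, add_zero]
  have e3 : δ + (-f' • v₀ + -f 0 • ε) = δ - f' • v₀ := by
    rw [h0, neg_zero, zero_smul, add_zero, neg_smul, sub_eq_add_neg]
  rw [e1, e2, e3] at h2
  exact h2

/-- step (2): a curve in `W^⊥` -/
private theorem Cw_two {n : ℕ} {g : Pt n → Matrix (Fin n) (Fin n) ℝ} {U : Set (Pt n)} {θ : TF n 1}
    {α β c : Pt n → ℝ} (hW : Wst g U θ α β c) {x : Pt n} (hx : x ∈ U) {X : Pt n} {δ : Pt n}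
    (hc : Cv g x X (fun t => du g θ (x + t • X)) (du g θ x) δ) {u : Pt n} (hu : e1 θ x u = 0) :
    ∃ us : ℝ → Pt n, Cv g x X us u (-(c x * ip g x X u) • du g θ x) ∧
      ∀ᶠ t in 𝓝 (0 : ℝ), e1 θ (x + t • X) (us t) = 0 := by
  obtain ⟨h1, -, -, -, -, -, -, hex⟩ := KO3.sCvP n g U hW.rot.met x hx X
  obtain ⟨u₁, hu₁⟩ := hex u
  have hd := h1 θ hW.rot.un.sm u₁ u hu₁
  have hdt : e2 (D g θ) x X u = c x * ip g x X u := by
    rw [hW.dt x hx X u, hu]
    ring
  rw [hdt] at hd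
  have h0 : e1 θ (x + (0 : ℝ) • X) (u₁ 0) = 0 := by
    rw [hu₁.1, zero_smul, add_zero]
    exact hu
  refine ⟨fun t => u₁ t - e1 θ (x + t • X) (u₁ t) • du g θ (x + t • X), ?_, ?_⟩
  · have h2 := Cw_sub hu₁ hc hd h0
    rw [zero_sub, ← neg_smul] at h2
    exact h2
  · filter_upwards [Cw_near hW.rot.met.isOpen hx X] with t ht
    have hl : Lin1 (e1 θ (x + t • X)) := (KO.sLin n (x + t • X)).2.2.2.1 θ
    have hw : e1 θ (x + t • X) (du g θ (x + t • X)) = 1 := by
      rw [hW.rot.un.dual _ ht, hW.rot.un.one _ ht]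
    have e : u₁ t - e1 θ (x + t • X) (u₁ t) • du g θ (x + t • X) =
        u₁ t + (-e1 θ (x + t • X) (u₁ t)) • du g θ (x + t • X) := by
      rw [neg_smul, sub_eq_add_neg]
    rw [e, hl.add, hl.smul, hw]
    ring

theorem tCw (h1 : S_Nn) : S_Cw := by
  intro n g U θ α β c hW x hx X
  obtain ⟨-, -, hcv⟩ := h1 n g U θ α β hW.rot x hx
  have hpos := hW.rot.met.pos x hx
  have hIP : IP (ip g x) := (KO.sOnb n g x hpos).2.1
  have hsm2 : ∀ a b : Pt n, ∀ r : ℝ, ip g x (r • a) b = r * ip g x a b := fun a b r =>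
    (hIP.lin b).smul r a
  have hC : Cv g x X (fun t => du g θ (x + t • X)) (du g θ x)
      (c x • (X - e1 θ x X • du g θ x)) := by
    have h2 := hcv X
    have e : up g (D g θ) x ![X] = c x • (X - e1 θ x X • du g θ x) := by
      obtain ⟨hup, hnd⟩ := KO.sUp n g x hpos
      refine hnd _ _ fun z => ?_
      rw [hup 1 (D g θ) ![X] z, Cw_snoc]
      have h3 : e2 (D g θ) x X z = ev (D g θ) x ![X, z] := rfl
      rw [← h3, hW.dt x hx X z, hsm2]
      have e2 : X - e1 θ x X • du g θ x = X + (-e1 θ x X) • du g θ x := by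
        rw [neg_smul, sub_eq_add_neg]
      rw [e2, (hIP.lin z).add, hsm2, ← hW.rot.un.dual x hx z]
      ring
    rw [e] at h2
    exact h2
  refine ⟨hC, fun u hu => Cw_two hW hx hC hu, ?_⟩
  intro u v hu hv huv hu0
  obtain ⟨us, hus, hus0⟩ := Cw_two hW hx hC hu
  obtain ⟨vs, hvs, hvs0⟩ := Cw_two hW hx hC hv
  have hWu : ip g x (du g θ x) u = 0 := by rw [← hW.rot.un.dual x hx, hu]
  have hWv : ip g x (du g θ x) v = 0 := by rw [← hW.rot.un.dual x hx, hv]
  have hvW : ip g x v (du g θ x) = 0 := by rw [hIP.symm, hWv]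
  have huW : ip g x u (du g θ x) = 0 := by rw [hIP.symm, hWu]
  have hsm3 : ∀ a b : Pt n, ∀ r : ℝ, ip g x a (r • b) = r * ip g x a b := fun a b r => by
    rw [hIP.symm, hsm2, hIP.symm b a]
  have d1 : HasDerivAt (fun t : ℝ => ip g (x + t • X) (vs t) (us t)) 0 0 := by
    have h := KO.sCvI n g U hW.rot.met x hx X vs v _ us u _ hvs hus
    rw [hsm2, hsm3, hWu, hvW, mul_zero, mul_zero, add_zero] at h
    exact h
  have d2 : HasDerivAt (fun t : ℝ => ip g (x + t • X) (us t) (us t)) 0 0 := by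
    have h := KO.sCvI n g U hW.rot.met x hx X us u _ us u _ hus hus
    rw [hsm2, hsm3, hWu, huW, mul_zero, add_zero] at h
    exact h
  have v1 : ip g (x + (0 : ℝ) • X) (vs 0) (us 0) = 0 := by
    rw [hvs.1, hus.1, zero_smul, add_zero, hIP.symm]
    exact huv
  have v2 : ip g (x + (0 : ℝ) • X) (us 0) (us 0) ≠ 0 := by
    rw [hus.1, zero_smul, add_zero]
    exact (hIP.pos u hu0).ne'
  have d3 : HasDerivAt (fun t : ℝ => ip g (x + t • X) (vs t) (us t) /
      ip g (x + t • X) (us t) (us t)) 0 0 := by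
    have h := d1.fun_div d2 v2
    rw [v1] at h
    simpa using h
  have v3 : ip g (x + (0 : ℝ) • X) (vs 0) (us 0) / ip g (x + (0 : ℝ) • X) (us 0) (us 0) = 0 := by
    rw [v1, zero_div]
  refine ⟨us, fun t => vs t - (ip g (x + t • X) (vs t) (us t) /
      ip g (x + t • X) (us t) (us t)) • us t, hus, ?_, ?_⟩
  · have h := Cw_sub hvs hus d3 v3
    rw [zero_smul, sub_zero] at h
    exact h
  · have hne : ∀ᶠ t in 𝓝 (0 : ℝ), ip g (x + t • X) (us t) (us t) ≠ 0 :=
      d2.continuousAt.eventually_ne v2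
    filter_upwards [Cw_near hW.rot.met.isOpen hx X, hus0, hvs0, hne] with t ht hut hvt hnt
    have hIPt : IP (ip g (x + t • X)) := (KO.sOnb n g _ (hW.rot.met.pos _ ht)).2.1
    have hl : Lin1 (e1 θ (x + t • X)) := (KO.sLin n (x + t • X)).2.2.2.1 θ
    have e : ∀ r : ℝ, vs t - r • us t = vs t + (-r) • us t := fun r => by
      rw [neg_smul, sub_eq_add_neg]
    refine ⟨hut, ?_, ?_, ?_⟩
    · rw [e, hl.add, hl.smul, hvt, hut]
      ring
    · rw [e, hIPt.symm, (hIPt.lin _).add, (hIPt.lin _).smul]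
      field_simp
      ring
    · intro h
      apply hnt
      rw [h]
      have h2 := (hIPt.lin (0 : Pt n)).smul 0 0
      rw [zero_smul, zero_mul] at h2
      exact h2

end

end Pool.Agent.Lib.MP_9d59e9_gt.KS
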