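import Pool.Agent.Lib.MP_9d59e9_gt.KS.Spec

/-!
# MP_9d59e9_gt, project KS, module Cz: `c` does not vanish on an open set
-/

set_option autoImplicit false

namespace Pool.Agent.Lib.MP_9d59e9_gt.KS

open scoped BigOperators ContDiff
open KO KO3

noncomputable section

/-- a nonsingular curvature operator does not annihilate an orthonormal pair -/
private theorem Cz_ns {V : Type} {B : V → V → ℝ} {R : V → V → V → V → ℝ} (hns : NSi B R) (u v : V)
    (huu : B u u = 1) (hvv : B v v = 1) (huv : B u v = 0) (hvu : B v u = 0)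
    (h : ∀ a b, R u v a b = 0) (h' : ∀ a b, R v u a b = 0) : False := by
  have h1 := hns 2 ![u, v] ![![0, 1], ![-1, 0]] ?_ ?_ ?_ 0 1
  · simp at h1
  · intro i j
    fin_cases i <;> fin_cases j <;> simp [huu, hvv, huv, hvu]
  · intro i j
    fin_cases i <;> fin_cases j <;> simp
  · intro a b
    simp [Fin.sum_univ_two, h, h']

private theorem Cz_res {n : ℕ} {g : Pt n → Matrix (Fin n) (Fin n) ℝ} {U U' : Set (Pt n)}
    {θ : TF n 1} {α β c : Pt n → ℝ} (h : Wst g U θ α β c) (hU' : IsOpen U') (hsub : U' ⊆ U) :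
    Wst g U' θ α β c := by
  obtain ⟨⟨hmet, hun, hsa, hsb, hnb, hns, hR⟩, hsc, hdt, hda, hdb, hdc⟩ := h
  refine ⟨⟨⟨hU', fun i j => (hmet.smooth i j).mono hsub, fun x hx => hmet.pos x (hsub hx)⟩,
    ⟨fun I => (hun.sm I).mono hsub, fun x hx => hun.one x (hsub hx),
      fun x hx => hun.dual x (hsub hx)⟩, hsa.mono hsub, hsb.mono hsub,
    fun x hx => hnb x (hsub hx), fun x hx => hns x (hsub hx), fun x hx => hR x (hsub hx)⟩,
    hsc.mono hsub, fun x hx => hdt x (hsub hx), fun x hx => hda x (hsub hx),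
    fun x hx => hdb x (hsub hx), fun x hx => hdc x (hsub hx)⟩

/-- **Cz**: `c` does not vanish on an open set -/
theorem tCz : S_Cz := by
  intro n g U θ α β c hn hW hne
  have hopen : IsOpen U := hW.rot.met.isOpen
  by_cases hall : ∀ x ∈ U, c x = 0
  · exfalso
    obtain ⟨x, hx⟩ := hne
    -- `α + β = 0` at `x`
    have hfd : fderiv ℝ c x = 0 := by
      have h1 : c =ᶠ[nhds x] fun _ => (0 : ℝ) := by
        filter_upwards [hopen.mem_nhds hx] with y hy
        exact hall y hy
      rw [h1.fderiv_eq]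
      exact fderiv_const_apply 0
    have hone : ip g x (du g θ x) (du g θ x) = 1 := hW.rot.un.one x hx
    have hdual : ∀ v, e1 θ x v = ip g x (du g θ x) v := hW.rot.un.dual x hx
    have hab : α x + β x = 0 := by
      have h1 := hW.dc x hx (du g θ x)
      rw [hfd, hall x hx, hdual, hone] at h1
      have h2 : (0 : Pt n →L[ℝ] ℝ) (du g θ x) = 0 := rfl
      rw [h2] at h1
      linarith
    -- the frame
    obtain ⟨m, rfl⟩ : ∃ m, n = m + 1 := ⟨n - 1, by omega⟩
    obtain ⟨hip, -, hfr⟩ := sFrm (m + 1) m g x rfl (hW.rot.met.pos x hx)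
    obtain ⟨f, hf, hf0⟩ := hfr (du g θ x) hone
    obtain ⟨i1, hi1⟩ : ∃ i : Fin (m + 1), i ≠ 0 := ⟨⟨1, by omega⟩, by
      intro h
      have := congrArg Fin.val h
      simp at this⟩
    have g11 : ip g x (f i1) (f i1) = 1 := by rw [hf.on i1 i1, if_pos rfl]
    have g01 : ip g x (du g θ x) (f i1) = 0 := by rw [← hf0, hf.on 0 i1, if_neg hi1.symm]
    have g10 : ip g x (f i1) (du g θ x) = 0 := by rw [← hf0, hf.on i1 0, if_neg hi1]
    have hR := hW.rot.R x hx
    refine Cz_ns (hW.rot.ns x hx) (du g θ x) (f i1) hone g11 g01 g10 ?_ ?_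
    · intro a b
      rw [hR]
      simp only [G0, KN, hdual, hone, g01]
      linear_combination (ip g x (du g θ x) b * ip g x (f i1) a -
        ip g x (du g θ x) a * ip g x (f i1) b) * hab
    · intro a b
      rw [hR]
      simp only [G0, KN, hdual, hone, g01]
      linear_combination (ip g x (f i1) b * ip g x (du g θ x) a -
        ip g x (f i1) a * ip g x (du g θ x) b) * hab
  · push Not at hall
    obtain ⟨x0, hx0, hc0⟩ := hall
    have hU' : IsOpen (U ∩ {x | c x ≠ 0}) := by
      have h1 := hW.sc.continuousOn.isOpen_inter_preimage hopen (isOpen_ne (x := (0 : ℝ)))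
      exact h1
    refine ⟨U ∩ {x | c x ≠ 0}, Set.inter_subset_left, ⟨x0, hx0, hc0⟩,
      Cz_res hW hU' Set.inter_subset_left, fun x hx => hx.2⟩

end

end Pool.Agent.Lib.MP_9d59e9_gt.KS
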