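import Pool.Agent.Lib.MP_9d59e9_gt.KS.Spec

/-!
# MP_9d59e9_gt, project KS, module Ds: descent
-/

set_option autoImplicit false

namespace Pool.Agent.Lib.MP_9d59e9_gt.KS

open scoped BigOperators ContDiff
open Set KO KO3

noncomputable section

private theorem Ds_sub {V : Type} (l : List V) : ∀ (m : List V) (F G : List V → ℝ),
    dS (fun l' => F l' - G l') l m = dS F l m - dS G l m := by
  induction l with
  | nil =>
    intro m F G
    simp only [dS, sub_self]
  | cons a l ih =>
    intro m F G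
    cases m with
    | nil => simp only [dS, sub_self]
    | cons b m =>
      simp only [dS]
      rw [ih m (fun l' => F (a :: l')) (fun l' => G (a :: l'))]
      ring

private theorem Ds_sumc {V : Type} {n : ℕ} (f : Fin n → V) (k : ℕ) : ∀ F G : List V → ℝ,
    (∀ l : List V, l.length = k → F l = G l) → sumL f k F = sumL f k G := by
  induction k with
  | zero => intro F G h; exact h [] rfl
  | succ k ih =>
    intro F G h
    simp only [sumL]
    refine Finset.sum_congr rfl fun i _ => ih _ _ fun l hl => h _ ?_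
    rw [List.length_cons, hl]

private theorem Ds_sums {V : Type} {n : ℕ} (f : Fin n → V) {ι : Type} (s : Finset ι) (w : ι → ℝ)
    (k : ℕ) : ∀ F : ι → List V → ℝ,
      sumL f k (fun l => ∑ i ∈ s, w i * F i l) = ∑ i ∈ s, w i * sumL f k (F i) := by
  induction k with
  | zero => intro F; rfl
  | succ k ih =>
    intro F
    simp only [sumL]
    simp_rw [ih fun i l => F i (_ :: l), Finset.mul_sum]
    rw [Finset.sum_comm]

/-- a linear combination of two functions -/
private theorem Ds_add {V : Type} {n : ℕ} (f : Fin n → V) (k : ℕ) (F G : List V → ℝ) :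
    sumL f k (fun l => F l + G l) = sumL f k F + sumL f k G := by
  have h := Ds_sums f (Finset.univ : Finset (Fin 2)) (fun _ => 1) k ![F, G]
  simp only [Fin.sum_univ_two, one_mul, Matrix.cons_val_zero, Matrix.cons_val_one] at h
  exact h

private theorem Ds_smul {V : Type} {n : ℕ} (f : Fin n → V) (k : ℕ) (c : ℝ) (F : List V → ℝ) :
    sumL f k (fun l => c * F l) = c * sumL f k F := by
  have h := Ds_sums f (Finset.univ : Finset (Fin 1)) (fun _ => c) k ![F]
  simp only [Finset.univ_unique, Finset.sum_singleton, Fin.default_eq_zero,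
    Matrix.cons_val_zero] at h
  exact h

theorem tDs (h1 : S_La) (h2 : S_Ad) (h3 : S_Sb) (h4 : S_Sr) : S_Ds := by
  intro n g Ω hg p hp j h w A hA k hk hK
  obtain ⟨⟨f, f1, f2⟩, hIP, -⟩ := sOnb n g p (hg.pos p hp)
  have hf : Fr (ip g p) f := ⟨f1, f2⟩
  obtain ⟨cR, hop, -, -⟩ := sSym n g Ω hg p hp
  have hnd : ∀ a b : Pt n, (∀ z, ip g p a z = ip g p b z) → a = b :=
    fun a b hab => (sUp n g p (hg.pos p hp)).2 a b hab
  have lip : ∀ b, Lin1 fun a => ip g p a b := hIP.lin
  -- the operators are skew and linear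
  have rsk : ∀ u v a b : Pt n, ip g p (Rv g p u v a) b = -ip g p a (Rv g p u v b) := by
    intro u v a b
    rw [hop, hIP.symm a, hop, cR.a34]
  have l3 : ∀ u v d, Lin1 fun c => e4 (R4 g) p u v c d := fun u v d =>
    ⟨fun b c => by
      rw [← cR.sw, ← cR.sw u v b d, ← cR.sw u v c d]
      exact (cR.lin d u v).add b c,
     fun r b => by
      rw [← cR.sw, ← cR.sw u v b d]
      exact (cR.lin d u v).smul r b⟩
  have rlin : ∀ u v : Pt n, LinE (Rv g p u v) := by
    intro u v
    refine ⟨fun a b => hnd _ _ fun z => ?_, fun r a => hnd _ _ fun z => ?_⟩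
    · rw [hop, (lip z).add, hop, hop]
      exact (l3 u v z).add a b
    · rw [hop, (lip z).smul, hop]
      exact (l3 u v z).smul r a
  have hA' : ∀ a, A a = ∑ q : Fin j × Fin j, w q.1 q.2 • Rv g p (h q.1) (h q.2) a := by
    intro a
    rw [hA, Fintype.sum_prod_type]
  have Alin : LinE A := by
    refine ⟨fun a b => ?_, fun r a => ?_⟩
    · rw [hA', hA', hA', ← Finset.sum_add_distrib]
      refine Finset.sum_congr rfl fun q _ => ?_
      rw [(rlin _ _).add, smul_add]
    · rw [hA', hA', Finset.smul_sum]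
      refine Finset.sum_congr rfl fun q _ => ?_
      rw [(rlin _ _).smul, smul_comm]
  have Ask : ∀ a b, ip g p (A a) b = -ip g p a (A b) := by
    intro a b
    have e1 : ∀ (s : Finset (Fin j × Fin j)) (F : Fin j × Fin j → Pt n) (z : Pt n),
        ip g p (∑ q ∈ s, w q.1 q.2 • F q) z = ∑ q ∈ s, w q.1 q.2 * ip g p (F q) z := by
      intro s F z
      classical
      induction s using Finset.induction_on with
      | empty =>
        have h0 := (lip z).smul 0 0
        simpa using h0
      | insert q s hq ih => rw [Finset.sum_insert hq, Finset.sum_insert hq, (lip z).add, ih,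
          (lip z).smul]
    rw [hIP.symm a, hA', hA', e1, e1, ← Finset.sum_neg_distrib]
    refine Finset.sum_congr rfl fun q _ => ?_
    rw [rsk, hIP.symm]
    ring
  -- the functions
  obtain ⟨-, a2, -⟩ := h2 (Pt n) n f
  obtain ⟨b1, b2, -⟩ := a2 (ip g p) hIP hf
  obtain ⟨-, -, -, -, c5, -, c7, c8, -⟩ := h1 (Pt n)
  have mF : ∀ m, 4 ≤ m → MlL (S g p) m := (h3 n g p).1.2
  have hMF : MlL (S g p) k := mF k hk
  obtain ⟨Z, hZ⟩ : ∃ Z : Pt n → Pt n → List (Pt n) → ℝ,
    Z = fun u v l => S g p (u :: v :: l) - S g p (v :: u :: l) := ⟨_, rfl⟩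
  have hZ' : ∀ u v l, Z u v l = S g p (u :: v :: l) - S g p (v :: u :: l) := fun u v l => by
    rw [hZ]
  have mZ : ∀ u v, MlL (Z u v) k := by
    intro u v l₁ l₂ hl
    have g1 := (c8 (fun l => S g p (u :: l)) k ((c8 (S g p) (k + 1) (mF _ (by omega))).1 u)).1 v
      l₁ l₂ hl
    have g2 := (c8 (fun l => S g p (v :: l)) k ((c8 (S g p) (k + 1) (mF _ (by omega))).1 v)).1 u
      l₁ l₂ hl
    refine ⟨fun a b => ?_, fun r a => ?_⟩
    · rw [hZ', hZ', hZ']
      have e1 := g1.add a b
      have e2 := g2.add a b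
      linarith
    · rw [hZ', hZ']
      have e1 : S g p (u :: v :: (l₁ ++ r • a :: l₂)) = r * S g p (u :: v :: (l₁ ++ a :: l₂)) :=
        g1.smul r a
      have e2 : S g p (v :: u :: (l₁ ++ r • a :: l₂)) = r * S g p (v :: u :: (l₁ ++ a :: l₂)) :=
        g2.smul r a
      rw [e1, e2]
      ring
  have hZR : ∀ u v l, l.length = k → Z u v l = -dS (S g p) l (l.map (Rv g p u v)) := by
    intro u v l hl
    rw [hZ']
    exact h4 n g Ω hg p hp u v l (by omega)
  -- (a)
  have hZA : ∀ u v l, l.length = k →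
      dS (Z u v) l (l.map A) = -(Z (A u) v l) - Z u (A v) l := by
    intro u v l hl
    have g1 := hK (u :: v :: l) (by simp [hl])
    have g2 := hK (v :: u :: l) (by simp [hl])
    simp only [List.map_cons, dS] at g1 g2
    have g3 : dS (Z u v) l (l.map A) = dS (fun l' => S g p (u :: v :: l')) l (l.map A)
        - dS (fun l' => S g p (v :: u :: l')) l (l.map A) := by
      rw [← Ds_sub, hZ]
    rw [g3, hZ', hZ']
    linarith
  -- (b)
  have hb : ∀ u v, sumL f k (fun l => Z u v l * S g p l) = 0 := by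
    intro u v
    have g1 := b1 k (S g p) (S g p) hMF hMF (Rv g p u v) (rsk u v)
    have g2 : sumL f k (fun l => Z u v l * S g p l) = -(1 / 2) * sumL f k (fun l =>
        dS (S g p) l (l.map (Rv g p u v)) * S g p l + S g p l * dS (S g p) l (l.map (Rv g p u v))) := by
      rw [← Ds_smul]
      refine Ds_sumc f k _ _ fun l hl => ?_
      rw [hZR u v l hl]
      ring
    rw [g2, g1, mul_zero]
  -- (c)
  obtain ⟨G, hG⟩ : ∃ G : List (Pt n) → ℝ, G = fun l => dS (S g p) l (l.map A) := ⟨_, rfl⟩
  have mG : MlL G k := by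
    rw [hG]
    exact c7 (S g p) k hMF A Alin
  have hc : ∀ u v, sumL f k (fun l => Z u v l * G l) = 0 := by
    intro u v
    have g1 := b1 k (Z u v) (S g p) (mZ u v) hMF A Ask
    rw [Ds_add] at g1
    have g2 : sumL f k (fun l => dS (Z u v) l (l.map A) * S g p l) =
        -1 * sumL f k (fun l => Z (A u) v l * S g p l + Z u (A v) l * S g p l) := by
      rw [← Ds_smul]
      refine Ds_sumc f k _ _ fun l hl => ?_
      rw [hZA u v l hl]
      ring
    rw [g2, Ds_add, hb, hb, add_zero, mul_zero, zero_add] at g1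
    rw [hG]
    exact g1
  -- (d)
  have hd : ∀ l, l.length = k → G l =
      ∑ q : Fin j × Fin j, (-w q.1 q.2) * Z (h q.1) (h q.2) l := by
    intro l hl
    have g1 := c5 (S g p) l (hl ▸ hMF) (Fin j × Fin j) Finset.univ (fun q => w q.1 q.2)
      (fun q => Rv g p (h q.1) (h q.2))
    have g2 : (fun a => ∑ q : Fin j × Fin j, w q.1 q.2 • Rv g p (h q.1) (h q.2) a) = A :=
      funext fun a => (hA' a).symm
    rw [g2] at g1
    rw [hG]
    refine g1.trans (Finset.sum_congr rfl fun q _ => ?_)
    rw [hZR _ _ l hl]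
    ring
  have he : sumL f k (fun l => G l ^ 2) = 0 := by
    have g1 : sumL f k (fun l => G l ^ 2) = sumL f k (fun l =>
        ∑ q : Fin j × Fin j, (-w q.1 q.2) * (Z (h q.1) (h q.2) l * G l)) := by
      refine Ds_sumc f k _ _ fun l hl => ?_
      have e2 : G l ^ 2 = (∑ q : Fin j × Fin j, (-w q.1 q.2) * Z (h q.1) (h q.2) l) * G l := by
        rw [← hd l hl, sq]
      rw [e2, Finset.sum_mul]
      refine Finset.sum_congr rfl fun q _ => ?_
      ring
    rw [g1, Ds_sums f Finset.univ (fun q : Fin j × Fin j => -w q.1 q.2) k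
      (fun q l => Z (h q.1) (h q.2) l * G l)]
    refine Finset.sum_eq_zero fun q _ => ?_
    rw [hc, mul_zero]
  intro l hl
  have g1 := b2 k G mG he l hl
  rw [hG] at g1
  exact g1

end

end Pool.Agent.Lib.MP_9d59e9_gt.KS
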