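import Pool.Agent.Lib.MP_9d59e9_gt.KS.Spec

/-!
# MP_9d59e9_gt, project KS: the curvature operators of the planes in `e^⊥` annihilate `e` (`S_Ea`)

Author helper43, after the docstring of `S_Ea`.
-/

set_option autoImplicit false

namespace Pool.Agent.Lib.MP_9d59e9_gt.KS

open scoped BigOperators
open KO KO3

noncomputable section

theorem tEa (h1 : S_Ij) : S_Ea := by
  intro V _ _ B m R Ro hA e he hyp
  have hB := hA.eu.ip
  have hR := hA.cR
  have hop := hA.op
  have lin2 : ∀ x z w, Lin1 fun y => R x y z w := by
    intro x z w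
    refine ⟨fun a b => ?_, fun r a => ?_⟩
    · rw [hR.a12 (a + b) x z w, hR.a12 a x z w, hR.a12 b x z w, (hR.lin x z w).add]
      ring
    · rw [hR.a12 (r • a) x z w, hR.a12 a x z w, (hR.lin x z w).smul]
      ring
  have self : ∀ x z w, R x x z w = 0 := by
    intro x z w
    have := hR.a12 x x z w
    linarith
  -- the identity of the bivectors
  have key1 : ∀ x y, B e x = 0 → B e y = 0 → ∀ a,
      wd B (Ro x y x) y a + wd B x (Ro x y y) a = 0 := by
    intro x y hx hy a
    have h := h1 V B m R hA.eu hR hA.ns 2 ![Ro x y x, x] ![y, Ro x y y] (by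
      intro c d
      rw [Fin.sum_univ_two]
      change R (Ro x y x) y c d + R x (Ro x y y) c d = 0
      have e1 := hyp x y hx hy x y c d
      unfold act4 at e1
      have e2 : R x y (Ro x y c) d = -B (Ro x y d) (Ro x y c) := by
        rw [hop, hR.a34 x y d (Ro x y c)]
      have e3 : R x y c (Ro x y d) = B (Ro x y c) (Ro x y d) := (hop x y c _).symm
      rw [e2, e3, hB.symm (Ro x y d)] at e1
      linarith) a
    rw [Fin.sum_univ_two] at h
    exact h
  have key2 : ∀ x y, B e x = 0 → B e y = 0 → ∀ a, B y a * R x y x e = B x a * R x y y e := by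
    intro x y hx hy a
    have h := congrArg (fun t => B t e) (key1 x y hx hy a)
    have e1 : ∀ u v : V, B (wd B u v a) e = B v a * B u e - B u a * B v e := by
      intro u v
      have e2 : wd B u v a = B v a • u + (-(B u a)) • v := by
        rw [wd, neg_smul, sub_eq_add_neg]
      rw [e2, (hB.lin e).add, (hB.lin e).smul, (hB.lin e).smul]
      ring
    have e0 : B 0 e = 0 := Sur.lin_zero (hB.lin e)
    change B (wd B (Ro x y x) y a + wd B x (Ro x y y) a) e = B 0 e at h
    rw [(hB.lin e).add, e1, e1, e0, hop x y x e, hop x y y e, hB.symm y e, hB.symm x e, hx, hy] at h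
    linarith
  have key3 : ∀ x y, B e x = 0 → B e y = 0 → B x y = 0 → R x y x e = 0 := by
    intro x y hx hy hxy
    by_cases h0 : y = 0
    · rw [h0]
      exact Sur.lin_zero (lin2 x x e)
    · have h := key2 x y hx hy y
      rw [hxy, zero_mul] at h
      have h2 := hB.pos y h0
      rcases mul_eq_zero.1 h with h3 | h3
      · exact absurd h3 h2.ne'
      · exact h3
  have key4 : ∀ x y, B e x = 0 → B e y = 0 → R x y x e = 0 := by
    intro x y hx hy
    by_cases h0 : x = 0
    · rw [h0]
      exact Sur.lin_zero (hR.lin y 0 e)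
    · have h2 := (hB.pos x h0).ne'
      set c : ℝ := B x y / B x x with hc
      have e1 : y = (y + (-c) • x) + c • x := by
        rw [neg_smul]
        abel
      have e2 : B e (y + (-c) • x) = 0 := by
        rw [hB.symm e, (hB.lin e).add, (hB.lin e).smul, hB.symm y, hB.symm x, hx, hy]
        ring
      have e3 : B x (y + (-c) • x) = 0 := by
        rw [hB.symm x, (hB.lin x).add, (hB.lin x).smul, hB.symm y, hc]
        field_simp
        ring
      rw [e1, (lin2 x x e).add, (lin2 x x e).smul, key3 x _ hx e2 e3, self]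
      ring
  have key5 : ∀ x y z, B e x = 0 → B e y = 0 → B e z = 0 → R x y z e + R z y x e = 0 := by
    intro x y z hx hy hz
    have hxz : B e (x + z) = 0 := by
      rw [hB.symm e, (hB.lin e).add, hB.symm x, hB.symm z, hx, hz, add_zero]
    have h := key4 (x + z) y hxz hy
    rw [(hR.lin y (x + z) e).add, (Sur.lin3 hR x y e).add, (Sur.lin3 hR z y e).add,
      key4 x y hx hy, key4 z y hz hy] at h
    linarith
  have key6 : ∀ x y z, B e x = 0 → B e y = 0 → B e z = 0 → R x y z e = 0 := by
    intro x y z hx hy hz
    have h2 := key5 x y z hx hy hz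
    have h3 := hR.a12 y z x e
    have h4 := key5 y z x hy hz hx
    have h5 := hR.a12 z x y e
    have h6 := hR.bi x y z e
    linarith
  intro x y hx hy a
  have e1 : a = (a + (-(B e a)) • e) + B e a • e := by
    rw [neg_smul]
    abel
  have e2 : B e (a + (-(B e a)) • e) = 0 := by
    rw [hB.symm e (a + _), (hB.lin e).add, (hB.lin e).smul, hB.symm a e, he]
    ring
  have e3 : R x y e e = 0 := by
    have := hR.a34 x y e e
    linarith
  rw [hR.a34 x y a e]
  have e4 : R x y a e = 0 := by
    rw [e1, (Sur.lin3 hR x y e).add, (Sur.lin3 hR x y e).smul, e3, key6 x y _ hx hy e2]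
    ring
  rw [e4, neg_zero]

end

end Pool.Agent.Lib.MP_9d59e9_gt.KS
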