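import Pool.Agent.Lib.MP_9d59e9_gt.KS.Spec

/-!
# MP_9d59e9_gt, project KS, module EnE: THEOREM SYM, even order
-/

set_option autoImplicit false

namespace Pool.Agent.Lib.MP_9d59e9_gt.KS

open KO KO3

/-- **EnE**: even order, conclusion. -/
theorem tEnE (h1 : S_Bt) (h2 : S_Br3) (h3 : S_PE) (h4 : S_He) (h5 : S_Th) : S_EnE := by
  intro n g Ω r hn hr he hg t ht hks hsym p hp hns a c b m q
  have hK : KSr g {x | x ∈ Ω ∧ NonSing g x} r (tT t) := h1 n g Ω r hg t ht hks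
  have hSy : Sy {x | x ∈ Ω ∧ NonSing g x} r (tT t) :=
    h2 n {x | x ∈ Ω ∧ NonSing g x} r t (fun x hx => hsym x hx.1)
  have hP : PtJ g {x | x ∈ Ω ∧ NonSing g x} (tT t 1) (InvE g) :=
    h3 n g _ r (tT t) (by omega) hr he hK hSy
  have h0 : ∀ x ∈ {x | x ∈ Ω ∧ NonSing g x}, ∀ z a b c d, e5 (N g) x z a b c d = 0 :=
    h5 n g _ r (tT t) (InvE g) hn (by omega) hK hP
      fun U _ θ α β hR hJ => h4 n g U θ α β (by omega) hR hJ
  by_contra hne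
  obtain ⟨a', u, v, w, z, h⟩ := ((KO.sBrg n g Ω hg).2 p hp).1 ⟨a, c, b, m, q, hne⟩
  exact h (h0 p ⟨hp, hns⟩ a' u v w z)

end Pool.Agent.Lib.MP_9d59e9_gt.KS
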