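import Pool.Agent.Lib.MP_9d59e9_gt.KS.Spec

/-!
# MP_9d59e9_gt, project KS, module Fi (helper47): the final contradiction (calculus with weights)
-/

set_option autoImplicit false

namespace Pool.Agent.Lib.MP_9d59e9_gt.KS

open scoped BigOperators ContDiff
open KO KO3

noncomputable section

section

variable {n : ℕ} {U : Set (Pt n)} {W : Pt n → Pt n} {c : Pt n → ℝ}

private theorem Fi_congr1 (hU : IsOpen U) (k : ℝ) {φ ψ : Pt n → ℝ} (h : ∀ x ∈ U, φ x = ψ x) :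
    ∀ x ∈ U, dE W c k φ x = dE W c k ψ x := by
  intro x hx
  have h1 : φ =ᶠ[nhds x] ψ := Filter.eventuallyEq_of_mem (hU.mem_nhds hx) h
  unfold dE dV
  rw [h1.fderiv_eq, h x hx]

private theorem Fi_congr (hU : IsOpen U) (k : ℝ) {φ ψ : Pt n → ℝ} (h : ∀ x ∈ U, φ x = ψ x)
    (j : ℕ) : ∀ x ∈ U, ((dE W c k)^[j] φ) x = ((dE W c k)^[j] ψ) x := by
  induction j with
  | zero => exact h
  | succ j ih =>
    rw [Function.iterate_succ', Function.comp_apply, Function.comp_apply]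
    exact Fi_congr1 hU k ih

private theorem Fi_zero (k : ℝ) (j : ℕ) :
    (dE W c k)^[j] (fun _ : Pt n => (0 : ℝ)) = fun _ => 0 := by
  induction j with
  | zero => rfl
  | succ j ih =>
    rw [Function.iterate_succ', Function.comp_apply, ih]
    funext x
    unfold dE dV
    rw [fderiv_const_apply]
    simp

private theorem Fi_mono (hU : IsOpen U) (k : ℝ) {φ : Pt n → ℝ} {i j : ℕ} (hij : i ≤ j)
    (h : ∀ x ∈ U, ((dE W c k)^[i] φ) x = 0) : ∀ x ∈ U, ((dE W c k)^[j] φ) x = 0 := by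
  intro x hx
  obtain ⟨m, rfl⟩ := Nat.exists_eq_add_of_le' hij
  rw [Function.iterate_add_apply, Fi_congr hU k (ψ := fun _ => 0) h m x hx, Fi_zero]

private theorem Fi_smW (hW : ∀ a, ContDiffOn ℝ ∞ (fun x => W x a) U) : ContDiffOn ℝ ∞ W U :=
  contDiffOn_pi.2 hW

private theorem Fi_sm1 (hU : IsOpen U) (hW : ∀ a, ContDiffOn ℝ ∞ (fun x => W x a) U)
    (hc : ContDiffOn ℝ ∞ c U) (k : ℝ) {φ : Pt n → ℝ} (h : ContDiffOn ℝ ∞ φ U) :
    ContDiffOn ℝ ∞ (dE W c k φ) U := by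
  have h1 : ContDiffOn ℝ ∞ (fderiv ℝ φ) U := h.fderiv_of_isOpen hU (by simp)
  have h2 : ContDiffOn ℝ ∞ (fun x => fderiv ℝ φ x (W x)) U := h1.clm_apply (Fi_smW hW)
  exact h2.sub (contDiffOn_const.mul (hc.mul h))

private theorem Fi_sm (hU : IsOpen U) (hW : ∀ a, ContDiffOn ℝ ∞ (fun x => W x a) U)
    (hc : ContDiffOn ℝ ∞ c U) (k : ℝ) {φ : Pt n → ℝ} (h : ContDiffOn ℝ ∞ φ U) (j : ℕ) :
    ContDiffOn ℝ ∞ ((dE W c k)^[j] φ) U := by
  induction j with
  | zero => exact h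
  | succ j ih =>
    rw [Function.iterate_succ', Function.comp_apply]
    exact Fi_sm1 hU hW hc k ih

private theorem Fi_diff (hU : IsOpen U) {φ : Pt n → ℝ} (h : ContDiffOn ℝ ∞ φ U) {x : Pt n}
    (hx : x ∈ U) : DifferentiableAt ℝ φ x :=
  (h.differentiableOn (by simp)).differentiableAt (hU.mem_nhds hx)

private theorem Fi_mul (hU : IsOpen U) (k l : ℝ) {φ ψ : Pt n → ℝ} (h : ContDiffOn ℝ ∞ φ U)
    (h' : ContDiffOn ℝ ∞ ψ U) : ∀ x ∈ U, dE W c (k + l) (fun y => φ y * ψ y) x =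
      dE W c k φ x * ψ x + φ x * dE W c l ψ x := by
  intro x hx
  unfold dE dV
  rw [fderiv_fun_mul (Fi_diff hU h hx) (Fi_diff hU h' hx)]
  simp only [add_apply, smul_apply, smul_eq_mul]
  ring

private theorem Fi_lin1 (hU : IsOpen U) (k s t : ℝ) {φ ψ : Pt n → ℝ} (h : ContDiffOn ℝ ∞ φ U)
    (h' : ContDiffOn ℝ ∞ ψ U) : ∀ x ∈ U, dE W c k (fun y => s * φ y + t * ψ y) x =
      s * dE W c k φ x + t * dE W c k ψ x := by
  intro x hx
  unfold dE dV
  rw [fderiv_fun_add ((Fi_diff hU h hx).const_mul s) ((Fi_diff hU h' hx).const_mul t),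
    fderiv_const_mul (Fi_diff hU h hx), fderiv_const_mul (Fi_diff hU h' hx)]
  simp only [add_apply, smul_apply, smul_eq_mul]
  ring

private theorem Fi_lin (hU : IsOpen U) (hW : ∀ a, ContDiffOn ℝ ∞ (fun x => W x a) U)
    (hc : ContDiffOn ℝ ∞ c U) (k s t : ℝ) {φ ψ : Pt n → ℝ} (h : ContDiffOn ℝ ∞ φ U)
    (h' : ContDiffOn ℝ ∞ ψ U) (j : ℕ) : ∀ x ∈ U,
      ((dE W c k)^[j] fun y => s * φ y + t * ψ y) x =
      s * ((dE W c k)^[j] φ) x + t * ((dE W c k)^[j] ψ) x := by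
  induction j with
  | zero => intro x _; rfl
  | succ j ih =>
    intro x hx
    rw [Function.iterate_succ', Function.comp_apply, Function.comp_apply, Function.comp_apply,
      Fi_congr1 hU k ih x hx]
    exact Fi_lin1 hU k s t (Fi_sm hU hW hc k h j) (Fi_sm hU hW hc k h' j) x hx

private theorem Fi_van (hU : IsOpen U) (hW : ∀ a, ContDiffOn ℝ ∞ (fun x => W x a) U)
    (hc : ContDiffOn ℝ ∞ c U) (k s t : ℝ) {φ ψ : Pt n → ℝ} (h : ContDiffOn ℝ ∞ φ U)
    (h' : ContDiffOn ℝ ∞ ψ U) (j : ℕ) (h0 : ∀ x ∈ U, ((dE W c k)^[j] φ) x = 0)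
    (h0' : ∀ x ∈ U, ((dE W c k)^[j] ψ) x = 0) : ∀ x ∈ U,
      ((dE W c k)^[j] fun y => s * φ y + t * ψ y) x = 0 := by
  intro x hx
  rw [Fi_lin hU hW hc k s t h h' j x hx, h0 x hx, h0' x hx]
  ring

/-- `E_(k+l)^j (φ T) = (E_k^j φ) T` if `E_l T = 0`. -/
private theorem Fi_pull (hU : IsOpen U) (hW : ∀ a, ContDiffOn ℝ ∞ (fun x => W x a) U)
    (hc : ContDiffOn ℝ ∞ c U) (k l : ℝ) {φ T : Pt n → ℝ} (h : ContDiffOn ℝ ∞ φ U)
    (hT : ContDiffOn ℝ ∞ T U) (hT0 : ∀ x ∈ U, dE W c l T x = 0) (j : ℕ) : ∀ x ∈ U,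
      ((dE W c (k + l))^[j] fun y => φ y * T y) x = ((dE W c k)^[j] φ) x * T x := by
  induction j with
  | zero => intro x _; rfl
  | succ j ih =>
    intro x hx
    rw [Function.iterate_succ', Function.comp_apply, Fi_congr1 hU (k + l) ih x hx,
      Fi_mul hU k l (Fi_sm hU hW hc k h j) hT x hx, hT0 x hx, mul_zero, add_zero,
      Function.iterate_succ', Function.comp_apply]

private theorem Fi_one : dE W c (-1) (fun _ : Pt n => (1 : ℝ)) = c := by
  funext x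
  unfold dE dV
  rw [fderiv_const_apply]
  simp

/-- One step of the chain of the product rules. -/
private theorem Fi_step (hLe : S_Le) (hU : IsOpen U)
    (hW : ∀ a, ContDiffOn ℝ ∞ (fun x => W x a) U)
    (hc : ContDiffOn ℝ ∞ c U) (d : ℕ)
    (hd : ∀ x ∈ U, ((dE W c (-1))^[d + 1] fun _ => (1 : ℝ)) x = 0) (x₁ : Pt n) (hx₁ : x₁ ∈ U)
    (hx₁' : ((dE W c (-1))^[d] fun _ => (1 : ℝ)) x₁ ≠ 0) {φ : Pt n → ℝ}
    (hφ : ContDiffOn ℝ ∞ φ U) (k : ℝ) (a : ℕ)
    (h : (∀ x ∈ U, ((dE W c k)^[a + 1] φ) x = 0) ∧ ((dE W c k)^[a] φ) x₁ ≠ 0) :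
    (∀ x ∈ U, ((dE W c (k + -1))^[a + d + 1] φ) x = 0) ∧
      ((dE W c (k + -1))^[a + d] φ) x₁ ≠ 0 := by
  obtain ⟨h1, h2⟩ := hLe n U W c hU hW hc k (-1) a d φ (fun _ => 1) hφ contDiffOn_const h.1 hd
  have e : (fun y => φ y * (fun _ : Pt n => (1 : ℝ)) y) = φ := by
    funext y
    exact mul_one _
  rw [e] at h1 h2
  refine ⟨h2, ?_⟩
  rw [h1 x₁ hx₁]
  refine mul_ne_zero ?_ (mul_ne_zero h.2 hx₁')
  have : 0 < (a + d).choose a := Nat.choose_pos (by omega)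
  exact_mod_cast this.ne'

end

theorem tFi (h1 : S_Le) : S_Fi := by
  intro n U W c α β r hU hne hW hc hα hβ hβ0 hc0 hdα hdc hr hA
  classical
  -- (1)
  have hb : ∀ x ∈ U, ((dE W c 2)^[r - 2] β) x = 0 := by
    intro x hx
    have h := hA 0 (r - 2) (by omega) x hx
    unfold Apq at h
    rw [Function.iterate_zero, id_eq] at h
    rcases mul_eq_zero.1 h with h | h
    · exact absurd h (hc0 x hx)
    rcases mul_eq_zero.1 h with h | h
    · exact absurd h (hc0 x hx)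
    · exact h
  obtain ⟨x₀, hx₀⟩ := hne
  have hr3 : 3 ≤ r := by
    by_contra hcon
    have h2 : r - 2 = 0 := by omega
    have h := hb x₀ hx₀
    rw [h2] at h
    exact hβ0 x₀ hx₀ h
  have hex : ∃ e : ℕ, ∀ x ∈ U, ((dE W c 2)^[e + 1] β) x = 0 := by
    refine ⟨r - 3, ?_⟩
    have : r - 3 + 1 = r - 2 := by omega
    rw [this]
    exact hb
  set e := Nat.find hex with he
  have hemin : ∀ m < e, ¬ ∀ x ∈ U, ((dE W c 2)^[m + 1] β) x = 0 := fun m hm => Nat.find_min hex hm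
  have he0 : ∀ x ∈ U, ((dE W c 2)^[e + 1] β) x = 0 := Nat.find_spec hex
  have her : e ≤ r - 3 := by
    apply Nat.find_min' hex
    have : r - 3 + 1 = r - 2 := by omega
    rw [this]
    exact hb
  set T := (dE W c 2)^[e] β with hT
  have hTsm : ContDiffOn ℝ ∞ T U := Fi_sm hU hW hc 2 hβ e
  have hT0 : ∀ x ∈ U, dE W c 2 T x = 0 := by
    intro x hx
    have h := he0 x hx
    rwa [Function.iterate_succ', Function.comp_apply] at h
  have hTne : ∃ x ∈ U, T x ≠ 0 := by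
    rcases Nat.eq_zero_or_pos e with h | h
    · refine ⟨x₀, hx₀, ?_⟩
      rw [hT, h]
      exact hβ0 x₀ hx₀
    · have h2 := hemin (e - 1) (by omega)
      push Not at h2
      obtain ⟨x, hx, hx'⟩ := h2
      have : e - 1 + 1 = e := by omega
      rw [this] at hx'
      exact ⟨x, hx, hx'⟩
  -- the set `V`
  let V : Set (Pt n) := U ∩ T ⁻¹' {0}ᶜ
  have hV : IsOpen V := hTsm.continuousOn.isOpen_inter_preimage hU isOpen_compl_singleton
  have hVU : V ⊆ U := Set.inter_subset_left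
  have hWV : ∀ a, ContDiffOn ℝ ∞ (fun x => W x a) V := fun a => (hW a).mono hVU
  have hcV : ContDiffOn ℝ ∞ c V := hc.mono hVU
  have hαV : ContDiffOn ℝ ∞ α V := hα.mono hVU
  have hβV : ContDiffOn ℝ ∞ β V := hβ.mono hVU
  obtain ⟨x₂, hx₂, hx₂T⟩ := hTne
  have hx₂V : x₂ ∈ V := ⟨hx₂, hx₂T⟩
  -- (2)
  let one : Pt n → ℝ := fun _ => 1
  have hone : (dE W c (-1)) one = c := Fi_one
  have honesm : ContDiffOn ℝ ∞ one V := contDiffOn_const
  have hcp : ∀ x ∈ V, ((dE W c (-1))^[r - 2 - e] c) x = 0 := by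
    intro x hx
    have h := hA (r - 2 - e) e (by omega) x (hVU hx)
    unfold Apq at h
    rcases mul_eq_zero.1 h with h | h
    · exact absurd h (hc0 x (hVU hx))
    have h2 := Fi_pull hU hW hc (-1) 2 hc hTsm hT0 (r - 2 - e) x (hVU hx)
    have h3 : (-1 + 2 : ℝ) = 1 := by norm_num
    rw [h3] at h2
    rw [← hT] at h
    rw [h] at h2
    rcases mul_eq_zero.1 h2.symm with h4 | h4
    · exact h4
    · exact absurd h4 hx.2
  have hex2 : ∃ d : ℕ, ∀ x ∈ V, ((dE W c (-1))^[d + 1] one) x = 0 := by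
    refine ⟨r - 2 - e, ?_⟩
    rw [Function.iterate_succ_apply, hone]
    exact hcp
  set d := Nat.find hex2 with hd
  have hdmin : ∀ m < d, ¬ ∀ x ∈ V, ((dE W c (-1))^[m + 1] one) x = 0 :=
    fun m hm => Nat.find_min hex2 hm
  have hd0 : ∀ x ∈ V, ((dE W c (-1))^[d + 1] one) x = 0 := Nat.find_spec hex2
  have hdpos : 0 < d := by
    rcases Nat.eq_zero_or_pos d with h | h
    · exfalso
      have h2 := hd0 x₂ hx₂V
      rw [h, Function.iterate_succ_apply, hone] at h2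
      exact hc0 x₂ hx₂ h2
    · exact h
  obtain ⟨x₁, hx₁, hx₁d⟩ : ∃ x ∈ V, ((dE W c (-1))^[d] one) x ≠ 0 := by
    have h2 := hdmin (d - 1) (by omega)
    push Not at h2
    obtain ⟨x, hx, hx'⟩ := h2
    have : d - 1 + 1 = d := by omega
    rw [this] at hx'
    exact ⟨x, hx, hx'⟩
  -- (3)
  have s0 : (∀ x ∈ V, ((dE W c 2)^[e + 1] β) x = 0) ∧ ((dE W c 2)^[e] β) x₁ ≠ 0 :=
    ⟨fun x hx => he0 x (hVU hx), hx₁.2⟩
  have s1 := Fi_step h1 hV hWV hcV d hd0 x₁ hx₁ hx₁d hβV 2 e s0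
  have s2 := Fi_step h1 hV hWV hcV d hd0 x₁ hx₁ hx₁d hβV _ _ s1
  have s3 := Fi_step h1 hV hWV hcV d hd0 x₁ hx₁ hx₁d hβV _ _ s2
  have s4 := (Fi_step h1 hV hWV hcV d hd0 x₁ hx₁ hx₁d hβV _ _ s3).2
  have hw : (2 + -1 + -1 + -1 + -1 : ℝ) = -2 := by norm_num
  rw [hw] at s4
  apply s4
  -- (4)
  have hEc : ∀ x ∈ V, dE W c (-1) c x = -α x - β x := by
    intro x hx
    unfold dE
    rw [hdc x (hVU hx)]
    ring
  have hcc : ContDiffOn ℝ ∞ (fun y => c y * c y) V := hcV.mul hcV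
  have hcd : ∀ x ∈ V, ((dE W c (-1))^[d] c) x = 0 := by
    intro x hx
    have h := hd0 x hx
    rwa [Function.iterate_succ_apply, hone] at h
  have hm11 : (-1 + -1 : ℝ) = -2 := by norm_num
  -- the three parts
  have p1 : ∀ x ∈ V, ((dE W c (-2))^[2 * d - 1] fun y => c y * c y) x = 0 := by
    have hcd' : ∀ x ∈ V, ((dE W c (-1))^[d - 1 + 1] c) x = 0 := by
      have : d - 1 + 1 = d := by omega
      rw [this]
      exact hcd
    have h := (h1 n V W c hV hWV hcV (-1) (-1) (d - 1) (d - 1) c c hcV hcV hcd' hcd').2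
    have e2 : d - 1 + (d - 1) + 1 = 2 * d - 1 := by omega
    rw [hm11, e2] at h
    exact h
  let ψ : Pt n → ℝ := dE W c (-1) c
  have hψsm : ContDiffOn ℝ ∞ ψ V := Fi_sm1 hV hWV hcV (-1) hcV
  have p2 : ∀ x ∈ V, ((dE W c (-2))^[2 * d - 1] ψ) x = 0 := by
    rcases Nat.lt_or_ge d 2 with h | h
    · have hd1 : d = 1 := by omega
      have h3 : ∀ x ∈ V, ψ x = 0 := by
        intro x hx
        have h4 := hcd x hx
        rw [hd1] at h4
        exact h4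
      intro x hx
      rw [Fi_congr hV (-2) (ψ := fun _ => 0) h3 (2 * d - 1) x hx, Fi_zero]
    · have h3 : ∀ x ∈ V, ((dE W c (-1))^[d - 2 + 1] ψ) x = 0 := by
        intro x hx
        have h4 := hcd x hx
        have h5 : d = d - 2 + 1 + 1 := by omega
        rw [h5, Function.iterate_succ_apply] at h4
        exact h4
      have h4 := (h1 n V W c hV hWV hcV (-1) (-1) (d - 2) d ψ one hψsm honesm h3 hd0).2
      have e2 : d - 2 + d + 1 = 2 * d - 1 := by omega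
      have e3 : (fun y => ψ y * one y) = ψ := by
        funext y
        exact mul_one _
      rw [hm11, e2, e3] at h4
      exact h4
  have hac : ContDiffOn ℝ ∞ (fun y => 1 * α y + 1 * (c y * c y)) V :=
    (contDiffOn_const.mul hαV).add (contDiffOn_const.mul hcc)
  have p3 : ∀ x ∈ V, ((dE W c (-2))^[1] fun y => 1 * α y + 1 * (c y * c y)) x = 0 := by
    intro x hx
    rw [Function.iterate_one, Fi_lin1 hV (-2) 1 1 hαV hcc x hx]
    have h3 := Fi_mul (W := W) (c := c) hV (-1) (-1) hcV hcV x hx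
    rw [hm11] at h3
    rw [h3, hEc x hx]
    unfold dE
    rw [hdα x (hVU hx)]
    ring
  -- assembly
  have hN1 : 2 * d - 1 ≤ e + d + d + d + d := by omega
  have hN2 : 1 ≤ e + d + d + d + d := by omega
  have q1 := Fi_mono hV (-2) hN1 p1
  have q2 := Fi_mono hV (-2) hN1 p2
  have q3 := Fi_mono hV (-2) hN2 p3
  have q4 := Fi_van hV hWV hcV (-2) (-1) (-1) hψsm hac _ q2 q3
  have hsm4 : ContDiffOn ℝ ∞ (fun y => -1 * ψ y + -1 * (1 * α y + 1 * (c y * c y))) V :=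
    (contDiffOn_const.mul hψsm).add (contDiffOn_const.mul hac)
  have q5 := Fi_van hV hWV hcV (-2) 1 1 hsm4 hcc _ q4 q1
  have hfin : ∀ x ∈ V, β x =
      1 * (-1 * ψ x + -1 * (1 * α x + 1 * (c x * c x))) + 1 * (c x * c x) := by
    intro x hx
    change β x = 1 * (-1 * dE W c (-1) c x + -1 * (1 * α x + 1 * (c x * c x))) + 1 * (c x * c x)
    rw [hEc x hx]
    ring
  rw [Fi_congr hV (-2) hfin _ x₁ hx₁]
  exact q5 x₁ hx₁

end

end Pool.Agent.Lib.MP_9d59e9_gt.KS
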