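import Pool.Agent.Lib.MP_9d59e9_gt.KS.Spec

/-!
# MP_9d59e9_gt, project KS: module He (the integral curves are geodesics, even order)
-/

set_option autoImplicit false

namespace Pool.Agent.Lib.MP_9d59e9_gt.KS

open scoped BigOperators ContDiff
open Set KO KO3

noncomputable section

/-- linear forms which vanish on suitable pairs of vectors -/
private theorem He_two {V : Type} [AddCommGroup V] [Module ℝ V] {B : V → V → ℝ} {m : ℕ}
    (hPrp : KO3.S_Prp) (hE : Eu B m) (hm : 2 ≤ m) {e : V} {l : V → ℝ}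
    (hl : Lin1 l) (h1 : ∀ a b, a ≠ 0 → b ≠ 0 → B e a = 0 → B e b = 0 → B a b = 0 → l a * l b = 0) :
    ∀ a, B e a = 0 → l a = 0 := by
  have hB := hE.ip
  have addl : ∀ a b c, B (a + b) c = B a c + B b c := fun a b c => (hB.lin c).add a b
  have smull : ∀ (r : ℝ) a c, B (r • a) c = r * B a c := fun r a c => (hB.lin c).smul r a
  have addr : ∀ a b c, B c (a + b) = B c a + B c b := fun a b c => by
    rw [hB.symm, addl, hB.symm a c, hB.symm b c]
  have smulr : ∀ (r : ℝ) a c, B c (r • a) = r * B c a := fun r a c => by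
    rw [hB.symm, smull, hB.symm a c]
  have zero : ∀ c, B 0 c = 0 := fun c => by simpa using smull 0 0 c
  intro a ha
  by_cases ha0 : a = 0
  · subst ha0
    simpa using hl.smul 0 0
  have hs := hB.pos a ha0
  obtain ⟨b, hb1, hb2, hb3⟩ := hPrp V B m hE hm e a
  have hr : Real.sqrt (B a a) * Real.sqrt (B a a) = B a a := Real.mul_self_sqrt hs.le
  set r := Real.sqrt (B a a) with hrdef
  have hr0 : r ≠ 0 := by
    intro h
    rw [h] at hr
    linarith
  have hb0 : b ≠ 0 := by
    rintro rfl
    rw [zero] at hb1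
    exact zero_ne_one hb1
  have hrb : B (r • b) (r • b) = B a a := by
    rw [smull, smulr, hb1]
    linarith
  have e1' : B e (r • b) = 0 := by rw [smulr, hb2, mul_zero]
  have e2' : B a (r • b) = 0 := by rw [smulr, hb3, mul_zero]
  have e3' : B (r • b) a = 0 := by rw [hB.symm, e2']
  have hrb0 : r • b ≠ 0 := smul_ne_zero hr0 hb0
  have q1 := h1 a (r • b) ha0 hrb0 ha e1' e2'
  have e4' : B ((-1 : ℝ) • (r • b)) ((-1 : ℝ) • (r • b)) = B a a := by
    rw [smull, smulr, hrb]
    ring
  have p1 : B (a + r • b) (a + r • b) = 2 * B a a := by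
    rw [addl, addr, addr, e2', e3', hrb]
    ring
  have p2 : B (a + (-1 : ℝ) • (r • b)) (a + (-1 : ℝ) • (r • b)) = 2 * B a a := by
    rw [addl, addr, addr, e4', smulr, smull, e2', e3']
    ring
  have n1 : a + r • b ≠ 0 := by
    intro h
    rw [h, zero] at p1
    linarith
  have n2 : a + (-1 : ℝ) • (r • b) ≠ 0 := by
    intro h
    rw [h, zero] at p2
    linarith
  have q2 := h1 (a + r • b) (a + (-1 : ℝ) • (r • b)) n1 n2 (by rw [addr, ha, e1', add_zero])
    (by rw [addr, smulr, ha, e1']; ring)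
    (by rw [addl, addr, addr, smulr (-1) (r • b) a, smulr (-1) (r • b) (r • b), e2', e3', hrb]; ring)
  rw [hl.add, hl.add, hl.smul (-1)] at q2
  have q3 : (l a + l (r • b)) * (l a + -1 * l (r • b)) = l a * l a - l (r • b) * l (r • b) := by
    ring
  rw [q3] at q2
  rcases mul_eq_zero.mp q1 with h | h
  · exact h
  · rw [h] at q2
    have : l a * l a = 0 := by linarith
    exact mul_self_eq_zero.mp this

/-- linearity of the six slots -/
private theorem He_lin {n : ℕ} (T : TF n 6) (x : Pt n) :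
    (∀ b c d e f, Lin1 fun a => e6 T x a b c d e f) ∧
    (∀ a c d e f, Lin1 fun b => e6 T x a b c d e f) ∧
    (∀ a b d e f, Lin1 fun c => e6 T x a b c d e f) ∧
    (∀ a b c e f, Lin1 fun d => e6 T x a b c d e f) ∧
    (∀ a b c d f, Lin1 fun e => e6 T x a b c d e f) ∧
    (∀ a b c d e, Lin1 fun f => e6 T x a b c d e f) := by
  have h := (KO.sLin n x).1 6 T
  refine ⟨fun b c d e f => ?_, fun a c d e f => ?_, fun a b d e f => ?_, fun a b c e f => ?_,
    fun a b c d f => ?_, fun a b c d e => ?_⟩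
  · have h1 := h ![0, b, c, d, e, f] 0
    have e1 : ∀ u, Function.update ![0, b, c, d, e, f] 0 u = ![u, b, c, d, e, f] := by
      intro u; funext i; fin_cases i <;> rfl
    simp only [e1] at h1
    exact h1
  · have h1 := h ![a, 0, c, d, e, f] 1
    have e1 : ∀ u, Function.update ![a, 0, c, d, e, f] 1 u = ![a, u, c, d, e, f] := by
      intro u; funext i; fin_cases i <;> rfl
    simp only [e1] at h1
    exact h1
  · have h1 := h ![a, b, 0, d, e, f] 2
    have e1 : ∀ u, Function.update ![a, b, 0, d, e, f] 2 u = ![a, b, u, d, e, f] := by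
      intro u; funext i; fin_cases i <;> rfl
    simp only [e1] at h1
    exact h1
  · have h1 := h ![a, b, c, 0, e, f] 3
    have e1 : ∀ u, Function.update ![a, b, c, 0, e, f] 3 u = ![a, b, c, u, e, f] := by
      intro u; funext i; fin_cases i <;> rfl
    simp only [e1] at h1
    exact h1
  · have h1 := h ![a, b, c, d, 0, f] 4
    have e1 : ∀ u, Function.update ![a, b, c, d, 0, f] 4 u = ![a, b, c, d, u, f] := by
      intro u; funext i; fin_cases i <;> rfl
    simp only [e1] at h1
    exact h1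
  · have h1 := h ![a, b, c, d, e, 0] 5
    have e1 : ∀ u, Function.update ![a, b, c, d, e, 0] 5 u = ![a, b, c, d, e, u] := by
      intro u; funext i; fin_cases i <;> rfl
    simp only [e1] at h1
    exact h1

theorem tHe (h1 : S_Nn) (h2 : S_Mw) : S_He := by
  intro n g U θ α β hn hR hJ x hx v
  obtain ⟨m, rfl⟩ : ∃ m, n = m + 1 := ⟨n - 1, by omega⟩
  have hE := KO3.sFrm (m + 1) m g x rfl (hR.met.pos x hx)
  have hl : Lin1 (e2 (D g θ) x (du g θ x)) := (KO.sLin (m + 1) x).2.2.2.2.1 (D g θ) |>.1 _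
  have hone := hR.un.one x hx
  have hB := hE.ip
  obtain ⟨-, h3, -⟩ := h1 _ g U θ α β hR x hx
  have h3 := h3 (du g θ x)
  obtain ⟨l1, l2, l3, l4, l5, l6⟩ := He_lin (N2 g) x
  have zl : ∀ {f : Pt (m + 1) → ℝ}, Lin1 f → f 0 = 0 := fun {f} hf => by
    simpa using hf.smul 0 0
  have h2' := He_two (B := ip g x) (e := du g θ x) KO3.sPrp hE (by omega) hl (by
    intro a b ha hb hea heb hab
    have hta : e1 θ x a = 0 := by rw [hR.un.dual x hx, hea]
    have htb : e1 θ x b = 0 := by rw [hR.un.dual x hx, heb]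
    have hba : ip g x b a = 0 := by rw [hB.symm, hab]
    have m1 := h2 _ g U θ α β hR x hx a b hta htb hab ha
    have m2 := h2 _ g U θ α β hR x hx b a htb hta hba hb
    have hi := hJ x hx a b hea heb (du g θ x) (du g θ x) a (du g θ x) (du g θ x) a
    have w1 : wd (ip g x) a b (du g θ x) = 0 := by
      unfold wd
      rw [hB.symm b, heb, hB.symm a, hea, zero_smul, zero_smul, sub_zero]
    have w2 : wd (ip g x) a b a = (-(ip g x a a)) • b := by
      unfold wd
      rw [hba, zero_smul, zero_sub, neg_smul]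
    unfold act6 at hi
    rw [w1, w2] at hi
    have z1 := zl (l1 (du g θ x) a (du g θ x) (du g θ x) a)
    have z2 := zl (l2 (du g θ x) a (du g θ x) (du g θ x) a)
    have z4 := zl (l4 (du g θ x) (du g θ x) a (du g θ x) a)
    have z5 := zl (l5 (du g θ x) (du g θ x) a (du g θ x) a)
    have s3 := (l3 (du g θ x) (du g θ x) (du g θ x) (du g θ x) a).smul (-(ip g x a a)) b
    have s6 := (l6 (du g θ x) (du g θ x) a (du g θ x) (du g θ x)).smul (-(ip g x a a)) b
    rw [z1, z2, z4, z5, s3, s6, m1, m2] at hi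
    have hpos := hB.pos a ha
    have hβ := hR.nb x hx
    have h5 : ip g x a a * (β x * (e2 (D g θ) x (du g θ x) a * e2 (D g θ) x (du g θ x) b)) = 0 := by
      linarith
    rcases mul_eq_zero.mp h5 with h | h
    · exact absurd h hpos.ne'
    · exact (mul_eq_zero.mp h).resolve_left hβ)
  have hv : v = ip g x (du g θ x) v • du g θ x + (v + (-ip g x (du g θ x) v) • du g θ x) := by
    rw [add_comm v, ← add_assoc, ← add_smul]
    simp
  have hv' : ip g x (du g θ x) (v + (-ip g x (du g θ x) v) • du g θ x) = 0 := by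
    rw [hB.symm, (hB.lin (du g θ x)).add, (hB.lin (du g θ x)).smul, hone, hB.symm v (du g θ x)]
    ring
  rw [hv, hl.add, hl.smul, h3, h2' _ hv']
  ring

end

end Pool.Agent.Lib.MP_9d59e9_gt.KS
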