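import Pool.Agent.Lib.MP_9d59e9_gt.KS.Spec

/-!
# MP_9d59e9_gt, project KS: the curvature operator is injective on sums of bivectors (`S_Ij`)

Author helper43, after the docstring of `S_Ij`.
-/

set_option autoImplicit false

namespace Pool.Agent.Lib.MP_9d59e9_gt.KS

open scoped BigOperators
open KO KO3

noncomputable section

private lemma Ij_sum {V : Type} [AddCommGroup V] [Module ℝ V] {f : V → ℝ} (hf : Lin1 f)
    {ι : Type} (s : Finset ι) (x : ι → V) : f (∑ i ∈ s, x i) = ∑ i ∈ s, f (x i) := by
  classical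
  induction s using Finset.induction_on with
  | empty => simpa using Sur.lin_zero hf
  | insert a s ha ih => rw [Finset.sum_insert ha, Finset.sum_insert ha, hf.add, ih]

private lemma Ij_exp {V : Type} [AddCommGroup V] [Module ℝ V] {B : V → V → ℝ} {n : ℕ}
    {f : Fin n → V} (hf : Fr B f) {F : V → ℝ} (hF : Lin1 F) (x : V) :
    F x = ∑ p, B x (f p) * F (f p) := by
  conv_lhs => rw [hf.ex x]
  exact Sur.lin_sum hF _ _

theorem tIj : S_Ij := by
  intro V _ _ B m R hE hR hN k u v huv a
  obtain ⟨e, he⟩ := hE.ex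
  obtain ⟨f, hf, -⟩ := hE.fr e he
  have hB := hE.ip
  have exp2 : ∀ x y a b, R x y a b =
      ∑ p, ∑ q, B x (f p) * (B y (f q) * R (f p) (f q) a b) := by
    intro x y a b
    rw [Ij_exp hf (hR.lin y a b) x]
    refine Finset.sum_congr rfl fun p _ => ?_
    rw [← Finset.mul_sum]
    congr 1
    rw [← neg_eq_iff_eq_neg.2 (hR.a12 (f p) y a b), Ij_exp hf (hR.lin (f p) a b) y,
      ← Finset.sum_neg_distrib]
    refine Finset.sum_congr rfl fun q _ => ?_
    rw [hR.a12 (f p) (f q) a b]
    ring
  have hw : ∀ p q, ∑ i, (B (u i) (f p) * B (v i) (f q) - B (v i) (f p) * B (u i) (f q)) = 0 := by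
    refine hN (m + 1) f
      (fun p q => ∑ i, (B (u i) (f p) * B (v i) (f q) - B (v i) (f p) * B (u i) (f q)))
      hf.on ?_ ?_
    · intro p q
      rw [← Finset.sum_neg_distrib]
      refine Finset.sum_congr rfl fun i _ => ?_
      ring
    · intro a b
      have e1 : ∑ p, ∑ q, (∑ i, (B (u i) (f p) * B (v i) (f q) - B (v i) (f p) * B (u i) (f q))) *
          R (f p) (f q) a b = ∑ i, (R (u i) (v i) a b - R (v i) (u i) a b) := by
        have e2 : ∀ i, R (u i) (v i) a b - R (v i) (u i) a b = ∑ p, ∑ q,
            (B (u i) (f p) * B (v i) (f q) - B (v i) (f p) * B (u i) (f q)) *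
              R (f p) (f q) a b := by
          intro i
          rw [exp2 (u i) (v i), exp2 (v i) (u i), ← Finset.sum_sub_distrib]
          refine Finset.sum_congr rfl fun p _ => ?_
          rw [← Finset.sum_sub_distrib]
          refine Finset.sum_congr rfl fun q _ => ?_
          ring
        symm
        rw [Finset.sum_congr rfl (fun i (_ : i ∈ Finset.univ) => e2 i), Finset.sum_comm]
        refine Finset.sum_congr rfl fun p _ => ?_
        rw [Finset.sum_comm]
        refine Finset.sum_congr rfl fun q _ => ?_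
        exact (Finset.sum_mul _ _ _).symm
      rw [e1]
      have e3 : ∀ i, R (u i) (v i) a b - R (v i) (u i) a b = 2 * R (u i) (v i) a b := by
        intro i
        rw [hR.a12 (u i) (v i) a b]
        ring
      simp only [e3]
      rw [← Finset.mul_sum, huv, mul_zero]
  have key : ∀ p, B (∑ i, wd B (u i) (v i) a) (f p) = 0 := by
    intro p
    have e1 : ∀ i, B (wd B (u i) (v i) a) (f p) =
        ∑ q, B a (f q) * (B (u i) (f p) * B (v i) (f q) - B (v i) (f p) * B (u i) (f q)) := by
      intro i
      have e2 : wd B (u i) (v i) a = B (v i) a • u i + (-(B (u i) a)) • v i := by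
        rw [wd, neg_smul, sub_eq_add_neg]
      have e3 : ∀ x, B x a = ∑ q, B a (f q) * B x (f q) := by
        intro x
        rw [hB.symm x a, Ij_exp hf (hB.lin x) a]
        refine Finset.sum_congr rfl fun q _ => ?_
        rw [hB.symm x (f q)]
      rw [e2, (hB.lin (f p)).add, (hB.lin (f p)).smul, (hB.lin (f p)).smul, e3 (v i), e3 (u i),
        Finset.sum_mul, neg_mul, Finset.sum_mul, ← sub_eq_add_neg, ← Finset.sum_sub_distrib]
      refine Finset.sum_congr rfl fun q _ => ?_
      ring
    rw [Ij_sum (hB.lin (f p))]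
    simp only [e1]
    rw [Finset.sum_comm]
    refine Finset.sum_eq_zero fun q _ => ?_
    rw [← Finset.mul_sum, hw p q, mul_zero]
  rw [hf.ex (∑ i, wd B (u i) (v i) a)]
  refine Finset.sum_eq_zero fun p _ => ?_
  rw [key p, zero_smul]

end

end Pool.Agent.Lib.MP_9d59e9_gt.KS
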