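import Pool.Agent.Lib.MP_9d59e9_gt.KS.Spec

/-!
# MP_9d59e9_gt, project KS, module Kc: conversion `Kl` / `act4`, `act5`, `act6`
-/

set_option autoImplicit false

namespace Pool.Agent.Lib.MP_9d59e9_gt.KS

open scoped BigOperators ContDiff
open Set KO KO3

theorem tKc (h1 : S_Sb) : S_Kc := by
  intro n g x Φ
  obtain ⟨-, ⟨h4, h5, h6, -⟩, -⟩ := h1 n g x
  refine ⟨⟨?_, ?_⟩, ⟨?_, ?_⟩, ⟨?_, ?_⟩⟩
  · intro h a b c d
    have h' := h [a, b, c, d] rfl
    simp only [List.map, dS, h4] at h'
    unfold act4
    linarith
  · intro h l hl
    match l, hl with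
    | [a, b, c, d], _ =>
      have h' := h a b c d
      unfold act4 at h'
      simp only [List.map, dS, h4]
      linarith
  · intro h z a b c d
    have h' := h [z, a, b, c, d] rfl
    simp only [List.map, dS, h5] at h'
    unfold act5
    linarith
  · intro h l hl
    match l, hl with
    | [z, a, b, c, d], _ =>
      have h' := h z a b c d
      unfold act5 at h'
      simp only [List.map, dS, h5]
      linarith
  · intro h y z a b c d
    have h' := h [y, z, a, b, c, d] rfl
    simp only [List.map, dS, h6] at h'
    unfold act6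
    linarith
  · intro h l hl
    match l, hl with
    | [y, z, a, b, c, d], _ =>
      have h' := h y z a b c d
      unfold act6 at h'
      simp only [List.map, dS, h6]
      linarith

end Pool.Agent.Lib.MP_9d59e9_gt.KS
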