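import Pool.Agent.Lib.MP_9d59e9_gt.KS.Spec

/-!
# MP_9d59e9_gt, project KS: module NfR

Normal form of a curvature tensor which is invariant under the rotations of `e^⊥`.
-/

set_option autoImplicit false

namespace Pool.Agent.Lib.MP_9d59e9_gt.KS

open scoped BigOperators
open KO KO3

noncomputable section

section
variable {V : Type} [AddCommGroup V] [Module ℝ V]

private theorem NfR_cmb {φ : V → ℝ} (h : Lin1 φ) (r s : ℝ) (a b : V) :
    φ (r • a - s • b) = r * φ a - s * φ b := by
  have e : r • a - s • b = r • a + (-s) • b := by rw [neg_smul, sub_eq_add_neg]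
  rw [e, h.add, h.smul, h.smul]
  ring

private theorem NfR_zero {φ : V → ℝ} (h : Lin1 φ) : φ 0 = 0 := by
  have := h.smul 0 0
  rwa [zero_smul, zero_mul] at this

private theorem NfR_sum {φ : V → ℝ} (h : Lin1 φ) {ι : Type} (s : Finset ι) (c : ι → ℝ)
    (f : ι → V) : φ (∑ i ∈ s, c i • f i) = ∑ i ∈ s, c i * φ (f i) := by
  classical
  induction s using Finset.induction_on with
  | empty => simp [NfR_zero h]
  | insert a s ha ih => rw [Finset.sum_insert ha, Finset.sum_insert ha, h.add, h.smul, ih]

private theorem NfR_ext {B : V → V → ℝ} {n : ℕ} {f : Fin n → V} (hf : Fr B f) {φ : V → ℝ}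
    (h : Lin1 φ) (h0 : ∀ i, φ (f i) = 0) (v : V) : φ v = 0 := by
  rw [hf.ex v, NfR_sum h]
  exact Finset.sum_eq_zero fun i _ => by rw [h0 i, mul_zero]

private theorem NfR_lc {φ ψ : V → ℝ} (h : Lin1 φ) (e : ∀ v, ψ v = φ v) : Lin1 ψ := by
  have : ψ = φ := funext e
  rw [this]
  exact h

/-- linear in the first slot, antisymmetric in both pairs, symmetric under exchange -/
private structure NfR_C (T : V → V → V → V → ℝ) : Prop where
  lin : ∀ b c d, Lin1 fun a => T a b c d
  a12 : ∀ a b c d, T b a c d = -T a b c d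
  a34 : ∀ a b c d, T a b d c = -T a b c d
  sw : ∀ a b c d, T c d a b = T a b c d

private theorem NfR_l2 {T : V → V → V → V → ℝ} (h : NfR_C T) (a c d : V) :
    Lin1 fun b => T a b c d := by
  constructor
  · intro x y
    change T a (x + y) c d = T a x c d + T a y c d
    have := (h.lin a c d).add x y
    rw [h.a12 (x + y) a, h.a12 x a, h.a12 y a, this]
    ring
  · intro r x
    change T a (r • x) c d = r * T a x c d
    have := (h.lin a c d).smul r x
    rw [h.a12 (r • x) a, h.a12 x a, this]
    ring

private theorem NfR_l3 {T : V → V → V → V → ℝ} (h : NfR_C T) (a b d : V) :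
    Lin1 fun c => T a b c d :=
  NfR_lc (h.lin d a b) fun v => (h.sw a b v d).symm

private theorem NfR_l4 {T : V → V → V → V → ℝ} (h : NfR_C T) (a b c : V) :
    Lin1 fun d => T a b c d :=
  NfR_lc (NfR_l2 h c a b) fun v => (h.sw a b c v).symm

private theorem NfR_sub {T S : V → V → V → V → ℝ} (h : NfR_C T) (k : NfR_C S) :
    NfR_C fun a b c d => T a b c d - S a b c d where
  lin b c d := by
    constructor
    · intro x y
      change T (x + y) b c d - S (x + y) b c d = T x b c d - S x b c d + (T y b c d - S y b c d)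
      rw [(h.lin b c d).add, (k.lin b c d).add]
      ring
    · intro r x
      change T (r • x) b c d - S (r • x) b c d = r * (T x b c d - S x b c d)
      rw [(h.lin b c d).smul, (k.lin b c d).smul]
      ring
  a12 a b c d := by
    change T b a c d - S b a c d = -(T a b c d - S a b c d)
    rw [h.a12, k.a12]
    ring
  a34 a b c d := by
    change T a b d c - S a b d c = -(T a b c d - S a b c d)
    rw [h.a34, k.a34]
    ring
  sw a b c d := by
    change T c d a b - S c d a b = T a b c d - S a b c d
    rw [h.sw, k.sw]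

private theorem NfR_cr {T : V → V → V → V → ℝ} (h : Crvt T) : NfR_C T :=
  ⟨h.lin, h.a12, h.a34, h.sw⟩

/-- a tensor with these symmetries vanishes on a frame if it vanishes on the three types -/
private theorem NfR_16 {T : V → V → V → V → ℝ} (h : NfR_C T) {m : ℕ} (f : Fin (m + 1) → V)
    (H1 : ∀ i j k l : Fin m, T (f i.succ) (f j.succ) (f k.succ) (f l.succ) = 0)
    (H2 : ∀ j k l : Fin m, T (f 0) (f j.succ) (f k.succ) (f l.succ) = 0)
    (H3 : ∀ j l : Fin m, T (f 0) (f j.succ) (f 0) (f l.succ) = 0) (i j k l : Fin (m + 1)) :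
    T (f i) (f j) (f k) (f l) = 0 := by
  have d1 : ∀ a c d, T a a c d = 0 := fun a c d => by
    have := h.a12 a a c d
    linarith
  have d3 : ∀ a b c, T a b c c = 0 := fun a b c => by
    have := h.a34 a b c c
    linarith
  have K2 : ∀ (j : Fin m) (k l : Fin (m + 1)), T (f 0) (f j.succ) (f k) (f l) = 0 := by
    intro j k l
    refine Fin.cases ?_ (fun k => ?_) k
    · refine Fin.cases ?_ (fun l => ?_) l
      · exact d3 _ _ _
      · exact H3 j l
    · refine Fin.cases ?_ (fun l => ?_) l
      · rw [h.a34, H3 j k, neg_zero]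
      · exact H2 j k l
  have K1 : ∀ (i j : Fin m) (k l : Fin (m + 1)), T (f i.succ) (f j.succ) (f k) (f l) = 0 := by
    intro i j k l
    refine Fin.cases ?_ (fun k => ?_) k
    · refine Fin.cases ?_ (fun l => ?_) l
      · exact d3 _ _ _
      · rw [← h.sw]
        exact H2 l i j
    · refine Fin.cases ?_ (fun l => ?_) l
      · rw [h.a34, ← h.sw, H2 k i j, neg_zero]
      · exact H1 i j k l
  refine Fin.cases ?_ (fun i => ?_) i
  · refine Fin.cases ?_ (fun j => ?_) j
    · exact d1 _ _ _
    · exact K2 j k l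
  · refine Fin.cases ?_ (fun j => ?_) j
    · rw [h.a12, K2 i k l, neg_zero]
    · exact K1 i j k l

end

theorem tNfR : S_NfR := by
  intro V _ _ B m R hE hm hR e he h1 hact
  obtain ⟨f, hf, hf0⟩ := hE.fr e he
  have hB := hE.ip
  have hRC : NfR_C R := NfR_cr hR
  have hBe : Lin1 (B e) := NfR_lc (hB.lin e) fun v => hB.symm e v
  have hd0 : ∀ i : Fin m, B e (f i.succ) = 0 := by
    intro i
    rw [← hf0, hf.on]
    exact if_neg (Fin.succ_ne_zero i).symm
  have hdd : ∀ i j : Fin m, B (f i.succ) (f j.succ) = if i = j then 1 else 0 := by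
    intro i j
    rw [hf.on]
    by_cases h : i = j
    · rw [h, if_pos rfl, if_pos rfl]
    · rw [if_neg h, if_neg fun h' => h (Fin.succ_injective m h')]
  have hde : ∀ i : Fin m, B (f i.succ) e = 0 := fun i => by rw [hB.symm, hd0 i]
  have hwde : ∀ i j : Fin m, wd B (f i.succ) (f j.succ) e = 0 := by
    intro i j
    simp only [wd]
    rw [hde i, hde j, zero_smul, zero_smul, sub_zero]
  have z1 : ∀ b c d, R 0 b c d = 0 := fun b c d => NfR_zero (hR.lin b c d)
  have z3 : ∀ a b d, R a b 0 d = 0 := fun a b d => NfR_zero (NfR_l3 hRC a b d)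
  have hda : ∀ i j : Fin m, ∀ a b c d, act4 (wd B (f i.succ) (f j.succ)) R a b c d = 0 :=
    fun i j => hact _ _ (hd0 i) (hd0 j)
  -- the part on the complement
  obtain ⟨κ, hκ⟩ := sCIn.1 V B R hB hR m (fun i => f i.succ) hm hdd
    (fun i j k l p q => hda i j _ _ _ _)
  -- linear forms applied to the rotations of frame vectors
  have ite' : ∀ (k l : Fin m) (x : ℝ),
      (if l = k then x else 0) = (if k = l then 1 else 0) * x := by
    intro k l x
    by_cases hkl : k = l
    · rw [if_pos hkl.symm, if_pos hkl, one_mul]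
    · rw [if_neg fun h => hkl h.symm, if_neg hkl, zero_mul]
  have rot : ∀ (φ : V → ℝ), Lin1 φ → ∀ i j a : Fin m,
      φ (wd B (f i.succ) (f j.succ) (f a.succ))
        = (if a = j then φ (f i.succ) else 0) + if a = i then -φ (f j.succ) else 0 := by
    intro φ hφ i j a
    simp only [wd]
    rw [NfR_cmb hφ, hdd, hdd, ite' j a, ite' i a]
    ring
  -- the part with two `e`
  obtain ⟨h, hh⟩ := sCi23.1 m (fun a b => R e (f a.succ) e (f b.succ)) hm
    (fun a b => hR.sw e (f b.succ) e (f a.succ)) (by
      intro i j _ a b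
      have h := hda i j e (f a.succ) e (f b.succ)
      simp only [act4, hwde, z1, z3] at h
      have r1 := rot _ (NfR_l2 hRC e e (f b.succ)) i j a
      have r2 := rot _ (NfR_l4 hRC e (f a.succ) e) i j b
      rw [r1, r2] at h
      simp only [rt2]
      linarith)
  -- the difference
  have hS : SyB fun p q => κ / 2 * B p q + (-h - κ) * (B e p * B e q) := by
    constructor
    · intro b
      constructor
      · intro x y
        change κ / 2 * B (x + y) b + (-h - κ) * (B e (x + y) * B e b) = _
        rw [(hB.lin b).add, hBe.add]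
        ring
      · intro r x
        change κ / 2 * B (r • x) b + (-h - κ) * (B e (r • x) * B e b) = _
        rw [(hB.lin b).smul, hBe.smul]
        ring
    · intro a b
      rw [hB.symm a b]
      ring
  have hT := NfR_sub hRC (NfR_cr ((sKNa V B hB).1 _ hS))
  have Tz : ∀ i j k l : Fin (m + 1), R (f i) (f j) (f k) (f l)
      - KN B (fun p q => κ / 2 * B p q + (-h - κ) * (B e p * B e q)) (f i) (f j) (f k) (f l)
        = 0 := by
    refine NfR_16 hT f ?_ ?_ ?_
    · intro i j k l
      have s := hκ i j k l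
      simp only [KN, hd0]
      rw [s]
      simp only [G0]
      ring
    · intro j k l
      have s1 := h1 (f k.succ) (f l.succ) (hd0 k) (hd0 l) (f j.succ)
      have s2 := hR.sw e (f j.succ) (f k.succ) (f l.succ)
      rw [hf0]
      simp only [KN, hd0, he]
      rw [← s2, s1]
      ring
    · intro j l
      have s := hh j l
      have t := hdd j l
      rw [hf0]
      simp only [KN, hd0, he, hde]
      rw [s, t]
      by_cases hjl : j = l
      · rw [if_pos hjl, if_pos hjl]
        ring
      · rw [if_neg hjl, if_neg hjl]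
        ring
  refine ⟨κ, -h - κ, ?_⟩
  have t4 : ∀ i j k d, R (f i) (f j) (f k) d
      - KN B (fun p q => κ / 2 * B p q + (-h - κ) * (B e p * B e q)) (f i) (f j) (f k) d = 0 :=
    fun i j k d => NfR_ext hf (NfR_l4 hT (f i) (f j) (f k)) (fun l => Tz i j k l) d
  have t3 : ∀ i j c d, R (f i) (f j) c d
      - KN B (fun p q => κ / 2 * B p q + (-h - κ) * (B e p * B e q)) (f i) (f j) c d = 0 :=
    fun i j c d => NfR_ext hf (NfR_l3 hT (f i) (f j) d) (fun k => t4 i j k d) c
  have t2 : ∀ i b c d, R (f i) b c d
      - KN B (fun p q => κ / 2 * B p q + (-h - κ) * (B e p * B e q)) (f i) b c d = 0 :=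
    fun i b c d => NfR_ext hf (NfR_l2 hT (f i) c d) (fun j => t3 i j c d) b
  have t1 : ∀ a b c d, R a b c d
      - KN B (fun p q => κ / 2 * B p q + (-h - κ) * (B e p * B e q)) a b c d = 0 :=
    fun a b c d => NfR_ext hf (hT.lin b c d) (fun i => t2 i b c d) a
  intro a b c d
  have t := t1 a b c d
  simp only [KN] at t
  simp only [KN, G0]
  linarith

end

end Pool.Agent.Lib.MP_9d59e9_gt.KS
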