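import Pool.Agent.Lib.MP_9d59e9_gt.KS.Spec

/-!
# MP_9d59e9_gt, project KS: module Nn

The formula for `∇R`.
-/

set_option autoImplicit false

namespace Pool.Agent.Lib.MP_9d59e9_gt.KS

open scoped BigOperators ContDiff Topology
open Set KO KO3

noncomputable section

private theorem Nn_near {n : ℕ} {Ω : Set (Pt n)} (hO : IsOpen Ω) {p : Pt n} (hp : p ∈ Ω)
    (X : Pt n) : ∀ᶠ t in 𝓝 (0 : ℝ), p + t • X ∈ Ω := by
  have h1 : Continuous fun t : ℝ => p + t • X :=
    continuous_const.add (continuous_id.smul continuous_const)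
  have h2 : (fun t : ℝ => p + t • X) 0 ∈ Ω := by simpa using hp
  exact h1.continuousAt.eventually (hO.mem_nhds h2)

/-- chain rule for a smooth function along a line -/
private theorem Nn_chain {n : ℕ} {U : Set (Pt n)} (hU : IsOpen U) {φ : Pt n → ℝ}
    (hφ : ContDiffOn ℝ ∞ φ U) {x : Pt n} (hx : x ∈ U) (X : Pt n) :
    HasDerivAt (fun t : ℝ => φ (x + t • X)) (fderiv ℝ φ x X) 0 := by
  have h1 : DifferentiableAt ℝ φ x :=
    ((hφ.differentiableOn (by simp)).differentiableAt (hU.mem_nhds hx))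
  have h2 : HasDerivAt (fun t : ℝ => x + t • X) X 0 := by
    have h3 := ((hasDerivAt_id (0 : ℝ)).smul_const X).const_add x
    simpa using h3
  have h4 : HasFDerivAt φ (fderiv ℝ φ x) (x + (0 : ℝ) • X) := by
    rw [zero_smul, add_zero]
    exact h1.hasFDerivAt
  exact h4.comp_hasDerivAt 0 h2

private theorem Nn_cu {n : ℕ} {g : Pt n → Matrix (Fin n) (Fin n) ℝ} {U : Set (Pt n)}
    (hg : IsMetricOn g U) {θ : TF n 1} (hθ : Unit1 g U θ) {x : Pt n} (hx : x ∈ U) (X : Pt n) :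
    Cv g x X (fun t => du g θ (x + t • X)) (du g θ x) (up g (D g θ) x ![X]) := by
  have hC := KO.sCvU n g U hg x hx X 0 θ hθ.sm ![] ![] ![] (fun j => j.elim0)
  simp only [Finset.univ_eq_empty, Finset.sum_empty, add_zero] at hC
  have e0 : (fun t : ℝ => du g θ (x + t • X))
      = fun t => up g θ (x + t • X) (fun j => (![] : Fin 0 → ℝ → Pt n) j t) := by
    funext t
    unfold du
    congr 1
    funext j
    exact j.elim0
  rw [e0]
  exact hC

/-- `(Dθ)(X, W) = 0` -/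
private theorem Nn_three {n : ℕ} {g : Pt n → Matrix (Fin n) (Fin n) ℝ} {U : Set (Pt n)}
    (hg : IsMetricOn g U) {θ : TF n 1} (hθ : Unit1 g U θ) {x : Pt n} (hx : x ∈ U) (X : Pt n) :
    e2 (D g θ) x X (du g θ x) = 0 := by
  have hC2 := Nn_cu hg hθ hx X
  obtain ⟨h1, -⟩ := KO.sCvE n g U hg.isOpen x hx X
  have hd := h1 θ hθ.sm _ _ _ hC2
  have hc : HasDerivAt (fun t : ℝ => e1 θ (x + t • X) (du g θ (x + t • X))) 0 0 := by
    refine (hasDerivAt_const (0 : ℝ) (1 : ℝ)).congr_of_eventuallyEq ?_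
    filter_upwards [Nn_near hg.isOpen hx X] with t ht
    rw [hθ.dual _ ht, hθ.one _ ht]
  have h0 := hd.unique hc
  have hB := (KO.sOnb n g x (hg.pos x hx)).2.1
  have hup := (KO.sUp n g x (hg.pos x hx)).1 1 (D g θ) ![X] (du g θ x)
  have hs : (Fin.snoc (![X] : Fin 1 → Pt n) (du g θ x) : Fin 2 → Pt n)
      = ![X, du g θ x] := by
    funext i
    fin_cases i <;> rfl
  rw [hs] at hup
  rw [hθ.dual x hx (up g (D g θ) x ![X]), hB.symm, hup] at h0
  have : e2 (D g θ) x X (du g θ x) = ev (D g θ) x ![X, du g θ x] := rfl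
  rw [← this] at h0
  linarith

theorem tNn : S_Nn := by
  intro n g U θ α β H x hx
  refine ⟨fun z a b c d => ?_, fun X => Nn_three H.met H.un hx X, fun X => Nn_cu H.met H.un hx X⟩
  obtain ⟨h1, -, h4, -, -, hip, -, hex⟩ := sCvP n g U H.met x hx z
  obtain ⟨A, hA⟩ := hex a
  obtain ⟨B, hB⟩ := hex b
  obtain ⟨C, hC⟩ := hex c
  obtain ⟨E, hE⟩ := hex d
  have hR4 : Sm U (R4 g) := (KO.sSmo n g U H.met).2.2.2.2.2.1
  have hL := h4 (R4 g) hR4 A a B b C c E d hA hB hC hE
  have hα := Nn_chain H.met.isOpen H.sa hx z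
  have hβ := Nn_chain H.met.isOpen H.sb hx z
  have i1 := hip A a E d hA hE
  have i2 := hip B b C c hB hC
  have i3 := hip A a C c hA hC
  have i4 := hip B b E d hB hE
  have tA := h1 θ H.un.sm A a hA
  have tB := h1 θ H.un.sm B b hB
  have tC := h1 θ H.un.sm C c hC
  have tE := h1 θ H.un.sm E d hE
  have hG := (i1.mul i2).sub (i3.mul i4)
  have hK := (((i1.mul (tB.mul tC)).add ((tA.mul tE).mul i2)).sub (i3.mul (tB.mul tE))).sub
    ((tA.mul tC).mul i4)
  have hR := (hα.mul hG).add (hβ.mul hK)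
  change e5 (D g (R4 g)) x z a b c d = _
  refine ((hL.congr_of_eventuallyEq ?_).unique hR).trans ?_
  · filter_upwards [Nn_near H.met.isOpen hx z] with t ht
    rw [H.R _ ht]
    simp only [G0, KN, Pi.add_apply, Pi.mul_apply, Pi.sub_apply]
  · simp only [zero_smul, add_zero, hA.1, hB.1, hC.1, hE.1, Pi.add_apply, Pi.mul_apply,
      Pi.sub_apply]
    simp only [G0, KN, sy2]
    ring

end

end Pool.Agent.Lib.MP_9d59e9_gt.KS
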