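import Pool.Agent.Lib.MP_9d59e9_gt.KS.Spec

/-! KS, module `PE`: the pointwise structure, even order. -/

set_option autoImplicit false

namespace Pool.Agent.Lib.MP_9d59e9_gt.KS

open scoped BigOperators ContDiff
open Set KO KO3

noncomputable section

section
variable {V : Type} [AddCommGroup V] [Module ℝ V]

private theorem PE_zero {f : V → ℝ} (hf : Lin1 f) : f 0 = 0 := by
  have h := hf.smul 0 0
  simpa using h

private theorem PE_sum {ι : Type} (s : Finset ι) {f : V → ℝ} (hf : Lin1 f) (g : ι → V) :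
    f (∑ i ∈ s, g i) = ∑ i ∈ s, f (g i) := by
  classical
  induction s using Finset.induction_on with
  | empty => simpa using PE_zero hf
  | insert a s ha ih => rw [Finset.sum_insert ha, Finset.sum_insert ha, hf.add, ih]

private theorem PE_sum2 {k : ℕ} {f : V → ℝ} (hf : Lin1 f) (w : Fin k → Fin k → ℝ)
    (g : Fin k → Fin k → V) :
    f (∑ i, ∑ j, w i j • g i j) = ∑ i, ∑ j, w i j * f (g i j) := by
  rw [PE_sum _ hf]
  refine Finset.sum_congr rfl fun i _ => ?_
  rw [PE_sum _ hf]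
  exact Finset.sum_congr rfl fun j _ => hf.smul _ _

private theorem PE_act4 {R : V → V → V → V → ℝ} (l1 : ∀ b c d, Lin1 fun a => R a b c d)
    (l2 : ∀ a c d, Lin1 fun b => R a b c d) (l3 : ∀ a b d, Lin1 fun c => R a b c d)
    (l4 : ∀ a b c, Lin1 fun d => R a b c d) {k : ℕ} (w : Fin k → Fin k → ℝ)
    (Ψ : Fin k → Fin k → V → V) (Φ : V → V) (hΦ : ∀ a, Φ a = ∑ i, ∑ j, w i j • Ψ i j a)
    (c d p q : V) :
    act4 Φ R c d p q = ∑ i, ∑ j, w i j * act4 (Ψ i j) R c d p q := by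
  have e2 : R (Φ c) d p q = ∑ i, ∑ j, w i j * R (Ψ i j c) d p q := by
    rw [hΦ c]
    exact PE_sum2 (f := fun a => R a d p q) (l1 d p q) w fun i j => Ψ i j c
  have e3 : R c (Φ d) p q = ∑ i, ∑ j, w i j * R c (Ψ i j d) p q := by
    rw [hΦ d]
    exact PE_sum2 (f := fun a => R c a p q) (l2 c p q) w fun i j => Ψ i j d
  have e4 : R c d (Φ p) q = ∑ i, ∑ j, w i j * R c d (Ψ i j p) q := by
    rw [hΦ p]
    exact PE_sum2 (f := fun a => R c d a q) (l3 c d q) w fun i j => Ψ i j p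
  have e5 : R c d p (Φ q) = ∑ i, ∑ j, w i j * R c d p (Ψ i j q) := by
    rw [hΦ q]
    exact PE_sum2 (f := fun a => R c d p a) (l4 c d p) w fun i j => Ψ i j q
  unfold act4
  rw [e2, e3, e4, e5]
  simp only [← Finset.sum_add_distrib, ← Finset.sum_neg_distrib]
  refine Finset.sum_congr rfl fun i _ => Finset.sum_congr rfl fun j _ => ?_
  ring

private theorem PE_act6 {M : V → V → V → V → V → V → ℝ}
    (l1 : ∀ b c d e f, Lin1 fun a => M a b c d e f)
    (l2 : ∀ a c d e f, Lin1 fun b => M a b c d e f)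
    (l3 : ∀ a b d e f, Lin1 fun c => M a b c d e f)
    (l4 : ∀ a b c e f, Lin1 fun d => M a b c d e f)
    (l5 : ∀ a b c d f, Lin1 fun e => M a b c d e f)
    (l6 : ∀ a b c d e, Lin1 fun f => M a b c d e f) {k : ℕ} (w : Fin k → Fin k → ℝ)
    (Ψ : Fin k → Fin k → V → V) (Φ : V → V) (hΦ : ∀ a, Φ a = ∑ i, ∑ j, w i j • Ψ i j a)
    (a b c d p q : V) :
    act6 Φ M a b c d p q = ∑ i, ∑ j, w i j * act6 (Ψ i j) M a b c d p q := by
  have e1 : M (Φ a) b c d p q = ∑ i, ∑ j, w i j * M (Ψ i j a) b c d p q := by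
    rw [hΦ a]
    exact PE_sum2 (f := fun x => M x b c d p q) (l1 b c d p q) w fun i j => Ψ i j a
  have e2 : M a (Φ b) c d p q = ∑ i, ∑ j, w i j * M a (Ψ i j b) c d p q := by
    rw [hΦ b]
    exact PE_sum2 (f := fun x => M a x c d p q) (l2 a c d p q) w fun i j => Ψ i j b
  have e3 : M a b (Φ c) d p q = ∑ i, ∑ j, w i j * M a b (Ψ i j c) d p q := by
    rw [hΦ c]
    exact PE_sum2 (f := fun x => M a b x d p q) (l3 a b d p q) w fun i j => Ψ i j c
  have e4 : M a b c (Φ d) p q = ∑ i, ∑ j, w i j * M a b c (Ψ i j d) p q := by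
    rw [hΦ d]
    exact PE_sum2 (f := fun x => M a b c x p q) (l4 a b c p q) w fun i j => Ψ i j d
  have e5 : M a b c d (Φ p) q = ∑ i, ∑ j, w i j * M a b c d (Ψ i j p) q := by
    rw [hΦ p]
    exact PE_sum2 (f := fun x => M a b c d x q) (l5 a b c d q) w fun i j => Ψ i j p
  have e6 : M a b c d p (Φ q) = ∑ i, ∑ j, w i j * M a b c d p (Ψ i j q) := by
    rw [hΦ q]
    exact PE_sum2 (f := fun x => M a b c d p x) (l6 a b c d p) w fun i j => Ψ i j q
  unfold act6
  rw [e1, e2, e3, e4, e5, e6]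
  simp only [← Finset.sum_add_distrib, ← Finset.sum_neg_distrib]
  refine Finset.sum_congr rfl fun i _ => Finset.sum_congr rfl fun j _ => ?_
  ring

end

theorem tPE (h1 : S_Sb) (h2 : S_Ds) (h3 : S_Kc) (h4 : S_To) (h5 : S_Ea) (h6 : S_NfR) : S_PE := by
  intro n g Ω r τ hn hr hev hK hSy x hx _
  -- descent
  have hdesc : ∀ u v, ∀ k, 4 ≤ k → Kl g x (Rv g x u v) (k + 2) → Kl g x (Rv g x u v) k := by
    intro u v
    refine h2 n g Ω hK.met x hx 2 ![u, v] !![0, 1; 0, 0] (Rv g x u v) fun a => ?_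
    simp [Fin.sum_univ_two]
  have hdn : ∀ u v, ∀ t : ℕ, Kl g x (Rv g x u v) (2 * t + 6) → Kl g x (Rv g x u v) 6 := by
    intro u v t
    induction t with
    | zero => exact fun h => h
    | succ t ih =>
      intro h
      exact ih (hdesc u v (2 * t + 6) (by omega) h)
  have h66 : ∀ u v, e1 (τ 1) x u = 0 → e1 (τ 1) x v = 0 → Kl g x (Rv g x u v) 6 := by
    intro u v hu hv
    have hto := h4 n g Ω r τ hn (by omega) hK hSy x hx u v hu hv
    obtain ⟨s, hs⟩ := hev
    refine hdn u v (s - 2) ?_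
    have e : 2 * (s - 2) + 6 = r + 2 := by omega
    rw [e]
    exact hto
  have h44 : ∀ u v, e1 (τ 1) x u = 0 → e1 (τ 1) x v = 0 →
      ∀ a b c d, act4 (Rv g x u v) (e4 (R4 g) x) a b c d = 0 := by
    intro u v hu hv
    exact (h3 n g x (Rv g x u v)).1.1 (hdesc u v 4 le_rfl (h66 u v hu hv))
  have h67 : ∀ u v, e1 (τ 1) x u = 0 → e1 (τ 1) x v = 0 →
      ∀ a b c d p q, act6 (Rv g x u v) (e6 (N2 g) x) a b c d p q = 0 := by
    intro u v hu hv
    exact (h3 n g x (Rv g x u v)).2.2.1 (h66 u v hu hv)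
  refine ⟨fun h0 u v => h44 u v (h0 u) (h0 v), ?_⟩
  intro e s he _ hτ
  have hker : ∀ u, ip g x e u = 0 → e1 (τ 1) x u = 0 := by
    intro u hu
    rw [hτ u, hu, mul_zero]
  have hcR := (KO.sSym n g Ω hK.met x hx).1
  have hop := (KO.sSym n g Ω hK.met x hx).2.1
  have hAlg : Alg (ip g x) (n - 1) (e4 (R4 g) x) (Rv g x) :=
    ⟨KO3.sFrm n (n - 1) g x (by omega) (hK.met.pos x hx), by omega, hcR, hop, hK.ns x hx⟩
  have hEa := h5 (Pt n) (ip g x) (n - 1) (e4 (R4 g) x) (Rv g x) hAlg e he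
    (fun u v hu hv => h44 u v (hker u hu) (hker v hv))
  obtain ⟨q1, q2, q3, q4⟩ := (KO.sLin n x).2.2.2.2.2.2.1 (R4 g)
  have hS := (h1 n g x).2.1.2.2.1
  have L6 : ∀ l₁ l₂ : List (Pt n), l₁.length + l₂.length + 1 = 6 →
      Lin1 fun a => S g x (l₁ ++ a :: l₂) :=
    (h1 n g x).1.2 6 (by norm_num)
  have a4 : ∀ u v, ip g x e u = 0 → ip g x e v = 0 →
      ∀ a b c d, act4 (wd (ip g x) u v) (e4 (R4 g) x) a b c d = 0 := by
    intro u v hu hv a b c d
    obtain ⟨k, h, w, hh, hw⟩ := KO3.sGenD (Pt n) (ip g x) (n - 1) (e4 (R4 g) x) (Rv g x) hAlg e e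
      he he hEa u v hu hv
    rw [PE_act4 q4 q3 q2 q1 w (fun i j => Rv g x (h i) (h j)) (wd (ip g x) u v) hw]
    refine Finset.sum_eq_zero fun i _ => Finset.sum_eq_zero fun j _ => ?_
    rw [h44 (h i) (h j) (hker _ (hh i)) (hker _ (hh j)), mul_zero]
  have a6 : InvE g x e := by
    intro u v hu hv a b c d p q
    obtain ⟨k, h, w, hh, hw⟩ := KO3.sGenD (Pt n) (ip g x) (n - 1) (e4 (R4 g) x) (Rv g x) hAlg e e
      he he hEa u v hu hv
    have r1 : ∀ b c d e f, Lin1 fun a => e6 (N2 g) x a b c d e f := by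
      intro b c d e f
      have := L6 [] [b, c, d, e, f] rfl
      simpa only [List.nil_append, hS] using this
    have r2 : ∀ a c d e f, Lin1 fun b => e6 (N2 g) x a b c d e f := by
      intro a c d e f
      have := L6 [a] [c, d, e, f] rfl
      simpa only [List.nil_append, List.cons_append, hS] using this
    have r3 : ∀ a b d e f, Lin1 fun c => e6 (N2 g) x a b c d e f := by
      intro a b d e f
      have := L6 [a, b] [d, e, f] rfl
      simpa only [List.nil_append, List.cons_append, hS] using this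
    have r4 : ∀ a b c e f, Lin1 fun d => e6 (N2 g) x a b c d e f := by
      intro a b c e f
      have := L6 [a, b, c] [e, f] rfl
      simpa only [List.nil_append, List.cons_append, hS] using this
    have r5 : ∀ a b c d f, Lin1 fun e => e6 (N2 g) x a b c d e f := by
      intro a b c d f
      have := L6 [a, b, c, d] [f] rfl
      simpa only [List.nil_append, List.cons_append, hS] using this
    have r6 : ∀ a b c d e, Lin1 fun f => e6 (N2 g) x a b c d e f := by
      intro a b c d e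
      have := L6 [a, b, c, d, e] [] rfl
      simpa only [List.nil_append, List.cons_append, hS] using this
    rw [PE_act6 r1 r2 r3 r4 r5 r6 w (fun i j => Rv g x (h i) (h j)) (wd (ip g x) u v) hw]
    refine Finset.sum_eq_zero fun i _ => Finset.sum_eq_zero fun j _ => ?_
    rw [h67 (h i) (h j) (hker _ (hh i)) (hker _ (hh j)), mul_zero]
  exact ⟨h6 (Pt n) (ip g x) (n - 1) (e4 (R4 g) x) hAlg.eu hAlg.two hcR e he hEa a4, a6⟩

end

end Pool.Agent.Lib.MP_9d59e9_gt.KS
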