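import Pool.Agent.Lib.MP_9d59e9_gt.KS.Spec

/-!
# MP_9d59e9_gt, project KS, module Rd: functions with differential a multiple of `θ`
-/

set_option autoImplicit false

namespace Pool.Agent.Lib.MP_9d59e9_gt.KS

open scoped BigOperators ContDiff
open KO KO3

noncomputable section

variable {n : ℕ} {g : Pt n → Matrix (Fin n) (Fin n) ℝ} {U : Set (Pt n)} {θ : TF n 1}

/-- smooth functions are differentiable -/
private theorem Rd_diff {φ : Pt n → ℝ} (hU : IsOpen U) (h : ContDiffOn ℝ ∞ φ U) {x : Pt n}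
    (hx : x ∈ U) : DifferentiableAt ℝ φ x :=
  (h.contDiffAt (hU.mem_nhds hx)).differentiableAt (by simp)

private theorem Rd_add {φ ψ : Pt n → ℝ} (hU : IsOpen U) (h : Rad g U θ φ) (h' : Rad g U θ ψ) :
    Rad g U θ fun x => φ x + ψ x := by
  refine ⟨h.sm.add h'.sm, fun x hx v => ?_⟩
  have e : fderiv ℝ (fun x => φ x + ψ x) x = fderiv ℝ φ x + fderiv ℝ ψ x :=
    fderiv_add (Rd_diff hU h.sm hx) (Rd_diff hU h'.sm hx)
  have h1 := h.d x hx v
  have h2 := h'.d x hx v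
  unfold dV at h1 h2 ⊢
  rw [e, ContinuousLinearMap.add_apply, ContinuousLinearMap.add_apply, h1, h2]
  ring

private theorem Rd_mul {φ ψ : Pt n → ℝ} (hU : IsOpen U) (h : Rad g U θ φ) (h' : Rad g U θ ψ) :
    Rad g U θ fun x => φ x * ψ x := by
  refine ⟨h.sm.mul h'.sm, fun x hx v => ?_⟩
  have e : fderiv ℝ (fun x => φ x * ψ x) x = φ x • fderiv ℝ ψ x + ψ x • fderiv ℝ φ x :=
    fderiv_mul (Rd_diff hU h.sm hx) (Rd_diff hU h'.sm hx)
  have h1 := h.d x hx v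
  have h2 := h'.d x hx v
  unfold dV at h1 h2 ⊢
  rw [e]
  simp only [ContinuousLinearMap.add_apply, ContinuousLinearMap.smul_apply, smul_eq_mul]
  rw [h1, h2]
  ring

private theorem Rd_const (r : ℝ) : Rad g U θ fun _ => r := by
  refine ⟨contDiffOn_const, fun x _ v => ?_⟩
  unfold dV
  rw [fderiv_const_apply]
  simp

private theorem Rd_congr {φ ψ : Pt n → ℝ} (hU : IsOpen U) (h : Rad g U θ φ)
    (he : ∀ x ∈ U, ψ x = φ x) : Rad g U θ ψ := by
  refine ⟨h.sm.congr he, fun x hx v => ?_⟩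
  have e : fderiv ℝ ψ x = fderiv ℝ φ x := by
    refine Filter.EventuallyEq.fderiv_eq ?_
    filter_upwards [hU.mem_nhds hx] with y hy
    exact he y hy
  have h1 := h.d x hx v
  unfold dV at h1 ⊢
  rw [e, h1]

/-- the dual vector field is smooth -/
private theorem Rd_W (hg : IsMetricOn g U) (hθ : Unit1 g U θ) : ContDiffOn ℝ ∞ (du g θ) U := by
  obtain ⟨h1, -, -, -, -, -, -, -, -, -, -, h2⟩ := KO.sSmo n g U hg
  refine contDiffOn_pi.2 fun a => ?_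
  unfold du up
  exact ContDiffOn.sum fun b _ => (h1 a b).mul (h2 1 θ hθ.sm _)

private theorem Rd_dV (hg : IsMetricOn g U) (hθ : Unit1 g U θ) {φ : Pt n → ℝ}
    (h : ContDiffOn ℝ ∞ φ U) : ContDiffOn ℝ ∞ (dV (du g θ) φ) U := by
  have h1 : ContDiffOn ℝ ∞ (fderiv ℝ φ) U := h.fderiv_of_isOpen hg.isOpen (by simp)
  exact h1.clm_apply (Rd_W hg hθ)

/-- the second derivative of a function with differential `φ₁ θ` -/
private theorem Rd_snd (hg : IsMetricOn g U) (hθ : Unit1 g U θ) {φ : Pt n → ℝ}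
    (h : Rad g U θ φ) {x : Pt n} (hx : x ∈ U) (X Y : Pt n) :
    fderiv ℝ (fderiv ℝ φ) x X Y = fderiv ℝ (dV (du g θ) φ) x X * e1 θ x Y
      + dV (du g θ) φ x * (e2 (D g θ) x X Y + e1 θ x (Chr g x X Y)) := by
  have hU := hg.isOpen
  have hl : HasDerivAt (fun t : ℝ => x + t • X) X 0 := by
    have h1 : HasDerivAt (fun t : ℝ => t • X) ((1 : ℝ) • X) 0 := (hasDerivAt_id (0 : ℝ)).smul_const X
    rw [one_smul] at h1
    exact h1.const_add x
  have h0 : x + (0 : ℝ) • X = x := by rw [zero_smul, add_zero]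
  have hf1 : ContDiffOn ℝ ∞ (fderiv ℝ φ) U := h.sm.fderiv_of_isOpen hU (by simp)
  have hd1 : DifferentiableAt ℝ (fderiv ℝ φ) x :=
    (hf1.contDiffAt (hU.mem_nhds hx)).differentiableAt (by simp)
  have hd2 : DifferentiableAt ℝ (dV (du g θ) φ) x := Rd_diff hU (Rd_dV hg hθ h.sm) hx
  have a1 : HasDerivAt (fun t : ℝ => fderiv ℝ φ (x + t • X)) (fderiv ℝ (fderiv ℝ φ) x X) 0 :=
    hd1.hasFDerivAt.comp_hasDerivAt_of_eq (0 : ℝ) hl h0.symm
  have a2 : HasDerivAt (fun t : ℝ => fderiv ℝ φ (x + t • X) Y) (fderiv ℝ (fderiv ℝ φ) x X Y) 0 := by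
    have h1 := a1.clm_apply (hasDerivAt_const (0 : ℝ) Y)
    simpa using h1
  have b1 : HasDerivAt (fun t : ℝ => dV (du g θ) φ (x + t • X)) (fderiv ℝ (dV (du g θ) φ) x X) 0 :=
    hd2.hasFDerivAt.comp_hasDerivAt_of_eq (0 : ℝ) hl h0.symm
  have b2 : HasDerivAt (fun t : ℝ => e1 θ (x + t • X) Y)
      (e2 (D g θ) x X Y + e1 θ x (Chr g x X Y)) 0 :=
    (KO.sCvE n g U hU x hx X).1 θ hθ.sm (fun _ => Y) Y (Chr g x X Y) ((KO.sCvb n g x X).2.1 Y)
  have b3 := b1.mul b2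
  have he : (fun t : ℝ => fderiv ℝ φ (x + t • X) Y) =ᶠ[nhds 0]
      fun t : ℝ => dV (du g θ) φ (x + t • X) * e1 θ (x + t • X) Y := by
    have h1 : Filter.Tendsto (fun t : ℝ => x + t • X) (nhds 0) (nhds x) := by
      have h2 := hl.continuousAt.tendsto
      rwa [h0] at h2
    filter_upwards [h1 (hU.mem_nhds hx)] with t ht
    exact h.d _ ht Y
  have h3 := (b3.congr_of_eventuallyEq he).unique a2
  rw [← h3, h0]

private theorem Rd_main (hg : IsMetricOn g U) (hθ : Unit1 g U θ)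
    (hs : ∀ x ∈ U, ∀ u v, e2 (D g θ) x u v = e2 (D g θ) x v u) {φ : Pt n → ℝ}
    (h : Rad g U θ φ) : Rad g U θ (dV (du g θ) φ) := by
  have hU := hg.isOpen
  refine ⟨Rd_dV hg hθ h.sm, fun x hx X => ?_⟩
  have h1 := Rd_snd hg hθ h hx X (du g θ x)
  have h2 := Rd_snd hg hθ h hx (du g θ x) X
  have h3 : fderiv ℝ (fderiv ℝ φ) x X (du g θ x) = fderiv ℝ (fderiv ℝ φ) x (du g θ x) X := by
    have h4 : ContDiffAt ℝ ∞ φ x := h.sm.contDiffAt (hU.mem_nhds hx)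
    have h7 : minSmoothness ℝ 2 ≤ (∞ : WithTop ℕ∞) := by
      rw [minSmoothness_of_isRCLikeNormedField]
      exact WithTop.coe_le_coe.2 (le_top : (2 : ℕ∞) ≤ ⊤)
    exact (h4.isSymmSndFDerivAt h7).eq X (du g θ x)
  have h5 : e1 θ x (du g θ x) = 1 := by rw [hθ.dual x hx, hθ.one x hx]
  rw [h3, h2, hs x hx X (du g θ x), (KO.sMet n g U hg x hx).2.1 X (du g θ x), h5] at h1
  have h6 : dV (du g θ) (dV (du g θ) φ) x = fderiv ℝ (dV (du g θ) φ) x (du g θ x) := rfl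
  rw [h6]
  linarith

private theorem Rd_dE (hg : IsMetricOn g U) (hθ : Unit1 g U θ)
    (hs : ∀ x ∈ U, ∀ u v, e2 (D g θ) x u v = e2 (D g θ) x v u) {c φ : Pt n → ℝ} (k : ℝ)
    (hc : Rad g U θ c) (h : Rad g U θ φ) : Rad g U θ (dE (du g θ) c k φ) := by
  have hU := hg.isOpen
  refine Rd_congr hU (Rd_add hU (Rd_main hg hθ hs h)
    (Rd_mul hU (Rd_const (-k)) (Rd_mul hU hc h))) fun x _ => ?_
  unfold dE
  ring

private theorem Rd_iter (hg : IsMetricOn g U) (hθ : Unit1 g U θ)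
    (hs : ∀ x ∈ U, ∀ u v, e2 (D g θ) x u v = e2 (D g θ) x v u) {c φ : Pt n → ℝ} (k : ℝ)
    (hc : Rad g U θ c) (h : Rad g U θ φ) (q : ℕ) : Rad g U θ ((dE (du g θ) c k)^[q] φ) := by
  induction q with
  | zero => exact h
  | succ q ih =>
    rw [Function.iterate_succ_apply']
    exact Rd_dE hg hθ hs k hc ih

theorem tRd : S_Rd := by
  intro n g U θ hg hθ hs
  have hU := hg.isOpen
  refine ⟨fun φ ψ h h' => ⟨Rd_add hU h h', Rd_mul hU h h'⟩, fun r => Rd_const r,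
    fun φ ψ h he => Rd_congr hU h he, fun φ h => Rd_dV hg hθ h, fun φ h => Rd_main hg hθ hs h,
    fun c β hc hβ => ⟨fun q => Rd_mul hU hc (Rd_iter hg hθ hs 1 hc hβ q), fun p q => ?_⟩⟩
  exact Rd_mul hU hc (Rd_iter hg hθ hs 1 hc (Rd_mul hU hc (Rd_iter hg hθ hs 2 hc hβ q)) p)

end

end Pool.Agent.Lib.MP_9d59e9_gt.KS
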