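import Pool.Agent.Lib.MP_9d59e9_gt.KS.Spec

/-!
# MP_9d59e9_gt, project KS, module Re: reduction to an open set
-/

set_option autoImplicit false

namespace Pool.Agent.Lib.MP_9d59e9_gt.KS

open scoped BigOperators ContDiff
open Set KO KO3

noncomputable section

private theorem resM {n : ℕ} {g : Pt n → Matrix (Fin n) (Fin n) ℝ} {Ω U : Set (Pt n)}
    (h : IsMetricOn g Ω) (hU : IsOpen U) (hs : U ⊆ Ω) : IsMetricOn g U :=
  ⟨hU, fun i j => (h.smooth i j).mono hs, fun x hx => h.pos x (hs hx)⟩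

/-- the set of the points where a smooth tensor field does not vanish is open -/
private theorem opT {n k : ℕ} {Ω : Set (Pt n)} (hΩ : IsOpen Ω) {T : TF n k} (hT : Sm Ω T) :
    IsOpen {x | x ∈ Ω ∧ ∃ v, ev T x v ≠ 0} := by
  have e : {x | x ∈ Ω ∧ ∃ v, ev T x v ≠ 0} = ⋃ I, (Ω ∩ T I ⁻¹' {y | y ≠ 0}) := by
    ext x
    simp only [mem_ofPred_eq, mem_iUnion, mem_inter_iff, mem_preimage]
    have h1 := (sLin n x).2.2.1 k T
    constructor
    · rintro ⟨hx, v, hv⟩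
      by_contra hc
      push Not at hc
      exact hv (h1.2 (fun I => hc I hx) v)
    · rintro ⟨I, hx, hI⟩
      refine ⟨hx, ?_⟩
      by_contra hc
      push Not at hc
      exact hI (h1.1 hc I)
  rw [e]
  refine isOpen_iUnion fun I => ?_
  exact (hT I).continuousOn.isOpen_inter_preimage hΩ isOpen_ne

private theorem ev1 {n : ℕ} {T : TF n 1} {x : Pt n} :
    (∃ v, ev T x v ≠ 0) ↔ ∃ a, e1 T x a ≠ 0 := by
  constructor
  · rintro ⟨v, hv⟩
    refine ⟨v 0, ?_⟩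
    have e : v = ![v 0] := by
      funext i
      fin_cases i
      rfl
    unfold e1
    rwa [← e]
  · rintro ⟨a, ha⟩
    exact ⟨![a], ha⟩

private theorem ev5 {n : ℕ} {T : TF n 5} {x : Pt n} :
    (∃ v, ev T x v ≠ 0) ↔ ∃ z a b c d, e5 T x z a b c d ≠ 0 := by
  constructor
  · rintro ⟨v, hv⟩
    refine ⟨v 0, v 1, v 2, v 3, v 4, ?_⟩
    have e : v = ![v 0, v 1, v 2, v 3, v 4] := by
      funext i
      fin_cases i <;> rfl
    unfold e5
    rwa [← e]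
  · rintro ⟨z, a, b, c, d, h⟩
    exact ⟨![z, a, b, c, d], h⟩

/-- a curvature tensor of constant curvature is annihilated by the skew endomorphisms -/
private theorem actG0 {V : Type} [AddCommGroup V] [Module ℝ V] {B : V → V → ℝ}
    {R : V → V → V → V → ℝ} {α : ℝ}
    (hR : ∀ a b c d, R a b c d = α * G0 B a b c d) {Φ : V → V}
    (hΦ : ∀ a b, B (Φ a) b = -B a (Φ b)) (a b c d : V) : act4 Φ R a b c d = 0 := by
  unfold act4
  rw [hR, hR, hR, hR]
  unfold G0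
  rw [hΦ a d, hΦ a c, hΦ b c, hΦ b d]
  ring

theorem tRe (h1 : S_Sco) : S_Re := by
  intro n g Ω τ J hn met hτ hns hJ p hp hpN
  -- the first open set
  have hNs : Sm Ω (N g) := (sSmo n g Ω met).2.2.2.2.2.2.1
  have o0 := opT met.isOpen hNs
  set U₀ : Set (Pt n) := {x | x ∈ Ω ∧ ∃ v, ev (N g) x v ≠ 0} with hU₀
  have s0 : U₀ ⊆ Ω := fun x hx => hx.1
  have met0 := resM met o0 s0
  have hp0 : p ∈ U₀ := ⟨hp, ev5.2 hpN⟩
  have hnz : ∀ x ∈ U₀, ∃ z a b c d, e5 (N g) x z a b c d ≠ 0 := fun x hx => ev5.1 hx.2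
  -- the 1-form is not identically zero
  have ha : ∃ x ∈ U₀, ∃ v, e1 τ x v ≠ 0 := by
    by_contra hc
    push Not at hc
    obtain ⟨z, a, b, c, d, h⟩ := hnz p hp0
    exact h (sCb2 n g U₀ hn met0 (fun x hx => hns x (s0 hx))
      (fun x hx => (hJ x (s0 hx) (hnz x hx)).1 (hc x hx)) p hp0 z a b c d)
  have o1 := opT o0 (fun I => (hτ I).mono s0)
  set U₁ : Set (Pt n) := {x | x ∈ U₀ ∧ ∃ v, ev τ x v ≠ 0} with hU₁
  have s1 : U₁ ⊆ U₀ := fun x hx => hx.1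
  have s1' : U₁ ⊆ Ω := s1.trans s0
  have met1 := resM met o1 s1'
  obtain ⟨x₁, hx₁, hv₁⟩ := ha
  have hx₁' : x₁ ∈ U₁ := ⟨hx₁, ev1.2 hv₁⟩
  obtain ⟨θ, hθ, hθs⟩ := sUni n g U₁ met1 τ (fun I => (hτ I).mono s1') (fun x hx => ev1.1 hx.2)
  have hPJ : ∀ x ∈ U₁, (∃ α β : ℝ, ∀ a b c d, e4 (R4 g) x a b c d = α * G0 (ip g x) a b c d
      + β * KN (ip g x) (fun p q => ip g x (du g θ x) p * ip g x (du g θ x) q) a b c d) ∧
      J x (du g θ x) := by
    intro x hx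
    obtain ⟨s, hs, hsv⟩ := hθs x hx
    refine (hJ x (s1' hx) (hnz x (s1 hx))).2 (du g θ x) s (hθ.one x hx) hs fun v => ?_
    rw [hsv v, hθ.dual x hx v]
  obtain ⟨α, β, hα, hβ, hR⟩ := h1 n g U₁ θ hn met1 hθ (fun x hx => (hPJ x hx).1)
  -- the coefficient `β` is not identically zero
  have hb : ∃ x ∈ U₁, β x ≠ 0 := by
    by_contra hc
    push Not at hc
    obtain ⟨z, a, b, c, d, h⟩ := hnz x₁ hx₁
    refine h (sCb2 n g U₁ hn met1 (fun x hx => hns x (s1' hx)) ?_ x₁ hx₁' z a b c d)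
    intro x hx u v a b c d
    obtain ⟨hcr, hop, -, -⟩ := sSym n g U₁ met1 x hx
    have hIP : IP (ip g x) := (sOnb n g x (met1.pos x hx)).2.1
    refine actG0 (B := ip g x) (α := α x) (fun a b c d => ?_) (fun a b => ?_) a b c d
    · rw [hR x hx, hc x hx, zero_mul, add_zero]
    · rw [hop, hcr.a34, ← hop, hIP.symm]
  obtain ⟨x₂, hx₂, hβ₂⟩ := hb
  have o2 : IsOpen (U₁ ∩ β ⁻¹' {y | y ≠ 0}) := hβ.continuousOn.isOpen_inter_preimage o1 isOpen_ne
  set U : Set (Pt n) := U₁ ∩ β ⁻¹' {y | y ≠ 0} with hU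
  have s2 : U ⊆ U₁ := fun x hx => hx.1
  have s2' : U ⊆ Ω := s2.trans s1'
  refine ⟨U, s2', ⟨x₂, hx₂, hβ₂⟩, θ, α, β, ?_, fun x hx => (hPJ x (s2 hx)).2⟩
  exact
    { met := resM met o2 s2'
      un := ⟨fun I => (hθ.sm I).mono s2, fun x hx => hθ.one x (s2 hx),
        fun x hx => hθ.dual x (s2 hx)⟩
      sa := hα.mono s2
      sb := hβ.mono s2
      nb := fun x hx => hx.2
      ns := fun x hx => hns x (s2' hx)
      R := fun x hx => hR x (s2 hx) }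

end

end Pool.Agent.Lib.MP_9d59e9_gt.KS
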