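import Pool.Agent.Lib.MP_9d59e9_gt.KS.Spec

/-!
# MP_9d59e9_gt, project KS: first properties of the list evaluation (`tSb`)
-/

set_option autoImplicit false

namespace Pool.Agent.Lib.MP_9d59e9_gt.KS

open scoped BigOperators ContDiff
open Set KO KO3

noncomputable section

private theorem Sb_getD {V : Type} [Zero V] (l₁ l₂ : List V) (a : V) (i : ℕ) :
    (l₁ ++ a :: l₂).getD i 0 = if i = l₁.length then a else (l₁ ++ 0 :: l₂).getD i 0 := by
  rw [List.getD_eq_getElem?_getD, List.getD_eq_getElem?_getD]
  by_cases h : i = l₁.length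
  · rw [if_pos h, h, List.getElem?_append_right (le_refl _), Nat.sub_self]
    rfl
  · rw [if_neg h]
    rcases lt_or_gt_of_ne h with h1 | h1
    · rw [List.getElem?_append_left h1, List.getElem?_append_left h1]
    · obtain ⟨j, hj⟩ : ∃ j, i - l₁.length = j + 1 := ⟨i - l₁.length - 1, by omega⟩
      rw [List.getElem?_append_right (by omega), List.getElem?_append_right (by omega), hj,
        List.getElem?_cons_succ, List.getElem?_cons_succ]

private theorem Sb_ml {n k : ℕ} (T : TF n k) (x : Pt n) : MlL (el T x) k := by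
  intro l₁ l₂ h
  have hj : l₁.length < k := by omega
  have h1 := (KO.sLin n x).1 k T (fun i => (l₁ ++ 0 :: l₂).getD i 0) ⟨l₁.length, hj⟩
  have h2 : (fun u => ev T x (Function.update (fun i : Fin k => (l₁ ++ 0 :: l₂).getD i 0)
      ⟨l₁.length, hj⟩ u)) = fun a => el T x (l₁ ++ a :: l₂) := by
    funext a
    unfold el
    congr 1
    funext i
    rw [Sb_getD l₁ l₂ a i]
    by_cases hi : (i : ℕ) = l₁.length
    · have hi' : i = ⟨l₁.length, hj⟩ := Fin.ext hi
      rw [if_pos hi, hi', Function.update_self]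
    · have hi' : i ≠ ⟨l₁.length, hj⟩ := fun h' => hi (congrArg Fin.val h')
      rw [if_neg hi, Function.update_of_ne hi']
  rw [← h2]
  exact h1

private theorem Sb_mlS {n : ℕ} (g : Pt n → Matrix (Fin n) (Fin n) ℝ) (x : Pt n) (k : ℕ)
    (hk : 4 ≤ k) : MlL (S g x) k := by
  intro l₁ l₂ h
  have h1 := Sb_ml (SJ g (k - 4)) x l₁ l₂ (by omega)
  have h2 : (fun a => el (SJ g (k - 4)) x (l₁ ++ a :: l₂)) = fun a => S g x (l₁ ++ a :: l₂) := by
    funext a
    unfold S
    have h3 : (l₁ ++ a :: l₂).length = k := by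
      rw [List.length_append, List.length_cons]
      omega
    rw [h3]
  rw [← h2]
  exact h1

theorem tSb : S_Sb := by
  intro n g x
  refine ⟨⟨fun k T => Sb_ml T x, fun k hk => Sb_mlS g x k hk⟩, ⟨?_, ?_, ?_, ?_⟩,
    ⟨?_, ?_, ?_⟩, ?_, ?_⟩
  · intro a b c d
    change ev (R4 g) x (fun i => [a, b, c, d].getD i 0) = ev (R4 g) x ![a, b, c, d]
    congr 1
    funext i
    fin_cases i <;> rfl
  · intro z a b c d
    change ev (N g) x (fun i => [z, a, b, c, d].getD i 0) = ev (N g) x ![z, a, b, c, d]
    congr 1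
    funext i
    fin_cases i <;> rfl
  · intro y z a b c d
    change ev (N2 g) x (fun i => [y, z, a, b, c, d].getD i 0) = ev (N2 g) x ![y, z, a, b, c, d]
    congr 1
    funext i
    fin_cases i <;> rfl
  · intro w y z a b c d
    change ev (N3 g) x (fun i => [w, y, z, a, b, c, d].getD i 0) =
      ev (N3 g) x ![w, y, z, a, b, c, d]
    congr 1
    funext i
    fin_cases i <;> rfl
  · intro T a
    change ev T x (fun i => [a].getD i 0) = ev T x ![a]
    congr 1
    funext i
    fin_cases i
    rfl
  · intro T a b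
    change ev T x (fun i => [a, b].getD i 0) = ev T x ![a, b]
    congr 1
    funext i
    fin_cases i <;> rfl
  · intro T a b c
    change ev T x (fun i => [a, b, c].getD i 0) = ev T x ![a, b, c]
    congr 1
    funext i
    fin_cases i <;> rfl
  · intro Ω hΩ j
    obtain ⟨-, -, -, hD, -, hR, -⟩ := KO.sSmo n g Ω hΩ
    induction j with
    | zero => exact hR
    | succ j ih => exact hD (4 + j) (SJ g j) ih
  · intro k T I
    rw [← (KO.sLin n x).2.1 k T I]
    unfold el
    congr 1
    funext j
    rw [List.getD_eq_getElem?_getD, List.getElem?_map]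
    have h1 : (List.ofFn I)[(j : ℕ)]? = some (I j) := by
      rw [List.getElem?_eq_getElem (by rw [List.length_ofFn]; exact j.2), List.getElem_ofFn]
    rw [h1]
    rfl

end

end Pool.Agent.Lib.MP_9d59e9_gt.KS
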