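import Pool.Agent.Lib.MP_9d59e9_gt.KS.Spec

/-!
# MP_9d59e9_gt, project KS, module Sc: symmetries of the iterated covariant derivatives
-/

set_option autoImplicit false

namespace Pool.Agent.Lib.MP_9d59e9_gt.KS

open scoped BigOperators ContDiff
open Set KO KO3

noncomputable section

private theorem Sc_ind {n : ℕ} {g : Pt n → Matrix (Fin n) (Fin n) ℝ} {Ω : Set (Pt n)}
    (hg : IsMetricOn g Ω) (h2 : S_Sd) {r q : ℕ} (c : Fin r → ℝ) (idx : Fin r → List (Fin q))
    (h4 : ∀ i, 4 ≤ (idx i).length)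
    (h0 : ∀ x ∈ Ω, ∀ u : Fin q → Pt n, ∑ i, c i * S g x ((idx i).map u) = 0) :
    ∀ (m : ℕ) (w : List (Pt n)), w.length = m → ∀ x ∈ Ω, ∀ u : Fin q → Pt n,
      ∑ i, c i * S g x (w ++ (idx i).map u) = 0 := by
  intro m
  induction m with
  | zero =>
    intro w hw x hx u
    rw [List.length_eq_zero_iff] at hw
    subst hw
    exact h0 x hx u
  | succ m ih =>
    intro w hw p hp u
    obtain ⟨X, w', rfl⟩ : ∃ X w', w = X :: w' := by
      cases w with
      | nil => simp at hw
      | cons X w' => exact ⟨X, w', rfl⟩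
    have hw' : w'.length = m := by simpa using hw
    have hd : ∀ i, HasDerivAt
        (fun t : ℝ => S g (p + t • X) ((w' ++ (idx i).map u).map fun v => v - t • Chr g p X v))
        (S g p (X :: (w' ++ (idx i).map u))) 0 := by
      intro i
      refine (h2 n g Ω hg p hp X).2 _ ?_
      rw [List.length_append, List.length_map]
      exact (h4 i).trans (Nat.le_add_left _ _)
    have hs : HasDerivAt (fun t : ℝ => ∑ i, c i *
        S g (p + t • X) ((w' ++ (idx i).map u).map fun v => v - t • Chr g p X v))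
        (∑ i, c i * S g p (X :: (w' ++ (idx i).map u))) 0 :=
      HasDerivAt.fun_sum fun i _ => (hd i).const_mul (c i)
    have hc : ContinuousAt (fun t : ℝ => p + t • X) 0 := by fun_prop
    have he : ∀ᶠ t : ℝ in nhds 0, p + t • X ∈ Ω := by
      refine hc.eventually_mem ?_
      rw [zero_smul, add_zero]
      exact hg.isOpen.mem_nhds hp
    have hz : HasDerivAt (fun _ : ℝ => (0 : ℝ))
        (∑ i, c i * S g p (X :: (w' ++ (idx i).map u))) 0 := by
      refine hs.congr_of_eventuallyEq ?_
      filter_upwards [he] with t ht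
      have h := ih (w'.map fun v => v - t • Chr g p X v) (by rw [List.length_map, hw'])
        (p + t • X) ht (fun i => u i - t • Chr g p X (u i))
      rw [← h]
      refine Finset.sum_congr rfl fun i _ => ?_
      rw [List.map_append, List.map_map]
      rfl
    exact hz.unique (hasDerivAt_const (0 : ℝ) (0 : ℝ))

theorem tSc (h1 : S_Sb) (h2 : S_Sd) : S_Sc := by
  intro n g Ω hg x hx w
  have hR : ∀ y ∈ Ω, Crvt (e4 (R4 g) y) := fun y hy => (sSym n g Ω hg y hy).1
  have hN : ∀ y ∈ Ω, Dcrv (e5 (N g) y) := fun y hy => sBi2 n g Ω hg y hy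
  have s4 : ∀ (y a b c d : Pt n), S g y [a, b, c, d] = e4 (R4 g) y a b c d :=
    fun y => (h1 n g y).2.1.1
  have s5 : ∀ (y z a b c d : Pt n), S g y [z, a, b, c, d] = e5 (N g) y z a b c d :=
    fun y => (h1 n g y).2.1.2.1
  refine ⟨⟨?_, ?_, ?_, ?_, ?_⟩, ?_⟩
  · intro b c d
    have h := (h1 n g x).1.2 (w.length + 4) (Nat.le_add_left _ _) w [b, c, d]
      (by simp only [List.length_cons, List.length_nil])
    exact h
  · intro a b c d
    have h := Sc_ind hg h2 (r := 2) (q := 4) ![1, 1] ![[1, 0, 2, 3], [0, 1, 2, 3]]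
      (by intro i; fin_cases i <;> exact le_refl 4)
      (by
        intro y hy u
        rw [Fin.sum_univ_two]
        change 1 * S g y [u 1, u 0, u 2, u 3] + 1 * S g y [u 0, u 1, u 2, u 3] = 0
        rw [s4, s4, (hR y hy).a12]
        ring) w.length w rfl x hx ![a, b, c, d]
    rw [Fin.sum_univ_two] at h
    change 1 * S g x (w ++ [b, a, c, d]) + 1 * S g x (w ++ [a, b, c, d]) = 0 at h
    linarith
  · intro a b c d
    have h := Sc_ind hg h2 (r := 2) (q := 4) ![1, 1] ![[0, 1, 3, 2], [0, 1, 2, 3]]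
      (by intro i; fin_cases i <;> exact le_refl 4)
      (by
        intro y hy u
        rw [Fin.sum_univ_two]
        change 1 * S g y [u 0, u 1, u 3, u 2] + 1 * S g y [u 0, u 1, u 2, u 3] = 0
        rw [s4, s4, (hR y hy).a34]
        ring) w.length w rfl x hx ![a, b, c, d]
    rw [Fin.sum_univ_two] at h
    change 1 * S g x (w ++ [a, b, d, c]) + 1 * S g x (w ++ [a, b, c, d]) = 0 at h
    linarith
  · intro a b c d
    have h := Sc_ind hg h2 (r := 2) (q := 4) ![1, -1] ![[2, 3, 0, 1], [0, 1, 2, 3]]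
      (by intro i; fin_cases i <;> exact le_refl 4)
      (by
        intro y hy u
        rw [Fin.sum_univ_two]
        change 1 * S g y [u 2, u 3, u 0, u 1] + -1 * S g y [u 0, u 1, u 2, u 3] = 0
        rw [s4, s4, (hR y hy).sw]
        ring) w.length w rfl x hx ![a, b, c, d]
    rw [Fin.sum_univ_two] at h
    change 1 * S g x (w ++ [c, d, a, b]) + -1 * S g x (w ++ [a, b, c, d]) = 0 at h
    linarith
  · intro a b c d
    have h := Sc_ind hg h2 (r := 3) (q := 4) ![1, 1, 1]
      ![[0, 1, 2, 3], [1, 2, 0, 3], [2, 0, 1, 3]]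
      (by intro i; fin_cases i <;> exact le_refl 4)
      (by
        intro y hy u
        rw [Fin.sum_univ_three]
        change 1 * S g y [u 0, u 1, u 2, u 3] + 1 * S g y [u 1, u 2, u 0, u 3]
          + 1 * S g y [u 2, u 0, u 1, u 3] = 0
        rw [s4, s4, s4]
        have := (hR y hy).bi (u 0) (u 1) (u 2) (u 3)
        linarith) w.length w rfl x hx ![a, b, c, d]
    rw [Fin.sum_univ_three] at h
    change 1 * S g x (w ++ [a, b, c, d]) + 1 * S g x (w ++ [b, c, a, d])
      + 1 * S g x (w ++ [c, a, b, d]) = 0 at h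
    linarith
  · intro z a b c d
    have h := Sc_ind hg h2 (r := 3) (q := 5) ![1, 1, 1]
      ![[0, 1, 2, 3, 4], [1, 2, 0, 3, 4], [2, 0, 1, 3, 4]]
      (by intro i; fin_cases i <;> exact Nat.le_succ 4)
      (by
        intro y hy u
        rw [Fin.sum_univ_three]
        change 1 * S g y [u 0, u 1, u 2, u 3, u 4] + 1 * S g y [u 1, u 2, u 0, u 3, u 4]
          + 1 * S g y [u 2, u 0, u 1, u 3, u 4] = 0
        rw [s5, s5, s5]
        have := (hN y hy).bi2 (u 0) (u 1) (u 2) (u 3) (u 4)
        linarith) w.length w rfl x hx ![z, a, b, c, d]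
    rw [Fin.sum_univ_three] at h
    change 1 * S g x (w ++ [z, a, b, c, d]) + 1 * S g x (w ++ [a, b, z, c, d])
      + 1 * S g x (w ++ [b, z, a, c, d]) = 0 at h
    linarith

end

end Pool.Agent.Lib.MP_9d59e9_gt.KS
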