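import Pool.Agent.Lib.MP_9d59e9_gt.KS.Spec

/-!
# MP_9d59e9_gt, project KS: module Sco

The coefficients of the normal form of `R` are smooth.  Near a point `p` with frame `W, a, b` they are
the solution of the two linear equations given by `R(a,b,b,a)` and `R(a,w,w,a)`, with the constant
vectors `a, b, w = W(p)`.
-/

set_option autoImplicit false

namespace Pool.Agent.Lib.MP_9d59e9_gt.KS

open scoped BigOperators ContDiff Topology
open Set KO KO3

noncomputable section

private theorem Sco_ip {n : ℕ} {g : Pt n → Matrix (Fin n) (Fin n) ℝ} {U : Set (Pt n)}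
    (hg : IsMetricOn g U) (a b : Pt n) : ContDiffOn ℝ ∞ (fun x => ip g x a b) U := by
  unfold ip
  refine ContDiffOn.sum fun i _ => ContDiffOn.sum fun j _ => ?_
  exact (hg.smooth i j).mul contDiffOn_const

theorem tSco : S_Sco := by
  intro n g U θ hn hg hθ hR
  choose! α β hab using hR
  have hform : ∀ x ∈ U, ∀ a b c d, e4 (R4 g) x a b c d = α x * G0 (ip g x) a b c d
      + β x * KN (ip g x) (fun p q => e1 θ x p * e1 θ x q) a b c d := by
    intro x hx a b c d
    rw [hab x hx a b c d]
    simp only [KN, hθ.dual x hx]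
  obtain ⟨-, -, -, -, -, hR4, -, -, -, -, -, hev⟩ := KO.sSmo n g U hg
  have key : ∀ p ∈ U, ContDiffAt ℝ ∞ α p ∧ ContDiffAt ℝ ∞ β p := by
    intro p hp
    obtain ⟨m, rfl⟩ : ∃ m, n = m + 1 := ⟨n - 1, by omega⟩
    have hE := sFrm (m + 1) m g p rfl (hg.pos p hp)
    obtain ⟨f, hf, hf0⟩ := hE.fr (du g θ p) (hθ.one p hp)
    have hB := hE.ip
    set i1 : Fin (m + 1) := ⟨1, by omega⟩ with hi1
    set i2 : Fin (m + 1) := ⟨2, by omega⟩ with hi2
    have n01 : (0 : Fin (m + 1)) ≠ i1 := by
      intro h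
      have := congrArg Fin.val h
      simp [hi1] at this
    have n02 : (0 : Fin (m + 1)) ≠ i2 := by
      intro h
      have := congrArg Fin.val h
      simp [hi2] at this
    have n12 : i1 ≠ i2 := by
      intro h
      have := congrArg Fin.val h
      simp [hi1, hi2] at this
    obtain ⟨a, ha⟩ : ∃ a, a = f i1 := ⟨_, rfl⟩
    obtain ⟨b, hb⟩ : ∃ b, b = f i2 := ⟨_, rfl⟩
    obtain ⟨w, hw⟩ : ∃ w, w = f 0 := ⟨_, rfl⟩
    have haa : ip g p a a = 1 := by rw [ha, hf.on, if_pos rfl]
    have hbb : ip g p b b = 1 := by rw [hb, hf.on, if_pos rfl]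
    have hww : ip g p w w = 1 := by rw [hw, hf.on, if_pos rfl]
    have hab' : ip g p a b = 0 := by rw [ha, hb, hf.on, if_neg n12]
    have haw : ip g p a w = 0 := by rw [ha, hw, hf.on, if_neg n01.symm]
    have hta : e1 θ p a = 0 := by rw [hθ.dual p hp, ← hf0, ha, hf.on, if_neg n01]
    have htb : e1 θ p b = 0 := by rw [hθ.dual p hp, ← hf0, hb, hf.on, if_neg n02]
    have htw : e1 θ p w = 1 := by rw [hθ.dual p hp, ← hf0, hw, hf.on, if_pos rfl]
    -- the coefficients of the linear system
    have sθ : ∀ v, ContDiffOn ℝ ∞ (fun x => e1 θ x v) U := fun v => hev 1 θ hθ.sm ![v]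
    have sR : ∀ u v, ContDiffOn ℝ ∞ (fun x => e4 (R4 g) x u v v u) U :=
      fun u v => hev 4 (R4 g) hR4 ![u, v, v, u]
    have sG : ∀ u v, ContDiffOn ℝ ∞ (fun x => G0 (ip g x) u v v u) U := by
      intro u v
      unfold G0
      exact ((Sco_ip hg u u).mul (Sco_ip hg v v)).sub ((Sco_ip hg u v).mul (Sco_ip hg v u))
    have sK : ∀ u v, ContDiffOn ℝ ∞
        (fun x => KN (ip g x) (fun p q => e1 θ x p * e1 θ x q) u v v u) U := by
      intro u v
      unfold KN
      exact ((((Sco_ip hg u u).mul ((sθ v).mul (sθ v))).add (((sθ u).mul (sθ u)).mul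
        (Sco_ip hg v v))).sub ((Sco_ip hg u v).mul ((sθ v).mul (sθ u)))).sub
        (((sθ u).mul (sθ v)).mul (Sco_ip hg v u))
    have hnb := hg.isOpen.mem_nhds hp
    have cR1 := (sR a b).contDiffAt hnb
    have cR2 := (sR a w).contDiffAt hnb
    have cG1 := (sG a b).contDiffAt hnb
    have cG2 := (sG a w).contDiffAt hnb
    have cK1 := (sK a b).contDiffAt hnb
    have cK2 := (sK a w).contDiffAt hnb
    have cD := (cG1.mul cK2).sub (cK1.mul cG2)
    have hD : G0 (ip g p) a b b a * KN (ip g p) (fun p' q => e1 θ p p' * e1 θ p q) a w w a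
        - KN (ip g p) (fun p' q => e1 θ p p' * e1 θ p q) a b b a * G0 (ip g p) a w w a = 1 := by
      simp only [G0, KN, hB.symm b a, hB.symm w a, haa, hbb, hww, hab', haw, hta, htb, htw]
      ring
    have hev0 : ∀ᶠ x in 𝓝 p, G0 (ip g x) a b b a
        * KN (ip g x) (fun p' q => e1 θ x p' * e1 θ x q) a w w a
        - KN (ip g x) (fun p' q => e1 θ x p' * e1 θ x q) a b b a * G0 (ip g x) a w w a ≠ 0 := by
      refine cD.continuousAt.eventually_ne ?_
      change G0 (ip g p) a b b a * KN (ip g p) (fun p' q => e1 θ p p' * e1 θ p q) a w w a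
        - KN (ip g p) (fun p' q => e1 θ p p' * e1 θ p q) a b b a * G0 (ip g p) a w w a ≠ 0
      rw [hD]
      exact one_ne_zero
    have hD0 : G0 (ip g p) a b b a * KN (ip g p) (fun p' q => e1 θ p p' * e1 θ p q) a w w a
        - KN (ip g p) (fun p' q => e1 θ p p' * e1 θ p q) a b b a * G0 (ip g p) a w w a ≠ 0 := by
      rw [hD]
      exact one_ne_zero
    constructor
    · have h1 := ((cR1.mul cK2).sub (cK1.mul cR2)).div cD hD0
      refine h1.congr_of_eventuallyEq ?_
      filter_upwards [hev0, hnb] with x hx hxU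
      have q1 := hform x hxU a b b a
      have q2 := hform x hxU a w w a
      simp only [Pi.div_apply, Pi.sub_apply, Pi.mul_apply]
      rw [eq_div_iff hx, q1, q2]
      ring
    · have h1 := ((cG1.mul cR2).sub (cR1.mul cG2)).div cD hD0
      refine h1.congr_of_eventuallyEq ?_
      filter_upwards [hev0, hnb] with x hx hxU
      have q1 := hform x hxU a b b a
      have q2 := hform x hxU a w w a
      simp only [Pi.div_apply, Pi.sub_apply, Pi.mul_apply]
      rw [eq_div_iff hx, q1, q2]
      ring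
  exact ⟨α, β, fun p hp => (key p hp).1.contDiffWithinAt, fun p hp => (key p hp).2.contDiffWithinAt,
    hform⟩

end

end Pool.Agent.Lib.MP_9d59e9_gt.KS
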