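import Pool.Agent.Lib.MP_9d59e9_gt.KS.Spec

/-!
# MP_9d59e9_gt, project KS, module Sd: the curve lemma for lists
-/

set_option autoImplicit false

namespace Pool.Agent.Lib.MP_9d59e9_gt.KS

open scoped BigOperators ContDiff
open Set KO KO3

noncomputable section

private theorem Sd_eq {n : ℕ} (g : Pt n → Matrix (Fin n) (Fin n) ℝ) (x : Pt n)
    (l : List (Pt n)) (j : ℕ) (h : l.length = 4 + j) :
    S g x l = ev (SJ g j) x fun i => l.getD i 0 := by
  have e : l.length - 4 = j := by omega
  unfold S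
  rw [e]
  rfl

private theorem Sd_cons {n : ℕ} (g : Pt n → Matrix (Fin n) (Fin n) ℝ) (x X : Pt n)
    (l : List (Pt n)) (j : ℕ) (h : l.length = 4 + j) :
    S g x (X :: l) = ev (D g (SJ g j)) x (Fin.cons X fun i => l.getD i 0) := by
  rw [Sd_eq g x (X :: l) (j + 1) (by rw [List.length_cons, h]; rfl)]
  change ev (D g (SJ g j)) x (fun i : Fin (4 + j + 1) => (X :: l).getD i 0) = _
  congr 1
  funext i
  refine Fin.cases ?_ (fun i => ?_) i
  · rfl
  · rfl

private theorem Sd_first (h1 : S_La) (h2 : S_Sb) {n : ℕ}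
    (g : Pt n → Matrix (Fin n) (Fin n) ℝ) (Ω : Set (Pt n)) (hg : IsMetricOn g Ω)
    (p : Pt n) (hp : p ∈ Ω) (X : Pt n) (L : List ((ℝ → Pt n) × Pt n × Pt n))
    (hL : 4 ≤ L.length) (hC : ∀ e ∈ L, Cv g p X e.1 e.2.1 e.2.2) :
    HasDerivAt (fun t : ℝ => S g (p + t • X) (L.map fun e => e.1 t))
      (S g p (X :: L.map fun e => e.2.1)
        + dS (S g p) (L.map fun e => e.2.1) (L.map fun e => e.2.2)) 0 := by
  obtain ⟨j, hj⟩ : ∃ j, L.length = 4 + j := ⟨L.length - 4, by omega⟩
  have hsm : Sm Ω (SJ g j) := (h2 n g p).2.2.2.1 Ω hg j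
  obtain ⟨-, -, -, -, -, -, -, -, h9⟩ := h1 (Pt n)
  have hCv : ∀ i : Fin (4 + j), Cv g p X
      (fun t => (L.map fun e => e.1 t).getD i 0) ((L.map fun e => e.2.1).getD i 0)
      ((L.map fun e => e.2.2).getD i 0) := by
    intro i
    have hi : (i : ℕ) < L.length := by rw [hj]; exact i.2
    have key := hC (L[(i : ℕ)]'hi) (List.getElem_mem hi)
    have e1 : ∀ t : ℝ, (L.map fun e => e.1 t).getD i 0 = (L[(i : ℕ)]'hi).1 t := by
      intro t
      rw [List.getD_eq_getElem _ _ (by rw [List.length_map]; exact hi), List.getElem_map]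
    have e2 : (L.map fun e => e.2.1).getD i 0 = (L[(i : ℕ)]'hi).2.1 := by
      rw [List.getD_eq_getElem _ _ (by rw [List.length_map]; exact hi), List.getElem_map]
    have e3 : (L.map fun e => e.2.2).getD i 0 = (L[(i : ℕ)]'hi).2.2 := by
      rw [List.getD_eq_getElem _ _ (by rw [List.length_map]; exact hi), List.getElem_map]
    rw [e2, e3, funext e1]
    exact key
  have main := sCrv n g Ω hg.isOpen (4 + j) (SJ g j) hsm p hp X _ _ _ hCv
  have l1 : ∀ t : ℝ, (L.map fun e => e.1 t).length = 4 + j := fun t => by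
    rw [List.length_map, hj]
  have l2 : (L.map fun e => e.2.1).length = 4 + j := by rw [List.length_map, hj]
  have l3 : (L.map fun e => e.2.2).length = 4 + j := by rw [List.length_map, hj]
  have f1 : (fun t : ℝ => S g (p + t • X) (L.map fun e => e.1 t)) =
      fun t : ℝ => ev (SJ g j) (p + t • X) fun i => (L.map fun e => e.1 t).getD i 0 := by
    funext t
    exact Sd_eq g _ _ j (l1 t)
  rw [f1, Sd_cons g p X _ j l2, h9 _ _ _ (by rw [l2, l3]), l2, Finset.sum_range]
  have f2 : ∀ i : Fin (4 + j), S g p ((L.map fun e => e.2.1).set i ((L.map fun e => e.2.2).getD i 0))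
      = ev (SJ g j) p (Function.update (fun i : Fin (4 + j) => (L.map fun e => e.2.1).getD i 0) i
        ((L.map fun e => e.2.2).getD i 0)) := by
    intro i
    rw [Sd_eq g p _ j (by rw [List.length_set, l2])]
    congr 1
    funext i'
    have hi : (i : ℕ) < (L.map fun e => e.2.1).length := by rw [l2]; exact i.2
    have hi' : (i' : ℕ) < (L.map fun e => e.2.1).length := by rw [l2]; exact i'.2
    rw [List.getD_eq_getElem _ _ (by rw [List.length_set]; exact hi'), List.getElem_set]
    by_cases h : i = i'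
    · subst h
      rw [if_pos rfl, Function.update_self]
    · have h' : (i : ℕ) ≠ (i' : ℕ) := fun h'' => h (Fin.ext h'')
      rw [if_neg h', Function.update_of_ne (Ne.symm h), List.getD_eq_getElem _ _ hi']
  rw [Finset.sum_congr rfl fun i _ => f2 i]
  exact main

theorem tSd (h1 : S_La) (h2 : S_Sb) : S_Sd := by
  intro n g Ω hg p hp X
  refine ⟨fun L hL hC => Sd_first h1 h2 g Ω hg p hp X L hL hC, ?_⟩
  intro l hl
  have h := Sd_first h1 h2 g Ω hg p hp X
    (l.map fun v => ((fun t : ℝ => v - t • Chr g p X v), v, (0 : Pt n)))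
    (by rw [List.length_map]; exact hl) (by
      intro e he
      obtain ⟨v, -, rfl⟩ := List.mem_map.1 he
      exact (sCvb n g p X).1 v)
  simp only [List.map_map, Function.comp_def] at h
  rw [List.map_id''] at h
  · have h0 : dS (S g p) l (l.map fun _ => (0 : Pt n)) = 0 := by
      refine (h1 (Pt n)).2.2.2.1 (S g p) l _ ((h2 n g p).1.2 l.length hl) ?_ ?_
      · rw [List.length_map]
      · intro b hb
        obtain ⟨a, -, rfl⟩ := List.mem_map.1 hb
        rfl
    rw [h0, add_zero] at h
    exact h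
  · intro x
    rfl

end

end Pool.Agent.Lib.MP_9d59e9_gt.KS
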