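import Pool.Agent.Lib.MP_9d59e9_gt.KS.Spec

/-!
# MP_9d59e9_gt, project KS, module Sr: Ricci identity for lists
-/

set_option autoImplicit false

namespace Pool.Agent.Lib.MP_9d59e9_gt.KS

open scoped BigOperators ContDiff
open Set KO KO3

noncomputable section

private theorem Sr_eq {n : ℕ} (g : Pt n → Matrix (Fin n) (Fin n) ℝ) (x : Pt n) (l : List (Pt n))
    (j : ℕ) (hl : l.length = 4 + j) : S g x l = el (SJ g j) x l := by
  unfold S
  have h : l.length - 4 = j := by omega
  rw [h]

private theorem Sr_cons {n : ℕ} (a : Pt n) (l : List (Pt n)) {k : ℕ} :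
    (fun i : Fin (k + 1) => (a :: l).getD i 0) = Fin.cons a fun i : Fin k => l.getD i 0 := by
  funext i
  refine Fin.cases ?_ (fun i => ?_) i
  · rfl
  · simp

private theorem Sr_set {n : ℕ} (l : List (Pt n)) {k : ℕ} (hl : l.length = k) (j : Fin k) (a : Pt n) :
    (fun i : Fin k => (l.set j a).getD i 0) = Function.update (fun i : Fin k => l.getD i 0) j a := by
  funext i
  have hi : (i : ℕ) < l.length := hl ▸ i.2
  have hi' : (i : ℕ) < (l.set j a).length := by rw [List.length_set]; exact hi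
  rw [List.getD_eq_getElem _ _ hi', List.getElem_set]
  by_cases h : j = i
  · subst h
    rw [if_pos rfl, Function.update_self]
  · have h' : ¬ (j : ℕ) = (i : ℕ) := fun h1 => h (Fin.ext h1)
    rw [if_neg h', Function.update_of_ne (Ne.symm h), List.getD_eq_getElem _ _ hi]

theorem tSr (h1 : S_La) (h2 : S_Sb) : S_Sr := by
  intro n g Ω hg p hp x y l hl
  obtain ⟨m, hm⟩ : ∃ m, l.length = 4 + m := ⟨l.length - 4, by omega⟩
  have e1 : ∀ a b : Pt n, S g p (a :: b :: l) =
      ev (D g (D g (SJ g m))) p (Fin.cons a (Fin.cons b fun i : Fin (4 + m) => l.getD i 0)) := by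
    intro a b
    rw [Sr_eq g p (a :: b :: l) (m + 2) (by simp only [List.length_cons]; omega)]
    have h3 : (fun i : Fin (4 + m + 1 + 1) => (a :: b :: l).getD i 0) =
        Fin.cons a (Fin.cons b fun i : Fin (4 + m) => l.getD i 0) := by
      rw [Sr_cons, Sr_cons]
    exact congrArg (ev (D g (D g (SJ g m))) p) h3
  have hsm : Sm Ω (SJ g m) := (h2 n g p).2.2.2.1 Ω hg m
  rw [e1, e1, sRic n g Ω hg p hp (4 + m) (SJ g m) hsm x y]
  congr 1
  rw [(h1 (Pt n)).2.2.2.2.2.2.2.2 (S g p) l (l.map (Rv g p x y)) (by rw [List.length_map]), hm,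
    Finset.sum_range]
  refine Finset.sum_congr rfl fun j _ => ?_
  have hj : (j : ℕ) < l.length := by rw [hm]; exact j.2
  have e3 : (l.map (Rv g p x y)).getD j 0 = Rv g p x y (l.getD j 0) := by
    have hj' : (j : ℕ) < (l.map (Rv g p x y)).length := by rw [List.length_map]; exact hj
    rw [List.getD_eq_getElem _ _ hj', List.getElem_map, List.getD_eq_getElem _ _ hj]
  rw [Sr_eq g p _ m (by rw [List.length_set]; exact hm)]
  unfold el
  rw [Sr_set l hm, e3]

end

end Pool.Agent.Lib.MP_9d59e9_gt.KS
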