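import Pool.Agent.Lib.MP_9d59e9_gt.KS.Spec

/-!
# MP_9d59e9_gt, project KS, module Th: `∇R = 0`
-/

set_option autoImplicit false

namespace Pool.Agent.Lib.MP_9d59e9_gt.KS

open scoped BigOperators ContDiff
open Set KO KO3

noncomputable section

/-- the dual vector field is smooth -/
private theorem Th_W {n : ℕ} {g : Pt n → Matrix (Fin n) (Fin n) ℝ} {U : Set (Pt n)} {θ : TF n 1}
    (hg : IsMetricOn g U) (hθ : Unit1 g U θ) (a : Fin n) :
    ContDiffOn ℝ ∞ (fun x => du g θ x a) U := by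
  obtain ⟨h1, -, -, -, -, -, -, -, -, -, -, h2⟩ := KO.sSmo n g U hg
  unfold du up
  exact ContDiffOn.sum fun b _ => (h1 a b).mul (h2 1 θ hθ.sm _)

theorem tTh (h1 : S_Re) (h2 : S_Ws) (h3 : S_Cz) (h4 : S_W4) (h5 : S_Fi) : S_Th := by
  intro n g Ω r τ J hn hr hK hP hH x hx z a b c d
  by_contra hne
  obtain ⟨U, hU, hU0, θ, α, β, hR, hJ⟩ := h1 n g Ω (τ 1) J (by omega) hK.met (hK.sm 1) hK.ns hP x hx
    ⟨z, a, b, c, d, hne⟩
  obtain ⟨c', hW⟩ := h2 n g U θ α β hn hR (hH U hU θ α β hR hJ)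
  obtain ⟨U', hU', hU0', hW', hc'⟩ := h3 n g U θ α β c' (by omega) hW hU0
  have hK' : KSr g U' r τ := by
    refine ⟨hW'.rot.met, fun m I => (hK.sm m I).mono (hU'.trans hU), fun y hy => hK.ks y ?_,
      fun y hy => hK.ns y ?_⟩
    · exact hU (hU' hy)
    · exact hU (hU' hy)
  have hone : ∀ y ∈ U', e1 θ y (du g θ y) = 1 := by
    intro y hy
    rw [hW'.rot.un.dual y hy, hW'.rot.un.one y hy]
  refine h5 n U' (du g θ) c' α β r hW'.rot.met.isOpen hU0' (Th_W hW'.rot.met hW'.rot.un) hW'.sc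
    hW'.rot.sa hW'.rot.sb hW'.rot.nb hc' ?_ ?_ hr
    (h4 n g U' θ α β c' r τ (by omega) hW' hK')
  · intro y hy
    unfold dV
    rw [hW'.da y hy, hone y hy, mul_one]
  · intro y hy
    unfold dV
    rw [hW'.dc y hy, hone y hy, mul_one]

end

end Pool.Agent.Lib.MP_9d59e9_gt.KS
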