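import Pool.Agent.Lib.MP_9d59e9_gt.KS.Spec

/-!
# MP_9d59e9_gt, project KS: Ricci identity in the first two slots
-/

set_option autoImplicit false

namespace Pool.Agent.Lib.MP_9d59e9_gt.KS

open scoped BigOperators ContDiff
open Set KO KO3

noncomputable section

theorem tTo (h1 : S_Ad) (h2 : S_Sb) (h3 : S_Sr) (h4 : S_Tr) : S_To := by
  intro n g Ω r τ hn hr H hsy p hp u v hu hv
  obtain ⟨⟨_, hml⟩, _, ⟨he1, _, _⟩, _, _⟩ := h2 n g p
  obtain ⟨⟨f, hf1, hf2⟩, hip, _⟩ := sOnb n g p (H.met.pos p hp)
  obtain ⟨hcr, hRv, _, _⟩ := sSym n g Ω H.met p hp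
  obtain ⟨_, hAd, _⟩ := h1 (Pt n) n f
  obtain ⟨_, _, hA4⟩ := hAd (ip g p) hip ⟨hf1, hf2⟩
  have hskew : ∀ a b, ip g p (Rv g p u v a) b = -ip g p a (Rv g p u v b) := by
    intro a b
    rw [hip.symm a, hRv, hRv, hcr.a34]
  have key : ∀ l : List (Pt n), l.length = r + 2 →
      dS (S g p) l (l.map (Rv g p u v)) =
        (el (τ 2) p [u, v] - el (τ 2) p [v, u]) * S g p l := by
    intro l hl
    have hSr := h3 n g Ω H.met p hp u v l (by omega)
    have hk1 := H.ks p hp (u :: v :: l) (by simp [hl])
    have hk2 := H.ks p hp (v :: u :: l) (by simp [hl])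
    have hdiff : ∑ m ∈ Finset.Icc 1 r, el (τ m) p ((u :: v :: l).take m) * S g p ((u :: v :: l).drop m)
        - ∑ m ∈ Finset.Icc 1 r, el (τ m) p ((v :: u :: l).take m) * S g p ((v :: u :: l).drop m) =
        (el (τ 2) p [u, v] - el (τ 2) p [v, u]) * S g p l := by
      rw [← Finset.sum_sub_distrib]
      rw [Finset.sum_eq_single 2]
      · simp only [List.take_succ_cons, List.take_zero, List.drop_succ_cons, List.drop_zero]
        ring
      · intro m hm hm2
        rw [Finset.mem_Icc] at hm
        rcases Nat.lt_or_ge m 2 with h | h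
        · have : m = 1 := by omega
          subst this
          simp only [List.take_succ_cons, List.take_zero, he1, hu, hv]
          ring
        · rcases Nat.lt_or_ge m r with h' | h'
          · obtain ⟨j, rfl⟩ : ∃ j, m = j + 2 := ⟨m - 2, by omega⟩
            simp only [List.take_succ_cons, List.drop_succ_cons]
            rw [hsy p hp (j + 2) (by omega) h' u v hu hv (l.take j) (by
              rw [List.length_take]; omega)]
            ring
          · have : m = r := by omega
            subst this
            rw [h4 n g Ω m τ hn (by omega) H p hp _ (by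
              rw [List.length_take]; simp [hl]; omega),
              h4 n g Ω m τ hn (by omega) H p hp _ (by
              rw [List.length_take]; simp [hl]; omega)]
            ring
      · intro h
        exact absurd (Finset.mem_Icc.2 ⟨by omega, by omega⟩) h
    linarith
  intro l hl
  rw [key l hl]
  rcases hA4 (r + 2) (S g p) (hml (r + 2) (by omega)) (Rv g p u v) hskew _ key with h | h
  · rw [h, zero_mul]
  · rw [h l hl, mul_zero]

end

end Pool.Agent.Lib.MP_9d59e9_gt.KS
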