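import Pool.Agent.Lib.MP_9d59e9_gt.KS.Spec

/-!
# MP_9d59e9_gt, project KS, module Tr: the last coefficient vanishes
-/

set_option autoImplicit false

namespace Pool.Agent.Lib.MP_9d59e9_gt.KS

open scoped BigOperators ContDiff
open Set KO KO3

private theorem Tr_ns {V : Type} {B : V → V → ℝ} {R : V → V → V → V → ℝ} (hns : NSi B R) (u v : V)
    (huu : B u u = 1) (hvv : B v v = 1) (huv : B u v = 0) (hvu : B v u = 0)
    (ha : ∀ a b, R v u a b = -R u v a b) (h0 : ∀ a b, R u v a b = 0) : False := by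
  have h := hns 2 ![u, v] (fun i j => if i = j then 0 else if i = 0 then 1 else -1) (by
      intro i j
      fin_cases i <;> fin_cases j <;> simp [huu, hvv, huv, hvu]) (by
      intro i j
      fin_cases i <;> fin_cases j <;> simp) (by
      intro a b
      simp [Fin.sum_univ_two, h0, ha]) 0 1
  simp at h

/-- Contradiction from a nonzero linear form `σ` with the cyclic identity. -/
private theorem Tr_lin {n : ℕ} (g : Pt n → Matrix (Fin n) (Fin n) ℝ) (Ω : Set (Pt n)) (hn : 3 ≤ n)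
    (hmet : IsMetricOn g Ω) (x : Pt n) (hx : x ∈ Ω) (hns : NSi (ip g x) (e4 (R4 g) x))
    (σ : Pt n → ℝ) (hσ : Lin1 σ)
    (hkey : ∀ c u v w z, σ c * e4 (R4 g) x u v w z + σ u * e4 (R4 g) x v c w z
      + σ v * e4 (R4 g) x c u w z = 0) : ∀ c, σ c = 0 := by
  have hcur := (sSym n g Ω hmet x hx).1
  obtain ⟨m, rfl⟩ : ∃ m, n = m + 1 := ⟨n - 1, by omega⟩
  have hEu := sFrm (m + 1) m g x rfl (hmet.pos x hx)
  by_contra hcon
  push Not at hcon
  obtain ⟨c₀, hc₀⟩ := hcon
  obtain ⟨T, hT⟩ := hEu.ip.riesz σ hσ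
  have hB0 : ∀ v, ip g x 0 v = 0 := by
    intro v
    have := (hEu.ip.lin v).smul 0 0
    simpa using this
  have hT0 : T ≠ 0 := by
    rintro rfl
    exact hc₀ ((hT c₀).symm.trans (hB0 c₀))
  have hpos := hEu.ip.pos T hT0
  have hsq : Real.sqrt (ip g x T T) * Real.sqrt (ip g x T T) = ip g x T T :=
    Real.mul_self_sqrt hpos.le
  have hs0 : 0 < Real.sqrt (ip g x T T) := Real.sqrt_pos.mpr hpos
  set s := Real.sqrt (ip g x T T) with hs
  have hee : ip g x (s⁻¹ • T) (s⁻¹ • T) = 1 := by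
    rw [(hEu.ip.lin (s⁻¹ • T)).smul, hEu.ip.symm, (hEu.ip.lin T).smul, ← hsq]
    field_simp
  obtain ⟨f, hf, hf0⟩ := hEu.fr _ hee
  have hTs : ∀ v, ip g x T v = s * ip g x (f 0) v := by
    intro v
    rw [hf0, (hEu.ip.lin v).smul]
    field_simp
  have hth : ∀ i : Fin (m + 1), σ (f i) = s * (if (0 : Fin (m + 1)) = i then 1 else 0) := by
    intro i
    rw [← hf.on 0 i, ← hTs (f i)]
    exact (hT (f i)).symm
  have hi1 : (⟨1, by omega⟩ : Fin (m + 1)) ≠ 0 := by
    intro h
    have := congrArg Fin.val h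
    simp at this
  have hi2 : (⟨2, by omega⟩ : Fin (m + 1)) ≠ 0 := by
    intro h
    have := congrArg Fin.val h
    simp at this
  have hi12 : (⟨1, by omega⟩ : Fin (m + 1)) ≠ ⟨2, by omega⟩ := by
    intro h
    have := congrArg Fin.val h
    simp at this
  have hR : ∀ w z, e4 (R4 g) x (f ⟨1, by omega⟩) (f ⟨2, by omega⟩) w z = 0 := by
    intro w z
    have h := hkey (f 0) (f ⟨1, by omega⟩) (f ⟨2, by omega⟩) w z
    rw [hth 0, hth ⟨1, by omega⟩, hth ⟨2, by omega⟩, if_pos rfl, if_neg hi1.symm,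
      if_neg hi2.symm] at h
    have h' : s * e4 (R4 g) x (f ⟨1, by omega⟩) (f ⟨2, by omega⟩) w z = 0 := by
      linear_combination h
    exact (mul_eq_zero.mp h').resolve_left hs0.ne'
  refine Tr_ns hns (f ⟨1, by omega⟩) (f ⟨2, by omega⟩) ?_ ?_ ?_ ?_ ?_ hR
  · rw [hf.on, if_pos rfl]
  · rw [hf.on, if_pos rfl]
  · rw [hf.on, if_neg hi12]
  · rw [hf.on, if_neg hi12.symm]
  · intro w z
    exact hcur.a12 _ _ _ _

theorem tTr (h1 : S_Sb) (h2 : S_Sc) : S_Tr := by
  intro n g Ω r τ hn hr hks x hx l hl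
  obtain ⟨⟨hml, -⟩, ⟨h4, -⟩, -⟩ := h1 n g x
  have hSc := h2 n g Ω hks.met x hx
  rcases List.eq_nil_or_concat' l with rfl | ⟨w, c, rfl⟩
  · rw [List.length_nil] at hl
    omega
  rw [List.length_append, List.length_singleton] at hl
  subst hl
  -- the equation for a list `w ++ [c, u, v, z, z']`
  have heq : ∀ c u v z z' : Pt n, S g x (w ++ [c, u, v, z, z'])
      + ∑ m ∈ Finset.Icc 1 w.length, el (τ m) x (w.take m) * S g x (w.drop m ++ [c, u, v, z, z'])
      + el (τ (w.length + 1)) x (w ++ [c]) * e4 (R4 g) x u v z z' = 0 := by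
    intro c u v z z'
    have h := hks.ks x hx (w ++ [c, u, v, z, z']) (by simp)
    rw [Finset.sum_Icc_succ_top (by omega)] at h
    have e1 : (w ++ [c, u, v, z, z']).take (w.length + 1) = w ++ [c] := by
      rw [List.take_append]
      simp
    have e2 : (w ++ [c, u, v, z, z']).drop (w.length + 1) = [u, v, z, z'] := by
      rw [List.drop_append]
      simp
    rw [e1, e2, h4] at h
    have e3 : ∑ m ∈ Finset.Icc 1 w.length, el (τ m) x ((w ++ [c, u, v, z, z']).take m)
        * S g x ((w ++ [c, u, v, z, z']).drop m)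
        = ∑ m ∈ Finset.Icc 1 w.length, el (τ m) x (w.take m) * S g x (w.drop m ++ [c, u, v, z, z']) := by
      refine Finset.sum_congr rfl fun m hm => ?_
      have hm' := (Finset.mem_Icc.1 hm).2
      rw [List.take_append_of_le_length hm', List.drop_append_of_le_length hm']
    rw [e3] at h
    linarith
  have hσ : Lin1 fun c => el (τ (w.length + 1)) x (w ++ [c]) :=
    hml (w.length + 1) (τ (w.length + 1)) w [] (by simp)
  refine Tr_lin g Ω hn hks.met x hx (hks.ns x hx) (fun c => el (τ (w.length + 1)) x (w ++ [c])) hσ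
    ?_ c
  intro c u v z z'
  have k1 := heq c u v z z'
  have k2 := heq u v c z z'
  have k3 := heq v c u z z'
  have k4 := (hSc w).2 c u v z z'
  have k5 : ∑ m ∈ Finset.Icc 1 w.length, el (τ m) x (w.take m) * S g x (w.drop m ++ [c, u, v, z, z'])
      + ∑ m ∈ Finset.Icc 1 w.length, el (τ m) x (w.take m) * S g x (w.drop m ++ [u, v, c, z, z'])
      + ∑ m ∈ Finset.Icc 1 w.length, el (τ m) x (w.take m) * S g x (w.drop m ++ [v, c, u, z, z'])
      = 0 := by
    rw [← Finset.sum_add_distrib, ← Finset.sum_add_distrib]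
    refine Finset.sum_eq_zero fun m _ => ?_
    have k6 := (hSc (w.drop m)).2 c u v z z'
    linear_combination (el (τ m) x (w.take m)) * k6
  linear_combination k1 + k2 + k3 - k4 - k5

end Pool.Agent.Lib.MP_9d59e9_gt.KS
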