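import Pool.Agent.Lib.MP_9d59e9_gt.KS.Spec

/-!
# MP_9d59e9_gt, project KS: module W1

The words `W^j`.
-/

set_option autoImplicit false

namespace Pool.Agent.Lib.MP_9d59e9_gt.KS

open scoped BigOperators ContDiff Topology
open Set KO KO3

noncomputable section

private theorem W1_near {n : ℕ} {Ω : Set (Pt n)} (hO : IsOpen Ω) {p : Pt n} (hp : p ∈ Ω)
    (X : Pt n) : ∀ᶠ t in 𝓝 (0 : ℝ), p + t • X ∈ Ω := by
  have h1 : Continuous fun t : ℝ => p + t • X :=
    continuous_const.add (continuous_id.smul continuous_const)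
  have h2 : (fun t : ℝ => p + t • X) 0 ∈ Ω := by simpa using hp
  exact h1.continuousAt.eventually (hO.mem_nhds h2)

private theorem W1_mul {u v : ℝ → ℝ} (hu : HasDerivAt u 0 0) (hv : HasDerivAt v 0 0) :
    HasDerivAt (fun t => u t * v t) 0 0 := by
  have h := hu.fun_mul hv
  simpa using h

private theorem W1_sub {u v : ℝ → ℝ} (hu : HasDerivAt u 0 0) (hv : HasDerivAt v 0 0) :
    HasDerivAt (fun t => u t - v t) 0 0 := by
  have h := hu.fun_sub hv
  simpa using h

private theorem W1_add {u v : ℝ → ℝ} (hu : HasDerivAt u 0 0) (hv : HasDerivAt v 0 0) :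
    HasDerivAt (fun t => u t + v t) 0 0 := by
  have h := hu.fun_add hv
  simpa using h

/-- derivative of a smooth function along a line -/
private theorem W1_line {n : ℕ} {U : Set (Pt n)} (hU : IsOpen U) {φ : Pt n → ℝ}
    (hφ : ContDiffOn ℝ ∞ φ U) {x : Pt n} (hx : x ∈ U) (X : Pt n) :
    HasDerivAt (fun t : ℝ => φ (x + t • X)) (fderiv ℝ φ x X) 0 := by
  have hd : DifferentiableAt ℝ φ x :=
    (hφ.contDiffAt (hU.mem_nhds hx)).differentiableAt (by simp)
  have h1 : HasFDerivAt φ (fderiv ℝ φ x) ((fun t : ℝ => x + t • X) 0) := by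
    have e : (fun t : ℝ => x + t • X) 0 = x := by simp
    rw [e]
    exact hd.hasFDerivAt
  have h2 : HasDerivAt (fun t : ℝ => x + t • X) X 0 := by
    have h := ((hasDerivAt_id (0 : ℝ)).smul_const X).const_add x
    simpa using h
  exact HasFDerivAt.comp_hasDerivAt (0 : ℝ) h1 h2

theorem tW1 (h1 : S_Sb) (h2 : S_Sd) (h3 : S_La) (h4 : S_Rd) (h5 : S_Cw) : S_W1 := by
  intro n g U θ α β c hW
  have hmet := hW.rot.met
  have hun := hW.rot.un
  have hIP : ∀ x ∈ U, IP (ip g x) := fun x hx => (KO.sOnb n g x (hmet.pos x hx)).2.1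
  have hww : ∀ x ∈ U, e1 θ x (du g θ x) = 1 := fun x hx => by
    rw [hun.dual x hx, hun.one x hx]
  have hsymm : ∀ x ∈ U, ∀ u v, e2 (D g θ) x u v = e2 (D g θ) x v u := by
    intro x hx u v
    rw [hW.dt x hx, hW.dt x hx, (hIP x hx).symm u v]
    ring
  obtain ⟨-, -, -, -, hdV, -⟩ := h4 n g U θ hmet hun hsymm
  have hRα : Rad g U θ α := by
    refine ⟨hW.rot.sa, fun x hx v => ?_⟩
    unfold dV
    rw [hW.da x hx v, hW.da x hx (du g θ x), hww x hx, mul_one]
  have hRβ : Rad g U θ β := ⟨hW.rot.sb, fun x hx v => hW.db x hx v⟩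
  have hit : ∀ φ, Rad g U θ φ → ∀ j, Rad g U θ ((dV (du g θ))^[j] φ) := by
    intro φ hφ j
    induction j with
    | zero => exact hφ
    | succ j ih =>
      rw [Function.iterate_succ_apply']
      exact hdV _ ih
  intro j
  induction j with
  | zero =>
    intro x hx a b c' d
    have h := (h1 n g x).2.1.1 a b c' d
    change S g x [a, b, c', d] = _
    rw [h, hW.rot.R x hx a b c' d]
    rfl
  | succ j ih =>
    intro x hx a b c' d
    obtain ⟨c1, -, -, -, -, cip, -, cex⟩ := KO3.sCvP n g U hmet x hx (du g θ x)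
    obtain ⟨a₁, ha⟩ := cex a
    obtain ⟨b₁, hb⟩ := cex b
    obtain ⟨c₁, hc⟩ := cex c'
    obtain ⟨d₁, hd⟩ := cex d
    have hWc : Cv g x (du g θ x) (fun t => du g θ (x + t • du g θ x)) (du g θ x) 0 := by
      have h := (h5 n g U θ α β c hW x hx (du g θ x)).1
      rw [hww x hx, one_smul, sub_self, smul_zero] at h
      exact h
    have hθ : ∀ u : Pt n, ∀ u₁ : ℝ → Pt n, Cv g x (du g θ x) u₁ u 0 →
        HasDerivAt (fun t : ℝ => e1 θ (x + t • du g θ x) (u₁ t)) 0 0 := by
      intro u u₁ hu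
      have h := c1 θ hun.sm u₁ u hu
      rw [hW.dt x hx, hww x hx, ← hun.dual x hx u] at h
      have e : c x * (e1 θ x u - 1 * e1 θ x u) = 0 := by ring
      rw [e] at h
      exact h
    -- the left side
    set L : List ((ℝ → Pt n) × Pt n × Pt n) :=
      List.replicate j ((fun t : ℝ => du g θ (x + t • du g θ x)), du g θ x, (0 : Pt n)) ++
        [(a₁, a, 0), (b₁, b, 0), (c₁, c', 0), (d₁, d, 0)] with hL
    have hLC : ∀ e ∈ L, Cv g x (du g θ x) e.1 e.2.1 e.2.2 := by
      intro e he
      rw [hL, List.mem_append] at he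
      rcases he with he | he
      · obtain ⟨-, rfl⟩ := List.mem_replicate.1 he
        exact hWc
      · simp only [List.mem_cons, List.not_mem_nil, or_false] at he
        rcases he with rfl | rfl | rfl | rfl
        · exact ha
        · exact hb
        · exact hc
        · exact hd
    have hLl : 4 ≤ L.length := by
      rw [hL, List.length_append]
      simp
    have hl1 : ∀ t : ℝ, (L.map fun e => e.1 t) =
        wk j (du g θ (x + t • du g θ x)) [a₁ t, b₁ t, c₁ t, d₁ t] := by
      intro t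
      rw [hL, List.map_append, List.map_replicate]
      rfl
    have hl2 : (L.map fun e => e.2.1) = wk j (du g θ x) [a, b, c', d] := by
      rw [hL, List.map_append, List.map_replicate]
      rfl
    have hl3 : ∀ v ∈ (L.map fun e => e.2.2), v = 0 := by
      intro v hv
      obtain ⟨e, he, rfl⟩ := List.mem_map.1 hv
      rw [hL, List.mem_append] at he
      rcases he with he | he
      · obtain ⟨-, rfl⟩ := List.mem_replicate.1 he
        rfl
      · simp only [List.mem_cons, List.not_mem_nil, or_false] at he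
        rcases he with rfl | rfl | rfl | rfl <;> rfl
    have hleft := (h2 n g U hmet x hx (du g θ x)).1 L hLl hLC
    have hds : dS (S g x) (L.map fun e => e.2.1) (L.map fun e => e.2.2) = 0 := by
      refine (h3 (Pt n)).2.2.2.1 (S g x) _ _ ?_ ?_ hl3
      · rw [List.length_map]
        exact (h1 n g x).1.2 _ hLl
      · rw [List.length_map, List.length_map]
    rw [hds, add_zero, hl2] at hleft
    simp only [hl1] at hleft
    -- the right side
    have g1 := W1_line hmet.isOpen (hit α hRα j).sm hx (du g θ x)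
    have g2 := W1_line hmet.isOpen (hit β hRβ j).sm hx (du g θ x)
    have k1 : HasDerivAt (fun t : ℝ => G0 (ip g (x + t • du g θ x)) (a₁ t) (b₁ t) (c₁ t) (d₁ t)) 0 0 := by
      unfold G0
      exact W1_sub (W1_mul (cip _ _ _ _ ha hd) (cip _ _ _ _ hb hc))
        (W1_mul (cip _ _ _ _ ha hc) (cip _ _ _ _ hb hd))
    have k2 : HasDerivAt (fun t : ℝ => KN (ip g (x + t • du g θ x))
        (fun p q => e1 θ (x + t • du g θ x) p * e1 θ (x + t • du g θ x) q)
        (a₁ t) (b₁ t) (c₁ t) (d₁ t)) 0 0 := by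
      unfold KN
      exact W1_sub (W1_sub (W1_add
        (W1_mul (cip _ _ _ _ ha hd) (W1_mul (hθ b b₁ hb) (hθ c' c₁ hc)))
        (W1_mul (W1_mul (hθ a a₁ ha) (hθ d d₁ hd)) (cip _ _ _ _ hb hc)))
        (W1_mul (cip _ _ _ _ ha hc) (W1_mul (hθ b b₁ hb) (hθ d d₁ hd))))
        (W1_mul (W1_mul (hθ a a₁ ha) (hθ c' c₁ hc)) (cip _ _ _ _ hb hd))
    have hright := (g1.fun_mul k1).fun_add (g2.fun_mul k2)
    have hev : (fun t : ℝ => S g (x + t • du g θ x)
        (wk j (du g θ (x + t • du g θ x)) [a₁ t, b₁ t, c₁ t, d₁ t])) =ᶠ[𝓝 0] fun t : ℝ =>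
        ((dV (du g θ))^[j] α) (x + t • du g θ x) *
          G0 (ip g (x + t • du g θ x)) (a₁ t) (b₁ t) (c₁ t) (d₁ t) +
        ((dV (du g θ))^[j] β) (x + t • du g θ x) * KN (ip g (x + t • du g θ x))
          (fun p q => e1 θ (x + t • du g θ x) p * e1 θ (x + t • du g θ x) q)
          (a₁ t) (b₁ t) (c₁ t) (d₁ t) := by
      filter_upwards [W1_near hmet.isOpen hx (du g θ x)] with t ht
      exact ih _ ht _ _ _ _
    have heq := hleft.unique (hright.congr_of_eventuallyEq hev)
    have e1' : wk (j + 1) (du g θ x) [a, b, c', d] = du g θ x :: wk j (du g θ x) [a, b, c', d] := rfl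
    rw [e1', heq]
    simp only [zero_smul, add_zero, mul_zero, ha.1, hb.1, hc.1, hd.1]
    rw [Function.iterate_succ_apply', Function.iterate_succ_apply']
    rfl

end

end Pool.Agent.Lib.MP_9d59e9_gt.KS
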