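import Pool.Agent.Lib.MP_9d59e9_gt.KS.Spec

/-!
# MP_9d59e9_gt, project KS: module W2

The words `W^p u W^q`.
-/

set_option autoImplicit false

namespace Pool.Agent.Lib.MP_9d59e9_gt.KS

open scoped BigOperators ContDiff Topology
open Set KO KO3

noncomputable section

private theorem W2_near {n : ℕ} {Ω : Set (Pt n)} (hO : IsOpen Ω) {p : Pt n} (hp : p ∈ Ω)
    (X : Pt n) : ∀ᶠ t in 𝓝 (0 : ℝ), p + t • X ∈ Ω := by
  have h1 : Continuous fun t : ℝ => p + t • X :=
    continuous_const.add (continuous_id.smul continuous_const)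
  have h2 : (fun t : ℝ => p + t • X) 0 ∈ Ω := by simpa using hp
  exact h1.continuousAt.eventually (hO.mem_nhds h2)

/-- derivative of a smooth function along a line -/
private theorem W2_line {n : ℕ} {U : Set (Pt n)} (hU : IsOpen U) {φ : Pt n → ℝ}
    (hφ : ContDiffOn ℝ ∞ φ U) {x : Pt n} (hx : x ∈ U) (X : Pt n) :
    HasDerivAt (fun t : ℝ => φ (x + t • X)) (fderiv ℝ φ x X) 0 := by
  have hd : DifferentiableAt ℝ φ x :=
    (hφ.contDiffAt (hU.mem_nhds hx)).differentiableAt (by simp)
  have h1 : HasFDerivAt φ (fderiv ℝ φ x) ((fun t : ℝ => x + t • X) 0) := by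
    have e : (fun t : ℝ => x + t • X) 0 = x := by simp
    rw [e]
    exact hd.hasFDerivAt
  have h2 : HasDerivAt (fun t : ℝ => x + t • X) X 0 := by
    have h := ((hasDerivAt_id (0 : ℝ)).smul_const X).const_add x
    simpa using h
  exact HasFDerivAt.comp_hasDerivAt (0 : ℝ) h1 h2

/-- derivative of `KN(s)` along curves, the inner products are constant -/
private theorem W2_KN {n : ℕ} {g : Pt n → Matrix (Fin n) (Fin n) ℝ} {x X : Pt n}
    {a b c d : ℝ → Pt n} {s : ℝ → Pt n → Pt n → ℝ} {s' : Pt n → Pt n → ℝ}
    (i1 : HasDerivAt (fun t : ℝ => ip g (x + t • X) (a t) (d t)) 0 0)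
    (i2 : HasDerivAt (fun t : ℝ => ip g (x + t • X) (b t) (c t)) 0 0)
    (i3 : HasDerivAt (fun t : ℝ => ip g (x + t • X) (a t) (c t)) 0 0)
    (i4 : HasDerivAt (fun t : ℝ => ip g (x + t • X) (b t) (d t)) 0 0)
    (j1 : HasDerivAt (fun t : ℝ => s t (b t) (c t)) (s' (b 0) (c 0)) 0)
    (j2 : HasDerivAt (fun t : ℝ => s t (a t) (d t)) (s' (a 0) (d 0)) 0)
    (j3 : HasDerivAt (fun t : ℝ => s t (b t) (d t)) (s' (b 0) (d 0)) 0)
    (j4 : HasDerivAt (fun t : ℝ => s t (a t) (c t)) (s' (a 0) (c 0)) 0) :
    HasDerivAt (fun t : ℝ => KN (ip g (x + t • X)) (s t) (a t) (b t) (c t) (d t))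
      (KN (ip g x) s' (a 0) (b 0) (c 0) (d 0)) 0 := by
  have h := (((i1.fun_mul j1).fun_add (j2.fun_mul i2)).fun_sub (i3.fun_mul j3)).fun_sub
    (j4.fun_mul i4)
  unfold KN
  refine h.congr_deriv ?_
  simp only [zero_smul, add_zero, zero_mul, mul_zero, zero_add]

/-- the product of two functions -/
private theorem W2_sy {f h : ℝ → ℝ} {f' h' : ℝ} (hf : HasDerivAt f f' 0) (hh : HasDerivAt h h' 0) :
    HasDerivAt (fun t => f t * h t) (f' * h 0 + f 0 * h') 0 := hf.fun_mul hh

theorem tW2 (h1 : S_Sb) (h2 : S_Sd) (h3 : S_La) (h4 : S_Rd) (h5 : S_Cl) (h6 : S_Cw)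
    (h7 : S_W1) : S_W2 := by
  intro n g U θ α β c hW
  have hmet := hW.rot.met
  have hun := hW.rot.un
  have hIP : ∀ x ∈ U, IP (ip g x) := fun x hx => (KO.sOnb n g x (hmet.pos x hx)).2.1
  have hww : ∀ x ∈ U, e1 θ x (du g θ x) = 1 := fun x hx => by
    rw [hun.dual x hx, hun.one x hx]
  have hsymm : ∀ x ∈ U, ∀ u v, e2 (D g θ) x u v = e2 (D g θ) x v u := by
    intro x hx u v
    rw [hW.dt x hx, hW.dt x hx, (hIP x hx).symm u v]
    ring
  obtain ⟨-, -, -, -, hdV, hXA⟩ := h4 n g U θ hmet hun hsymm
  have hRα : Rad g U θ α := by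
    refine ⟨hW.rot.sa, fun x hx v => ?_⟩
    unfold dV
    rw [hW.da x hx v, hW.da x hx (du g θ x), hww x hx, mul_one]
  have hRβ : Rad g U θ β := ⟨hW.rot.sb, fun x hx v => hW.db x hx v⟩
  have hRc : Rad g U θ c := by
    refine ⟨hW.sc, fun x hx v => ?_⟩
    unfold dV
    rw [hW.dc x hx v, hW.dc x hx (du g θ x), hww x hx, mul_one]
  have hit : ∀ φ, Rad g U θ φ → ∀ j, Rad g U θ ((dV (du g θ))^[j] φ) := by
    intro φ hφ j
    induction j with
    | zero => exact hφ
    | succ j ih =>
      rw [Function.iterate_succ_apply']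
      exact hdV _ ih
  have hXq := (hXA c β hRc hRβ).1
  have hWsm : ∀ a, ContDiffOn ℝ ∞ (fun x => du g θ x a) U := by
    obtain ⟨k1, -, -, -, -, -, -, -, -, -, -, k2⟩ := KO.sSmo n g U hmet
    intro a
    unfold du up
    exact ContDiffOn.sum fun b _ => (k1 a b).mul (k2 1 θ hun.sm _)
  have hCl := (h5 n U (du g θ) c β hmet.isOpen hWsm hW.sc hW.rot.sb).1
  -- strong induction on the length
  have main : ∀ N p q, p + q = N → ∀ x ∈ U, ∀ u, e1 θ x u = 0 → ∀ a b c' d,
      S g x (wk p (du g θ x) (u :: wk q (du g θ x) [a, b, c', d]))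
        = ((dV (du g θ))^[p] (Xq (du g θ) c β q)) x
          * KN (ip g x) (sy2 (ip g x u) (e1 θ x)) a b c' d := by
    intro N
    induction N using Nat.strong_induction_on with
    | _ N ih =>
    intro p q hpq x hx u hu a b c' d
    rcases p with _ | p
    · -- `p = 0`: derivative along `u` of the formula for `W^q`
      obtain ⟨c1, -, -, -, -, cip, -, cex⟩ := KO3.sCvP n g U hmet x hx u
      obtain ⟨a₁, ha⟩ := cex a
      obtain ⟨b₁, hb⟩ := cex b
      obtain ⟨c₁, hc⟩ := cex c'
      obtain ⟨d₁, hd⟩ := cex d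
      have hWc : Cv g x u (fun t => du g θ (x + t • u)) (du g θ x) (c x • u) := by
        have h := (h6 n g U θ α β c hW x hx u).1
        rw [hu, zero_smul, sub_zero] at h
        exact h
      have hθ : ∀ v : Pt n, ∀ v₁ : ℝ → Pt n, Cv g x u v₁ v 0 →
          HasDerivAt (fun t : ℝ => e1 θ (x + t • u) (v₁ t)) (c x * ip g x u v) 0 := by
        intro v v₁ hv
        have h := c1 θ hun.sm v₁ v hv
        rw [hW.dt x hx, hu, zero_mul, sub_zero] at h
        exact h
      have hL0 : (List.replicate q ((fun t : ℝ => du g θ (x + t • u)), du g θ x, c x • u) ++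
          [(a₁, a, (0 : Pt n)), (b₁, b, 0), (c₁, c', 0), (d₁, d, 0)]).length = q + 4 := by
        rw [List.length_append, List.length_replicate]
        rfl
      set L : List ((ℝ → Pt n) × Pt n × Pt n) :=
        List.replicate q ((fun t : ℝ => du g θ (x + t • u)), du g θ x, c x • u) ++
          [(a₁, a, (0 : Pt n)), (b₁, b, 0), (c₁, c', 0), (d₁, d, 0)] with hL
      have hLC : ∀ e ∈ L, Cv g x u e.1 e.2.1 e.2.2 := by
        intro e he
        rw [hL, List.mem_append] at he
        rcases he with he | he
        · obtain ⟨-, rfl⟩ := List.mem_replicate.1 he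
          exact hWc
        · simp only [List.mem_cons, List.not_mem_nil, or_false] at he
          rcases he with rfl | rfl | rfl | rfl
          · exact ha
          · exact hb
          · exact hc
          · exact hd
      have hl1 : ∀ t : ℝ, (L.map fun e => e.1 t) =
          wk q (du g θ (x + t • u)) [a₁ t, b₁ t, c₁ t, d₁ t] := by
        intro t
        rw [hL, List.map_append, List.map_replicate]
        rfl
      have hl2 : (L.map fun e => e.2.1) = wk q (du g θ x) [a, b, c', d] := by
        rw [hL, List.map_append, List.map_replicate]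
        rfl
      have hl3 : (L.map fun e => e.2.2) = List.replicate q (c x • u) ++ [0, 0, 0, 0] := by
        rw [hL, List.map_append, List.map_replicate]
        rfl
      have hleft := (h2 n g U hmet x hx u).1 L (by omega) hLC
      rw [hl2, hl3] at hleft
      simp only [hl1] at hleft
      -- the value of `dS`
      have hMl : MlL (S g x) (q + 4) := (h1 n g x).1.2 (q + 4) (by omega)
      have hds : dS (S g x) (wk q (du g θ x) [a, b, c', d])
          (List.replicate q (c x • u) ++ [0, 0, 0, 0]) =
          ∑ i ∈ Finset.range q, c x * S g x (wk i (du g θ x)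
            (u :: wk (q - 1 - i) (du g θ x) [a, b, c', d])) := by
        have e1' := (h3 (Pt n)).1 (S g x) (List.replicate q (du g θ x))
          (List.replicate q (c x • u)) [a, b, c', d] [0, 0, 0, 0] (by
            rw [List.length_replicate, List.length_replicate])
        have e2' : dS (fun l => S g x (List.replicate q (du g θ x) ++ l)) [a, b, c', d]
            [0, 0, 0, 0] = 0 := by
          refine (h3 (Pt n)).2.2.2.1 _ _ _ ?_ rfl ?_
          · intro l₁ l₂ hl
            have hl' : l₁.length + l₂.length + 1 = 4 := hl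
            have h := hMl (List.replicate q (du g θ x) ++ l₁) l₂ (by
              rw [List.length_append, List.length_replicate]
              omega)
            simp only [List.append_assoc] at h
            exact h
          · intro v hv
            simp only [List.mem_cons, List.not_mem_nil, or_false, or_self] at hv
            exact hv
        have e3' := (h3 (Pt n)).2.1 (fun l => S g x (l ++ [a, b, c', d])) q (du g θ x) (c x • u)
        change dS (S g x) (List.replicate q (du g θ x) ++ [a, b, c', d]) _ = _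
        rw [e1', e2', add_zero, e3']
        refine Finset.sum_congr rfl fun i hi => ?_
        have hi' := Finset.mem_range.1 hi
        have h := (hMl (List.replicate i (du g θ x))
          (List.replicate (q - 1 - i) (du g θ x) ++ [a, b, c', d]) (by
            rw [List.length_append, List.length_replicate, List.length_replicate]
            simp only [List.length_cons, List.length_nil]
            omega)).smul (c x) u
        unfold wk
        simp only [List.append_assoc, List.cons_append]
        exact h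
      rw [hds] at hleft
      -- the right side
      have g1 := W2_line hmet.isOpen (hit α hRα q).sm hx u
      have g2 := W2_line hmet.isOpen (hit β hRβ q).sm hx u
      rw [(hit α hRα q).d x hx u, hu, mul_zero] at g1
      rw [(hit β hRβ q).d x hx u, hu, mul_zero] at g2
      have k1 : HasDerivAt (fun t : ℝ => G0 (ip g (x + t • u)) (a₁ t) (b₁ t) (c₁ t) (d₁ t))
          0 0 := by
        have h := ((cip _ _ _ _ ha hd).fun_mul (cip _ _ _ _ hb hc)).fun_sub
          ((cip _ _ _ _ ha hc).fun_mul (cip _ _ _ _ hb hd))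
        unfold G0
        refine h.congr_deriv ?_
        ring
      have hs : ∀ v w : Pt n, ∀ v₁ w₁ : ℝ → Pt n, Cv g x u v₁ v 0 → Cv g x u w₁ w 0 →
          HasDerivAt (fun t : ℝ => e1 θ (x + t • u) (v₁ t) * e1 θ (x + t • u) (w₁ t))
            (c x * sy2 (ip g x u) (e1 θ x) (v₁ 0) (w₁ 0)) 0 := by
        intro v w v₁ w₁ hv hw
        refine ((hθ v v₁ hv).fun_mul (hθ w w₁ hw)).congr_deriv ?_
        simp only [zero_smul, add_zero, hv.1, hw.1, sy2]
        ring
      have k2 : HasDerivAt (fun t : ℝ => KN (ip g (x + t • u))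
          (fun p q => e1 θ (x + t • u) p * e1 θ (x + t • u) q)
          (a₁ t) (b₁ t) (c₁ t) (d₁ t))
          (KN (ip g x) (fun v w => c x * sy2 (ip g x u) (e1 θ x) v w) (a₁ 0) (b₁ 0) (c₁ 0) (d₁ 0))
          0 :=
        W2_KN (s := fun t p q => e1 θ (x + t • u) p * e1 θ (x + t • u) q)
          (cip _ _ _ _ ha hd) (cip _ _ _ _ hb hc) (cip _ _ _ _ ha hc) (cip _ _ _ _ hb hd)
          (hs b c' b₁ c₁ hb hc) (hs a d a₁ d₁ ha hd) (hs b d b₁ d₁ hb hd) (hs a c' a₁ c₁ ha hc)
      have hright := (g1.fun_mul k1).fun_add (g2.fun_mul k2)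
      have hev : (fun t : ℝ => S g (x + t • u)
          (wk q (du g θ (x + t • u)) [a₁ t, b₁ t, c₁ t, d₁ t])) =ᶠ[𝓝 0] fun t : ℝ =>
          ((dV (du g θ))^[q] α) (x + t • u) *
            G0 (ip g (x + t • u)) (a₁ t) (b₁ t) (c₁ t) (d₁ t) +
          ((dV (du g θ))^[q] β) (x + t • u) * KN (ip g (x + t • u))
            (fun p q => e1 θ (x + t • u) p * e1 θ (x + t • u) q)
            (a₁ t) (b₁ t) (c₁ t) (d₁ t) := by
        filter_upwards [W2_near hmet.isOpen hx u] with t ht
        exact h7 n g U θ α β c hW q _ ht _ _ _ _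
      have heq := hleft.unique (hright.congr_of_eventuallyEq hev)
      simp only [zero_smul, add_zero, mul_zero, zero_mul, zero_add, ha.1, hb.1, hc.1, hd.1] at heq
      have hsum : ∑ i ∈ Finset.range q, c x * S g x (wk i (du g θ x)
            (u :: wk (q - 1 - i) (du g θ x) [a, b, c', d])) =
          c x * (∑ i ∈ Finset.range q, ((dV (du g θ))^[i] (Xq (du g θ) c β (q - 1 - i))) x) *
            KN (ip g x) (sy2 (ip g x u) (e1 θ x)) a b c' d := by
        rw [Finset.mul_sum, Finset.sum_mul]
        refine Finset.sum_congr rfl fun i hi => ?_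
        have hi' := Finset.mem_range.1 hi
        rw [ih (q - 1) (by omega) i (q - 1 - i) (by omega) x hx u hu a b c' d]
        ring
      have hKc : KN (ip g x) (fun v w => c x * sy2 (ip g x u) (e1 θ x) v w) a b c' d =
          c x * KN (ip g x) (sy2 (ip g x u) (e1 θ x)) a b c' d := by
        unfold KN
        ring
      rw [hsum, hKc] at heq
      have hX := hCl q x hx
      change S g x (u :: wk q (du g θ x) [a, b, c', d]) = Xq (du g θ) c β q x * _
      rw [hX]
      linear_combination heq
    · -- `p + 1`: derivative along `W` of the formula for `(p, q)`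
      obtain ⟨c1, -, -, -, -, cip, -, cex⟩ := KO3.sCvP n g U hmet x hx (du g θ x)
      obtain ⟨a₁, ha⟩ := cex a
      obtain ⟨b₁, hb⟩ := cex b
      obtain ⟨c₁, hc⟩ := cex c'
      obtain ⟨d₁, hd⟩ := cex d
      obtain ⟨hWc', hus, -⟩ := h6 n g U θ α β c hW x hx (du g θ x)
      have hWc : Cv g x (du g θ x) (fun t => du g θ (x + t • du g θ x)) (du g θ x) 0 := by
        rw [hww x hx, one_smul, sub_self, smul_zero] at hWc'
        exact hWc'
      obtain ⟨us, hus1, hus2⟩ := hus u hu
      have huc : Cv g x (du g θ x) us u 0 := by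
        rw [← hun.dual x hx, hu, mul_zero, neg_zero, zero_smul] at hus1
        exact hus1
      have hθ : ∀ v : Pt n, ∀ v₁ : ℝ → Pt n, Cv g x (du g θ x) v₁ v 0 →
          HasDerivAt (fun t : ℝ => e1 θ (x + t • du g θ x) (v₁ t)) 0 0 := by
        intro v v₁ hv
        have h := c1 θ hun.sm v₁ v hv
        rw [hW.dt x hx, hww x hx, ← hun.dual x hx v] at h
        have e : c x * (e1 θ x v - 1 * e1 θ x v) = 0 := by ring
        rw [e] at h
        exact h
      set L : List ((ℝ → Pt n) × Pt n × Pt n) :=
        List.replicate p ((fun t : ℝ => du g θ (x + t • du g θ x)), du g θ x, (0 : Pt n)) ++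
          (us, u, 0) ::
          (List.replicate q ((fun t : ℝ => du g θ (x + t • du g θ x)), du g θ x, (0 : Pt n)) ++
          [(a₁, a, (0 : Pt n)), (b₁, b, 0), (c₁, c', 0), (d₁, d, 0)]) with hL
      have hLm : ∀ e ∈ L, (e = ((fun t : ℝ => du g θ (x + t • du g θ x)), du g θ x, (0 : Pt n)) ∨
          e = (us, u, 0)) ∨ e = (a₁, a, (0 : Pt n)) ∨ e = (b₁, b, 0) ∨ e = (c₁, c', 0) ∨
            e = (d₁, d, 0) := by
        intro e he
        rw [hL, List.mem_append, List.mem_cons, List.mem_append] at he
        rcases he with he | he | he | he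
        · exact Or.inl (Or.inl (List.mem_replicate.1 he).2)
        · exact Or.inl (Or.inr he)
        · exact Or.inl (Or.inl (List.mem_replicate.1 he).2)
        · simp only [List.mem_cons, List.not_mem_nil, or_false] at he
          exact Or.inr he
      have hLC : ∀ e ∈ L, Cv g x (du g θ x) e.1 e.2.1 e.2.2 := by
        intro e he
        rcases hLm e he with (rfl | rfl) | rfl | rfl | rfl | rfl
        · exact hWc
        · exact huc
        · exact ha
        · exact hb
        · exact hc
        · exact hd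
      have hLl : L.length = p + (q + 4 + 1) := by
        rw [hL, List.length_append, List.length_replicate, List.length_cons, List.length_append,
          List.length_replicate]
        rfl
      have hl1 : ∀ t : ℝ, (L.map fun e => e.1 t) =
          wk p (du g θ (x + t • du g θ x)) (us t ::
            wk q (du g θ (x + t • du g θ x)) [a₁ t, b₁ t, c₁ t, d₁ t]) := by
        intro t
        rw [hL, List.map_append, List.map_cons, List.map_append, List.map_replicate,
          List.map_replicate]
        rfl
      have hl2 : (L.map fun e => e.2.1) = wk p (du g θ x) (u :: wk q (du g θ x) [a, b, c', d]) := by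
        rw [hL, List.map_append, List.map_cons, List.map_append, List.map_replicate,
          List.map_replicate]
        rfl
      have hl3 : ∀ v ∈ (L.map fun e => e.2.2), v = 0 := by
        intro v hv
        obtain ⟨e, he, rfl⟩ := List.mem_map.1 hv
        rcases hLm e he with (rfl | rfl) | rfl | rfl | rfl | rfl <;> rfl
      have hleft := (h2 n g U hmet x hx (du g θ x)).1 L (by omega) hLC
      have hds : dS (S g x) (L.map fun e => e.2.1) (L.map fun e => e.2.2) = 0 := by
        refine (h3 (Pt n)).2.2.2.1 (S g x) _ _ ?_ ?_ hl3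
        · rw [List.length_map]
          exact (h1 n g x).1.2 _ (by omega)
        · rw [List.length_map, List.length_map]
      rw [hds, add_zero, hl2] at hleft
      simp only [hl1] at hleft
      -- the right side
      have g1 := W2_line hmet.isOpen (hit _ (hXq q) p).sm hx (du g θ x)
      have hs : ∀ v w : Pt n, ∀ v₁ w₁ : ℝ → Pt n, Cv g x (du g θ x) v₁ v 0 →
          Cv g x (du g θ x) w₁ w 0 →
          HasDerivAt (fun t : ℝ => sy2 (ip g (x + t • du g θ x) (us t))
            (e1 θ (x + t • du g θ x)) (v₁ t) (w₁ t)) 0 0 := by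
        intro v w v₁ w₁ hv hw
        unfold sy2
        refine (((cip _ _ _ _ huc hv).fun_mul (hθ w w₁ hw)).fun_add
          ((hθ v v₁ hv).fun_mul (cip _ _ _ _ huc hw))).congr_deriv ?_
        ring
      have k2 : HasDerivAt (fun t : ℝ => KN (ip g (x + t • du g θ x))
          (sy2 (ip g (x + t • du g θ x) (us t)) (e1 θ (x + t • du g θ x)))
          (a₁ t) (b₁ t) (c₁ t) (d₁ t)) 0 0 := by
        have h := W2_KN (g := g) (x := x) (X := du g θ x)
          (s := fun t => sy2 (ip g (x + t • du g θ x) (us t)) (e1 θ (x + t • du g θ x)))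
          (s' := fun _ _ => 0)
          (cip _ _ _ _ ha hd) (cip _ _ _ _ hb hc) (cip _ _ _ _ ha hc) (cip _ _ _ _ hb hd)
          (hs b c' b₁ c₁ hb hc) (hs a d a₁ d₁ ha hd) (hs b d b₁ d₁ hb hd) (hs a c' a₁ c₁ ha hc)
        refine h.congr_deriv ?_
        unfold KN
        ring
      have hright := g1.fun_mul k2
      have hev : (fun t : ℝ => S g (x + t • du g θ x)
          (wk p (du g θ (x + t • du g θ x)) (us t ::
            wk q (du g θ (x + t • du g θ x)) [a₁ t, b₁ t, c₁ t, d₁ t]))) =ᶠ[𝓝 0] fun t : ℝ =>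
          ((dV (du g θ))^[p] (Xq (du g θ) c β q)) (x + t • du g θ x) *
          KN (ip g (x + t • du g θ x))
          (sy2 (ip g (x + t • du g θ x) (us t)) (e1 θ (x + t • du g θ x)))
          (a₁ t) (b₁ t) (c₁ t) (d₁ t) := by
        filter_upwards [W2_near hmet.isOpen hx (du g θ x), hus2] with t ht ht2
        exact ih (p + q) (by omega) p q rfl _ ht _ ht2 _ _ _ _
      have heq := hleft.unique (hright.congr_of_eventuallyEq hev)
      change S g x (du g θ x :: wk p (du g θ x) (u :: wk q (du g θ x) [a, b, c', d])) = _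
      rw [heq, Function.iterate_succ_apply']
      simp only [zero_smul, add_zero, mul_zero, ha.1, hb.1, hc.1, hd.1, huc.1]
      rfl
  intro p q x hx u hu a b c' d
  exact main (p + q) p q rfl x hx u hu a b c' d

end

end Pool.Agent.Lib.MP_9d59e9_gt.KS
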