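import Pool.Agent.Lib.MP_9d59e9_gt.KS.Spec

/-!
# MP_9d59e9_gt, project KS, module W3: the words `W^k u W^p v W^q`
-/

set_option autoImplicit false

namespace Pool.Agent.Lib.MP_9d59e9_gt.KS

open scoped BigOperators ContDiff
open Set KO KO3

noncomputable section

/-! ### lists -/

section lists

variable {V : Type} [AddCommGroup V] [Module ℝ V]

private theorem W3_pre {F : List V → ℝ} {k : ℕ} (l₀ : List V) (h : MlL F (l₀.length + k)) :
    MlL (fun l => F (l₀ ++ l)) k := by
  intro l₁ l₂ hl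
  have h1 := h (l₀ ++ l₁) l₂ (by rw [List.length_append]; omega)
  simpa only [List.append_assoc] using h1

private theorem W3_smul {F : List V → ℝ} {k : ℕ} (h : MlL F k) (l₁ l₂ : List V)
    (hl : l₁.length + l₂.length + 1 = k) (r : ℝ) (u : V) :
    F (l₁ ++ (r • u) :: l₂) = r * F (l₁ ++ u :: l₂) := (h l₁ l₂ hl).smul r u

private theorem W3_zero {F : List V → ℝ} {k : ℕ} (h : MlL F k) (l₁ l₂ : List V)
    (hl : l₁.length + l₂.length + 1 = k) : F (l₁ ++ (0 : V) :: l₂) = 0 := by
  have h1 := W3_smul h l₁ l₂ hl 0 0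
  rwa [zero_smul, zero_mul] at h1

/-- `dS` of a word in `W` and a tail `l`, `W` replaced by `r • u`, the tail by zeros -/
private theorem W3_wk (h1 : S_La) (F : List V → ℝ) (q : ℕ) (W u : V) (r : ℝ) (l m : List V)
    (hlm : l.length = m.length) (hm : ∀ b ∈ m, b = 0) (hF : MlL F (q + l.length)) :
    dS F (wk q W l) (wk q (r • u) m)
      = r * ∑ i ∈ Finset.range q, F (wk i W (u :: wk (q - 1 - i) W l)) := by
  obtain ⟨l1, l2, -, l4, -⟩ := h1 V
  rw [l1 F (List.replicate q W) (List.replicate q (r • u)) l m (by simp), l2,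
    l4 (fun l' => F (List.replicate q W ++ l')) l m
      (W3_pre _ (by rwa [List.length_replicate])) hlm hm, add_zero, Finset.mul_sum]
  refine Finset.sum_congr rfl fun i hi => ?_
  have hi' := Finset.mem_range.1 hi
  rw [List.append_assoc, List.cons_append]
  refine W3_smul hF _ _ ?_ r u
  rw [List.length_append, List.length_replicate, List.length_replicate]
  omega

private theorem W3_list (h1 : S_La) (F : List V → ℝ) (p q : ℕ)
    (W v u a b c' d : V) (r : ℝ) (hF : MlL F (p + (q + 4 + 1))) :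
    dS F (wk p W (v :: wk q W [a, b, c', d])) (wk p (r • u) ((0 : V) :: wk q (r • u) [0, 0, 0, 0]))
      = r * (∑ i ∈ Finset.range p, F (wk i W (u :: wk (p - 1 - i) W (v :: wk q W [a, b, c', d]))))
        + r * ∑ i ∈ Finset.range q,
            F (wk p W (v :: wk i W (u :: wk (q - 1 - i) W [a, b, c', d]))) := by
  obtain ⟨l1, l2, -, l4, -⟩ := h1 V
  have e0 : (v :: wk q W [a, b, c', d]).length = q + 4 + 1 := by simp
  rw [l1 F (List.replicate p W) (List.replicate p (r • u)) (v :: wk q W [a, b, c', d])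
    ((0 : V) :: wk q (r • u) [0, 0, 0, 0]) (by simp), l2]
  congr 1
  · rw [Finset.mul_sum]
    refine Finset.sum_congr rfl fun i hi => ?_
    have hi' := Finset.mem_range.1 hi
    rw [List.append_assoc, List.cons_append]
    refine W3_smul hF _ _ ?_ r u
    rw [List.length_append, List.length_replicate, List.length_replicate, e0]
    omega
  · have e1 : dS (fun l => F (List.replicate p W ++ l)) (v :: wk q W [a, b, c', d])
        ((0 : V) :: wk q (r • u) [0, 0, 0, 0])
        = F (List.replicate p W ++ (0 : V) :: wk q W [a, b, c', d])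
          + dS (fun l => F (List.replicate p W ++ v :: l)) (wk q W [a, b, c', d])
            (wk q (r • u) [0, 0, 0, 0]) := rfl
    have e3 : (List.replicate p W).length + (wk q W [a, b, c', d]).length + 1
        = p + (q + 4 + 1) := by
      simp only [List.length_append, List.length_cons, List.length_nil, List.length_replicate]
      omega
    rw [e1, W3_zero hF _ _ e3, zero_add,
      W3_wk h1 (fun l => F (List.replicate p W ++ v :: l)) q W u r [a, b, c', d] [0, 0, 0, 0] rfl
        (by simp)]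
    have h2 := W3_pre (F := F) (k := q + 4) (List.replicate p W ++ [v]) (by
      have e2 : (List.replicate p W ++ [v]).length + (q + 4) = p + (q + 4 + 1) := by
        simp
        omega
      rwa [e2])
    intro l₁ l₂ hl
    have h3 := h2 l₁ l₂ hl
    simpa only [List.append_assoc, List.cons_append, List.nil_append] using h3

end lists

/-! ### the product rule -/

private theorem W3_der {φ Bad Bbc Bac Bbd Va Vb Vc Vd Ta Tb Tc Td : ℝ → ℝ} {φ' ta tb tc td : ℝ}
    (hφ : HasDerivAt φ φ' 0) (had : HasDerivAt Bad 0 0) (hbc : HasDerivAt Bbc 0 0)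
    (hac : HasDerivAt Bac 0 0) (hbd : HasDerivAt Bbd 0 0) (hva : HasDerivAt Va 0 0)
    (hvb : HasDerivAt Vb 0 0) (hvc : HasDerivAt Vc 0 0) (hvd : HasDerivAt Vd 0 0)
    (hta : HasDerivAt Ta ta 0) (htb : HasDerivAt Tb tb 0) (htc : HasDerivAt Tc tc 0)
    (htd : HasDerivAt Td td 0) :
    HasDerivAt (fun t => φ t * (Bad t * (Vb t * Tc t + Tb t * Vc t)
        + (Va t * Td t + Ta t * Vd t) * Bbc t - Bac t * (Vb t * Td t + Tb t * Vd t)
        - (Va t * Tc t + Ta t * Vc t) * Bbd t))
      (φ' * (Bad 0 * (Vb 0 * Tc 0 + Tb 0 * Vc 0)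
        + (Va 0 * Td 0 + Ta 0 * Vd 0) * Bbc 0 - Bac 0 * (Vb 0 * Td 0 + Tb 0 * Vd 0)
        - (Va 0 * Tc 0 + Ta 0 * Vc 0) * Bbd 0)
      + φ 0 * (Bad 0 * (Vb 0 * tc + tb * Vc 0)
        + (Va 0 * td + ta * Vd 0) * Bbc 0 - Bac 0 * (Vb 0 * td + tb * Vd 0)
        - (Va 0 * tc + ta * Vc 0) * Bbd 0)) 0 := by
  have h := hφ.fun_mul ((((had.fun_mul ((hvb.fun_mul htc).fun_add (htb.fun_mul hvc))).fun_add
    (((hva.fun_mul htd).fun_add (hta.fun_mul hvd)).fun_mul hbc)).fun_sub
    (hac.fun_mul ((hvb.fun_mul htd).fun_add (htb.fun_mul hvd)))).fun_sub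
    (((hva.fun_mul htc).fun_add (hta.fun_mul hvc)).fun_mul hbd))
  refine h.congr_deriv ?_
  ring

/-! ### geometry -/

section geo

variable {n : ℕ} {g : Pt n → Matrix (Fin n) (Fin n) ℝ} {U : Set (Pt n)} {θ : TF n 1}
  {α β c : Pt n → ℝ}

private theorem W3_line (x X : Pt n) : HasDerivAt (fun t : ℝ => x + t • X) X 0 := by
  have h1 : HasDerivAt (fun t : ℝ => t • X) ((1 : ℝ) • X) 0 := (hasDerivAt_id (0 : ℝ)).smul_const X
  rw [one_smul] at h1
  exact h1.const_add x

private theorem W3_at (x X : Pt n) : x + (0 : ℝ) • X = x := by rw [zero_smul, add_zero]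

private theorem W3_ev (hU : IsOpen U) {x : Pt n} (hx : x ∈ U) (X : Pt n) :
    ∀ᶠ t in nhds (0 : ℝ), x + t • X ∈ U := by
  have h2 := (W3_line x X).continuousAt.tendsto
  rw [W3_at] at h2
  exact h2 (hU.mem_nhds hx)

private theorem W3_fun {φ : Pt n → ℝ} (hU : IsOpen U) (h : ContDiffOn ℝ ∞ φ U) {x : Pt n}
    (hx : x ∈ U) (X : Pt n) : HasDerivAt (fun t : ℝ => φ (x + t • X)) (fderiv ℝ φ x X) 0 := by
  have hd : DifferentiableAt ℝ φ x := (h.contDiffAt (hU.mem_nhds hx)).differentiableAt (by simp)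
  exact hd.hasFDerivAt.comp_hasDerivAt_of_eq (0 : ℝ) (W3_line x X) (W3_at x X).symm

private theorem W3_symm (h : Wst g U θ α β c) {x : Pt n} (hx : x ∈ U) (u v : Pt n) :
    ip g x u v = ip g x v u := (KO.sOnb n g x (h.rot.met.pos x hx)).2.1.symm u v

private theorem W3_rad (hRd : S_Rd) (h : Wst g U θ α β c) :
    (∀ φ, Rad g U θ φ → Rad g U θ (dV (du g θ) φ)) ∧ (∀ q, Rad g U θ (Xq (du g θ) c β q)) ∧
      ∀ p q, Rad g U θ (Apq (du g θ) c β p q) := by
  have hβ : Rad g U θ β := ⟨h.rot.sb, fun x hx v => h.db x hx v⟩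
  have hc : Rad g U θ c := ⟨h.sc, fun x hx v => by
    unfold dV
    rw [h.dc x hx v, h.dc x hx (du g θ x), h.rot.un.dual x hx (du g θ x), h.rot.un.one x hx,
      mul_one]⟩
  have hs : ∀ x ∈ U, ∀ u v, e2 (D g θ) x u v = e2 (D g θ) x v u := by
    intro x hx u v
    rw [h.dt x hx, h.dt x hx, W3_symm h hx u v]
    ring
  obtain ⟨-, -, -, -, h5, h6⟩ := hRd n g U θ h.rot.met h.rot.un hs
  exact ⟨h5, h6 c β hc hβ⟩

private theorem W3_iter (hRd : S_Rd) (h : Wst g U θ α β c) {φ : Pt n → ℝ} (hφ : Rad g U θ φ)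
    (k : ℕ) : Rad g U θ ((dV (du g θ))^[k] φ) := by
  induction k with
  | zero => exact hφ
  | succ k ih =>
    rw [Function.iterate_succ_apply']
    exact (W3_rad hRd h).1 _ ih

private theorem W3_W (h : Wst g U θ α β c) (a : Fin n) :
    ContDiffOn ℝ ∞ (fun x => du g θ x a) U := by
  obtain ⟨h1, -, -, -, -, -, -, -, -, -, -, h2⟩ := KO.sSmo n g U h.rot.met
  unfold du up
  exact ContDiffOn.sum fun b _ => (h1 a b).mul (h2 1 θ h.rot.un.sm _)

/-- step (A) -/
private theorem W3_A (hSb : S_Sb) (hSd : S_Sd) (hLa : S_La) (hRd : S_Rd) (hCw : S_Cw)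
    (hW2 : S_W2) (h : Wst g U θ α β c) (p q : ℕ) {x : Pt n} (hx : x ∈ U) {u v : Pt n}
    (hu : e1 θ x u = 0) (hv : e1 θ x v = 0) (huv : ip g x u v = 0) (a b c' d : Pt n) :
    S g x (u :: wk p (du g θ x) (v :: wk q (du g θ x) [a, b, c', d]))
      + (c x * (∑ i ∈ Finset.range p, S g x (wk i (du g θ x) (u :: wk (p - 1 - i) (du g θ x)
          (v :: wk q (du g θ x) [a, b, c', d]))))
        + c x * ∑ i ∈ Finset.range q, S g x (wk p (du g θ x) (v :: wk i (du g θ x)
          (u :: wk (q - 1 - i) (du g θ x) [a, b, c', d]))))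
      = c x * ((dV (du g θ))^[p] (Xq (du g θ) c β q)) x
          * KN (ip g x) (sy2 (ip g x u) (ip g x v)) a b c' d := by
  have hg := h.rot.met
  have hU := hg.isOpen
  obtain ⟨k1, -, -, -, -, k6, -, k8⟩ := KO3.sCvP n g U hg x hx u
  obtain ⟨as, ha⟩ := k8 a
  obtain ⟨bs, hb⟩ := k8 b
  obtain ⟨cs, hc⟩ := k8 c'
  obtain ⟨ds, hd⟩ := k8 d
  obtain ⟨w1, w2, -⟩ := hCw n g U θ α β c h x hx u
  rw [hu, zero_smul, sub_zero] at w1
  obtain ⟨vs, hvs, hv0⟩ := w2 v hv
  rw [huv, mul_zero, neg_zero, zero_smul] at hvs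
  have hL := (hSd n g U hg x hx u).1
    (List.replicate p ((fun t : ℝ => du g θ (x + t • u)), du g θ x, c x • u) ++
      (vs, v, (0 : Pt n)) :: (List.replicate q ((fun t : ℝ => du g θ (x + t • u)), du g θ x,
        c x • u) ++ [(as, a, (0 : Pt n)), (bs, b, (0 : Pt n)), (cs, c', (0 : Pt n)),
          (ds, d, (0 : Pt n))]))
    (by
      simp only [List.length_append, List.length_cons, List.length_nil, List.length_replicate]
      omega)
    (by
      intro e he
      simp only [List.mem_append, List.mem_cons, List.mem_replicate, List.not_mem_nil,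
        or_false] at he
      rcases he with ⟨-, rfl⟩ | rfl | ⟨-, rfl⟩ | rfl | rfl | rfl | rfl
      · exact w1
      · exact hvs
      · exact w1
      · exact ha
      · exact hb
      · exact hc
      · exact hd)
  simp only [List.map_append, List.map_cons, List.map_nil, List.map_replicate] at hL
  have hφ : Rad g U θ ((dV (du g θ))^[p] (Xq (du g θ) c β q)) :=
    W3_iter hRd h ((W3_rad hRd h).2.1 q) p
  have hθ : ∀ (as : ℝ → Pt n) (a : Pt n), Cv g x u as a 0 →
      HasDerivAt (fun t : ℝ => e1 θ (x + t • u) (as t)) (c x * ip g x u a) 0 := by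
    intro as a ha
    have h1 := k1 θ h.rot.un.sm as a ha
    rwa [h.dt x hx, hu, zero_mul, sub_zero] at h1
  have hR := W3_der (W3_fun hU hφ.sm hx u) (k6 _ _ _ _ ha hd) (k6 _ _ _ _ hb hc)
    (k6 _ _ _ _ ha hc) (k6 _ _ _ _ hb hd) (k6 _ _ _ _ hvs ha) (k6 _ _ _ _ hvs hb)
    (k6 _ _ _ _ hvs hc) (k6 _ _ _ _ hvs hd) (hθ _ _ ha) (hθ _ _ hb) (hθ _ _ hc) (hθ _ _ hd)
  have hmain := hL.unique (hR.congr_of_eventuallyEq (by
    filter_upwards [W3_ev hU hx u, hv0] with t ht ht0
    exact hW2 n g U θ α β c h p q (x + t • u) ht (vs t) ht0 (as t) (bs t) (cs t) (ds t)))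
  have hF : MlL (S g x) (p + (q + 4 + 1)) := (hSb n g x).1.2 _ (by omega)
  have hl := W3_list hLa (S g x) p q (du g θ x) v u a b c' d (c x) hF
  rw [← hl]
  refine hmain.trans ?_
  rw [hφ.d x hx u, hu, W3_at, ha.1, hb.1, hc.1, hd.1, hvs.1]
  unfold KN sy2
  ring

/-- step (B) -/
private theorem W3_B (hSb : S_Sb) (hSd : S_Sd) (hLa : S_La) (hRd : S_Rd) (hCw : S_Cw)
    (h : Wst g U θ α β c) (k p q : ℕ)
    (ih : ∀ x ∈ U, ∀ u v, e1 θ x u = 0 → e1 θ x v = 0 → ip g x u v = 0 → ∀ a b c' d,
      S g x (wk k (du g θ x) (u :: wk p (du g θ x) (v :: wk q (du g θ x) [a, b, c', d])))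
        = ((dV (du g θ))^[k] (Apq (du g θ) c β p q)) x
          * KN (ip g x) (sy2 (ip g x u) (ip g x v)) a b c' d)
    {x : Pt n} (hx : x ∈ U) {u v : Pt n} (hu0 : u ≠ 0)
    (hu : e1 θ x u = 0) (hv : e1 θ x v = 0) (huv : ip g x u v = 0) (a b c' d : Pt n) :
    S g x (wk (k + 1) (du g θ x) (u :: wk p (du g θ x) (v :: wk q (du g θ x) [a, b, c', d])))
        = ((dV (du g θ))^[k + 1] (Apq (du g θ) c β p q)) x
          * KN (ip g x) (sy2 (ip g x u) (ip g x v)) a b c' d := by
  have hg := h.rot.met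
  have hU := hg.isOpen
  obtain ⟨-, -, -, -, -, k6, -, k8⟩ := KO3.sCvP n g U hg x hx (du g θ x)
  obtain ⟨as, ha⟩ := k8 a
  obtain ⟨bs, hb⟩ := k8 b
  obtain ⟨cs, hc⟩ := k8 c'
  obtain ⟨ds, hd⟩ := k8 d
  have hdual := h.rot.un.dual x hx
  have hone := h.rot.un.one x hx
  obtain ⟨w1, -, w3⟩ := hCw n g U θ α β c h x hx (du g θ x)
  rw [hdual, hone, one_smul, sub_self, smul_zero] at w1
  obtain ⟨us, vs, hus, hvs, hev⟩ := w3 u v hu hv huv hu0
  rw [← hdual, hu, mul_zero, neg_zero, zero_smul] at hus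
  rw [← hdual, hv, mul_zero, neg_zero, zero_smul] at hvs
  have hL := (hSd n g U hg x hx (du g θ x)).1
    (List.replicate k ((fun t : ℝ => du g θ (x + t • du g θ x)), du g θ x, (0 : Pt n)) ++
      (us, u, (0 : Pt n)) ::
      (List.replicate p ((fun t : ℝ => du g θ (x + t • du g θ x)), du g θ x, (0 : Pt n)) ++
      (vs, v, (0 : Pt n)) ::
      (List.replicate q ((fun t : ℝ => du g θ (x + t • du g θ x)), du g θ x, (0 : Pt n)) ++
        [(as, a, (0 : Pt n)), (bs, b, (0 : Pt n)), (cs, c', (0 : Pt n)), (ds, d, (0 : Pt n))])))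
    (by
      simp only [List.length_append, List.length_cons, List.length_nil, List.length_replicate]
      omega)
    (by
      intro e he
      simp only [List.mem_append, List.mem_cons, List.mem_replicate, List.not_mem_nil,
        or_false] at he
      rcases he with ⟨-, rfl⟩ | rfl | ⟨-, rfl⟩ | rfl | ⟨-, rfl⟩ | rfl | rfl | rfl | rfl
      · exact w1
      · exact hus
      · exact w1
      · exact hvs
      · exact w1
      · exact ha
      · exact hb
      · exact hc
      · exact hd)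
  simp only [List.map_append, List.map_cons, List.map_nil, List.map_replicate] at hL
  have hφ : Rad g U θ ((dV (du g θ))^[k] (Apq (du g θ) c β p q)) :=
    W3_iter hRd h ((W3_rad hRd h).2.2 p q) k
  have hR := W3_der (W3_fun hU hφ.sm hx (du g θ x)) (k6 _ _ _ _ ha hd) (k6 _ _ _ _ hb hc)
    (k6 _ _ _ _ ha hc) (k6 _ _ _ _ hb hd) (k6 _ _ _ _ hus ha) (k6 _ _ _ _ hus hb)
    (k6 _ _ _ _ hus hc) (k6 _ _ _ _ hus hd) (k6 _ _ _ _ hvs ha) (k6 _ _ _ _ hvs hb)
    (k6 _ _ _ _ hvs hc) (k6 _ _ _ _ hvs hd)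
  have hmain := hL.unique (hR.congr_of_eventuallyEq (by
    filter_upwards [W3_ev hU hx (du g θ x), hev] with t ht ht0
    exact ih (x + t • du g θ x) ht (us t) (vs t) ht0.1 ht0.2.1 ht0.2.2.1 (as t) (bs t) (cs t)
      (ds t)))
  have hz : dS (S g x) (wk k (du g θ x) (u :: wk p (du g θ x) (v :: wk q (du g θ x) [a, b, c', d])))
      (wk k 0 (0 :: wk p 0 (0 :: wk q 0 [0, 0, 0, 0]))) = 0 := by
    refine (hLa (Pt n)).2.2.2.1 (S g x) _ _ ((hSb n g x).1.2 _ ?_) ?_ ?_
    · simp only [List.length_append, List.length_cons, List.length_nil, List.length_replicate]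
      omega
    · simp only [List.length_append, List.length_cons, List.length_nil, List.length_replicate]
    · intro y hy
      simp only [List.mem_append, List.mem_cons, List.mem_replicate, List.not_mem_nil,
        or_false] at hy
      tauto
  rw [hz, add_zero] at hmain
  rw [Function.iterate_succ_apply']
  refine Eq.trans ?_ (hmain.trans ?_)
  · rfl
  · rw [W3_at, ha.1, hb.1, hc.1, hd.1, hus.1, hvs.1]
    unfold KN sy2 dV
    ring

end geo

theorem tW3 (h1 : S_Sb) (h2 : S_Sd) (h3 : S_La) (h4 : S_Rd) (h5 : S_Cl) (h6 : S_Cw)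
    (h7 : S_W2) : S_W3 := by
  intro n g U θ α β c h
  have H : ∀ N k p q : ℕ, k + p + q = N → ∀ x ∈ U, ∀ u v, e1 θ x u = 0 → e1 θ x v = 0 →
      ip g x u v = 0 → ∀ a b c' d,
      S g x (wk k (du g θ x) (u :: wk p (du g θ x) (v :: wk q (du g θ x) [a, b, c', d])))
        = ((dV (du g θ))^[k] (Apq (du g θ) c β p q)) x
          * KN (ip g x) (sy2 (ip g x u) (ip g x v)) a b c' d := by
    intro N
    induction N using Nat.strong_induction_on with
    | _ N ih =>
      intro k p q hN x hx u v hu hv huv a b c' d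
      by_cases hu0 : u = 0
      · rw [hu0, W3_zero ((h1 n g x).1.2 (k + (p + (q + 4 + 1)) + 1) (by omega)) _ _ (by
          simp only [List.length_append, List.length_cons, List.length_nil, List.length_replicate])]
        have e : ∀ y, ip g x 0 y = 0 := by
          intro y
          simp [ip]
        simp only [KN, sy2, e]
        ring
      · rcases k with _ | k
        · have hA := W3_A h1 h2 h3 h4 h6 h7 h p q hx hu hv huv a b c' d
          have hCl := (h5 n U (du g θ) c β h.rot.met.isOpen (W3_W h) h.sc h.rot.sb).2 p q x hx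
          have s1 : ∀ i ∈ Finset.range p, S g x (wk i (du g θ x) (u :: wk (p - 1 - i) (du g θ x)
              (v :: wk q (du g θ x) [a, b, c', d])))
              = ((dV (du g θ))^[i] (Apq (du g θ) c β (p - 1 - i) q)) x
                * KN (ip g x) (sy2 (ip g x u) (ip g x v)) a b c' d := by
            intro i hi
            have hi' := Finset.mem_range.1 hi
            exact ih (i + (p - 1 - i) + q) (by omega) i (p - 1 - i) q rfl x hx u v hu hv huv a b c' d
          have s2 : ∀ i ∈ Finset.range q, S g x (wk p (du g θ x) (v :: wk i (du g θ x)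
              (u :: wk (q - 1 - i) (du g θ x) [a, b, c', d])))
              = ((dV (du g θ))^[p] (Apq (du g θ) c β i (q - 1 - i))) x
                * KN (ip g x) (sy2 (ip g x u) (ip g x v)) a b c' d := by
            intro i hi
            have hi' := Finset.mem_range.1 hi
            have h8 := ih (p + i + (q - 1 - i)) (by omega) p i (q - 1 - i) rfl x hx v u hv hu
              (by rw [W3_symm h hx]; exact huv) a b c' d
            rw [h8]
            unfold KN sy2
            ring
          rw [Finset.sum_congr rfl s1, Finset.sum_congr rfl s2, ← Finset.sum_mul,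
            ← Finset.sum_mul] at hA
          change S g x (u :: wk p (du g θ x) (v :: wk q (du g θ x) [a, b, c', d]))
            = Apq (du g θ) c β p q x * KN (ip g x) (sy2 (ip g x u) (ip g x v)) a b c' d
          rw [hCl]
          linear_combination hA
        · refine W3_B h1 h2 h3 h4 h6 h k p q ?_ hx hu0 hu hv huv a b c' d
          intro y hy u' v' hu' hv' huv' a b c' d
          exact ih (k + p + q) (by omega) k p q rfl y hy u' v' hu' hv' huv' a b c' d
  intro k p q
  exact H _ k p q rfl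

end

end Pool.Agent.Lib.MP_9d59e9_gt.KS
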