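import Pool.Agent.Lib.MP_9d59e9_gt.KS.Spec

/-!
# MP_9d59e9_gt, project KS, module W4: the equation on words
-/

set_option autoImplicit false

namespace Pool.Agent.Lib.MP_9d59e9_gt.KS

open scoped BigOperators ContDiff
open Set KO KO3

private theorem W4_drop {V : Type} (W v : V) (L : List V) (p q m : ℕ) (hm : m ≤ p + q + 1) :
    (∃ j, (wk p W (v :: wk q W L)).drop m = wk j W (v :: wk q W L)) ∨
      ∃ j, (wk p W (v :: wk q W L)).drop m = wk j W L := by
  rcases le_or_gt m p with h | h
  · left
    refine ⟨p - m, ?_⟩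
    change (List.replicate p W ++ (v :: wk q W L)).drop m = List.replicate (p - m) W ++ _
    rw [List.drop_append_of_le_length (by rw [List.length_replicate]; exact h),
      List.drop_replicate]
  · right
    obtain ⟨s, rfl⟩ : ∃ s, m = p + (s + 1) := ⟨m - p - 1, by omega⟩
    have hs : s ≤ q := by omega
    refine ⟨q - s, ?_⟩
    change (List.replicate p W ++ (v :: wk q W L)).drop (p + (s + 1)) =
      List.replicate (q - s) W ++ L
    have e1 : (List.replicate p W ++ (v :: wk q W L)).drop (p + (s + 1)) =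
        (v :: wk q W L).drop (s + 1) := by
      have := List.drop_append (l₁ := List.replicate p W) (l₂ := v :: wk q W L) (i := p + (s + 1))
      rw [this, List.length_replicate, List.drop_eq_nil_of_le (by rw [List.length_replicate]; omega),
        List.nil_append]
      congr 1
      omega
    rw [e1, List.drop_succ_cons]
    change (List.replicate q W ++ L).drop s = _
    rw [List.drop_append_of_le_length (by rw [List.length_replicate]; exact hs),
      List.drop_replicate]

/-- The equation on words. -/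
theorem tW4 (h1 : S_W1) (h2 : S_W2) (h3 : S_W3) : S_W4 := by
  intro n g U θ α β c r τ hn hW hK p q hpq x hx
  obtain ⟨m, rfl⟩ : ∃ m, n = m + 3 := ⟨n - 3, by omega⟩
  have hpos := hW.rot.met.pos x hx
  have hE := sFrm (m + 3) (m + 2) g x rfl hpos
  have hone := hW.rot.un.one x hx
  have hdual := hW.rot.un.dual x hx
  obtain ⟨f, hf, hf0⟩ := hE.fr (du g θ x) hone
  have hsymm := hE.ip.symm
  obtain ⟨i1, hi1⟩ : ∃ i : Fin (m + 2 + 1), i.val = 1 := ⟨⟨1, by omega⟩, rfl⟩
  obtain ⟨i2, hi2⟩ : ∃ i : Fin (m + 2 + 1), i.val = 2 := ⟨⟨2, by omega⟩, rfl⟩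
  obtain ⟨u, hu⟩ : ∃ u, u = f i1 := ⟨_, rfl⟩
  obtain ⟨v, hv⟩ : ∃ v, v = f i2 := ⟨_, rfl⟩
  have h01 : (0 : Fin (m + 2 + 1)) ≠ i1 := by
    intro h
    rw [← h] at hi1
    simp at hi1
  have h02 : (0 : Fin (m + 2 + 1)) ≠ i2 := by
    intro h
    rw [← h] at hi2
    simp at hi2
  have h12 : i1 ≠ i2 := by
    intro h
    rw [h, hi2] at hi1
    omega
  have hWu : ip g x (du g θ x) u = 0 := by
    have := hf.on 0 i1
    rwa [if_neg h01, hf0, ← hu] at this
  have hWv : ip g x (du g θ x) v = 0 := by
    have := hf.on 0 i2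
    rwa [if_neg h02, hf0, ← hv] at this
  have huv : ip g x u v = 0 := by
    have := hf.on i1 i2
    rwa [if_neg h12, ← hu, ← hv] at this
  have huu : ip g x u u = 1 := by
    have := hf.on i1 i1
    rwa [if_pos rfl, ← hu] at this
  have hvv : ip g x v v = 1 := by
    have := hf.on i2 i2
    rwa [if_pos rfl, ← hv] at this
  have hvu : ip g x v u = 0 := by rw [hsymm]; exact huv
  have huW : ip g x u (du g θ x) = 0 := by rw [hsymm]; exact hWu
  have hvW : ip g x v (du g θ x) = 0 := by rw [hsymm]; exact hWv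
  have htu : e1 θ x u = 0 := by rw [hdual]; exact hWu
  have htv : e1 θ x v = 0 := by rw [hdual]; exact hWv
  have hks := hK.ks x hx
    (u :: wk p (du g θ x) (v :: wk q (du g θ x) [u, du g θ x, du g θ x, v])) (by
      simp only [wk, List.length_cons, List.length_append, List.length_replicate,
        List.length_nil]
      omega)
  have hz : ∑ m ∈ Finset.Icc 1 r, el (τ m) x
      ((u :: wk p (du g θ x) (v :: wk q (du g θ x) [u, du g θ x, du g θ x, v])).take m) *
      S g x ((u :: wk p (du g θ x) (v :: wk q (du g θ x) [u, du g θ x, du g θ x, v])).drop m)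
        = 0 := by
    refine Finset.sum_eq_zero fun k hk => ?_
    rw [Finset.mem_Icc] at hk
    obtain ⟨s, rfl⟩ : ∃ s, k = s + 1 := ⟨k - 1, by omega⟩
    have h0 : S g x ((u :: wk p (du g θ x)
        (v :: wk q (du g θ x) [u, du g θ x, du g θ x, v])).drop (s + 1)) = 0 := by
      rw [List.drop_succ_cons]
      rcases W4_drop (du g θ x) v [u, du g θ x, du g θ x, v] p q s (by omega) with
        ⟨j, hj⟩ | ⟨j, hj⟩
      · rw [hj, h2 _ g U θ α β c hW j q x hx v htv]
        simp only [KN, sy2, huv, hvu, htu, htv, huW, hWv, hvW]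
        ring
      · rw [hj, h1 _ g U θ α β c hW j x hx]
        simp only [KN, G0, huv, htu, htv, huW, hWv]
        ring
    rw [h0, mul_zero]
  rw [hz, add_zero] at hks
  have h5 := h3 _ g U θ α β c hW 0 p q x hx u v htu htv huv u (du g θ x) (du g θ x) v
  have e5 : wk 0 (du g θ x) (u :: wk p (du g θ x)
      (v :: wk q (du g θ x) [u, du g θ x, du g θ x, v])) =
      u :: wk p (du g θ x) (v :: wk q (du g θ x) [u, du g θ x, du g θ x, v]) := rfl
  rw [e5, hks] at h5
  simp only [KN, sy2, huu, hvv, huv, hvu, huW, hWv, hvW, hone, Function.iterate_zero,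
    id_eq] at h5
  linarith

end Pool.Agent.Lib.MP_9d59e9_gt.KS
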