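import Pool.Agent.Lib.MP_9d59e9_gt.KS.Spec

/-!
# MP_9d59e9_gt, project KS: module Ws

The final structure and the Riccati equation.
-/

set_option autoImplicit false

namespace Pool.Agent.Lib.MP_9d59e9_gt.KS

open scoped BigOperators ContDiff Topology
open Set KO KO3

noncomputable section

variable {n : ℕ} {g : Pt n → Matrix (Fin n) (Fin n) ℝ} {U : Set (Pt n)} {θ : TF n 1}

private theorem Ws_near {Ω : Set (Pt n)} (hO : IsOpen Ω) {p : Pt n} (hp : p ∈ Ω)
    (X : Pt n) : ∀ᶠ t in 𝓝 (0 : ℝ), p + t • X ∈ Ω := by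
  have h1 : Continuous fun t : ℝ => p + t • X :=
    continuous_const.add (continuous_id.smul continuous_const)
  have h2 : (fun t : ℝ => p + t • X) 0 ∈ Ω := by simpa using hp
  exact h1.continuousAt.eventually (hO.mem_nhds h2)

private theorem Ws_diff {φ : Pt n → ℝ} (hU : IsOpen U) (h : ContDiffOn ℝ ∞ φ U) {x : Pt n}
    (hx : x ∈ U) : DifferentiableAt ℝ φ x :=
  (h.contDiffAt (hU.mem_nhds hx)).differentiableAt (by simp)

/-- chain rule for a smooth function along a line -/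
private theorem Ws_chain (hU : IsOpen U) {φ : Pt n → ℝ}
    (hφ : ContDiffOn ℝ ∞ φ U) {x : Pt n} (hx : x ∈ U) (X : Pt n) :
    HasDerivAt (fun t : ℝ => φ (x + t • X)) (fderiv ℝ φ x X) 0 := by
  have h1 : DifferentiableAt ℝ φ x := Ws_diff hU hφ hx
  have h2 : HasDerivAt (fun t : ℝ => x + t • X) X 0 := by
    have h3 := ((hasDerivAt_id (0 : ℝ)).smul_const X).const_add x
    simpa using h3
  have h4 : HasFDerivAt φ (fderiv ℝ φ x) (x + (0 : ℝ) • X) := by
    rw [zero_smul, add_zero]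
    exact h1.hasFDerivAt
  exact h4.comp_hasDerivAt 0 h2

/-- the inverse of a nowhere vanishing function of type `Rad` -/
private theorem Ws_inv (hU : IsOpen U) {φ : Pt n → ℝ} (h : Rad g U θ φ)
    (h0 : ∀ x ∈ U, φ x ≠ 0) : Rad g U θ fun x => (φ x)⁻¹ := by
  refine ⟨h.sm.inv h0, fun x hx v => ?_⟩
  have h1 : HasFDerivAt φ (fderiv ℝ φ x) x := (Ws_diff hU h.sm hx).hasFDerivAt
  have h2 : HasFDerivAt (fun y => (φ y)⁻¹) ((-(φ x ^ 2)⁻¹) • fderiv ℝ φ x) x :=
    (hasDerivAt_inv (h0 x hx)).comp_hasFDerivAt x h1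
  have h3 := h.d x hx v
  unfold dV at h3 ⊢
  rw [h2.fderiv]
  simp only [_root_.smul_apply, smul_eq_mul]
  rw [h3]
  ring

private theorem Ws_one {α β : Pt n → ℝ} (H : Rot g U θ α β) {x : Pt n} (hx : x ∈ U) :
    e1 θ x (du g θ x) = 1 := by rw [H.un.dual x hx, H.un.one x hx]

/-- decomposition of a vector -/
private theorem Ws_dec {α β : Pt n → ℝ} (H : Rot g U θ α β) {x : Pt n} (hx : x ∈ U) (v : Pt n) :
    e1 θ x (v - e1 θ x v • du g θ x) = 0 := by
  have hl := (KO.sLin n x).2.2.2.1 θ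
  have h1 : v - e1 θ x v • du g θ x = v + (-e1 θ x v) • du g θ x := by
    rw [neg_smul, sub_eq_add_neg]
  rw [h1, hl.add, hl.smul, Ws_one H hx]
  ring

/-- the differential of `θ` -/
private theorem Ws_dt (h1 : S_Nn) {α β : Pt n → ℝ} (H : Rot g U θ α β)
    (hW : ∀ x ∈ U, ∀ v, e2 (D g θ) x (du g θ x) v = 0) {x : Pt n} (hx : x ∈ U) {c : ℝ}
    (hc : ∀ u v, e1 θ x u = 0 → e1 θ x v = 0 → e2 (D g θ) x u v = c * ip g x u v) (u v : Pt n) :
    e2 (D g θ) x u v = c * (ip g x u v - e1 θ x u * e1 θ x v) := by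
  have hl := (KO.sLin n x).2.2.2.2.1 (D g θ)
  have hB := (KO.sOnb n g x (H.met.pos x hx)).2.1
  have hW2 := (h1 n g U θ α β H x hx).2.1
  have hu := Ws_dec H hx u
  have hv := Ws_dec H hx v
  set W := du g θ x with hWdef
  set u' := u - e1 θ x u • W with hu'
  set v' := v - e1 θ x v • W with hv'
  have eu : u = e1 θ x u • W + u' := by rw [hu']; abel
  have ev' : v = e1 θ x v • W + v' := by rw [hv']; abel
  have hWW : ip g x W W = 1 := H.un.one x hx
  have hWu : ip g x W u' = 0 := by rw [← H.un.dual x hx]; exact hu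
  have hWv : ip g x W v' = 0 := by rw [← H.un.dual x hx]; exact hv
  have a1 : e2 (D g θ) x u v = e2 (D g θ) x u' v' := by
    conv_lhs => rw [eu, ev']
    have b1 := (hl.2 (e1 θ x v • W + v')).add (e1 θ x u • W) u'
    have b2 := (hl.2 (e1 θ x v • W + v')).smul (e1 θ x u) W
    rw [b1, b2, hW x hx, (hl.1 u').add, (hl.1 u').smul, hW2 u']
    ring
  have a2 : ip g x u v = ip g x u' v' + e1 θ x u * e1 θ x v := by
    conv_lhs => rw [eu, ev']
    have b1 := (hB.lin (e1 θ x v • W + v')).add (e1 θ x u • W) u'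
    have b2 := (hB.lin (e1 θ x v • W + v')).smul (e1 θ x u) W
    rw [b1, b2, hB.symm W, hB.symm u']
    have b3 := (hB.lin W).add (e1 θ x v • W) v'
    have b4 := (hB.lin W).smul (e1 θ x v) W
    have b5 := (hB.lin u').add (e1 θ x v • W) v'
    have b6 := (hB.lin u').smul (e1 θ x v) W
    rw [b3, b4, b5, b6, hWW, hWu, hB.symm v' W, hWv, hB.symm v' u']
    ring
  rw [a1, hc u' v' hu hv, a2]
  ring

theorem tWs (h1 : S_Nn) (h2 : S_Bn) (h3 : S_Rd) : S_Ws := by
  intro n g U θ α β hn H hW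
  have hU := H.met.isOpen
  have hone : ∀ x ∈ U, e1 θ x (du g θ x) = 1 := fun x hx => Ws_one H hx
  -- the function `c`
  obtain ⟨c, hcdef⟩ : ∃ c : Pt n → ℝ, ∀ x, c x = dV (du g θ) α x * ((2 : ℝ) * β x)⁻¹ :=
    ⟨_, fun _ => rfl⟩
  have hval : ∀ x ∈ U, dV (du g θ) α x = 2 * (c x * β x) ∧
      (∀ u v, e1 θ x u = 0 → e1 θ x v = 0 → e2 (D g θ) x u v = c x * ip g x u v) ∧
      (∀ v, fderiv ℝ α x v = 2 * (c x * β x) * e1 θ x v) ∧
      ∀ z, e1 θ x z = 0 → fderiv ℝ β x z = 0 := by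
    intro x hx
    obtain ⟨c', hc1, hc2, hc3⟩ := h2 n g U θ α β hn H x hx
    have h4 : dV (du g θ) α x = 2 * (c' * β x) := by
      have := hc2 (du g θ x)
      rw [hone x hx, mul_one] at this
      exact this
    have hb := H.nb x hx
    have h5 : c x = c' := by
      rw [hcdef, h4]
      field_simp
    rw [h5]
    refine ⟨h4, hc1, hc2, fun z hz => ?_⟩
    rw [hc3 z hz, hW x hx, mul_zero]
  have hdt : ∀ x ∈ U, ∀ u v, e2 (D g θ) x u v = c x * (ip g x u v - e1 θ x u * e1 θ x v) :=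
    fun x hx u v => Ws_dt h1 H hW hx (hval x hx).2.1 u v
  have hsym : ∀ x ∈ U, ∀ u v, e2 (D g θ) x u v = e2 (D g θ) x v u := by
    intro x hx u v
    have hB := (KO.sOnb n g x (H.met.pos x hx)).2.1
    rw [hdt x hx, hdt x hx, hB.symm u v]
    ring
  obtain ⟨r1, r2, r3, r4, r5, -⟩ := h3 n g U θ H.met H.un hsym
  have hαR : Rad g U θ α := ⟨H.sa, fun x hx v => by
    rw [(hval x hx).2.2.1 v, (hval x hx).1]⟩
  have hβR : Rad g U θ β := ⟨H.sb, fun x hx v => by
    have hz := (hval x hx).2.2.2 _ (Ws_dec H hx v)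
    rw [map_sub, map_smul, smul_eq_mul] at hz
    unfold dV
    linarith⟩
  have hcR : Rad g U θ c := by
    have hi : Rad g U θ fun x => ((2 : ℝ) * β x)⁻¹ :=
      Ws_inv hU (r1 _ _ (r2 2) hβR).2 fun x hx => mul_ne_zero two_ne_zero (H.nb x hx)
    exact r3 _ c (r1 _ _ (r5 α hαR) hi).2 fun x _ => hcdef x
  -- the second covariant derivative
  have hDD : ∀ x ∈ U, ∀ X Y Z, e3 (D g (D g θ)) x X Y Z
      = fderiv ℝ c x X * (ip g x Y Z - e1 θ x Y * e1 θ x Z)
        - c x * (e2 (D g θ) x X Y * e1 θ x Z + e1 θ x Y * e2 (D g θ) x X Z) := by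
    intro x hx X Y Z
    obtain ⟨q1, q2, -, -, -, hip, -, hex⟩ := sCvP n g U H.met x hx X
    obtain ⟨A, hA⟩ := hex Y
    obtain ⟨B, hB⟩ := hex Z
    have hDθ : Sm U (D g θ) := (KO.sSmo n g U H.met).2.2.2.1 1 θ H.un.sm
    have hL := q2 (D g θ) hDθ A Y B Z hA hB
    have hcc := Ws_chain hU hcR.sm hx X
    have i1 := hip A Y B Z hA hB
    have tA := q1 θ H.un.sm A Y hA
    have tB := q1 θ H.un.sm B Z hB
    have hR := hcc.mul (i1.sub (tA.mul tB))
    refine ((hL.congr_of_eventuallyEq ?_).unique hR).trans ?_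
    · filter_upwards [Ws_near hU hx X] with t ht
      rw [hdt _ ht]
      simp only [Pi.mul_apply, Pi.sub_apply]
    · simp only [zero_smul, add_zero, hA.1, hB.1, Pi.mul_apply, Pi.sub_apply]
      ring
  have hcW : ∀ x ∈ U, fderiv ℝ c x (du g θ x) = -(c x ^ 2) - α x - β x := by
    intro x hx
    have hB := (KO.sOnb n g x (H.met.pos x hx)).2.1
    have hEu := sFrm n (n - 1) g x (by omega) (H.met.pos x hx)
    obtain ⟨y, hyy, hWy, -⟩ := sPrp (Pt n) (ip g x) (n - 1) hEu (by omega) (du g θ x) (du g θ x)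
    have hθy : e1 θ x y = 0 := by rw [H.un.dual x hx]; exact hWy
    have hyW : ip g x y (du g θ x) = 0 := by rw [hB.symm]; exact hWy
    have hWW := H.un.one x hx
    have hRic := KO.sRic n g U H.met x hx 1 θ H.un.sm (du g θ x) y ![y]
    rw [Fin.sum_univ_one] at hRic
    have eu : (Function.update ![y] 0 (Rv g x (du g θ x) y ((![y] : Fin 1 → Pt n) 0)) :
        Fin 1 → Pt n) = ![Rv g x (du g θ x) y y] := by
      funext i
      fin_cases i
      simp
    rw [eu] at hRic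
    have e5' : e3 (D g (D g θ)) x (du g θ x) y y - e3 (D g (D g θ)) x y (du g θ x) y
        = -e1 θ x (Rv g x (du g θ x) y y) := hRic
    rw [hDD x hx, hDD x hx, hW x hx, hdt x hx y, hdt x hx y, hθy, hone x hx, hyy, hyW, hWy,
      H.un.dual x hx (Rv g x (du g θ x) y y), hB.symm (du g θ x),
      (KO.sSym n g U H.met x hx).2.1, H.R x hx] at e5'
    simp only [G0, KN, hWW, hyy, hyW, hWy, hθy, hone x hx] at e5'
    linarith
  refine ⟨c, ⟨H, hcR.sm, hdt, fun x hx v => (hval x hx).2.2.1 v, fun x hx v => ?_,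
    fun x hx v => ?_⟩⟩
  · exact hβR.d x hx v
  · rw [hcR.d x hx v]
    unfold dV
    rw [hcW x hx]

end

end Pool.Agent.Lib.MP_9d59e9_gt.KS
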