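import Pool.Agent.Lib.MP_9d59e9_gt.KS.La
import Pool.Agent.Lib.MP_9d59e9_gt.KS.Ad
import Pool.Agent.Lib.MP_9d59e9_gt.KS.Sb
import Pool.Agent.Lib.MP_9d59e9_gt.KS.Sd
import Pool.Agent.Lib.MP_9d59e9_gt.KS.Sr
import Pool.Agent.Lib.MP_9d59e9_gt.KS.Sc
import Pool.Agent.Lib.MP_9d59e9_gt.KS.Ds
import Pool.Agent.Lib.MP_9d59e9_gt.KS.Kc
import Pool.Agent.Lib.MP_9d59e9_gt.KS.Tr
import Pool.Agent.Lib.MP_9d59e9_gt.KS.To
import Pool.Agent.Lib.MP_9d59e9_gt.KS.Br1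
import Pool.Agent.Lib.MP_9d59e9_gt.KS.Br2
import Pool.Agent.Lib.MP_9d59e9_gt.KS.Br3
import Pool.Agent.Lib.MP_9d59e9_gt.KS.Ij
import Pool.Agent.Lib.MP_9d59e9_gt.KS.Ea
import Pool.Agent.Lib.MP_9d59e9_gt.KS.NfR
import Pool.Agent.Lib.MP_9d59e9_gt.KS.PE
import Pool.Agent.Lib.MP_9d59e9_gt.KS.Sco
import Pool.Agent.Lib.MP_9d59e9_gt.KS.Re
import Pool.Agent.Lib.MP_9d59e9_gt.KS.Nn
import Pool.Agent.Lib.MP_9d59e9_gt.KS.Bn
import Pool.Agent.Lib.MP_9d59e9_gt.KS.Mw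
import Pool.Agent.Lib.MP_9d59e9_gt.KS.He
import Pool.Agent.Lib.MP_9d59e9_gt.KS.Rd
import Pool.Agent.Lib.MP_9d59e9_gt.KS.Ws
import Pool.Agent.Lib.MP_9d59e9_gt.KS.Cz
import Pool.Agent.Lib.MP_9d59e9_gt.KS.Cl
import Pool.Agent.Lib.MP_9d59e9_gt.KS.Cw
import Pool.Agent.Lib.MP_9d59e9_gt.KS.W1
import Pool.Agent.Lib.MP_9d59e9_gt.KS.W2
import Pool.Agent.Lib.MP_9d59e9_gt.KS.W3
import Pool.Agent.Lib.MP_9d59e9_gt.KS.W4
import Pool.Agent.Lib.MP_9d59e9_gt.KS.Le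
import Pool.Agent.Lib.MP_9d59e9_gt.KS.Fi
import Pool.Agent.Lib.MP_9d59e9_gt.KS.Th
import Pool.Agent.Lib.MP_9d59e9_gt.KS.Bt
import Pool.Agent.Lib.MP_9d59e9_gt.KS.EnE

/-!
# MP_9d59e9_gt, project KS: assembly, first part
-/

set_option autoImplicit false

namespace Pool.Agent.Lib.MP_9d59e9_gt.KS

open scoped BigOperators ContDiff
open KO KO3

theorem sLa : S_La := tLa
theorem sAd : S_Ad := tAd sLa
theorem sSb : S_Sb := tSb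
theorem sSd : S_Sd := tSd sLa sSb
theorem sSr : S_Sr := tSr sLa sSb
theorem sSc : S_Sc := tSc sSb sSd
theorem sDs : S_Ds := tDs sLa sAd sSb sSr
theorem sKc : S_Kc := tKc sSb
theorem sTr : S_Tr := tTr sSb sSc
theorem sTo : S_To := tTo sAd sSb sSr sTr
theorem sBr1 : S_Br1 := tBr1
theorem sBr2 : S_Br2 := tBr2 sAd sSb sBr1
theorem sBr3 : S_Br3 := tBr3 sAd sSb
theorem sIj : S_Ij := tIj
theorem sEa : S_Ea := tEa sIj
theorem sNfR : S_NfR := tNfR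
theorem sPE : S_PE := tPE sSb sDs sKc sTo sEa sNfR
theorem sSco : S_Sco := tSco
theorem sRe : S_Re := tRe sSco
theorem sNn : S_Nn := tNn
theorem sBn : S_Bn := tBn sNn
theorem sMw : S_Mw := tMw sNn
theorem sHe : S_He := tHe sNn sMw
theorem sRd : S_Rd := tRd
theorem sWs : S_Ws := tWs sNn sBn sRd
theorem sCz : S_Cz := tCz
theorem sCl : S_Cl := tCl
theorem sCw : S_Cw := tCw sNn
theorem sW1 : S_W1 := tW1 sSb sSd sLa sRd sCw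
theorem sW2 : S_W2 := tW2 sSb sSd sLa sRd sCl sCw sW1
theorem sW3 : S_W3 := tW3 sSb sSd sLa sRd sCl sCw sW2
theorem sW4 : S_W4 := tW4 sW1 sW2 sW3
theorem sLe : S_Le := tLe
theorem sFi : S_Fi := tFi sLe
theorem sTh : S_Th := tTh sRe sWs sCz sW4 sFi
theorem sBt : S_Bt := tBt sBr2
theorem sEnE : S_EnE := tEnE sBt sBr3 sPE sHe sTh

end Pool.Agent.Lib.MP_9d59e9_gt.KS
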