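import Pool.Agent.Lib.MP_9d59e9_gt.KS.SpecO

/-!
# MP_9d59e9_gt, project KS, module CT: invariant arrays with four indices
-/

set_option autoImplicit false

namespace Pool.Agent.Lib.MP_9d59e9_gt.KS

open scoped BigOperators ContDiff
open Set KO KO3

noncomputable section

theorem tCT : S_CT := by
  intro m T hm h34 hbi hr
  have hcc : ∀ a b c, T a b c c = 0 := by
    intro a b c
    have := h34 a b c c
    linarith
  -- a third index
  have h3 : ∀ i k : Fin m, ∃ j, i ≠ j ∧ j ≠ k := by
    intro i k
    have hc : ({i, k} : Finset (Fin m)).card < (Finset.univ : Finset (Fin m)).card := by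
      rw [Finset.card_univ, Fintype.card_fin]
      exact lt_of_le_of_lt Finset.card_le_two hm
    obtain ⟨j, -, hj⟩ := Finset.exists_mem_notMem_of_card_lt_card hc
    rw [Finset.mem_insert, Finset.mem_singleton, not_or] at hj
    exact ⟨j, Ne.symm hj.1, hj.2⟩
  -- (1)
  have r1 : ∀ i k, i ≠ k → T i i i k = 0 := by
    intro i k hik
    obtain ⟨j, hij, hjk⟩ := h3 i k
    have h := hr j k hjk i i i j
    simp only [rt4, if_neg hij, if_neg hik, if_true, if_neg hjk] at h
    linarith
  -- (2)
  have r2 : ∀ i j k, i ≠ j → j ≠ k → i ≠ k → T k k i j = 0 ∧ T k i k j = 0 ∧ T i k k j = 0 := by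
    intro i j k hij hjk hik
    have h0 := r1 i j hij
    have e1 := hr i k hik k i i j
    have e2 := hr i k hik i k i j
    have e3 := hr i k hik i i k j
    simp only [rt4, if_neg hij.symm, if_neg hik, if_neg hik.symm, if_true, if_neg hjk] at e1 e2 e3
    refine ⟨?_, ?_, ?_⟩ <;> linarith
  -- (3)
  have r3 : ∀ i j k l, i ≠ j → i ≠ k → i ≠ l → j ≠ k → j ≠ l → k ≠ l → T i l k j = -T i k l j := by
    intro i j k l hij hik hil hjk hjl hkl
    have e1 := hr k l hkl i k k j
    simp only [rt4, if_neg hik, if_neg hil, if_neg hkl, if_neg hjk, if_neg hjl, if_true] at e1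
    linarith
  have r3' : ∀ a b c d, a ≠ b → a ≠ c → a ≠ d → b ≠ c → b ≠ d → c ≠ d → T a b c d = 0 := by
    intro a b c d hab hac had hbc hbd hcd
    have e1 := hbi a b c d
    have e2 := h34 a c b d
    have e3 := r3 a d c b had hac hab hcd.symm hbd.symm hbc.symm
    have e4 := r3 a c d b hac had hab hcd hbc.symm hbd.symm
    have e5 := h34 a b c d
    linarith
  -- (4)
  have r4 : ∀ i j, i ≠ j → T j i j i = T i j i j := by
    intro i j hij
    have e1 := hr i j hij i i i j
    simp only [rt4, if_neg hij, if_neg hij.symm, if_true] at e1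
    have e2 := hcc i i j
    have e3 := hcc i i i
    have e4 := h34 j i i j
    linarith
  have r5 : ∀ i j k, i ≠ j → i ≠ k → j ≠ k → T i k i k = T i j i j := by
    intro i j k hij hik hjk
    have e1 := hr j k hjk i j i k
    simp only [rt4, if_neg hij, if_neg hik, if_neg hjk, if_neg hjk.symm, if_true] at e1
    linarith
  have r5' : ∀ i j k, i ≠ j → i ≠ k → T i k i k = T i j i j := by
    intro i j k hij hik
    by_cases hjk : j = k
    · rw [hjk]
    · exact r5 i j k hij hik hjk
  have r6 : ∀ i j k l, i ≠ j → k ≠ l → T k l k l = T i j i j := by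
    intro i j k l hij hkl
    by_cases hki : k = i
    · subst hki
      exact r5' k j l hij hkl
    · rw [r5' k i l hki hkl, r4 i k (Ne.symm hki)]
      exact r5' i j k hij (Ne.symm hki)
  have hm0 : 0 < m := by omega
  have hm1 : 1 < m := by omega
  have h01 : (⟨0, hm0⟩ : Fin m) ≠ ⟨1, hm1⟩ := by
    intro h
    have := congrArg Fin.val h
    simp at this
  obtain ⟨κ, hκ⟩ : ∃ κ, κ = -T ⟨0, hm0⟩ ⟨1, hm1⟩ ⟨0, hm0⟩ ⟨1, hm1⟩ := ⟨_, rfl⟩
  have r7 : ∀ i j, i ≠ j → T i j i j = -κ := by
    intro i j hij
    rw [r6 _ _ i j h01 hij, hκ]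
    ring
  refine ⟨κ, fun a b c d => ?_⟩
  by_cases hcd : c = d
  · subst hcd
    rw [hcc]
    ring
  by_cases hab : a = b
  · subst hab
    by_cases hac : a = c
    · subst hac
      rw [r1 a d hcd]
      ring
    by_cases had : a = d
    · subst had
      rw [h34, r1 a c hac]
      ring
    rw [(r2 c d a hcd (Ne.symm had) (Ne.symm hac)).1, if_neg had, if_neg hac]
    ring
  by_cases hac : a = c
  · subst hac
    by_cases hbd : b = d
    · subst hbd
      rw [r7 a b hab, if_neg hab, if_pos rfl, if_pos rfl]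
      ring
    · rw [(r2 b d a hbd (Ne.symm hcd) (Ne.symm hab)).2.1, if_neg hcd, if_neg hbd]
      ring
  by_cases hbc : b = c
  · subst hbc
    by_cases had : a = d
    · subst had
      rw [h34, r7 a b hab, if_pos rfl, if_pos rfl, if_neg hab]
      ring
    · rw [(r2 a d b had (Ne.symm hcd) hab).2.2, if_neg had, if_neg hab]
      ring
  by_cases had : a = d
  · subst had
    rw [h34, (r2 b c a hbc (Ne.symm hac) (Ne.symm hab)).2.1, if_neg hbc, if_neg hac]
    ring
  by_cases hbd : b = d
  · subst hbd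
    rw [h34, (r2 a c b hac (Ne.symm hbc) hab).2.2, if_neg had, if_neg hac]
    ring
  rw [r3' a b c d hab hac had hbc hbd hcd, if_neg had, if_neg hac]
  ring

end

end Pool.Agent.Lib.MP_9d59e9_gt.KS
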