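import Pool.Agent.Lib.MP_9d59e9_gt.KS.SpecO

/-!
# MP_9d59e9_gt, project KS, module Cd

A subalgebra of `so(n)` which contains a hyperplane is everything.
-/

set_option autoImplicit false

namespace Pool.Agent.Lib.MP_9d59e9_gt.KS

open scoped BigOperators ContDiff
open Set KO KO3

noncomputable section

private lemma Cd_expand {n : ℕ} (φ : Matrix (Fin n) (Fin n) ℝ →ₗ[ℝ] ℝ)
    (X : Matrix (Fin n) (Fin n) ℝ) :
    φ X = ∑ i, ∑ j, X i j * φ (Matrix.single i j 1) := by
  conv_lhs => rw [Matrix.matrix_eq_sum_single X]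
  rw [map_sum]
  refine Finset.sum_congr rfl fun i _ => ?_
  rw [map_sum]
  refine Finset.sum_congr rfl fun j _ => ?_
  have e : Matrix.single i j (X i j) = X i j • (Matrix.single i j 1 : Matrix (Fin n) (Fin n) ℝ) := by
    rw [Matrix.smul_single, smul_eq_mul, mul_one]
  rw [e, map_smul, smul_eq_mul]

private lemma Cd_rep {n : ℕ} (φ : Matrix (Fin n) (Fin n) ℝ →ₗ[ℝ] ℝ) :
    ∃ C : Matrix (Fin n) (Fin n) ℝ, C.transpose = -C ∧
      ∀ X : Matrix (Fin n) (Fin n) ℝ, X.transpose = -X → φ X = -(X * C).trace := by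
  refine ⟨Matrix.of fun i j => (1 / 2) * (φ (Matrix.single i j 1) - φ (Matrix.single j i 1)), ?_, ?_⟩
  · ext i j
    rw [Matrix.transpose_apply, Matrix.neg_apply, Matrix.of_apply, Matrix.of_apply]
    ring
  · intro X hX
    have h1 := Cd_expand φ X
    have h2 : φ (X.transpose) = ∑ i, ∑ j, X i j * φ (Matrix.single j i 1) := by
      rw [Cd_expand φ X.transpose, Finset.sum_comm]
      rfl
    have h3 : (X * (Matrix.of fun i j =>
        (1 / 2) * (φ (Matrix.single i j 1) - φ (Matrix.single j i 1)))).trace =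
        (1 / 2) * (∑ i, ∑ j, X i j * φ (Matrix.single j i 1) -
          ∑ i, ∑ j, X i j * φ (Matrix.single i j 1)) := by
      rw [Matrix.trace, ← Finset.sum_sub_distrib, Finset.mul_sum]
      refine Finset.sum_congr rfl fun i _ => ?_
      rw [Matrix.diag_apply, Matrix.mul_apply, ← Finset.sum_sub_distrib, Finset.mul_sum]
      refine Finset.sum_congr rfl fun j _ => ?_
      rw [Matrix.of_apply]
      ring
    rw [h3, ← h1, ← h2, hX, map_neg]
    ring

private lemma Cd_tr_pos {n : ℕ} (Y : Matrix (Fin n) (Fin n) ℝ) (hY : Y.transpose = -Y)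
    (a c : Fin n) (h : Y a c ≠ 0) : (Y * Y).trace ≠ 0 := by
  have e : (Y * Y).trace = -∑ i, ∑ j, Y i j ^ 2 := by
    rw [Matrix.trace, ← Finset.sum_neg_distrib]
    refine Finset.sum_congr rfl fun i _ => ?_
    rw [Matrix.diag_apply, Matrix.mul_apply, ← Finset.sum_neg_distrib]
    refine Finset.sum_congr rfl fun j _ => ?_
    have h1 : Y j i = -Y i j := by
      have h2 := congrFun (congrFun hY i) j
      rw [Matrix.transpose_apply, Matrix.neg_apply] at h2
      exact h2
    rw [h1]
    ring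
  rw [e, neg_ne_zero]
  apply ne_of_gt
  have h0 : ∀ i, 0 ≤ ∑ j, Y i j ^ 2 := fun i => Finset.sum_nonneg fun j _ => sq_nonneg _
  have h1 : Y a c ^ 2 ≤ ∑ j, Y a j ^ 2 :=
    Finset.single_le_sum (f := fun j => Y a j ^ 2) (fun j _ => sq_nonneg _) (Finset.mem_univ c)
  have h2 : ∑ j, Y a j ^ 2 ≤ ∑ i, ∑ j, Y i j ^ 2 :=
    Finset.single_le_sum (f := fun i => ∑ j, Y i j ^ 2) (fun i _ => h0 i) (Finset.mem_univ a)
  have h3 : 0 < Y a c ^ 2 := by positivity
  linarith

theorem tCd : S_Cd := by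
  intro n hn Q hQ φ hφ X' hX'
  obtain ⟨C, hC, hrep⟩ := Cd_rep φ
  by_cases hC0 : C = 0
  · apply hφ X' hX'
    rw [hrep X' hX', hC0, Matrix.mul_zero, Matrix.trace_zero, neg_zero]
  · -- a nonzero entry of `C`
    obtain ⟨a, b, hab⟩ : ∃ a b, C a b ≠ 0 := by
      by_contra h
      push Not at h
      exact hC0 (by ext i j; exact h i j)
    have hskew : ∀ (Y : Matrix (Fin n) (Fin n) ℝ), Y.transpose = -Y → ∀ i j, Y j i = -Y i j := by
      intro Y hY i j
      have h2 := congrFun (congrFun hY i) j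
      rw [Matrix.transpose_apply, Matrix.neg_apply] at h2
      exact h2
    have hne : a ≠ b := by
      rintro rfl
      have h1 := hskew C hC a a
      exact hab (by linarith)
    obtain ⟨c, hca, hcb⟩ : ∃ c : Fin n, c ≠ a ∧ c ≠ b := by
      by_contra h
      push Not at h
      have h1 : (Finset.univ : Finset (Fin n)) ⊆ {a, b} := by
        intro c _
        rw [Finset.mem_insert, Finset.mem_singleton]
        by_cases hc : c = a
        · exact Or.inl hc
        · exact Or.inr (h c hc)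
      have h2 := Finset.card_le_card h1
      rw [Finset.card_univ, Fintype.card_fin] at h2
      have h3 := Finset.card_le_two (a := a) (b := b)
      omega
    obtain ⟨X0, hX0⟩ : ∃ X0 : Matrix (Fin n) (Fin n) ℝ,
      X0 = Matrix.single b c 1 - Matrix.single c b 1 := ⟨_, rfl⟩
    have hX0s : X0.transpose = -X0 := by
      rw [hX0, Matrix.transpose_sub, Matrix.transpose_single, Matrix.transpose_single, neg_sub]
    have hCC : (C * C).trace ≠ 0 := Cd_tr_pos C hC a b hab
    obtain ⟨t, ht⟩ : ∃ t : ℝ, t = (X0 * C).trace / (C * C).trace := ⟨_, rfl⟩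
    obtain ⟨X, hX⟩ : ∃ X : Matrix (Fin n) (Fin n) ℝ, X = X0 - t • C := ⟨_, rfl⟩
    have hXs : X.transpose = -X := by
      rw [hX, Matrix.transpose_sub, Matrix.transpose_smul, hX0s, hC, smul_neg]
      abel
    have hXQ : X ∈ Q := by
      apply hφ X hXs
      rw [hrep X hXs, hX, Matrix.sub_mul, Matrix.smul_mul, Matrix.trace_sub, Matrix.trace_smul,
        smul_eq_mul, ht, div_mul_cancel₀ _ hCC, sub_self, neg_zero]
    obtain ⟨Y, hY⟩ : ∃ Y : Matrix (Fin n) (Fin n) ℝ, Y = C * X - X * C := ⟨_, rfl⟩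
    have hYs : Y.transpose = -Y := by
      rw [hY, Matrix.transpose_sub, Matrix.transpose_mul, Matrix.transpose_mul, hXs, hC]
      rw [neg_mul_neg, neg_mul_neg, neg_sub]
    have hYQ : Y ∈ Q := by
      apply hφ Y hYs
      rw [hrep Y hYs, hY, Matrix.sub_mul, Matrix.trace_sub, Matrix.mul_assoc C X C,
        Matrix.trace_mul_comm C (X * C), sub_self, neg_zero]
    have hYac : Y a c = C a b := by
      have e : Y = C * X0 - X0 * C := by
        rw [hY, hX, Matrix.mul_sub, Matrix.sub_mul, Matrix.mul_smul, Matrix.smul_mul]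
        abel
      rw [e, hX0, Matrix.sub_apply, Matrix.mul_sub, Matrix.sub_mul, Matrix.sub_apply,
        Matrix.sub_apply, Matrix.mul_single_apply_same, Matrix.mul_single_apply_of_ne _ _ _ _ _ hcb,
        Matrix.single_mul_apply_of_ne _ _ _ _ _ hne, Matrix.single_mul_apply_of_ne _ _ _ _ _ hca.symm]
      ring
    have hYY : (Y * Y).trace ≠ 0 := Cd_tr_pos Y hYs a c (by rw [hYac]; exact hab)
    obtain ⟨Z, hZ⟩ : ∃ Z : Matrix (Fin n) (Fin n) ℝ, Z = Y * X - X * Y := ⟨_, rfl⟩
    have hZQ : Z ∈ Q := by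
      rw [hZ]
      exact hQ Y hYQ X hXQ
    have hZs : Z.transpose = -Z := by
      rw [hZ, Matrix.transpose_sub, Matrix.transpose_mul, Matrix.transpose_mul, hXs, hYs]
      rw [neg_mul_neg, neg_mul_neg, neg_sub]
    have hφZ : φ Z = (Y * Y).trace := by
      have e1 : (Z * C).trace = -(Y * Y).trace := by
        have e2 : (X * Y * C).trace = (Y * (C * X)).trace := by
          rw [Matrix.mul_assoc X Y C, Matrix.trace_mul_comm X (Y * C), Matrix.mul_assoc]
        rw [hZ, Matrix.sub_mul, Matrix.trace_sub, e2, Matrix.mul_assoc Y X C]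
        have e3 : Y * Y = Y * (C * X) - Y * (X * C) := by
          rw [← Matrix.mul_sub, ← hY]
        rw [e3, Matrix.trace_sub]
        ring
      rw [hrep Z hZs, e1, neg_neg]
    have hZ0 : φ Z ≠ 0 := by
      rw [hφZ]
      exact hYY
    have hd : X' - (φ X' / φ Z) • Z ∈ Q := by
      apply hφ
      · rw [Matrix.transpose_sub, Matrix.transpose_smul, hX', hZs, smul_neg]
        abel
      · rw [map_sub, map_smul, smul_eq_mul, div_mul_cancel₀ _ hZ0, sub_self]
    have h := Q.add_mem hd (Q.smul_mem (φ X' / φ Z) hZQ)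
    rwa [sub_add_cancel] at h

end

end Pool.Agent.Lib.MP_9d59e9_gt.KS
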