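import Pool.Agent.Lib.MP_9d59e9_gt.KS.SpecO

/-!
# MP_9d59e9_gt, project KS: THEOREM FOUR (order four, arbitrary coefficients)
-/

set_option autoImplicit false

namespace Pool.Agent.Lib.MP_9d59e9_gt.KS

open KO KO3

/-- **THEOREM FOUR.** A Riemannian metric whose curvature tensor satisfies a linear relation of order
four with arbitrary smooth coefficients has `∇R = 0` at the points where the curvature operator is
injective. -/
theorem tEnF (h1 : S_Bt) (h2 : S_PF) (h3 : S_He) (h4 : S_Th) : S_EnF := by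
  intro n g Ω hn hg t ht hks p hp hns a c b m q
  have hK : KSr g {x | x ∈ Ω ∧ NonSing g x} 4 (tT t) := h1 n g Ω 4 hg t ht hks
  have hP : PtJ g {x | x ∈ Ω ∧ NonSing g x} (tT t 1) (InvE g) := h2 n g _ (tT t) hn hK
  have h0 : ∀ x ∈ {x | x ∈ Ω ∧ NonSing g x}, ∀ z a b c d, e5 (N g) x z a b c d = 0 :=
    h4 n g _ 4 (tT t) (InvE g) (by omega) (by norm_num) hK hP
      fun U _ θ α β hR hJ => h3 n g U θ α β (by omega) hR hJ
  by_contra hne
  obtain ⟨a', u, v, w, z, h⟩ := ((KO.sBrg n g Ω hg).2 p hp).1 ⟨a, c, b, m, q, hne⟩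
  exact h (h0 p ⟨hp, hns⟩ a' u v w z)

end Pool.Agent.Lib.MP_9d59e9_gt.KS
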