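import Pool.Agent.Lib.MP_9d59e9_gt.KS.SpecO

/-!
# MP_9d59e9_gt, project KS, module EnS: THEOREM SYM (assembly)
-/

set_option autoImplicit false

namespace Pool.Agent.Lib.MP_9d59e9_gt.KS

open scoped BigOperators ContDiff
open KO KO3

noncomputable section

theorem tEnS (h1 : S_Bt) (h2 : S_Br3) (h3 : S_PO) (h4 : S_Ho) (h5 : S_Th) (h6 : S_EnE) :
    S_EnS := by
  intro n g Ω r hn hr hg t ht hks hsym p hp hns a c b m q
  rcases Nat.even_or_odd r with he | ho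
  · exact h6 n g Ω r hn hr he hg t ht hks hsym p hp hns a c b m q
  have hD := h1 n g Ω r hg t ht hks
  have hSy : Sy {x | x ∈ Ω ∧ NonSing g x} r (tT t) :=
    h2 n {x | x ∈ Ω ∧ NonSing g x} r t (fun x hx => hsym x hx.1)
  have hr5 : 5 ≤ r := by
    obtain ⟨k, hk⟩ := ho
    omega
  have hP := h3 n g {x | x ∈ Ω ∧ NonSing g x} r (tT t) hn hr5 ho hD hSy
  have hT := h5 n g {x | x ∈ Ω ∧ NonSing g x} r (tT t) (InvO g) hn (by omega) hD hP
    (fun U _ θ α β hR hJ => h4 n g U θ α β hn hR hJ)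
  by_contra hne
  obtain ⟨a', u, v, w, z, h⟩ := ((sBrg n g Ω hg).2 p hp).1 ⟨a, c, b, m, q, hne⟩
  exact h (hT p ⟨hp, hns⟩ a' u v w z)

end

end Pool.Agent.Lib.MP_9d59e9_gt.KS
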