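import Pool.Agent.Lib.MP_9d59e9_gt.KS.SpecO

/-!
# MP_9d59e9_gt, project KS, module H2: algebra of order four, second part
-/

set_option autoImplicit false

namespace Pool.Agent.Lib.MP_9d59e9_gt.KS

open scoped BigOperators ContDiff
open Set KO KO3

noncomputable section

section

variable {V : Type} [AddCommGroup V] [Module ℝ V] {B : V → V → ℝ} {D : V → V → V → V → ℝ}

/-! ### linearity -/

private theorem H2_a1 (h : Crvt D) (a a' b c d : V) : D (a + a') b c d = D a b c d + D a' b c d :=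
  (h.lin b c d).add a a'

private theorem H2_s1 (h : Crvt D) (r : ℝ) (a b c d : V) : D (r • a) b c d = r * D a b c d :=
  (h.lin b c d).smul r a

private theorem H2_a2 (h : Crvt D) (a b b' c d : V) : D a (b + b') c d = D a b c d + D a b' c d := by
  have e1 := h.a12 a (b + b') c d
  have e2 := h.a12 a b c d
  have e3 := h.a12 a b' c d
  have e4 := H2_a1 h b b' a c d
  linarith

private theorem H2_s2 (h : Crvt D) (r : ℝ) (a b c d : V) : D a (r • b) c d = r * D a b c d := by
  have e1 := h.a12 a (r • b) c d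
  have e2 := h.a12 a b c d
  have e4 := H2_s1 h r b a c d
  rw [e2] at e4
  linarith

private theorem H2_a3 (h : Crvt D) (a b c c' d : V) : D a b (c + c') d = D a b c d + D a b c' d := by
  rw [← h.sw, ← h.sw a b c d, ← h.sw a b c' d]
  exact H2_a1 h c c' d a b

private theorem H2_s3 (h : Crvt D) (r : ℝ) (a b c d : V) : D a b (r • c) d = r * D a b c d := by
  rw [← h.sw, ← h.sw a b c d]
  exact H2_s1 h r c d a b

private theorem H2_a4 (h : Crvt D) (a b c d d' : V) : D a b c (d + d') = D a b c d + D a b c d' := by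
  rw [← h.sw, ← h.sw a b c d, ← h.sw a b c d']
  exact H2_a2 h c d d' a b

private theorem H2_s4 (h : Crvt D) (r : ℝ) (a b c d : V) : D a b c (r • d) = r * D a b c d := by
  rw [← h.sw, ← h.sw a b c d]
  exact H2_s2 h r c d a b

private theorem H2_Ba (h : IP B) (e x x' : V) : B e (x + x') = B e x + B e x' := by
  rw [h.symm e, h.symm e, h.symm e]
  exact (h.lin e).add x x'

private theorem H2_Bs (h : IP B) (r : ℝ) (e x : V) : B e (r • x) = r * B e x := by
  rw [h.symm e, h.symm e]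
  exact (h.lin e).smul r x

private theorem H2_Bt (h : IP B) (r : ℝ) (x e : V) : B (r • x) e = r * B x e := (h.lin e).smul r x

private theorem H2_Bu (h : IP B) (x x' e : V) : B (x + x') e = B x e + B x' e := (h.lin e).add x x'

private theorem H2_nrm (h : IP B) {y : V} (hpos : 0 < B y y) :
    B ((Real.sqrt (B y y))⁻¹ • y) ((Real.sqrt (B y y))⁻¹ • y) = 1 := by
  rw [H2_Bs h, H2_Bt h, ← mul_assoc, ← mul_inv, Real.mul_self_sqrt hpos.le,
    inv_mul_cancel₀ hpos.ne']

private theorem H2_wd (h : IP B) (x x' a b : V) :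
    B (wd B x x' a) b = B x' a * B x b - B x a * B x' b := by
  unfold wd
  rw [sub_eq_add_neg, ← neg_smul, H2_Bu h, H2_Bt h, H2_Bt h]
  ring

private theorem H2_B0 (h : IP B) (e : V) : B e 0 = 0 := by
  have h1 := H2_Bs h 0 e 0
  rwa [zero_smul, zero_mul] at h1

private theorem H2_0B (h : IP B) (e : V) : B 0 e = 0 := by
  rw [h.symm]
  exact H2_B0 h e

/-- the tensor `R - κ G0` -/
private theorem H2_crvt (h : IP B) {R : V → V → V → V → ℝ} (hR : Crvt R) (κ : ℝ) :
    Crvt fun a b c d => R a b c d - κ * G0 B a b c d where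
  lin := fun b c d => ⟨fun a a' => by
      simp only [G0]
      rw [(hR.lin b c d).add, (h.lin d).add, (h.lin c).add]
      ring, fun r a => by
      simp only [G0]
      rw [(hR.lin b c d).smul, (h.lin d).smul, (h.lin c).smul]
      ring⟩
  a12 := fun a b c d => by
    simp only [G0]
    rw [hR.a12 a b c d]
    ring
  a34 := fun a b c d => by
    simp only [G0]
    rw [hR.a34 a b c d]
    ring
  sw := fun a b c d => by
    simp only [G0]
    rw [hR.sw a b c d, h.symm c b, h.symm d a, h.symm c a, h.symm d b]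
    ring
  bi := fun a b c d => by
    have h1 := hR.bi a b c d
    simp only [G0]
    rw [h.symm b a, h.symm c a, h.symm c b]
    linear_combination h1

/-- a unit vector orthogonal to four vectors, the last one a unit vector -/
private theorem H2_pr4 {m : ℕ} (h : Eu B m) (hm : 4 ≤ m) (a b c x : V) (hx : B x x = 1) :
    ∃ y, B y y = 1 ∧ B a y = 0 ∧ B b y = 0 ∧ B c y = 0 ∧ B x y = 0 := by
  obtain ⟨f, hf, hf0⟩ := h.fr x hx
  have hlin : ∀ u : V, ∀ w : Fin m → ℝ, B u (∑ i, w i • f i.succ) = ∑ i, w i * B u (f i.succ) := by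
    intro u w
    have h1 : ∀ s : Finset (Fin m), B u (∑ i ∈ s, w i • f i.succ)
        = ∑ i ∈ s, w i * B u (f i.succ) := by
      intro s
      classical
      induction s using Finset.induction_on with
      | empty => rw [Finset.sum_empty, Finset.sum_empty]; exact H2_B0 h.ip u
      | insert i s hi ih =>
        rw [Finset.sum_insert hi, Finset.sum_insert hi, H2_Ba h.ip, H2_Bs h.ip, ih]
    exact h1 _
  let T : (Fin m → ℝ) →ₗ[ℝ] (Fin 3 → ℝ) := LinearMap.pi fun j =>
    ∑ i, (B (![a, b, c] j) (f i.succ)) • LinearMap.proj i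
  have hT : ∀ w j, T w j = B (![a, b, c] j) (∑ i, w i • f i.succ) := by
    intro w j
    rw [hlin]
    simp only [T, LinearMap.pi_apply, LinearMap.sum_apply, LinearMap.smul_apply,
      LinearMap.proj_apply, smul_eq_mul]
    exact Finset.sum_congr rfl fun i _ => mul_comm _ _
  have hker : LinearMap.ker T ≠ ⊥ := by
    apply LinearMap.ker_ne_bot_of_finrank_lt
    rw [Module.finrank_fin_fun, Module.finrank_fin_fun]
    omega
  obtain ⟨w, hw, hw0⟩ := (Submodule.ne_bot_iff _).1 hker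
  have hw' : T w = 0 := hw
  have hon : ∀ i j : Fin m, B (f i.succ) (f j.succ) = if i = j then 1 else 0 := by
    intro i j
    rw [hf.on]
    simp only [Fin.succ_inj]
  have hBf : ∀ i, B (f i.succ) (∑ i, w i • f i.succ) = w i := by
    intro i
    rw [hlin, Finset.sum_eq_single i]
    · rw [hon, if_pos rfl, mul_one]
    · intro j _ hj
      rw [hon, if_neg hj.symm, mul_zero]
    · intro hi
      exact absurd (Finset.mem_univ i) hi
  have hy0 : ∑ i, w i • f i.succ ≠ 0 := by
    intro h0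
    apply hw0
    funext i
    rw [← hBf i, h0]
    exact H2_B0 h.ip _
  have hpos := h.ip.pos _ hy0
  have hx' : B x (∑ i, w i • f i.succ) = 0 := by
    rw [hlin]
    refine Finset.sum_eq_zero fun i _ => ?_
    rw [← hf0, hf.on, if_neg (Fin.succ_ne_zero i).symm, mul_zero]
  have h3 : ∀ j, B (![a, b, c] j) (∑ i, w i • f i.succ) = 0 := by
    intro j
    rw [← hT, hw']
    rfl
  generalize ∑ i, w i • f i.succ = y at hpos hx' h3
  refine ⟨(Real.sqrt (B y y))⁻¹ • y, ?_, ?_, ?_, ?_, ?_⟩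
  · exact H2_nrm h.ip hpos
  · rw [H2_Bs h.ip, show B a y = 0 from h3 0, mul_zero]
  · rw [H2_Bs h.ip, show B b y = 0 from h3 1, mul_zero]
  · rw [H2_Bs h.ip, show B c y = 0 from h3 2, mul_zero]
  · rw [H2_Bs h.ip, hx', mul_zero]

/-! ### the tensor `D` -/

/-- the hypotheses on `D` -/
private structure H2H (B : V → V → ℝ) (D : V → V → V → V → ℝ) (e p q : V) : Prop where
  ip : IP B
  cr : Crvt D
  ee : B e e = 1 ∨ e = 0
  d1 : ∀ x y z, B e x = 0 → B p x = 0 → B q x = 0 → B e y = 0 → D x y x z = 0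
  d2 : ∀ x y z, B e x = 0 → B p x = 0 → B q x = 0 → B e y = 0 → D x y y z = 0

variable {e p q : V}

private theorem H2_sa (H : H2H B D e p q) {x x' y : V} (z : V) (h1 : B e x = 0) (h2 : B p x = 0)
    (h3 : B q x = 0) (h1' : B e x' = 0) (h2' : B p x' = 0) (h3' : B q x' = 0) (hy : B e y = 0) :
    D x y x' z = -D x' y x z := by
  have e1 := H.d1 (x + x') y z (by rw [H2_Ba H.ip, h1, h1', add_zero])
    (by rw [H2_Ba H.ip, h2, h2', add_zero]) (by rw [H2_Ba H.ip, h3, h3', add_zero]) hy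
  rw [H2_a1 H.cr, H2_a3 H.cr, H2_a3 H.cr, H.d1 x y z h1 h2 h3 hy, H.d1 x' y z h1' h2' h3' hy] at e1
  linarith

private theorem H2_sb (H : H2H B D e p q) {x y y' : V} (z : V) (h1 : B e x = 0) (h2 : B p x = 0)
    (h3 : B q x = 0) (hy : B e y = 0) (hy' : B e y' = 0) : D x y y' z = -D x y' y z := by
  have e1 := H.d2 x (y + y') z h1 h2 h3 (by rw [H2_Ba H.ip, hy, hy', add_zero])
  rw [H2_a2 H.cr, H2_a3 H.cr, H2_a3 H.cr, H.d2 x y z h1 h2 h3 hy, H.d2 x y' z h1 h2 h3 hy'] at e1
  linarith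

private theorem H2_sc (H : H2H B D e p q) {x y y' : V} (z : V) (h1 : B e x = 0) (h2 : B p x = 0)
    (h3 : B q x = 0) (hy : B e y = 0) (hy' : B e y' = 0) : D y y' x z = -2 * D x y y' z := by
  have e1 := H.cr.bi x y y' z
  have e2 := H.cr.a12 x y' y z
  have e3 := H2_sb H z h1 h2 h3 hy hy'
  linarith

/-- the component in `K` -/
private theorem H2_K (H : H2H B D e p q) (a : V) : B e (a + -(B e a) • e) = 0 := by
  rw [H2_Ba H.ip, H2_Bs H.ip]
  rcases H.ee with h | h
  · rw [h]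
    ring
  · rw [h, H2_0B H.ip, H2_0B H.ip]
    ring

private theorem H2_dec (a : V) : a = B e a • e + (a + -(B e a) • e) := by
  rw [neg_smul]
  abel

private theorem H2_1 (H : H2H B D e p q) {x x' : V} (h1 : B e x = 0) (h2 : B p x = 0)
    (h3 : B q x = 0) (h1' : B e x' = 0) (h2' : B p x' = 0) (h3' : B q x' = 0) (a b : V) :
    D x x' a b = 0 := by
  have key : ∀ y z, B e y = 0 → D x x' y z = 0 := by
    intro y z hy
    have e1 := H2_sc H z h1 h2 h3 h1' hy
    have e2 := H2_sa H z h1 h2 h3 h1' h2' h3' hy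
    have e3 := H2_sb H z h1 h2 h3 hy h1'
    linarith
  have ke : ∀ z, D x x' e z = 0 := by
    intro z
    rw [H2_dec (B := B) (e := e) z, H2_a4 H.cr, H2_s4 H.cr]
    have e1 := H.cr.a34 x x' e e
    have e2 := H.cr.a34 x x' e (z + -(B e z) • e)
    rw [key _ e (H2_K H z)] at e2
    have e3 : D x x' e e = 0 := by linarith
    rw [e3, mul_zero, zero_add]
    linarith
  rw [H2_dec (B := B) (e := e) a, H2_a3 H.cr, H2_s3 H.cr, ke, key _ b (H2_K H a), mul_zero, add_zero]

private theorem H2_3 (H : H2H B D e p q) {x x' y : V} (z : V) (h1 : B e x = 0) (h2 : B p x = 0)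
    (h3 : B q x = 0) (h1' : B e x' = 0) (h2' : B p x' = 0) (h3' : B q x' = 0) (hy : B e y = 0) :
    D x y x' z = 0 := by
  rw [H2_sb H z h1 h2 h3 hy h1', H2_1 H h1 h2 h3 h1' h2' h3', neg_zero]

/-- a nontrivial solution of two linear equations in three unknowns -/
private theorem H2_ker (P Q : Fin 3 → ℝ) : ∃ c : Fin 3 → ℝ, c ≠ 0 ∧
    c 0 * P 0 + c 1 * P 1 + c 2 * P 2 = 0 ∧ c 0 * Q 0 + c 1 * Q 1 + c 2 * Q 2 = 0 := by
  let T : (Fin 3 → ℝ) →ₗ[ℝ] (Fin 2 → ℝ) := LinearMap.pi fun j =>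
    ∑ i, (![P, Q] j i) • LinearMap.proj i
  have hker : LinearMap.ker T ≠ ⊥ := by
    apply LinearMap.ker_ne_bot_of_finrank_lt
    rw [Module.finrank_fin_fun, Module.finrank_fin_fun]
    omega
  obtain ⟨w, hw, hw0⟩ := (Submodule.ne_bot_iff _).1 hker
  have hw' : T w = 0 := hw
  have h0 := congrFun hw' 0
  have h1 := congrFun hw' 1
  simp only [T, LinearMap.pi_apply, Fin.sum_univ_three, LinearMap.add_apply, LinearMap.smul_apply,
    LinearMap.proj_apply, smul_eq_mul, Matrix.cons_val_zero,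
    Matrix.cons_val_one, Pi.zero_apply] at h0 h1
  refine ⟨w, hw0, ?_, ?_⟩
  · linarith
  · linarith

private theorem H2_4 (H : H2H B D e p q) {x y y' y'' : V} (h1 : B e x = 0) (h2 : B p x = 0)
    (h3 : B q x = 0) (hy : B e y = 0) (hy' : B e y' = 0) (hy'' : B e y'' = 0) :
    D x y y' y'' = 0 := by
  obtain ⟨c, hc, hp, hq⟩ := H2_ker (fun i => B p (![y, y', y''] i)) (fun i => B q (![y, y', y''] i))
  simp only [Matrix.cons_val_zero, Matrix.cons_val_one, Matrix.cons_val] at hp hq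
  have k1 : B e (c 0 • y + (c 1 • y' + c 2 • y'')) = 0 := by
    rw [H2_Ba H.ip, H2_Ba H.ip, H2_Bs H.ip, H2_Bs H.ip, H2_Bs H.ip, hy, hy', hy'']
    ring
  have k2 : B p (c 0 • y + (c 1 • y' + c 2 • y'')) = 0 := by
    rw [H2_Ba H.ip, H2_Ba H.ip, H2_Bs H.ip, H2_Bs H.ip, H2_Bs H.ip]
    linarith
  have k3 : B q (c 0 • y + (c 1 • y' + c 2 • y'')) = 0 := by
    rw [H2_Ba H.ip, H2_Ba H.ip, H2_Bs H.ip, H2_Bs H.ip, H2_Bs H.ip]
    linarith
  -- antisymmetry
  have s12 : ∀ a b d : V, B e a = 0 → B e b = 0 → D x a b d = -D x b a d := fun a b d ha hb =>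
    H2_sb H d h1 h2 h3 ha hb
  have s23 : ∀ a b d : V, D x a b d = -D x a d b := fun a b d => by
    have := H.cr.a34 x a b d
    linarith
  have z12 : ∀ a d : V, B e a = 0 → D x a a d = 0 := fun a d ha => by
    have := s12 a a d ha ha
    linarith
  have z23 : ∀ a b : V, D x a b b = 0 := fun a b => by
    have := s23 a b b
    linarith
  have z13 : ∀ a b : V, B e a = 0 → B e b = 0 → D x a b a = 0 := fun a b ha hb => by
    rw [s12 a b a ha hb, z23, neg_zero]
  -- three values on the combination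
  have v1 : c 0 * D x y y' y'' = 0 := by
    have e1 := H2_1 H h1 h2 h3 k1 k2 k3 y' y''
    rw [H2_a2 H.cr, H2_a2 H.cr, H2_s2 H.cr, H2_s2 H.cr, H2_s2 H.cr, z12 y' y'' hy',
      z13 y'' y' hy'' hy'] at e1
    linarith
  have v2 : c 1 * D x y y' y'' = 0 := by
    have e1 := H2_3 H (y := y) y'' h1 h2 h3 k1 k2 k3 hy
    rw [H2_a3 H.cr, H2_a3 H.cr, H2_s3 H.cr, H2_s3 H.cr, H2_s3 H.cr, z12 y y'' hy, z23] at e1
    linarith
  have v3 : c 2 * D x y y' y'' = 0 := by
    have e1 := H2_3 H (y := y) y' h1 h2 h3 k1 k2 k3 hy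
    rw [H2_a3 H.cr, H2_a3 H.cr, H2_s3 H.cr, H2_s3 H.cr, H2_s3 H.cr, z12 y y' hy, z23,
      s23 y y'' y'] at e1
    linarith
  by_contra hne
  apply hc
  funext i
  fin_cases i
  · exact (mul_eq_zero.1 v1).resolve_right hne
  · exact (mul_eq_zero.1 v2).resolve_right hne
  · exact (mul_eq_zero.1 v3).resolve_right hne

end

theorem tH2 (h1 : S_Pr3) (_h2 : S_Ij) : S_H2 := by
  intro V _ _ B m R Ro hA hm e p q hee hact κ hκ
  have hip := hA.eu.ip
  obtain ⟨D, hD⟩ : ∃ D : V → V → V → V → ℝ, ∀ a b c d, D a b c d = R a b c d - κ * G0 B a b c d :=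
    ⟨fun a b c d => R a b c d - κ * G0 B a b c d, fun _ _ _ _ => rfl⟩
  have cr : Crvt D := by
    have h5 : D = fun a b c d => R a b c d - κ * G0 B a b c d := by
      funext a b c d
      exact hD a b c d
    rw [h5]
    exact H2_crvt hip hA.cR κ
  have H : H2H B D e p q := by
    refine ⟨hip, cr, hee, fun x y z a b c d => ?_, fun x y z a b c d => ?_⟩
    · have := (hκ x y z a b c d).1
      rw [hD]
      linarith
    · have := (hκ x y z a b c d).2
      rw [hD]
      linarith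
  have g1 : ∀ x x', B e x = 0 → B p x = 0 → B q x = 0 → B e x' = 0 → B p x' = 0 → B q x' = 0 →
      ∀ a b, R x x' a b = κ * G0 B x x' a b := by
    intro x x' a1 a2 a3 b1 b2 b3 a b
    have := H2_1 H a1 a2 a3 b1 b2 b3 a b
    rw [hD] at this
    linarith
  -- `κ ≠ 0`
  have hκ0 : κ ≠ 0 := by
    intro h0
    obtain ⟨x, x0, x1, x2, x3⟩ := h1 V B m hA.eu (by omega) e p q
    obtain ⟨y, y0, y1, y2, y3, y4⟩ := H2_pr4 hA.eu hm e p q x x0
    have r1 : ∀ a b, R x y a b = 0 := by
      intro a b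
      rw [g1 x y x1 x2 x3 y1 y2 y3, h0, zero_mul]
    have r2 : ∀ a b, R y x a b = 0 := by
      intro a b
      rw [g1 y x y1 y2 y3 x1 x2 x3, h0, zero_mul]
    have h5 := hA.ns 2 ![x, y] ![![0, 1], ![-1, 0]] ?_ ?_ ?_ 0 1
    · simp at h5
    · intro i j
      have y5 : B y x = 0 := by rw [hip.symm]; exact y4
      fin_cases i <;> fin_cases j <;> simp [x0, y0, y4, y5]
    · intro i j
      fin_cases i <;> fin_cases j <;> simp
    · intro a b
      simp [Fin.sum_univ_two, r1, r2]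
  refine ⟨hκ0, ?_⟩
  -- rotations of `K'` annihilate `R`
  have hw : ∀ x x', B e x = 0 → B p x = 0 → B q x = 0 → B e x' = 0 → B p x' = 0 → B q x' = 0 →
      ∀ a b c d, act4 (wd B x x') R a b c d = 0 := by
    intro x x' a1 a2 a3 b1 b2 b3 a b c d
    have hRo : ∀ a, Ro x x' a = κ • wd B x x' a := by
      intro a
      have h5 : ∀ b, B (Ro x x' a + (-1 : ℝ) • κ • wd B x x' a) b = 0 := by
        intro b
        rw [H2_Bu hip, H2_Bt hip, H2_Bt hip, H2_wd hip, hA.op, g1 x x' a1 a2 a3 b1 b2 b3]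
        unfold G0
        ring
      by_contra hne
      have h6 : Ro x x' a + (-1 : ℝ) • κ • wd B x x' a ≠ 0 := by
        intro h7
        apply hne
        rw [neg_smul, one_smul, ← sub_eq_add_neg, sub_eq_zero] at h7
        exact h7
      have h7 := hip.pos _ h6
      rw [h5] at h7
      exact lt_irrefl _ h7
    have h5 := hact x x' a1 a2 a3 b1 a b c d
    unfold act4 at h5 ⊢
    rw [hRo, hRo, hRo, hRo, H2_s1 hA.cR, H2_s2 hA.cR, H2_s3 hA.cR, H2_s4 hA.cR] at h5
    have h6 : κ * -(R (wd B x x' a) b c d + R a (wd B x x' b) c d + R a b (wd B x x' c) d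
        + R a b c (wd B x x' d)) = 0 := by linarith
    exact (mul_eq_zero.1 h6).resolve_left hκ0
  -- step (5) for a unit vector
  have s5 : ∀ x' y y', B x' x' = 1 → B e x' = 0 → B p x' = 0 → B q x' = 0 → B e y = 0 →
      B e y' = 0 → D x' y y' e = 0 := by
    intro x' y y' x0' x1' x2' x3' hy hy'
    obtain ⟨x, x0, x1, x2, x3, x4⟩ := H2_pr4 hA.eu hm e p q x' x0'
    have x5 : B x x' = 0 := by rw [hip.symm]; exact x4
    have xe : B x e = 0 := by rw [hip.symm]; exact x1
    have xe' : B x' e = 0 := by rw [hip.symm]; exact x1'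
    -- orthogonal vectors
    have base : ∀ u u', B e u = 0 → B e u' = 0 → B x u = 0 → B x' u = 0 → B x u' = 0 →
        B x' u' = 0 → D x' u u' e = 0 := by
      intro u u' hu hu' a1 a2 b1 b2
      have h5 := hw x x' x1 x2 x3 x1' x2' x3' x u u' e
      have w1 : wd B x x' x = (-1 : ℝ) • x' := by
        unfold wd
        rw [x4, x0, zero_smul, one_smul, zero_sub, neg_smul, one_smul]
      have w2 : wd B x x' u = (0 : ℝ) • u := by
        unfold wd
        rw [a1, a2, zero_smul, zero_smul, sub_zero, zero_smul]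
      have w3 : wd B x x' u' = (0 : ℝ) • u' := by
        unfold wd
        rw [b1, b2, zero_smul, zero_smul, sub_zero, zero_smul]
      have w4 : wd B x x' e = (0 : ℝ) • e := by
        unfold wd
        rw [xe, xe', zero_smul, zero_smul, sub_zero, zero_smul]
      unfold act4 at h5
      rw [w1, w2, w3, w4, H2_s1 hA.cR, H2_s2 hA.cR, H2_s3 hA.cR, H2_s4 hA.cR] at h5
      have h6 : B u e = 0 := by rw [hip.symm]; exact hu
      rw [hD]
      unfold G0
      rw [xe', h6]
      linarith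
    -- decomposition
    have hd : ∀ u, B e u = 0 → ∃ (u₀ : V) (s t : ℝ), u = u₀ + (s • x + t • x') ∧ B e u₀ = 0 ∧
        B x u₀ = 0 ∧ B x' u₀ = 0 := by
      intro u hu
      refine ⟨u + (-(B x u) • x + -(B x' u) • x'), B x u, B x' u, ?_, ?_, ?_, ?_⟩
      · rw [neg_smul, neg_smul]
        abel
      · rw [H2_Ba hip, H2_Ba hip, H2_Bs hip, H2_Bs hip, hu, x1, x1']
        ring
      · rw [H2_Ba hip, H2_Ba hip, H2_Bs hip, H2_Bs hip, x0, x5]
        ring
      · rw [H2_Ba hip, H2_Ba hip, H2_Bs hip, H2_Bs hip, x0', x4]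
        ring
    obtain ⟨u, s, t, e1, u1, u2, u3⟩ := hd y hy
    obtain ⟨u', s', t', e1', u1', u2', u3'⟩ := hd y' hy'
    have c1 : ∀ z z', D x' x z z' = 0 := fun z z' => H2_1 H x1' x2' x3' x1 x2 x3 z z'
    have c2 : ∀ z z', D x' x' z z' = 0 := fun z z' => H2_1 H x1' x2' x3' x1' x2' x3' z z'
    have c3 : ∀ z, D x' u x z = 0 := fun z => H2_3 H z x1' x2' x3' x1 x2 x3 u1
    have c4 : ∀ z, D x' u x' z = 0 := fun z => H2_3 H z x1' x2' x3' x1' x2' x3' u1
    have c5 := base u u' u1 u1' u2 u3 u2' u3'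
    rw [e1, H2_a2 cr, H2_a2 cr, H2_s2 cr, H2_s2 cr, c1, c2, e1', H2_a3 cr, H2_a3 cr, H2_s3 cr,
      H2_s3 cr, c3, c4, c5]
    ring
  -- step (5)
  have s5' : ∀ x y y', B e x = 0 → B p x = 0 → B q x = 0 → B e y = 0 → B e y' = 0 →
      D x y y' e = 0 := by
    intro x y y' a1 a2 a3 hy hy'
    by_cases hx : x = 0
    · have h0 : x = (0 : ℝ) • x := by rw [hx, smul_zero]
      rw [h0, H2_s1 cr, zero_mul]
    · have hpos := hip.pos x hx
      have hs : Real.sqrt (B x x) ≠ 0 := (Real.sqrt_pos.2 hpos).ne'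
      have h5 := s5 ((Real.sqrt (B x x))⁻¹ • x) y y' (H2_nrm hip hpos)
        (by rw [H2_Bs hip, a1, mul_zero]) (by rw [H2_Bs hip, a2, mul_zero])
        (by rw [H2_Bs hip, a3, mul_zero]) hy hy'
      rw [H2_s1 cr] at h5
      exact (mul_eq_zero.1 h5).resolve_left (inv_ne_zero hs)
  -- the end
  intro x y a b a1 a2 a3 hy
  have t1 : ∀ y' z, B e y' = 0 → D x y y' z = 0 := by
    intro y' z hy'
    have h5 := s5' x y y' a1 a2 a3 hy hy'
    have h6 := H2_4 H a1 a2 a3 hy hy' (H2_K H z)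
    rw [H2_dec (B := B) (e := e) z, H2_a4 cr, H2_s4 cr, h5, h6, mul_zero, add_zero]
  have t2 : D x y e b = 0 := by
    have h5 := t1 (b + -(B e b) • e) e (H2_K H b)
    have e1 := cr.a34 x y e e
    have e2 := cr.a34 x y e (b + -(B e b) • e)
    rw [h5] at e2
    have e3 : D x y e e = 0 := by linarith
    rw [H2_dec (B := B) (e := e) b, H2_a4 cr, H2_s4 cr, e3, mul_zero, zero_add]
    linarith
  have t3 := t1 (a + -(B e a) • e) b (H2_K H a)
  have t4 : D x y a b = 0 := by
    rw [H2_dec (B := B) (e := e) a, H2_a3 cr, H2_s3 cr, t2, t3, mul_zero, add_zero]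
  rw [hD] at t4
  linarith

end

end Pool.Agent.Lib.MP_9d59e9_gt.KS
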