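import Pool.Agent.Lib.MP_9d59e9_gt.KS.SpecO

/-!
# MP_9d59e9_gt, project KS: algebra of order four, third part (`S_H3`)

Author helper69, after the docstring of `S_H3`.
-/

set_option autoImplicit false

namespace Pool.Agent.Lib.MP_9d59e9_gt.KS

open scoped BigOperators
open KO KO3

noncomputable section

section

variable {V : Type} [AddCommGroup V] [Module ℝ V]

private lemma h3_l2 {R : V → V → V → V → ℝ} (hR : Crvt R) (x z w : V) :
    Lin1 fun y => R x y z w := by
  refine ⟨fun a b => ?_, fun r a => ?_⟩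
  · rw [hR.a12 (a + b) x z w, hR.a12 a x z w, hR.a12 b x z w, (hR.lin x z w).add]
    ring
  · rw [hR.a12 (r • a) x z w, hR.a12 a x z w, (hR.lin x z w).smul]
    ring

private lemma h3_l4 {R : V → V → V → V → ℝ} (hR : Crvt R) (x y z : V) :
    Lin1 fun w => R x y z w := by
  refine ⟨fun a b => ?_, fun r a => ?_⟩
  · rw [hR.a34 x y (a + b) z, hR.a34 x y a z, hR.a34 x y b z, (Sur.lin3 hR x y z).add]
    ring
  · rw [hR.a34 x y (r • a) z, hR.a34 x y a z, (Sur.lin3 hR x y z).smul]
    ring

/-- `act4` of a linear combination of two endomorphisms -/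
private lemma h3_comb {R : V → V → V → V → ℝ} (hR : Crvt R) (Φ Ψ Θ : V → V) (r s : ℝ)
    (h : ∀ a, Θ a = r • Φ a + s • Ψ a) (c d e f : V) :
    act4 Θ R c d e f = r * act4 Φ R c d e f + s * act4 Ψ R c d e f := by
  unfold act4
  rw [h c, h d, h e, h f, (hR.lin d e f).add, (hR.lin d e f).smul, (hR.lin d e f).smul,
    (h3_l2 hR c e f).add, (h3_l2 hR c e f).smul, (h3_l2 hR c e f).smul,
    (Sur.lin3 hR c d f).add, (Sur.lin3 hR c d f).smul, (Sur.lin3 hR c d f).smul,
    (h3_l4 hR c d e).add, (h3_l4 hR c d e).smul, (h3_l4 hR c d e).smul]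
  ring

/-- `act4` of a commutator -/
private lemma h3_comm {R : V → V → V → V → ℝ} (hR : Crvt R) (Φ Ψ Θ : V → V)
    (h : ∀ a, Θ a = Ψ (Φ a) - Φ (Ψ a)) (hΦ : ∀ a b c d, act4 Φ R a b c d = 0)
    (hΨ : ∀ a b c d, act4 Ψ R a b c d = 0) (c d e f : V) : act4 Θ R c d e f = 0 := by
  have h' : ∀ a, Θ a = Ψ (Φ a) + (-1 : ℝ) • Φ (Ψ a) := by
    intro a
    rw [h a, neg_smul, one_smul, sub_eq_add_neg]
  have p1 := hΦ (Ψ c) d e f
  have p2 := hΦ c (Ψ d) e f
  have p3 := hΦ c d (Ψ e) f
  have p4 := hΦ c d e (Ψ f)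
  have q1 := hΨ (Φ c) d e f
  have q2 := hΨ c (Φ d) e f
  have q3 := hΨ c d (Φ e) f
  have q4 := hΨ c d e (Φ f)
  unfold act4 at *
  rw [h' c, h' d, h' e, h' f, (hR.lin d e f).add, (hR.lin d e f).smul,
    (h3_l2 hR c e f).add, (h3_l2 hR c e f).smul,
    (Sur.lin3 hR c d f).add, (Sur.lin3 hR c d f).smul,
    (h3_l4 hR c d e).add, (h3_l4 hR c d e).smul]
  linear_combination q1 + q2 + q3 + q4 - p1 - p2 - p3 - p4

end

theorem tH3 (h1 : S_Pr3) (h2 : S_H1) (h3 : S_H2) : S_H3 := by
  intro V _ _ B m R Ro hA hm e p q he hyp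
  have hB := hA.eu.ip
  have hR := hA.cR
  obtain ⟨κ, hκ⟩ := h2 V B m R Ro hA hm e p q he hyp
  obtain ⟨hκ0, hD⟩ := h3 V B m R Ro hA hm e p q he hyp κ hκ
  have add2 : ∀ a u v, B a (u + v) = B a u + B a v := by
    intro a u v
    rw [hB.symm a, (hB.lin a).add, hB.symm u, hB.symm v]
  have smul2 : ∀ (a : V) (r : ℝ) (u : V), B a (r • u) = r * B a u := by
    intro a r u
    rw [hB.symm a, (hB.lin a).smul, hB.symm u]
  have wdc : ∀ u v a, wd B u v a = B v a • u + (-(B u a)) • v := by
    intro u v a
    rw [wd, neg_smul, sub_eq_add_neg]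
  -- the operators
  have hRo : ∀ x y, B e x = 0 → B p x = 0 → B q x = 0 → B e y = 0 → ∀ a,
      Ro x y a = κ • wd B x y a := by
    intro x y a1 a2 a3 a4 a
    have key : ∀ z, B (Ro x y a + (-κ) • wd B x y a) z = 0 := by
      intro z
      rw [(hB.lin z).add, (hB.lin z).smul, hA.op, hD x y a z a1 a2 a3 a4, wdc,
        (hB.lin z).add, (hB.lin z).smul, (hB.lin z).smul, G0]
      ring
    by_contra hne
    have h0 : Ro x y a + (-κ) • wd B x y a ≠ 0 := by
      intro h0
      apply hne
      rw [neg_smul] at h0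
      exact add_neg_eq_zero.1 h0
    have h4 := hB.pos _ h0
    rw [key] at h4
    exact lt_irrefl _ h4
  have hw : ∀ x y, B e x = 0 → B p x = 0 → B q x = 0 → B e y = 0 → ∀ a b c d,
      act4 (wd B x y) R a b c d = 0 := by
    intro x y a1 a2 a3 a4 a b c d
    have h4 := h3_comb hR (wd B x y) (wd B x y) (Ro x y) κ 0 (by
      intro a
      rw [hRo x y a1 a2 a3 a4, zero_smul, add_zero]) a b c d
    rw [hyp x y a1 a2 a3 a4, zero_mul, add_zero] at h4
    rcases mul_eq_zero.1 h4.symm with h5 | h5
    · exact absurd h5 hκ0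
    · exact h5
  obtain ⟨x, hx, xe, xp, xq⟩ := h1 V B m hA.eu (by omega) e p q
  refine ⟨?_, ?_⟩
  · -- vectors orthogonal to `x`
    have s1 : ∀ u v, B e u = 0 → B e v = 0 → B x u = 0 → B x v = 0 → ∀ a b c d,
        act4 (wd B u v) R a b c d = 0 := by
      intro u v a1 a2 a3 a4 a b c d
      refine h3_comm hR (wd B x u) (wd B x v) (wd B u v) ?_ (hw x u xe xp xq a1)
        (hw x v xe xp xq a2) a b c d
      intro t
      have b1 : B u x = 0 := by rw [hB.symm, a3]
      have b2 : B v x = 0 := by rw [hB.symm, a4]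
      have e1 : wd B x v (wd B x u t) = (-(B x t * B v u)) • x + (-(B u t)) • v := by
        rw [wdc x v, wdc x u t, add2, smul2, smul2, add2, smul2, smul2, hx, a3, b2]
        congr 1
        · congr 1
          ring
        · congr 1
          ring
      have e2 : wd B x u (wd B x v t) = (-(B x t * B v u)) • x + (-(B v t)) • u := by
        rw [wdc x u, wdc x v t, add2, smul2, smul2, add2, smul2, smul2, hx, a4, b1, hB.symm u v]
        congr 1
        · congr 1
          ring
        · congr 1
          ring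
      rw [e1, e2, wdc]
      rw [neg_smul (B v t) u]
      abel
    intro u v a1 a2 a b c d
    set s : ℝ := B x u with hs
    set t : ℝ := B x v with ht
    set u' : V := u + (-s) • x with hu'
    set v' : V := v + (-t) • x with hv'
    have hu : u = u' + s • x := by
      rw [hu', neg_smul]
      abel
    have hv : v = v' + t • x := by
      rw [hv', neg_smul]
      abel
    have b1 : B e u' = 0 := by rw [hu', add2, smul2, a1, xe]; ring
    have b2 : B e v' = 0 := by rw [hv', add2, smul2, a2, xe]; ring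
    have b3 : B x u' = 0 := by rw [hu', add2, smul2, hx, ← hs]; ring
    have b4 : B x v' = 0 := by rw [hv', add2, smul2, hx, ← ht]; ring
    have c1 := s1 u' v' b1 b2 b3 b4 a b c d
    have c2 := hw x u' xe xp xq b1 a b c d
    have c3 := hw x v' xe xp xq b2 a b c d
    have d1 := h3_comb hR (wd B x u') (wd B x v') (fun a => (-t) • wd B x u' a + s • wd B x v' a)
      (-t) s (fun _ => rfl) a b c d
    have d2 := h3_comb hR (wd B u' v') (fun a => (-t) • wd B x u' a + s • wd B x v' a)
      (wd B u v) 1 1 (by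
        intro z
        rw [one_smul, one_smul]
        have e1 : B u z = B u' z + s * B x z := by
          rw [hu, (hB.lin z).add, (hB.lin z).smul]
        have e2 : B v z = B v' z + t * B x z := by
          rw [hv, (hB.lin z).add, (hB.lin z).smul]
        rw [wdc u v z, e1, e2, wdc u' v' z, wdc x u' z, wdc x v' z]
        conv_lhs => rw [hu, hv]
        module) a b c d
    rw [c2, c3] at d1
    rw [d2, d1, c1]
    ring
  · intro u v a1 a2 a
    rcases he with he | he
    · have k1 : ∀ w z, B e w = 0 → B e z = 0 → R x w z e = 0 := by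
        intro w z b1 b2
        rw [hD x w z e xe xp xq b1, G0, hB.symm x e, hB.symm w e, xe, b1]
        ring
      have k2 : ∀ z, B e z = 0 → R u v z e = 0 := by
        intro z b1
        have h4 := hw x u xe xp xq a1 x v z e
        unfold act4 at h4
        have e1 : wd B x u e = 0 := by
          rw [wdc, hB.symm u e, hB.symm x e, a1, xe]
          simp
        have e2 : B e (wd B x u v) = 0 := by
          rw [wdc, add2, smul2, smul2, xe, a1]
          ring
        have e3 : B e (wd B x u z) = 0 := by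
          rw [wdc, add2, smul2, smul2, xe, a1]
          ring
        rw [e1, Sur.lin_zero (h3_l4 hR x v z), k1 _ z e2 b1, k1 v _ a2 e3, wdc x u x, hx,
          (hR.lin v z e).add, (hR.lin v z e).smul, (hR.lin v z e).smul, k1 v z a2 b1] at h4
        linarith
      have e1 : a = (a + (-(B e a)) • e) + B e a • e := by
        rw [neg_smul]
        abel
      have e2 : B e (a + (-(B e a)) • e) = 0 := by
        rw [add2, smul2, he]
        ring
      have e3 : R u v e e = 0 := by
        have := hR.a34 u v e e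
        linarith
      rw [hR.a34 u v a e]
      have e4 : R u v a e = 0 := by
        rw [e1, (Sur.lin3 hR u v e).add, (Sur.lin3 hR u v e).smul, e3, k2 _ e2]
        ring
      rw [e4, neg_zero]
    · rw [he]
      exact Sur.lin_zero (Sur.lin3 hR u v a)

end

end Pool.Agent.Lib.MP_9d59e9_gt.KS
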