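import Pool.Agent.Lib.MP_9d59e9_gt.KS.SpecO

/-!
# MP_9d59e9_gt, project KS, module Ho: integral curves are geodesics, odd order
-/

set_option autoImplicit false

namespace Pool.Agent.Lib.MP_9d59e9_gt.KS

open scoped BigOperators ContDiff
open Set KO KO3

noncomputable section

set_option linter.unusedSimpArgs false

private theorem Ho_ex {m : ℕ} (hm : 3 ≤ m) (i k : Fin (m + 1)) :
    ∃ j : Fin (m + 1), j ≠ 0 ∧ j ≠ i ∧ j ≠ k := by
  have key : ∀ t : ℕ, ∀ ht : t < m + 1, 1 ≤ t → t ≠ (i : ℕ) → t ≠ (k : ℕ) →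
      ∃ j : Fin (m + 1), j ≠ 0 ∧ j ≠ i ∧ j ≠ k := by
    intro t ht h1 h2 h3
    refine ⟨⟨t, ht⟩, ?_, ?_, ?_⟩
    · intro h
      have := congrArg Fin.val h
      simp only [Fin.val_zero] at this
      omega
    · intro h
      exact h2 (congrArg Fin.val h)
    · intro h
      exact h3 (congrArg Fin.val h)
  by_cases h1 : 1 ≠ (i : ℕ) ∧ 1 ≠ (k : ℕ)
  · exact key 1 (by omega) le_rfl h1.1 h1.2
  by_cases h2 : 2 ≠ (i : ℕ) ∧ 2 ≠ (k : ℕ)
  · exact key 2 (by omega) (by omega) h2.1 h2.2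
  · exact key 3 (by omega) (by omega) (by omega) (by omega)

section
variable {V : Type} [AddCommGroup V] [Module ℝ V]

private theorem Ho_zero {f : V → ℝ} (hf : Lin1 f) : f 0 = 0 := by
  simpa using hf.smul 0 0

private theorem Ho_alg {B : V → V → ℝ} (hB : IP B) {m : ℕ} (hm : 3 ≤ m)
    {f : Fin (m + 1) → V} (hf : Fr B f) {th : V → ℝ} (hth : ∀ v, th v = B (f 0) v)
    {b : V → V → ℝ} (hb1 : ∀ a, Lin1 (b a)) (hb2 : ∀ v, Lin1 fun a => b a v)
    (hb0 : ∀ X, b X (f 0) = 0) {da db : V → ℝ} (hda : Lin1 da) (hdb : Lin1 db) {β : ℝ}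
    (hβ : β ≠ 0) {N : V → V → V → V → V → ℝ}
    (hN : ∀ z a b' c d, N z a b' c d = da z * G0 B a b' c d
      + db z * KN B (fun p q => th p * th q) a b' c d + β * KN B (sy2 th (b z)) a b' c d)
    (inv : ∀ u v, B (f 0) u = 0 → B (f 0) v = 0 → ∀ a b c d p, act5 (wd B u v) N a b c d p = 0) :
    ∀ v, b (f 0) v = 0 := by
  have on0 : ∀ i, B (f i) (f i) = 1 := fun i => by rw [hf.on, if_pos rfl]
  have on1 : ∀ i j, i ≠ j → B (f i) (f j) = 0 := fun i j h => by rw [hf.on, if_neg h]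
  have t0 : th (f 0) = 1 := by rw [hth, on0]
  have t1 : ∀ i, i ≠ 0 → th (f i) = 0 := fun i h => by rw [hth, on1 0 i (Ne.symm h)]
  have z1 : ∀ v, B 0 v = 0 := fun v => Ho_zero (hB.lin v)
  have z2 : ∀ v, B v 0 = 0 := fun v => by rw [hB.symm, z1]
  have z3 : th 0 = 0 := by rw [hth, z2]
  have z4 : ∀ v, b v 0 = 0 := fun v => Ho_zero (hb1 v)
  have z5 : ∀ v, b 0 v = 0 := fun v => Ho_zero (hb2 v)
  have z6 : da 0 = 0 := Ho_zero hda
  have z7 : db 0 = 0 := Ho_zero hdb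
  have key : ∀ i, b (f 0) (f i) = 0 := by
    intro i
    by_cases hi : i = 0
    · rw [hi, hb0]
    obtain ⟨j, hj0, hji, -⟩ := Ho_ex hm i i
    obtain ⟨k, hk0, hki, hkj⟩ := Ho_ex hm i j
    have h := inv (f i) (f j) (on1 0 i (Ne.symm hi)) (on1 0 j hj0.symm) (f 0) (f j) (f k) (f k)
      (f 0)
    have w1 : wd B (f i) (f j) (f 0) = 0 := by
      unfold wd
      rw [on1 j 0 hj0, on1 i 0 hi, zero_smul, zero_smul, sub_zero]
    have w2 : wd B (f i) (f j) (f j) = f i := by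
      unfold wd
      rw [on0, on1 i j hji.symm, one_smul, zero_smul, sub_zero]
    have w3 : wd B (f i) (f j) (f k) = 0 := by
      unfold wd
      rw [on1 j k hkj.symm, on1 i k hki.symm, zero_smul, zero_smul, sub_zero]
    unfold act5 at h
    rw [w1, w2, w3, hN, hN, hN, hN, hN] at h
    simp only [G0, KN, sy2, on0, t0, t1 i hi, t1 j hj0, t1 k hk0, on1 j i hji, on1 i j hji.symm,
      on1 k i hki, on1 i k hki.symm, on1 k j hkj, on1 j k hkj.symm, on1 0 i (Ne.symm hi),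
      on1 i 0 hi, on1 0 j hj0.symm, on1 j 0 hj0, on1 0 k hk0.symm, on1 k 0 hk0, z1, z2, z3, z4,
      z5, z6, z7, hb0] at h
    have h' : β * b (f 0) (f i) = 0 := by linarith
    exact (mul_eq_zero.1 h').resolve_left hβ
  intro v
  have e : b (f 0) v = ∑ j, B v (f j) * b (f 0) (f j) := by
    conv_lhs => rw [hf.ex v]
    exact Sur.lin_sum (hb1 (f 0)) _ _
  rw [e]
  exact Finset.sum_eq_zero fun j _ => by rw [key j, mul_zero]

end

theorem tHo (h1 : S_Nn) : S_Ho := by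
  intro n g U θ α β hn hR hJ x hx
  obtain ⟨m, rfl⟩ : ∃ m, n = m + 1 := ⟨n - 1, by omega⟩
  have hE : Eu (ip g x) m := sFrm (m + 1) m g x rfl (hR.met.pos x hx)
  obtain ⟨f, hf, hf0⟩ := hE.fr (du g θ x) (hR.un.one x hx)
  obtain ⟨hN, hW, -⟩ := h1 (m + 1) g U θ α β hR x hx
  have hL := (sLin (m + 1) x).2.2.2.2.1 (D g θ)
  have hlin : ∀ L : Pt (m + 1) →L[ℝ] ℝ, Lin1 fun v => L v := fun L =>
    ⟨fun a b => map_add L a b, fun r a => by rw [map_smul, smul_eq_mul]⟩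
  have h := Ho_alg (B := ip g x) hE.ip (m := m) (by omega) hf
    (th := e1 θ x) (fun v => by rw [hf0]; exact hR.un.dual x hx v) (b := e2 (D g θ) x)
    hL.1 hL.2 (fun X => by rw [hf0]; exact hW X) (hlin (fderiv ℝ α x)) (hlin (fderiv ℝ β x))
    (hR.nb x hx) hN (by rw [hf0]; exact hJ x hx)
  rw [hf0] at h
  exact h

end

end Pool.Agent.Lib.MP_9d59e9_gt.KS
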