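import Pool.Agent.Lib.MP_9d59e9_gt.KS.SpecO

/-!
# MP_9d59e9_gt, project KS, module Hy: a hyperplane of `so(m)` suffices
-/

set_option autoImplicit false

namespace Pool.Agent.Lib.MP_9d59e9_gt.KS

open scoped BigOperators
open KO KO3

noncomputable section

variable {V : Type} [AddCommGroup V] [Module ℝ V]

private theorem Hy_lin {f : V → ℝ} (h : Lin1 f) {m : ℕ} (y : Fin m → ℝ) (d : Fin m → V) :
    f (∑ i, y i • d i) = ∑ i, y i * f (d i) := by
  let F : V →ₗ[ℝ] ℝ := ⟨⟨f, h.add⟩, fun r a => h.smul r a⟩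
  change F (∑ i, y i • d i) = ∑ i, y i * F (d i)
  rw [map_sum]
  refine Finset.sum_congr rfl fun i _ => ?_
  rw [map_smul, smul_eq_mul]

/-- the endomorphism with the matrix `X` -/
private def Hy_ph (B : V → V → ℝ) {m : ℕ} (d : Fin m → V) (X : Matrix (Fin m) (Fin m) ℝ) (a : V) :
    V := ∑ i, (X.mulVec (fun j => B (d j) a)) i • d i

private theorem Hy_add (B : V → V → ℝ) {m : ℕ} (d : Fin m → V) (X Y : Matrix (Fin m) (Fin m) ℝ)
    (a : V) : Hy_ph B d (X + Y) a = Hy_ph B d X a + Hy_ph B d Y a := by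
  unfold Hy_ph
  rw [Matrix.add_mulVec, ← Finset.sum_add_distrib]
  refine Finset.sum_congr rfl fun i _ => ?_
  rw [Pi.add_apply, add_smul]

private theorem Hy_sub (B : V → V → ℝ) {m : ℕ} (d : Fin m → V) (X Y : Matrix (Fin m) (Fin m) ℝ)
    (a : V) : Hy_ph B d (X - Y) a = Hy_ph B d X a - Hy_ph B d Y a := by
  unfold Hy_ph
  rw [Matrix.sub_mulVec, ← Finset.sum_sub_distrib]
  refine Finset.sum_congr rfl fun i _ => ?_
  rw [Pi.sub_apply, sub_smul]

private theorem Hy_smul (B : V → V → ℝ) {m : ℕ} (d : Fin m → V) (r : ℝ)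
    (X : Matrix (Fin m) (Fin m) ℝ) (a : V) : Hy_ph B d (r • X) a = r • Hy_ph B d X a := by
  unfold Hy_ph
  rw [Finset.smul_sum]
  refine Finset.sum_congr rfl fun i _ => ?_
  rw [Matrix.smul_mulVec, Pi.smul_apply, smul_eq_mul, mul_smul]

private theorem Hy_mul {B : V → V → ℝ} (hlin : ∀ b, Lin1 fun a => B b a) {m : ℕ} {d : Fin m → V}
    (hd : ∀ i j, B (d i) (d j) = if i = j then 1 else 0) (X Y : Matrix (Fin m) (Fin m) ℝ) (a : V) :
    Hy_ph B d (X * Y) a = Hy_ph B d X (Hy_ph B d Y a) := by
  have h1 : (fun j => B (d j) (Hy_ph B d Y a)) = Y.mulVec (fun j => B (d j) a) := by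
    funext j
    unfold Hy_ph
    rw [Hy_lin (hlin (d j))]
    simp only [hd, mul_ite, mul_one, mul_zero, Finset.sum_ite_eq, Finset.mem_univ, if_true]
  change Hy_ph B d (X * Y) a = ∑ i, (X.mulVec (fun j => B (d j) (Hy_ph B d Y a))) i • d i
  rw [h1, Matrix.mulVec_mulVec]
  rfl

/-- **Hy**: a hyperplane of `so(m)` suffices -/
theorem tHy (h1 : S_Cd) : S_Hy := by
  intro V _ _ B m hEu hm P hP e he γ hyp u v hu hv
  obtain ⟨hip, -, hfr⟩ := hEu
  obtain ⟨f, hf, hf0⟩ := hfr e he
  have hlin : ∀ b, Lin1 fun a => B b a := by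
    intro b
    refine ⟨fun x y => ?_, fun r x => ?_⟩
    · rw [hip.symm b (x + y), hip.symm b x, hip.symm b y]
      exact (hip.lin b).add x y
    · rw [hip.symm b (r • x), hip.symm b x]
      exact (hip.lin b).smul r x
  obtain ⟨d, hdf⟩ : ∃ d : Fin m → V, ∀ i, d i = f i.succ := ⟨fun i => f i.succ, fun _ => rfl⟩
  have hd : ∀ i j, B (d i) (d j) = if i = j then 1 else 0 := by
    intro i j
    rw [hdf, hdf, hf.on]
    simp only [Fin.succ_inj]
  have hde : ∀ i, B e (d i) = 0 := by
    intro i
    rw [hdf, ← hf0, hf.on, if_neg (Fin.succ_ne_zero i).symm]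
  -- the submodule
  let Q : Submodule ℝ (Matrix (Fin m) (Fin m) ℝ) :=
    { carrier := {X | P (Hy_ph B d X)}
      zero_mem' := by
        have e1 : Hy_ph B d (0 : Matrix (Fin m) (Fin m) ℝ) = fun _ => 0 := by
          funext a
          unfold Hy_ph
          simp
        change P (Hy_ph B d (0 : Matrix (Fin m) (Fin m) ℝ))
        rw [e1]
        exact hP.zero
      add_mem' := by
        intro X Y hX hY
        have e1 : Hy_ph B d (X + Y) = fun a => Hy_ph B d X a + Hy_ph B d Y a :=
          funext fun a => Hy_add B d X Y a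
        change P (Hy_ph B d (X + Y))
        rw [e1]
        exact hP.add _ _ hX hY
      smul_mem' := by
        intro r X hX
        have e1 : Hy_ph B d (r • X) = fun a => r • Hy_ph B d X a :=
          funext fun a => Hy_smul B d r X a
        change P (Hy_ph B d (r • X))
        rw [e1]
        exact hP.smul r _ hX }
  have hQ : ∀ X, X ∈ Q ↔ P (Hy_ph B d X) := fun X => Iff.rfl
  have hbr : ∀ X ∈ Q, ∀ Y ∈ Q, X * Y - Y * X ∈ Q := by
    intro X hX Y hY
    rw [hQ] at hX hY ⊢
    have e1 : Hy_ph B d (X * Y - Y * X) =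
        fun a => Hy_ph B d X (Hy_ph B d Y a) - Hy_ph B d Y (Hy_ph B d X a) := by
      funext a
      rw [Hy_sub, Hy_mul hlin hd, Hy_mul hlin hd]
    rw [e1]
    exact hP.br _ _ hX hY
  let φ : Matrix (Fin m) (Fin m) ℝ →ₗ[ℝ] ℝ :=
    { toFun := fun X => ∑ i, ∑ j, (X i j / 2) * γ (d i) (d j)
      map_add' := by
        intro X Y
        rw [← Finset.sum_add_distrib]
        refine Finset.sum_congr rfl fun i _ => ?_
        rw [← Finset.sum_add_distrib]
        refine Finset.sum_congr rfl fun j _ => ?_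
        rw [Matrix.add_apply]
        ring
      map_smul' := by
        intro r X
        rw [RingHom.id_apply, smul_eq_mul, Finset.mul_sum]
        refine Finset.sum_congr rfl fun i _ => ?_
        rw [Finset.mul_sum]
        refine Finset.sum_congr rfl fun j _ => ?_
        rw [Matrix.smul_apply, smul_eq_mul]
        ring }
  have hφ : ∀ X : Matrix (Fin m) (Fin m) ℝ, X.transpose = -X → φ X = 0 → X ∈ Q := by
    intro X hX h0
    have h2 := hyp m d d (fun i j => X i j / 2) hde hde h0
    rw [hQ]
    have e1 : Hy_ph B d X = fun a => ∑ i, ∑ j, (X i j / 2) • wd B (d i) (d j) a := by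
      funext a
      have hsk : ∀ i j, X j i = -X i j := by
        intro i j
        have h3 := congrFun (congrFun hX i) j
        rwa [Matrix.transpose_apply, Matrix.neg_apply] at h3
      have h4 : ∑ i, ∑ j, (X i j / 2) • wd B (d i) (d j) a =
          (∑ i, ∑ j, (X i j / 2 * B (d j) a) • d i) - ∑ i, ∑ j, (X i j / 2 * B (d i) a) • d j := by
        rw [← Finset.sum_sub_distrib]
        refine Finset.sum_congr rfl fun i _ => ?_
        rw [← Finset.sum_sub_distrib]
        refine Finset.sum_congr rfl fun j _ => ?_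
        unfold wd
        rw [smul_sub, smul_smul, smul_smul]
      have h5 : ∑ i, ∑ j, (X i j / 2 * B (d i) a) • d j =
          -∑ i, ∑ j, (X i j / 2 * B (d j) a) • d i := by
        rw [Finset.sum_comm, ← Finset.sum_neg_distrib]
        refine Finset.sum_congr rfl fun i _ => ?_
        rw [← Finset.sum_neg_distrib]
        refine Finset.sum_congr rfl fun j _ => ?_
        rw [hsk i j, ← neg_smul]
        congr 1
        ring
      rw [h4, h5, sub_neg_eq_add, ← Finset.sum_add_distrib]
      unfold Hy_ph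
      refine Finset.sum_congr rfl fun i _ => ?_
      rw [← Finset.sum_add_distrib]
      unfold Matrix.mulVec dotProduct
      rw [Finset.sum_smul]
      refine Finset.sum_congr rfl fun j _ => ?_
      rw [← add_smul]
      congr 1
      ring
    rw [e1]
    exact h2
  have hall := h1 m hm Q hbr φ hφ
  -- the conclusion
  have hexp : ∀ w : V, B e w = 0 → w = ∑ i, B w (d i) • d i := by
    intro w hw
    have h2 := hf.ex w
    rw [Fin.sum_univ_succ, hf0, hip.symm w e, hw, zero_smul, zero_add] at h2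
    simp only [hdf]
    exact h2
  have hB : ∀ w : V, B e w = 0 → ∀ a, B w a = ∑ j, B w (d j) * B (d j) a := by
    intro w hw a
    have h2 := Hy_lin (hip.lin a) (fun j => B w (d j)) d
    have h3 : B (∑ j, B w (d j) • d j) a = ∑ j, B w (d j) * B (d j) a := h2
    rw [← h3, ← hexp w hw]
  have hX : (Matrix.of fun i j => B u (d i) * B v (d j) - B v (d i) * B u (d j)).transpose =
      -(Matrix.of fun i j => B u (d i) * B v (d j) - B v (d i) * B u (d j)) := by
    ext i j
    simp only [Matrix.transpose_apply, Matrix.neg_apply, Matrix.of_apply]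
    ring
  have h3 := (hQ _).1 (hall _ hX)
  have e1 : Hy_ph B d (Matrix.of fun i j => B u (d i) * B v (d j) - B v (d i) * B u (d j)) =
      wd B u v := by
    funext a
    have hs : ∀ (r : ℝ) (w : V), B e w = 0 → r • w = ∑ i, (r * B w (d i)) • d i := by
      intro r w hw
      calc r • w = r • ∑ i, B w (d i) • d i := by rw [← hexp w hw]
        _ = ∑ i, (r * B w (d i)) • d i := by
          rw [Finset.smul_sum]
          exact Finset.sum_congr rfl fun i _ => smul_smul _ _ _
    change Hy_ph B d (Matrix.of fun i j => B u (d i) * B v (d j) - B v (d i) * B u (d j)) a =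
      B v a • u - B u a • v
    rw [hs (B v a) u hu, hs (B u a) v hv, ← Finset.sum_sub_distrib]
    unfold Hy_ph
    refine Finset.sum_congr rfl fun i _ => ?_
    rw [← sub_smul]
    congr 1
    rw [hB u hu a, hB v hv a]
    unfold Matrix.mulVec dotProduct
    rw [Finset.sum_mul, Finset.sum_mul, ← Finset.sum_sub_distrib]
    refine Finset.sum_congr rfl fun j _ => ?_
    change (B u (d i) * B v (d j) - B v (d i) * B u (d j)) * B (d j) a =
      B v (d j) * B (d j) a * B u (d i) - B u (d j) * B (d j) a * B v (d i)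
    ring
  rw [← e1]
  exact h3

end

end Pool.Agent.Lib.MP_9d59e9_gt.KS
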