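import Pool.Agent.Lib.MP_9d59e9_gt.KS.SpecO

/-!
# MP_9d59e9_gt, project KS, module Kp: annihilators form a Lie algebra
-/

set_option autoImplicit false

namespace Pool.Agent.Lib.MP_9d59e9_gt.KS

open scoped BigOperators ContDiff
open Set KO KO3

noncomputable section

theorem tKp (h1 : S_La) (h2 : S_Sb) : S_Kp := by
  intro n g x k hk
  obtain ⟨-, -, a3, a4, a5, a6, -, -, a9⟩ := h1 (Pt n)
  have hM : ∀ l : List (Pt n), l.length = k → MlL (S g x) l.length := fun l hl => by
    rw [hl]
    exact (h2 n g x).1.2 k hk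
  have hz : ∀ l m : List (Pt n), l.length = m.length → dS (fun _ => (0 : ℝ)) l m = 0 :=
    fun l m h => by
      rw [a9 _ l m h]
      exact Finset.sum_const_zero
  refine ⟨?_, ?_, ?_, ?_⟩
  · intro l hl
    refine a4 (S g x) l _ (hM l hl) (by rw [List.length_map]) ?_
    intro b hb
    obtain ⟨a, -, rfl⟩ := List.mem_map.1 hb
    rfl
  · intro Φ Ψ hΦ hΨ l hl
    have e := a5 (S g x) l (hM l hl) Bool Finset.univ (fun _ => 1)
      (fun b => if b = true then Φ else Ψ)
    simp only [Fintype.sum_bool, one_smul, one_mul, if_true, Bool.false_eq_true, if_false] at e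
    rw [e, hΦ l hl, hΨ l hl, add_zero]
  · intro r Φ hΦ l hl
    have e := a5 (S g x) l (hM l hl) Unit Finset.univ (fun _ => r) (fun _ => Φ)
    simp only [Finset.univ_unique, Finset.sum_singleton] at e
    rw [e, hΦ l hl, mul_zero]
  · intro Φ Ψ hΦ hΨ l hl
    have e := a6 (S g x) l (hM l hl) Φ Ψ
    have e1 : dS (fun l' => dS (S g x) l' (l'.map Φ)) l (l.map Ψ) = 0 := by
      rw [a3 _ (fun _ => (0 : ℝ)) l _ (by rw [List.length_map]) fun l' hl' =>
        hΦ l' (by rw [hl', hl])]
      exact hz _ _ (by rw [List.length_map])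
    have e2 : dS (fun l' => dS (S g x) l' (l'.map Ψ)) l (l.map Φ) = 0 := by
      rw [a3 _ (fun _ => (0 : ℝ)) l _ (by rw [List.length_map]) fun l' hl' =>
        hΨ l' (by rw [hl', hl])]
      exact hz _ _ (by rw [List.length_map])
    rw [e1, e2, sub_zero] at e
    exact e.symm

end

end Pool.Agent.Lib.MP_9d59e9_gt.KS
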