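import Pool.Agent.Lib.MP_9d59e9_gt.KS.SpecO

/-!
# MP_9d59e9_gt, project KS, module Nz: rotation invariant `∇R` (algebra)
-/

set_option autoImplicit false

namespace Pool.Agent.Lib.MP_9d59e9_gt.KS

open scoped BigOperators ContDiff
open Set KO KO3

noncomputable section

section
variable {V : Type} [AddCommGroup V] [Module ℝ V]

private theorem Nz_zero {φ : V → ℝ} (h : Lin1 φ) : φ 0 = 0 := by
  have := h.smul 0 0
  rwa [zero_smul, zero_mul] at this

private theorem Nz_lc {φ ψ : V → ℝ} (h : Lin1 φ) (e : ∀ v, ψ v = φ v) : Lin1 ψ := by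
  have : ψ = φ := funext e
  rw [this]
  exact h

private theorem Nz_l2 {T : V → V → V → V → ℝ} (h : Crvt T) (a c d : V) :
    Lin1 fun b => T a b c d := by
  constructor
  · intro x y
    have := (h.lin a c d).add x y
    rw [h.a12 (x + y) a, h.a12 x a, h.a12 y a, this]
    ring
  · intro r x
    have := (h.lin a c d).smul r x
    rw [h.a12 (r • x) a, h.a12 x a, this]
    ring

private theorem Nz_l3 {T : V → V → V → V → ℝ} (h : Crvt T) (a b d : V) :
    Lin1 fun c => T a b c d :=
  Nz_lc (h.lin d a b) fun v => (h.sw a b v d).symm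

private theorem Nz_l4 {T : V → V → V → V → ℝ} (h : Crvt T) (a b c : V) :
    Lin1 fun d => T a b c d :=
  Nz_lc (Nz_l2 h c a b) fun v => (h.sw a b c v).symm

/-- the case `v ⊥ u` -/
private theorem Nz_a {B : V → V → ℝ} (hB : IP B) {N : V → V → V → V → V → ℝ} (hN : Dcrv N)
    (u v x : V) (hx : B x x = 1) (hux : B u x = 0) (hvx : B v x = 0) (huv : B u v = 0)
    (h : ∀ z a b c d, act5 (wd B u x) N z a b c d = 0) : N u u v u v = 0 := by
  obtain ⟨r, hr⟩ : ∃ r, r = B u u := ⟨_, rfl⟩
  have f1 : wd B u x x = u := by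
    simp only [wd]
    rw [hx, hux, one_smul, zero_smul, sub_zero]
  have f2 : wd B u x u = (-r) • x := by
    simp only [wd]
    rw [hB.symm x u, hux, ← hr, zero_smul, zero_sub, neg_smul]
  have f3 : wd B u x v = 0 := by
    simp only [wd]
    rw [hB.symm x v, hvx, huv, zero_smul, zero_smul, sub_zero]
  have L1 : ∀ (t : ℝ) (y b c d e : V), N (t • y) b c d e = t * N y b c d e :=
    fun t y b c d e => (hN.lin b c d e).smul t y
  have L2 : ∀ (t : ℝ) (a y c d e : V), N a (t • y) c d e = t * N a y c d e :=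
    fun t a y c d e => ((hN.cur a).lin c d e).smul t y
  have L4 : ∀ (t : ℝ) (a b c y e : V), N a b c (t • y) e = t * N a b c y e :=
    fun t a b c y e => (Nz_l3 (hN.cur a) b c e).smul t y
  have Z3 : ∀ a b d e : V, N a b 0 d e = 0 := fun a b d e => Nz_zero (Nz_l2 (hN.cur a) b d e)
  have Z5 : ∀ a b c d : V, N a b c d 0 = 0 := fun a b c d => Nz_zero (Nz_l4 (hN.cur a) b c d)
  have e0 := h x x v x v
  have e1 := h x u v u v
  have e2 := h u x v u v
  have e3 := h u u v x v
  simp only [act5, f1, f2, f3, L1, L2, L4, Z3, Z5] at e0 e1 e2 e3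
  linear_combination (-(1 / 3 : ℝ)) * (e1 + e2 + e3) - (2 * r / 3) * e0

/-- the general case -/
private theorem Nz_b {B : V → V → ℝ} (hB : IP B) {N : V → V → V → V → V → ℝ} (hN : Dcrv N)
    (u v x : V) (hx : B x x = 1) (hux : B u x = 0) (hvx : B v x = 0)
    (h : ∀ z a b c d, act5 (wd B u x) N z a b c d = 0) : N u u v u v = 0 := by
  by_cases hu : u = 0
  · rw [hu]
    exact Nz_zero (hN.lin _ _ _ _)
  have hr : B u u ≠ 0 := (hB.pos u hu).ne'
  have lB : ∀ a, Lin1 (B a) := fun a => Nz_lc (hB.lin a) fun b => hB.symm a b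
  obtain ⟨t, ht⟩ : ∃ t, t = B u v / B u u := ⟨_, rfl⟩
  obtain ⟨w, hw⟩ : ∃ w, w = v + (-t) • u := ⟨_, rfl⟩
  have huw : B u w = 0 := by
    rw [hw, (lB u).add, (lB u).smul, ht]
    field_simp
    ring
  have hwx : B w x = 0 := by
    rw [hw, (hB.lin x).add, (hB.lin x).smul, hvx, hux]
    ring
  have h1 := Nz_a hB hN u w x hx hux hwx huw h
  have d1 : ∀ a c d, N u a a c d = 0 := fun a c d => by
    have := (hN.cur u).a12 a a c d
    linarith
  have d2 : ∀ a c d, N u c d a a = 0 := fun a c d => by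
    have := (hN.cur u).a34 c d a a
    linarith
  rw [hw] at h1
  have e1 := (Nz_l2 (hN.cur u) u u (v + (-t) • u)).add v ((-t) • u)
  have e2 := (Nz_l2 (hN.cur u) u u (v + (-t) • u)).smul (-t) u
  have e3 := (Nz_l4 (hN.cur u) u v u).add v ((-t) • u)
  have e4 := (Nz_l4 (hN.cur u) u v u).smul (-t) u
  have e5 := d1 u u (v + (-t) • u)
  have e6 := d2 u u v
  rw [e1, e2, e5, e3, e4, e6] at h1
  linarith

end

theorem tNz (h1 : S_Pr3) : S_Nz := by
  intro V _ _ B m hE N hN
  have hB := hE.ip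
  refine ⟨fun hm h z a b c d => ?_, fun e he hm h => ?_⟩
  · refine sPol V N hN (fun u v => ?_) z a b c d
    obtain ⟨x, hx, hux, hvx⟩ := sPrp V B m hE hm u v
    exact Nz_b hB hN u v x hx hux hvx (h u x)
  · have hBe : Lin1 (B e) := Nz_lc (hB.lin e) fun v => hB.symm e v
    obtain ⟨π, hπ⟩ : ∃ π : V → V, π = fun a => a + (-(B e a)) • e := ⟨_, rfl⟩
    have pe : ∀ a, B e (π a) = 0 := by
      intro a
      rw [hπ]
      change B e (a + (-(B e a)) • e) = 0
      rw [hBe.add, hBe.smul, he]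
      ring
    have padd : ∀ a b, π (a + b) = π a + π b := by
      intro a b
      rw [hπ]
      change a + b + (-(B e (a + b))) • e = (a + (-(B e a)) • e) + (b + (-(B e b)) • e)
      rw [hBe.add, neg_add, add_smul]
      abel
    have psmul : ∀ (r : ℝ) a, π (r • a) = r • π a := by
      intro r a
      rw [hπ]
      change r • a + (-(B e (r • a))) • e = r • (a + (-(B e a)) • e)
      rw [hBe.smul, smul_add, smul_smul, mul_neg]
    have pD : ∀ a, B e a = 0 → π a = a := by
      intro a ha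
      rw [hπ]
      change a + (-(B e a)) • e = a
      rw [ha, neg_zero, zero_smul, add_zero]
    have hN' : Dcrv fun a b c d f => N (π a) (π b) (π c) (π d) (π f) := by
      refine ⟨fun a => ⟨fun b c d => ⟨fun x y => ?_, fun r x => ?_⟩, fun x b c d => ?_,
        fun x b c d => ?_, fun x b c d => ?_, fun x b c d => ?_⟩, fun b c d f => ⟨fun x y => ?_,
        fun r x => ?_⟩, fun a b c d f => ?_⟩
      · rw [padd]
        exact ((hN.cur (π a)).lin _ _ _).add _ _
      · rw [psmul]
        exact ((hN.cur (π a)).lin _ _ _).smul _ _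
      · exact (hN.cur (π a)).a12 _ _ _ _
      · exact (hN.cur (π a)).a34 _ _ _ _
      · exact (hN.cur (π a)).sw _ _ _ _
      · exact (hN.cur (π a)).bi _ _ _ _
      · rw [padd]
        exact (hN.lin _ _ _ _).add _ _
      · rw [psmul]
        exact (hN.lin _ _ _ _).smul _ _
      · exact hN.bi2 _ _ _ _ _
    intro z a b c d hz ha hb hc hd
    have h0 := sPol V _ hN' (fun u v => by
      obtain ⟨x, hx, hex, hux, hvx⟩ := h1 V B m hE hm e (π u) (π v)
      exact Nz_b hB hN (π u) (π v) x hx hux hvx (h (π u) x (pe u) hex)) z a b c d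
    rw [pD z hz, pD a ha, pD b hb, pD c hc, pD d hd] at h0
    exact h0

end

end Pool.Agent.Lib.MP_9d59e9_gt.KS
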