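import Pool.Agent.Lib.MP_9d59e9_gt.KS.SpecO

/-!
# MP_9d59e9_gt, project KS, module Oa: a curvature operator of a plane in `e^⊥` which moves `e`
-/

set_option autoImplicit false

namespace Pool.Agent.Lib.MP_9d59e9_gt.KS

open scoped BigOperators
open Set KO KO3

noncomputable section

section aux

variable {V : Type} [AddCommGroup V] [Module ℝ V] {B : V → V → ℝ} {R : V → V → V → V → ℝ}
  {Ro : V → V → V → V}

private def oaLM {φ : V → ℝ} (h : Lin1 φ) : V →ₗ[ℝ] ℝ where
  toFun := φ
  map_add' := h.add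
  map_smul' := h.smul

private theorem oa_sum {φ : V → ℝ} (h : Lin1 φ) {ι : Type} (s : Finset ι) (w : ι → ℝ)
    (f : ι → V) : φ (∑ i ∈ s, w i • f i) = ∑ i ∈ s, w i * φ (f i) := by
  have h1 := map_sum (oaLM h) (fun i => w i • f i) s
  refine h1.trans (Finset.sum_congr rfl fun i _ => ?_)
  exact h.smul _ _

private theorem oa_sum' {φ : V → ℝ} (h : Lin1 φ) {ι : Type} (s : Finset ι)
    (f : ι → V) : φ (∑ i ∈ s, f i) = ∑ i ∈ s, φ (f i) :=
  map_sum (oaLM h) f s

private theorem oa_neg {φ : V → ℝ} (h : Lin1 φ) (a : V) : φ (-a) = -φ a :=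
  map_neg (oaLM h) a

private theorem oa_sub {φ : V → ℝ} (h : Lin1 φ) (a b : V) : φ (a - b) = φ a - φ b :=
  map_sub (oaLM h) a b

private theorem oa_r (hB : IP B) (a : V) : Lin1 fun b => B a b := by
  constructor
  · intro b b'
    rw [hB.symm a, (hB.lin a).add, hB.symm b, hB.symm b']
  · intro r b
    rw [hB.symm a, (hB.lin a).smul, hB.symm b]

private theorem oa_nd (hB : IP B) {a b : V} (h : ∀ z, B a z = B b z) : a = b := by
  by_contra hne
  have h1 := hB.pos (a - b) (sub_ne_zero.2 hne)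
  rw [oa_sub (hB.lin (a - b)) a b, h, sub_self] at h1
  exact lt_irrefl 0 h1

/-- the curvature operator is linear -/
private structure OaL (Ro : V → V → V → V) : Prop where
  a1 : ∀ a a' b c, Ro (a + a') b c = Ro a b c + Ro a' b c
  s1 : ∀ (r : ℝ) a b c, Ro (r • a) b c = r • Ro a b c
  sw : ∀ a b c, Ro b a c = -Ro a b c

private theorem oa_L (hB : IP B) (hR : Crvt R) (op : ∀ u v w z, B (Ro u v w) z = R u v w z) :
    OaL Ro := by
  constructor
  · intro a a' b c
    apply oa_nd hB
    intro z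
    rw [op, (hR.lin b c z).add, (hB.lin z).add, op, op]
  · intro r a b c
    apply oa_nd hB
    intro z
    rw [op, (hR.lin b c z).smul, (hB.lin z).smul, op]
  · intro a b c
    apply oa_nd hB
    intro z
    rw [op, oa_neg (hB.lin z), op, hR.a12]

private theorem OaL.a2 (L : OaL Ro) (a b b' c : V) : Ro a (b + b') c = Ro a b c + Ro a b' c := by
  rw [L.sw (b + b') a c, L.a1, L.sw b a c, L.sw b' a c]
  abel

private theorem OaL.s2 (L : OaL Ro) (r : ℝ) (a b c : V) : Ro a (r • b) c = r • Ro a b c := by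
  rw [L.sw (r • b) a c, L.s1, L.sw b a c, smul_neg]

private theorem OaL.self (L : OaL Ro) (a c : V) : Ro a a c = 0 := by
  have h := L.sw a a c
  have h2 : (2 : ℝ) • Ro a a c = 0 := by
    rw [two_smul]
    nth_rewrite 1 [h]
    exact neg_add_cancel _
  exact (smul_eq_zero.1 h2).resolve_left two_ne_zero

private def oaRL (L : OaL Ro) (b c : V) : V →ₗ[ℝ] V where
  toFun a := Ro a b c
  map_add' a a' := L.a1 a a' b c
  map_smul' r a := L.s1 r a b c

private theorem oa_psum {P : (V → V) → Prop} (hP : LieP P) {ι : Type} (s : Finset ι)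
    (F : ι → V → V) (h : ∀ i ∈ s, P (F i)) : P fun a => ∑ i ∈ s, F i a := by
  classical
  induction s using Finset.induction_on with
  | empty =>
    simp only [Finset.sum_empty]
    exact hP.zero
  | insert i s hi ih =>
    have h1 := hP.add _ _ (h i (Finset.mem_insert_self i s))
      (ih fun k hk => h k (Finset.mem_insert_of_mem hk))
    simp only [Finset.sum_insert hi]
    exact h1

omit [AddCommGroup V] [Module ℝ V] in
private theorem oa_pc {P : (V → V) → Prop} {F G : V → V} (h : P F) (e : ∀ a, G a = F a) : P G := by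
  have : G = F := funext e
  rwa [this]

private theorem oa_step1 (hB : IP B) (hR : Crvt R) (op : ∀ u v w z, B (Ro u v w) z = R u v w z)
    {P : (V → V) → Prop} (hP : LieP P) {e : V} (he : B e e = 1)
    (hyp : ∀ x y, B e x = 0 → B e y = 0 → P (Ro x y) ∧ ∀ u v, P (AR Ro (Ro x y) u v))
    {x y : V} (hx : B e x = 0) (hy : B e y = 0) (hu : Ro x y e ≠ 0) {z : V} (hz : B e z = 0)
    (hzu : B z (Ro x y e) = 0) : P (Ro z e) := by
  have L := oa_L hB hR op
  have hskew : ∀ a b, B (Ro x y a) b = -B (Ro x y b) a := by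
    intro a b
    rw [op, op]
    exact hR.a34 x y b a
  have hue : B e (Ro x y e) = 0 := by
    rw [hB.symm]
    have := hskew e e
    linarith
  have huu : B (Ro x y e) (Ro x y e) ≠ 0 := (hB.pos _ hu).ne'
  have p1 : P (Ro z (Ro x y e)) := (hyp z _ hz hue).1
  have pA : P (Ro x y) := (hyp x y hx hy).1
  have p2 := hP.br _ _ pA p1
  have p3 := (hyp x y hx hy).2 z (Ro x y e)
  have hAz : B e (Ro x y z) = 0 := by
    rw [hB.symm, hskew, hB.symm, hzu, neg_zero]
  have p4 : P (Ro (Ro x y z) (Ro x y e)) := (hyp _ _ hAz hue).1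
  have p5 : P (Ro z (Ro x y (Ro x y e))) := by
    refine oa_pc (hP.add _ _ p2 (hP.add _ _ (hP.smul (-1) _ p3) (hP.smul (-1) _ p4))) fun a => ?_
    unfold AR
    rw [neg_one_smul, neg_one_smul]
    abel
  have hu' : B e (Ro x y (Ro x y e) + B (Ro x y e) (Ro x y e) • e) = 0 := by
    rw [(oa_r hB e).add, (oa_r hB e).smul, he, hB.symm e, hskew, mul_one, neg_add_cancel]
  have p6 := (hyp z _ hz hu').1
  refine oa_pc (hP.smul (B (Ro x y e) (Ro x y e))⁻¹ _ (hP.add _ _ p6 (hP.smul (-1) _ p5)))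
    fun a => ?_
  rw [L.a2, L.s2, neg_one_smul, add_neg_cancel_comm, smul_smul, inv_mul_cancel₀ huu, one_smul]

/-! frames -/

variable {n : ℕ}

private def oaC (B : V → V → ℝ) (f : Fin n → V) (a : V) : Fin n → ℝ := fun j => B a (f j)

private def oaP (B : V → V → ℝ) (f : Fin n → V) (X : Matrix (Fin n) (Fin n) ℝ) (a : V) : V :=
  Fintype.linearCombination ℝ f (X.mulVec (oaC B f a))

private theorem oaC_S (hB : IP B) {f : Fin n → V} (hf : Fr B f) (w : Fin n → ℝ) :
    oaC B f (Fintype.linearCombination ℝ f w) = w := by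
  funext j
  unfold oaC
  rw [Fintype.linearCombination_apply, oa_sum (hB.lin (f j))]
  simp only [hf.on]
  simp

private theorem oaS_C {f : Fin n → V} (hf : Fr B f) (a : V) :
    Fintype.linearCombination ℝ f (oaC B f a) = a := by
  rw [Fintype.linearCombination_apply]
  exact (hf.ex a).symm

private def oaQ (B : V → V → ℝ) (f : Fin n → V) (P : (V → V) → Prop) (hP : LieP P) :
    Submodule ℝ (Matrix (Fin n) (Fin n) ℝ) where
  carrier := {X | P (oaP B f X)}
  add_mem' := by
    intro X Y hX hY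
    refine oa_pc (hP.add _ _ hX hY) fun a => ?_
    unfold oaP
    rw [Matrix.add_mulVec, map_add]
  zero_mem' := by
    refine oa_pc hP.zero fun a => ?_
    unfold oaP
    rw [Matrix.zero_mulVec, map_zero]
  smul_mem' := by
    intro r X hX
    refine oa_pc (hP.smul r _ hX) fun a => ?_
    unfold oaP
    rw [Matrix.smul_mulVec, map_smul]

private theorem oaP_mul (hB : IP B) {f : Fin n → V} (hf : Fr B f) (X Y : Matrix (Fin n) (Fin n) ℝ)
    (a : V) : oaP B f (X * Y) a = oaP B f X (oaP B f Y a) := by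
  unfold oaP
  rw [oaC_S hB hf, Matrix.mulVec_mulVec]

private theorem oaP_sub {f : Fin n → V} (X Y : Matrix (Fin n) (Fin n) ℝ)
    (a : V) : oaP B f (X - Y) a = oaP B f X a - oaP B f Y a := by
  unfold oaP
  rw [Matrix.sub_mulVec, map_sub]

/-- the curvature operator on matrices -/
private def oaLL (R : V → V → V → V → ℝ) (f : Fin n → V) :
    Matrix (Fin n) (Fin n) ℝ →ₗ[ℝ] Matrix (Fin n) (Fin n) ℝ where
  toFun w := Matrix.of fun k l => ∑ i, ∑ j, w i j * R (f i) (f j) (f l) (f k)
  map_add' w w' := by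
    ext k l
    simp only [Matrix.of_apply, Matrix.add_apply, add_mul, Finset.sum_add_distrib]
  map_smul' r w := by
    ext k l
    simp only [Matrix.of_apply, Matrix.smul_apply, smul_eq_mul, RingHom.id_apply, Finset.mul_sum,
      mul_assoc]

private theorem oa_R3 (hR : Crvt R) (a b d : V) : Lin1 fun c => R a b c d := by
  constructor
  · intro c c'
    rw [← hR.sw a b (c + c') d, (hR.lin d a b).add, hR.sw a b c d, hR.sw a b c' d]
  · intro r c
    rw [← hR.sw a b (r • c) d, (hR.lin d a b).smul, hR.sw a b c d]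

private theorem oaP_LL (hB : IP B) (hR : Crvt R) (op : ∀ u v w z, B (Ro u v w) z = R u v w z)
    {f : Fin n → V} (hf : Fr B f) (w : Matrix (Fin n) (Fin n) ℝ) (a : V) :
    oaP B f (oaLL R f w) a = ∑ i, ∑ j, w i j • Ro (f i) (f j) a := by
  rw [← oaS_C hf (∑ i, ∑ j, w i j • Ro (f i) (f j) a)]
  unfold oaP
  congr 1
  funext k
  have h1 : ∀ p q : V, R p q a (f k) = ∑ l, B a (f l) * R p q (f l) (f k) := by
    intro p q
    have h2 := oa_sum (oa_R3 hR p q (f k)) Finset.univ (fun l => B a (f l)) f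
    rw [← hf.ex a] at h2
    exact h2
  have h3 : oaC B f (∑ i, ∑ j, w i j • Ro (f i) (f j) a) k =
      ∑ i, ∑ j, w i j * R (f i) (f j) a (f k) := by
    unfold oaC
    rw [oa_sum' (hB.lin (f k))]
    refine Finset.sum_congr rfl fun i _ => ?_
    rw [oa_sum (hB.lin (f k))]
    refine Finset.sum_congr rfl fun j _ => ?_
    rw [op]
  rw [h3]
  simp only [h1]
  change ∑ l, (∑ i, ∑ j, w i j * R (f i) (f j) (f l) (f k)) * B a (f l) = _
  simp only [Finset.sum_mul, Finset.mul_sum]
  rw [Finset.sum_comm]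
  refine Finset.sum_congr rfl fun i _ => ?_
  rw [Finset.sum_comm]
  refine Finset.sum_congr rfl fun j _ => ?_
  refine Finset.sum_congr rfl fun l _ => ?_
  ring

private def oaSk (n : ℕ) : Submodule ℝ (Matrix (Fin n) (Fin n) ℝ) where
  carrier := {X | X.transpose = -X}
  add_mem' := by
    intro X Y hX hY
    change (X + Y).transpose = -(X + Y)
    rw [Matrix.transpose_add, neg_add]
    exact congrArg₂ (· + ·) hX hY
  zero_mem' := by
    change (0 : Matrix (Fin n) (Fin n) ℝ).transpose = -0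
    rw [Matrix.transpose_zero, neg_zero]
  smul_mem' := by
    intro r X hX
    change (r • X).transpose = -(r • X)
    rw [Matrix.transpose_smul, ← smul_neg]
    exact congrArg (r • ·) hX

private theorem oa_skE {X : Matrix (Fin n) (Fin n) ℝ} (h : X.transpose = -X) (i j : Fin n) :
    X j i = -X i j := congrFun (congrFun h i) j

private def oaPr (n : ℕ) : Matrix (Fin n) (Fin n) ℝ →ₗ[ℝ] oaSk n where
  toFun X := ⟨(1 / 2 : ℝ) • (X - X.transpose), by
    change ((1 / 2 : ℝ) • (X - X.transpose)).transpose = -((1 / 2 : ℝ) • (X - X.transpose))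
    rw [Matrix.transpose_smul, Matrix.transpose_sub, Matrix.transpose_transpose, ← smul_neg, neg_sub]⟩
  map_add' X Y := by
    apply Subtype.ext
    change (1 / 2 : ℝ) • ((X + Y) - (X + Y).transpose) =
      (1 / 2 : ℝ) • (X - X.transpose) + (1 / 2 : ℝ) • (Y - Y.transpose)
    rw [Matrix.transpose_add, ← smul_add]
    congr 1
    abel
  map_smul' r X := by
    apply Subtype.ext
    change (1 / 2 : ℝ) • ((r • X) - (r • X).transpose) = r • ((1 / 2 : ℝ) • (X - X.transpose))
    rw [Matrix.transpose_smul, ← smul_sub, smul_comm]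

private theorem oaPr_skew {X : Matrix (Fin n) (Fin n) ℝ} (h : X.transpose = -X) :
    oaPr n X = ⟨X, h⟩ := by
  apply Subtype.ext
  change (1 / 2 : ℝ) • (X - X.transpose) = X
  rw [h, sub_neg_eq_add, ← two_smul ℝ X, smul_smul]
  norm_num

private def oaH (B : V → V → ℝ) (f : Fin n → V) (e u : V) : oaSk n →ₗ[ℝ] ℝ where
  toFun w := ∑ i, ∑ j, (w : Matrix (Fin n) (Fin n) ℝ) i j * (B e (f j) * B (f i) u)
  map_add' w w' := by
    simp only [Submodule.coe_add, Matrix.add_apply, add_mul, Finset.sum_add_distrib]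
  map_smul' r w := by
    simp only [Submodule.coe_smul, Matrix.smul_apply, smul_eq_mul, RingHom.id_apply,
      Finset.mul_sum, mul_assoc]

/-- the decomposition with respect to `e` -/
private theorem oa_dec (hB : IP B) (hR : Crvt R) (op : ∀ u v w z, B (Ro u v w) z = R u v w z)
    {P : (V → V) → Prop} (hP : LieP P) {e u : V} (he : B e e = 1) (hue : B e u = 0)
    (hyp : ∀ x y, B e x = 0 → B e y = 0 → P (Ro x y))
    (hyp2 : ∀ z, B e z = 0 → B z u = 0 → P (Ro z e)) (f : Fin n → V)
    (w : Matrix (Fin n) (Fin n) ℝ) (hw : w.transpose = -w)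
    (h0 : ∑ i, ∑ j, w i j * (B e (f j) * B (f i) u) = 0) :
    P fun a => ∑ i, ∑ j, w i j • Ro (f i) (f j) a := by
  have L := oa_L hB hR op
  -- the projection
  obtain ⟨q, hq⟩ : ∃ q : Fin n → V, ∀ i, q i = f i - B e (f i) • e := ⟨_, fun i => rfl⟩
  have hqe : ∀ i, B e (q i) = 0 := by
    intro i
    rw [hq, oa_sub (oa_r hB e), (oa_r hB e).smul, he, mul_one, sub_self]
  have hqu : ∀ i, B (q i) u = B (f i) u := by
    intro i
    rw [hq, oa_sub (hB.lin u), (hB.lin u).smul, hue, mul_zero, sub_zero]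
  have hfq : ∀ i, f i = q i + B e (f i) • e := by
    intro i
    rw [hq, sub_add_cancel]
  obtain ⟨z, hz⟩ : ∃ z : V, z = (2 : ℝ) • ∑ i, ∑ j, (w i j * B e (f j)) • q i := ⟨_, rfl⟩
  have hze : B e z = 0 := by
    rw [hz, (oa_r hB e).smul, oa_sum' (oa_r hB e)]
    rw [Finset.sum_eq_zero, mul_zero]
    intro i _
    rw [oa_sum (oa_r hB e)]
    simp only [hqe, mul_zero, Finset.sum_const_zero]
  have hzu : B z u = 0 := by
    rw [hz, (hB.lin u).smul, oa_sum' (hB.lin u)]
    have h3 : ∑ i, B (∑ j, (w i j * B e (f j)) • q i) u = 0 := by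
      rw [← h0]
      refine Finset.sum_congr rfl fun i _ => ?_
      rw [oa_sum (hB.lin u)]
      refine Finset.sum_congr rfl fun j _ => ?_
      rw [hqu]
      ring
    rw [h3, mul_zero]
  have p1 : P fun a => ∑ i, ∑ j, w i j • Ro (q i) (q j) a :=
    oa_psum hP _ _ fun i _ => oa_psum hP _ _ fun j _ => hP.smul _ _ (hyp _ _ (hqe i) (hqe j))
  refine oa_pc (hP.add _ _ p1 (hyp2 z hze hzu)) fun a => ?_
  have hz2 : Ro z e a = (2 : ℝ) • ∑ i, ∑ j, (w i j * B e (f j)) • Ro (q i) e a := by
    have h4 := congrArg (oaRL L e a) hz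
    rw [map_smul, map_sum] at h4
    refine h4.trans ?_
    congr 1
    refine Finset.sum_congr rfl fun i _ => ?_
    rw [map_sum]
    refine Finset.sum_congr rfl fun j _ => ?_
    rw [map_smul]
    rfl
  have hterm : ∀ i j, w i j • Ro (f i) (f j) a = w i j • Ro (q i) (q j) a
      + (w i j * B e (f j)) • Ro (q i) e a - (w i j * B e (f i)) • Ro (q j) e a := by
    intro i j
    have h5 : Ro (f i) (f j) a = Ro (q i + B e (f i) • e) (q j + B e (f j) • e) a := by
      rw [← hfq, ← hfq]
    rw [h5, L.a1, L.a2, L.a2, L.s1, L.s1, L.s2, L.s2, L.self, L.sw (q j) e a]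
    module
  have hsw : ∑ i, ∑ j, (w i j * B e (f i)) • Ro (q j) e a =
      -∑ i, ∑ j, (w i j * B e (f j)) • Ro (q i) e a := by
    rw [Finset.sum_comm, ← Finset.sum_neg_distrib]
    refine Finset.sum_congr rfl fun i _ => ?_
    rw [← Finset.sum_neg_distrib]
    refine Finset.sum_congr rfl fun j _ => ?_
    rw [oa_skE hw i j]
    module
  simp only [hterm, Finset.sum_add_distrib, Finset.sum_sub_distrib]
  rw [hsw, hz2]
  module

end aux

theorem tOa (h1 : S_Cd) : S_Oa := by
  intro V _ _ B m R Ro H P hP hnP e he hyp x y hx hy a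
  by_contra hne
  have hB := H.eu.ip
  have hR := H.cR
  have op := H.op
  have hu : Ro x y e ≠ 0 := by
    intro h0
    apply hne
    rw [← op, h0]
    exact (oaLM (hB.lin a)).map_zero
  have hue : B e (Ro x y e) = 0 := by
    rw [hB.symm, op]
    have := hR.a34 x y e e
    linarith
  obtain ⟨f, hf, -⟩ := H.eu.fr e he
  -- the operator on skew matrices
  have hLS : ∀ w ∈ oaSk (m + 1), oaLL R f w ∈ oaSk (m + 1) := by
    intro w _
    change (oaLL R f w).transpose = -(oaLL R f w)
    ext k l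
    change ∑ i, ∑ j, w i j * R (f i) (f j) (f k) (f l) =
      -∑ i, ∑ j, w i j * R (f i) (f j) (f l) (f k)
    rw [← Finset.sum_neg_distrib]
    refine Finset.sum_congr rfl fun i _ => ?_
    rw [← Finset.sum_neg_distrib]
    refine Finset.sum_congr rfl fun j _ => ?_
    rw [hR.a34 (f i) (f j) (f l) (f k)]
    ring
  have hinj : Function.Injective ((oaLL R f).restrict hLS) := by
    rw [injective_iff_map_eq_zero]
    rintro ⟨w, hw⟩ h0
    have h2 : oaLL R f w = 0 := congrArg Subtype.val h0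
    apply Subtype.ext
    ext i j
    change w i j = 0
    refine H.ns (m + 1) f (fun i j => w i j) hf.on (fun i j => oa_skE hw i j) (fun a b => ?_) i j
    have h3 := oaP_LL hB hR op hf w a
    rw [h2] at h3
    have h4 : oaP B f (0 : Matrix (Fin (m + 1)) (Fin (m + 1)) ℝ) a = 0 := by
      unfold oaP
      rw [Matrix.zero_mulVec, map_zero]
    rw [h4] at h3
    have h5 : B 0 b = B (∑ i, ∑ j, w i j • Ro (f i) (f j) a) b := congrArg (fun v => B v b) h3
    rw [show B 0 b = 0 from (oaLM (hB.lin b)).map_zero, oa_sum' (hB.lin b)] at h5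
    rw [h5]
    refine Finset.sum_congr rfl fun i _ => ?_
    rw [oa_sum (hB.lin b)]
    refine Finset.sum_congr rfl fun j _ => ?_
    rw [op]
  let LE := LinearEquiv.ofInjectiveEndo ((oaLL R f).restrict hLS) hinj
  have key := h1 (m + 1) (by have := H.two; omega) (oaQ B f P hP) (fun X hX Y hY => by
      refine oa_pc (hP.br _ _ hX hY) fun a => ?_
      rw [oaP_sub, oaP_mul hB hf, oaP_mul hB hf])
    (oaH B f e (Ro x y e) ∘ₗ LE.symm.toLinearMap ∘ₗ oaPr (m + 1)) (fun X hX hφ => by
      change oaH B f e (Ro x y e) (LE.symm (oaPr (m + 1) X)) = 0 at hφ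
      rw [oaPr_skew hX] at hφ
      obtain ⟨w, hw⟩ : ∃ w, w = LE.symm ⟨X, hX⟩ := ⟨_, rfl⟩
      rw [← hw] at hφ
      have h2 : oaLL R f (w : Matrix (Fin (m + 1)) (Fin (m + 1)) ℝ) = X := by
        have h3 : LE w = ⟨X, hX⟩ := by
          rw [hw, LE.apply_symm_apply]
        exact congrArg Subtype.val h3
      change P (oaP B f X)
      refine oa_pc (oa_dec hB hR op hP he hue (fun x y hx hy => (hyp x y hx hy).1)
        (fun z hz hzu => oa_step1 hB hR op hP he hyp hx hy hu hz hzu) f w w.2 hφ) fun a => ?_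
      rw [← h2, oaP_LL hB hR op hf])
  apply hnP
  intro u v
  have h2 := key (Matrix.vecMulVec (oaC B f u) (oaC B f v) -
    Matrix.vecMulVec (oaC B f v) (oaC B f u)) (by
      ext i j
      simp only [Matrix.transpose_apply, Matrix.sub_apply, Matrix.neg_apply, Matrix.vecMulVec_apply]
      ring)
  change P (oaP B f _) at h2
  refine oa_pc h2 fun a => ?_
  have hpar : ∀ v a : V, oaC B f v ⬝ᵥ oaC B f a = B v a := by
    intro v a
    have h3 := oa_sum (oa_r hB v) Finset.univ (fun l => B a (f l)) f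
    rw [← hf.ex a] at h3
    rw [h3]
    exact Finset.sum_congr rfl fun i _ => mul_comm _ _
  have hvm : ∀ p r s : V, (Matrix.vecMulVec (oaC B f p) (oaC B f r)).mulVec (oaC B f s) =
      B r s • oaC B f p := by
    intro p r s
    funext i
    simp only [Matrix.mulVec, dotProduct, Matrix.vecMulVec_apply, Pi.smul_apply, smul_eq_mul]
    rw [← hpar r s]
    unfold dotProduct
    rw [Finset.sum_mul]
    refine Finset.sum_congr rfl fun j _ => ?_
    ring
  rw [oaP_sub]
  unfold oaP
  rw [hvm, hvm, map_smul, map_smul, oaS_C hf, oaS_C hf]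
  rfl

end

end Pool.Agent.Lib.MP_9d59e9_gt.KS
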