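import Pool.Agent.Lib.MP_9d59e9_gt.KS.SpecO

/-!
# MP_9d59e9_gt, project KS, module Ob: `R(e,x,e,y)` is a multiple of the inner product
-/

set_option autoImplicit false

namespace Pool.Agent.Lib.MP_9d59e9_gt.KS

open scoped BigOperators ContDiff
open KO KO3

noncomputable section

variable {V : Type} [AddCommGroup V] [Module ℝ V] {B : V → V → ℝ}

private theorem Ob_zero {f : V → ℝ} (h : Lin1 f) : f 0 = 0 := by
  have h1 := h.smul 0 0
  rw [zero_smul, zero_mul] at h1
  exact h1

private theorem Ob_neg {f : V → ℝ} (h : Lin1 f) (a : V) : f (-a) = -f a := by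
  have h1 := h.smul (-1) a
  rw [neg_one_smul, neg_one_mul] at h1
  exact h1

private theorem Ob_sub {f : V → ℝ} (h : Lin1 f) (a b : V) : f (a - b) = f a - f b := by
  rw [sub_eq_add_neg, h.add, Ob_neg h, sub_eq_add_neg]

private theorem Ob_sum {f : V → ℝ} (h : Lin1 f) {ι : Type} (s : Finset ι) (c : ι → ℝ) (v : ι → V) :
    f (∑ i ∈ s, c i • v i) = ∑ i ∈ s, c i * f (v i) := by
  classical
  induction s using Finset.induction_on with
  | empty => rw [Finset.sum_empty, Finset.sum_empty, Ob_zero h]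
  | insert i s hi ih => rw [Finset.sum_insert hi, Finset.sum_insert hi, h.add, h.smul, ih]

private theorem Ob_sumv {f : V → ℝ} (h : Lin1 f) {ι : Type} (s : Finset ι) (v : ι → V) :
    f (∑ i ∈ s, v i) = ∑ i ∈ s, f (v i) := by
  classical
  induction s using Finset.induction_on with
  | empty => rw [Finset.sum_empty, Finset.sum_empty, Ob_zero h]
  | insert i s hi ih => rw [Finset.sum_insert hi, Finset.sum_insert hi, h.add, ih]

private theorem Ob_l (hI : IP B) (b : V) : Lin1 fun a => B a b := hI.lin b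

private theorem Ob_r (hI : IP B) (a : V) : Lin1 (B a) := by
  refine ⟨fun b c => ?_, fun r b => ?_⟩
  · rw [hI.symm a, (hI.lin a).add, hI.symm b, hI.symm c]
  · rw [hI.symm a, (hI.lin a).smul, hI.symm b]

private theorem Ob_ext (hI : IP B) {u v : V} (h : ∀ z, B u z = B v z) : u = v := by
  by_contra hne
  have h2 := hI.pos (u - v) (sub_ne_zero.2 hne)
  have h3 : B (u - v) (u - v) = B u (u - v) - B v (u - v) := Ob_sub (Ob_l hI (u - v)) u v
  rw [h3, h, sub_self] at h2
  exact lt_irrefl _ h2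

private theorem Ob_wd (hI : IP B) (x y a b : V) :
    B (wd B x y a) b = B y a * B x b - B x a * B y b := by
  unfold wd
  rw [Ob_sub (Ob_l hI b), (Ob_l hI b).smul, (Ob_l hI b).smul]

/-- skew -/
private def Ob_Sk (B : V → V → ℝ) (Φ : V → V) : Prop := ∀ a b, B (Φ a) b = -B a (Φ b)

private theorem Ob_wdsk (hI : IP B) (x y : V) : Ob_Sk B (wd B x y) := by
  intro a b
  rw [Ob_wd hI, hI.symm a (wd B x y b), Ob_wd hI, hI.symm x a, hI.symm y a, hI.symm x b, hI.symm y b]
  ring

private theorem Ob_P {P : (V → V) → Prop} (hP : LieP P) {ι : Type} (s : Finset ι)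
    (Φ : ι → V → V) (h : ∀ i, P (Φ i)) : P fun a => ∑ i ∈ s, Φ i a := by
  classical
  induction s using Finset.induction_on with
  | empty =>
    simp only [Finset.sum_empty]
    exact hP.zero
  | insert i s hi ih =>
    simp only [Finset.sum_insert hi]
    exact hP.add _ _ (h i) ih

/-- a skew endomorphism which kills `e` is a combination of the rotations of `e^⊥` -/
private theorem Ob_exp (hI : IP B) {P : (V → V) → Prop} (hP : LieP P) {m : ℕ} {f : Fin (m + 1) → V}
    (hf : Fr B f) {Φ : V → V} (hΦ : Ob_Sk B Φ) (h0 : Φ (f 0) = 0)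
    (h : ∀ i j : Fin m, P (wd B (f i.succ) (f j.succ))) : P Φ := by
  have hs : ∀ i j, B (Φ (f j)) (f i) = -B (Φ (f i)) (f j) := by
    intro i j
    rw [hΦ, hI.symm]
  have hz : P fun a => ∑ i, ∑ j, B (Φ (f j)) (f i) • wd B (f i) (f j) a := by
    refine Ob_P hP Finset.univ (fun i a => ∑ j, B (Φ (f j)) (f i) • wd B (f i) (f j) a) fun i => ?_
    refine Ob_P hP Finset.univ (fun j a => B (Φ (f j)) (f i) • wd B (f i) (f j) a) fun j => ?_
    rcases Fin.eq_zero_or_eq_succ i with hi | ⟨i', hi⟩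
    · have h1 : B (Φ (f j)) (f i) = 0 := by
        rw [hs, hi, h0]
        have h2 : B 0 (f j) = 0 := Ob_zero (Ob_l hI (f j))
        rw [h2, neg_zero]
      simp only [h1, zero_smul]
      exact hP.zero
    · rcases Fin.eq_zero_or_eq_succ j with hj | ⟨j', hj⟩
      · have h1 : B (Φ (f j)) (f i) = 0 := by
          rw [hj, h0]
          exact Ob_zero (Ob_l hI (f i))
        simp only [h1, zero_smul]
        exact hP.zero
      · rw [hi, hj]
        exact hP.smul _ _ (h i' j')
  have key : Φ = fun a => (1 / 2 : ℝ) • ∑ i, ∑ j, B (Φ (f j)) (f i) • wd B (f i) (f j) a := by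
    funext a
    refine Ob_ext hI fun z => ?_
    have e1 : B (Φ a) z = ∑ i, ∑ j, B (Φ (f j)) (f i) * (B (f j) a * B (f i) z) := by
      have l1 : Lin1 (B (Φ a)) := Ob_r hI _
      have e2 : B (Φ a) z = ∑ i, B z (f i) * B (Φ a) (f i) := by
        conv_lhs => rw [hf.ex z]
        exact Ob_sum l1 _ _ _
      rw [e2]
      refine Finset.sum_congr rfl fun i _ => ?_
      have l2 : Lin1 fun a => B (Φ a) (f i) := by
        refine ⟨fun b c => ?_, fun r b => ?_⟩
        · rw [hΦ, hΦ b, hΦ c, (Ob_l hI _).add]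
          ring
        · rw [hΦ, hΦ b, (Ob_l hI _).smul]
          ring
      have e3 : B (Φ a) (f i) = ∑ j, B a (f j) * B (Φ (f j)) (f i) := by
        have e4 := Ob_sum l2 Finset.univ (fun j => B a (f j)) f
        rw [← hf.ex a] at e4
        exact e4
      rw [e3, Finset.mul_sum]
      refine Finset.sum_congr rfl fun j _ => ?_
      rw [hI.symm a, hI.symm z]
      ring
    have e5 : B ((1 / 2 : ℝ) • ∑ i, ∑ j, B (Φ (f j)) (f i) • wd B (f i) (f j) a) z =
        (1 / 2) * ∑ i, ∑ j, B (Φ (f j)) (f i) * (B (f j) a * B (f i) z - B (f i) a * B (f j) z) := by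
      have l3 := Ob_l hI z
      have e6 : B ((1 / 2 : ℝ) • ∑ i, ∑ j, B (Φ (f j)) (f i) • wd B (f i) (f j) a) z =
          (1 / 2) * B (∑ i, ∑ j, B (Φ (f j)) (f i) • wd B (f i) (f j) a) z := l3.smul _ _
      rw [e6]
      congr 1
      have e7 : B (∑ i, ∑ j, B (Φ (f j)) (f i) • wd B (f i) (f j) a) z =
          ∑ i, B (∑ j, B (Φ (f j)) (f i) • wd B (f i) (f j) a) z :=
        Ob_sumv l3 Finset.univ (fun i => ∑ j, B (Φ (f j)) (f i) • wd B (f i) (f j) a)
      rw [e7]
      refine Finset.sum_congr rfl fun i _ => ?_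
      have e8 : B (∑ j, B (Φ (f j)) (f i) • wd B (f i) (f j) a) z =
          ∑ j, B (Φ (f j)) (f i) * B (wd B (f i) (f j) a) z :=
        Ob_sum l3 Finset.univ (fun j => B (Φ (f j)) (f i)) (fun j => wd B (f i) (f j) a)
      rw [e8]
      refine Finset.sum_congr rfl fun j _ => ?_
      rw [Ob_wd hI]
    have e9 : ∑ i, ∑ j, B (Φ (f j)) (f i) * (B (f i) a * B (f j) z) =
        -∑ i, ∑ j, B (Φ (f j)) (f i) * (B (f j) a * B (f i) z) := by
      rw [Finset.sum_comm, ← Finset.sum_neg_distrib]
      refine Finset.sum_congr rfl fun i _ => ?_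
      rw [← Finset.sum_neg_distrib]
      refine Finset.sum_congr rfl fun j _ => ?_
      rw [hs]
      ring
    rw [e5, e1]
    simp only [mul_sub, Finset.sum_sub_distrib]
    rw [e9]
    ring
  rw [key]
  exact hP.smul _ _ hz

/-- the commutator of `AR` on `e`, `z` kills `e` -/
private theorem Ob_one {m : ℕ} {R : V → V → V → V → ℝ} {Ro : V → V → V → V}
    (hA : Alg B m R Ro) {P : (V → V) → Prop} (hP : LieP P) (hn : ¬ ∀ u v, P (wd B u v)) {e : V}
    (he : B e e = 1)
    (H : ∀ x y, B e x = 0 → B e y = 0 → P (wd B x y) ∧ ∀ u v, P (AR Ro (wd B x y) u v))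
    {x y z : V} (hx : B e x = 0) (hy : B e y = 0) (hz : B e z = 0) :
    wd B x y (Ro e z e) = Ro e (wd B x y z) e := by
  have hI := hA.eu.ip
  have hC := hA.cR
  obtain ⟨f, hf, hf0⟩ := hA.eu.fr e he
  -- skewness of the curvature operators
  have hRs : ∀ u v, Ob_Sk B (Ro u v) := by
    intro u v a b
    rw [hA.op, hI.symm a, hA.op, hC.a34]
  have hA0 : wd B x y e = 0 := by
    unfold wd
    rw [hI.symm y e, hI.symm x e, hx, hy, zero_smul, zero_smul, sub_zero]
  have hR0 : ∀ v w, Ro 0 v w = 0 := by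
    intro v w
    refine Ob_ext hI fun t => ?_
    have h1 : B 0 t = 0 := Ob_zero (Ob_l hI t)
    rw [hA.op, h1]
    exact Ob_zero (hC.lin v w t)
  have hR3 : ∀ u v, Ro u v 0 = 0 := by
    intro u v
    refine Ob_ext hI fun t => ?_
    have h1 : B 0 t = 0 := Ob_zero (Ob_l hI t)
    rw [hA.op, h1, ← hC.sw]
    exact Ob_zero (hC.lin t u v)
  have hWs := Ob_wdsk hI x y
  set X : V → V := AR Ro (wd B x y) e z with hX
  have hPX : P X := (H x y hx hy).2 e z
  have hXs : Ob_Sk B X := by
    intro a b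
    rw [hX]
    unfold AR
    rw [Ob_sub (Ob_l hI b), Ob_sub (Ob_l hI b), Ob_sub (Ob_l hI b), Ob_sub (Ob_r hI a),
      Ob_sub (Ob_r hI a), Ob_sub (Ob_r hI a), hWs, hRs e z a, hRs e z (wd B x y a), hWs a,
      hRs (wd B x y e) z a, hRs e (wd B x y z) a]
    ring
  have hXe : X e = wd B x y (Ro e z e) - Ro e (wd B x y z) e := by
    rw [hX]
    unfold AR
    rw [hA0, hR0, hR3, sub_zero, sub_zero]
  by_contra hne
  set ξ : V := X e with hξ
  have hξ0 : ξ ≠ 0 := by
    rw [hXe]
    exact sub_ne_zero.2 hne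
  have hξe : B e ξ = 0 := by
    have h1 : B (X e) e = -B e (X e) := hXs e e
    rw [hI.symm (X e) e] at h1
    linarith
  have hξp := hI.pos ξ hξ0
  -- the part of `X` which kills `e`
  have hP1 : P (fun a => X a + (-1 : ℝ) • wd B ξ e a) := by
    refine Ob_exp hI hP hf ?_ ?_ ?_
    · intro a b
      rw [(Ob_l hI b).add, (Ob_l hI b).smul, (Ob_r hI a).add, (Ob_r hI a).smul, hXs a b,
        Ob_wdsk hI ξ e a b]
      ring
    · rw [hf0]
      have h1 : wd B ξ e e = ξ := by
        unfold wd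
        rw [he, hI.symm ξ e, hξe, one_smul, zero_smul, sub_zero]
      rw [h1, ← hξ, neg_one_smul, add_neg_cancel]
    · intro i j
      have h1 : ∀ i : Fin m, B e (f i.succ) = 0 := by
        intro i
        rw [← hf0, hf.on]
        exact if_neg (Fin.succ_ne_zero i).symm
      exact (H _ _ (h1 i) (h1 j)).1
  have hP2 : P (wd B ξ e) := by
    have h1 := hP.add _ _ hPX (hP.smul (-1) _ hP1)
    have h2 : (fun a => X a + (-1 : ℝ) • (X a + (-1 : ℝ) • wd B ξ e a)) = wd B ξ e := by
      funext a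
      rw [smul_add, smul_smul]
      norm_num
    rwa [h2] at h1
  -- rotations which move `e`
  have hP3 : ∀ u, B e u = 0 → B u ξ = 0 → P (wd B u e) := by
    intro u hu huξ
    have h1 := hP.br _ _ (H u ξ hu hξe).1 hP2
    have h2 := hP.smul (B ξ ξ)⁻¹ _ h1
    have h3 : (fun a => (B ξ ξ)⁻¹ • (wd B u ξ (wd B ξ e a) - wd B ξ e (wd B u ξ a))) = wd B u e := by
      funext a
      refine Ob_ext hI fun t => ?_
      rw [(Ob_l hI t).smul, Ob_sub (Ob_l hI t), Ob_wd hI u ξ, Ob_wd hI ξ e (wd B u ξ a),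
        hI.symm ξ (wd B ξ e a), hI.symm u (wd B ξ e a), hI.symm e (wd B u ξ a),
        hI.symm ξ (wd B u ξ a), Ob_wd hI, Ob_wd hI, Ob_wd hI, Ob_wd hI, Ob_wd hI, hI.symm ξ e,
        hI.symm ξ u, hI.symm u e, hξe, huξ, hu]
      field_simp
      ring
    rwa [h3] at h2
  have hP4 : ∀ u, B e u = 0 → P (wd B u e) := by
    intro u hu
    set r : ℝ := B u ξ / B ξ ξ with hr
    have h1 : B e (u - r • ξ) = 0 := by
      rw [Ob_sub (Ob_r hI e), (Ob_r hI e).smul, hu, hξe, mul_zero, sub_zero]
    have h2 : B (u - r • ξ) ξ = 0 := by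
      rw [Ob_sub (Ob_l hI ξ), (Ob_l hI ξ).smul, hr, div_mul_cancel₀ _ hξp.ne', sub_self]
    have h3 := hP.add _ _ (hP3 _ h1 h2) (hP.smul r _ hP2)
    have h4 : (fun a => wd B (u - r • ξ) e a + r • wd B ξ e a) = wd B u e := by
      funext a
      refine Ob_ext hI fun t => ?_
      rw [(Ob_l hI t).add, (Ob_l hI t).smul, Ob_wd hI, Ob_wd hI, Ob_wd hI, Ob_sub (Ob_l hI t),
        Ob_sub (Ob_l hI a), (Ob_l hI t).smul, (Ob_l hI a).smul]
      ring
    rwa [h4] at h3
  refine hn fun u v => ?_
  have hu : B e (u - B e u • e) = 0 := by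
    rw [Ob_sub (Ob_r hI e), (Ob_r hI e).smul, he, mul_one, sub_self]
  have hv : B e (v - B e v • e) = 0 := by
    rw [Ob_sub (Ob_r hI e), (Ob_r hI e).smul, he, mul_one, sub_self]
  have h1 := hP.add _ _ (hP.add _ _ (H _ _ hu hv).1 (hP.smul (B e v) _ (hP4 _ hu)))
    (hP.smul (-B e u) _ (hP4 _ hv))
  have h2 : (fun a => wd B (u - B e u • e) (v - B e v • e) a + B e v • wd B (u - B e u • e) e a
      + (-B e u) • wd B (v - B e v • e) e a) = wd B u v := by
    funext a
    refine Ob_ext hI fun t => ?_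
    rw [(Ob_l hI t).add, (Ob_l hI t).add, (Ob_l hI t).smul, (Ob_l hI t).smul, Ob_wd hI, Ob_wd hI,
      Ob_wd hI, Ob_wd hI, Ob_sub (Ob_l hI t), Ob_sub (Ob_l hI a), Ob_sub (Ob_l hI t),
      Ob_sub (Ob_l hI a), (Ob_l hI t).smul, (Ob_l hI t).smul, (Ob_l hI a).smul, (Ob_l hI a).smul]
    ring
  rwa [h2] at h1

theorem tOb : S_Ob := by
  intro V _ _ B m R Ro hA P hP hn e he H
  have hI := hA.eu.ip
  have hC := hA.cR
  obtain ⟨f, hf, hf0⟩ := hA.eu.fr e he
  have hfe : ∀ i : Fin m, B e (f i.succ) = 0 := by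
    intro i
    rw [← hf0, hf.on]
    exact if_neg (Fin.succ_ne_zero i).symm
  -- linearity of the curvature tensor in the second and the fourth argument
  have hR4 : ∀ a b c, Lin1 (R a b c) := by
    intro a b c
    have h1 : ∀ d, R a b c d = -R d c a b := fun d => (hC.sw a b c d).symm.trans (hC.a12 d c a b)
    refine ⟨fun d d' => ?_, fun r d => ?_⟩
    · rw [h1, h1, h1, (hC.lin c a b).add]
      ring
    · rw [h1, h1, (hC.lin c a b).smul]
      ring
  have hR2 : ∀ a c d, Lin1 fun b => R a b c d := by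
    intro a c d
    have h1 : ∀ b, R a b c d = -R b a c d := by
      intro b
      rw [← hC.a12]
    refine ⟨fun b b' => ?_, fun r b => ?_⟩
    · rw [h1, h1, h1, (hC.lin a c d).add]
      ring
    · rw [h1, h1, (hC.lin a c d).smul]
      ring
  have hR0 : ∀ z z', R e z e z' = B (Ro e z e) z' := fun z z' => (hA.op e z e z').symm
  -- the array of the components
  have hinv : ∀ i j : Fin m, i ≠ j → ∀ a b,
      rt2 i j (fun a b : Fin m => R e (f a.succ) e (f b.succ)) a b = 0 := by
    intro i j hij a b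
    have hw : ∀ c : Fin m, wd B (f i.succ) (f j.succ) (f c.succ) =
        (if c = j then f i.succ else 0) - (if c = i then f j.succ else 0) := by
      intro c
      unfold wd
      rw [hf.on, hf.on]
      simp only [Fin.succ_inj]
      congr 1
      · by_cases h : c = j
        · rw [if_pos h, if_pos h.symm, one_smul]
        · rw [if_neg h, if_neg (Ne.symm h), zero_smul]
      · by_cases h : c = i
        · rw [if_pos h, if_pos h.symm, one_smul]
        · rw [if_neg h, if_neg (Ne.symm h), zero_smul]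
    have h1 : R e (wd B (f i.succ) (f j.succ) (f a.succ)) e (f b.succ) +
        R e (f a.succ) e (wd B (f i.succ) (f j.succ) (f b.succ)) = 0 := by
      rw [hR0, hR0, ← Ob_one hA hP hn he H (hfe i) (hfe j) (hfe a), Ob_wdsk hI, neg_add_cancel]
    rw [hw, hw, Ob_sub (hR2 e e (f b.succ)), Ob_sub (hR4 e (f a.succ) e)] at h1
    unfold rt2
    have z2 : R e 0 e (f b.succ) = 0 := Ob_zero (hR2 e e (f b.succ))
    have z4 : R e (f a.succ) e 0 = 0 := Ob_zero (hR4 e (f a.succ) e)
    have c1 : R e (if a = j then f i.succ else 0) e (f b.succ) =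
        if a = j then R e (f i.succ) e (f b.succ) else 0 := by
      split_ifs
      · rfl
      · exact z2
    have c2 : R e (if a = i then f j.succ else 0) e (f b.succ) =
        if a = i then R e (f j.succ) e (f b.succ) else 0 := by
      split_ifs
      · rfl
      · exact z2
    have c3 : R e (f a.succ) e (if b = j then f i.succ else 0) =
        if b = j then R e (f a.succ) e (f i.succ) else 0 := by
      split_ifs
      · rfl
      · exact z4
    have c4 : R e (f a.succ) e (if b = i then f j.succ else 0) =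
        if b = i then R e (f a.succ) e (f j.succ) else 0 := by
      split_ifs
      · rfl
      · exact z4
    rw [c1, c2, c3, c4] at h1
    have n1 : (if a = i then -R e (f j.succ) e (f b.succ) else 0) =
        -(if a = i then R e (f j.succ) e (f b.succ) else 0) := by
      split_ifs
      · rfl
      · rw [neg_zero]
    have n2 : (if b = i then -R e (f a.succ) e (f j.succ) else 0) =
        -(if b = i then R e (f a.succ) e (f j.succ) else 0) := by
      split_ifs
      · rfl
      · rw [neg_zero]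
    rw [n1, n2]
    linarith
  obtain ⟨k, hk⟩ := KO3.sCi23.1 m (fun a b : Fin m => R e (f a.succ) e (f b.succ)) hA.two
    (fun a b => (hC.sw e (f a.succ) e (f b.succ)).symm) hinv
  refine ⟨k, fun x y hx hy => ?_⟩
  have hexp : ∀ v, B e v = 0 → v = ∑ i : Fin m, B v (f i.succ) • f i.succ := by
    intro v hv
    have h1 := hf.ex v
    rw [Fin.sum_univ_succ, hf0, hI.symm v e, hv, zero_smul, zero_add] at h1
    exact h1
  have hyx := hexp y hy
  have e1 : R e x e y = ∑ i : Fin m, B x (f i.succ) * R e (f i.succ) e y := by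
    have h1 := Ob_sum (hR2 e e y) Finset.univ (fun i : Fin m => B x (f i.succ)) fun i => f i.succ
    rw [← hexp x hx] at h1
    exact h1
  have e2 : B x y = ∑ i : Fin m, B x (f i.succ) * B (f i.succ) y := by
    have h1 := Ob_sum (Ob_l hI y) Finset.univ (fun i : Fin m => B x (f i.succ)) fun i => f i.succ
    rw [← hexp x hx] at h1
    exact h1
  rw [e1, e2, Finset.mul_sum]
  refine Finset.sum_congr rfl fun i _ => ?_
  have e3 : R e (f i.succ) e y = ∑ j : Fin m, B y (f j.succ) * R e (f i.succ) e (f j.succ) := by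
    have h1 := Ob_sum (hR4 e (f i.succ) e) Finset.univ (fun j : Fin m => B y (f j.succ))
      fun j => f j.succ
    rw [← hyx] at h1
    exact h1
  have e4 : ∀ j : Fin m, R e (f i.succ) e (f j.succ) = if i = j then k else 0 := fun j => hk i j
  rw [e3]
  simp only [e4, mul_ite, mul_zero]
  rw [Finset.sum_ite_eq Finset.univ i, if_pos (Finset.mem_univ i), hI.symm y]
  ring

end

end Pool.Agent.Lib.MP_9d59e9_gt.KS
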