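import Pool.Agent.Lib.MP_9d59e9_gt.KS.SpecO

/-!
# MP_9d59e9_gt, project KS, module Oc: `A.R` takes its values in the stabiliser
-/

set_option autoImplicit false

namespace Pool.Agent.Lib.MP_9d59e9_gt.KS

open scoped BigOperators ContDiff
open Set KO KO3

noncomputable section

private theorem Oc_sub {V : Type} (l : List V) : ∀ (m : List V) (F G : List V → ℝ),
    dS (fun l' => F l' - G l') l m = dS F l m - dS G l m := by
  induction l with
  | nil =>
    intro m F G
    simp only [dS, sub_self]
  | cons a l ih =>
    intro m F G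
    cases m with
    | nil => simp only [dS, sub_self]
    | cons b m =>
      simp only [dS]
      rw [ih m (fun l' => F (a :: l')) (fun l' => G (a :: l'))]
      ring

private theorem Oc_zero {V : Type} (l : List V) : ∀ (m : List V),
    dS (fun _ : List V => (0 : ℝ)) l m = 0 := by
  induction l with
  | nil => intro m; simp only [dS]
  | cons a l ih =>
    intro m
    cases m with
    | nil => simp only [dS]
    | cons b m =>
      simp only [dS]
      rw [ih m, add_zero]

private theorem Oc_neg {V : Type} (l m : List V) (F : List V → ℝ) :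
    dS (fun l' => -F l') l m = -dS F l m := by
  have h := Oc_sub l m (fun _ => (0 : ℝ)) F
  rw [Oc_zero] at h
  simpa using h

theorem tOc (h1 : S_La) (h2 : S_Sb) (h3 : S_Sr) : S_Oc := by
  intro n g Ω hg p hp A k hk hK2 hK u v l hl
  obtain ⟨-, -, c3, -, c5, c6, -, -, -⟩ := h1 (Pt n)
  have mF : MlL (S g p) l.length := hl ▸ (h2 n g p).1.2 k hk
  -- the Ricci identity
  have hZR : ∀ (u v : Pt n) (l' : List (Pt n)), l'.length = k →
      S g p (u :: v :: l') - S g p (v :: u :: l') = -dS (S g p) l' (l'.map (Rv g p u v)) :=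
    fun u v l' hl' => h3 n g Ω hg p hp u v l' (by omega)
  -- the hypothesis of length `k + 2`
  have g1 := hK2 (u :: v :: l) (by simp [hl])
  have g2 := hK2 (v :: u :: l) (by simp [hl])
  simp only [List.map_cons, dS] at g1 g2
  have g3 : dS (fun l' => S g p (u :: v :: l') - S g p (v :: u :: l')) l (l.map A)
      = dS (fun l' => S g p (u :: v :: l')) l (l.map A)
        - dS (fun l' => S g p (v :: u :: l')) l (l.map A) := Oc_sub _ _ _ _
  have g4 : dS (fun l' => S g p (u :: v :: l') - S g p (v :: u :: l')) l (l.map A)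
      = -dS (fun l' => dS (S g p) l' (l'.map (Rv g p u v))) l (l.map A) := by
    rw [← Oc_neg]
    refine c3 _ _ _ _ (by simp) fun l' hl' => ?_
    exact hZR u v l' (by rw [hl', hl])
  have g5 := hZR (A u) v l hl
  have g6 := hZR u (A v) l hl
  -- the commutator
  have g7 := c6 (S g p) l mF A (Rv g p u v)
  have g8 : dS (fun l' => dS (S g p) l' (l'.map A)) l (l.map (Rv g p u v)) = 0 := by
    rw [← Oc_zero l (l.map (Rv g p u v))]
    refine c3 _ _ _ _ (by simp) fun l' hl' => ?_
    exact hK l' (by rw [hl', hl])
  rw [g8] at g7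
  -- the combination
  have g9 := c5 (S g p) l mF (Fin 3) Finset.univ ![1, -1, -1]
    ![fun a => A (Rv g p u v a) - Rv g p u v (A a), Rv g p (A u) v, Rv g p u (A v)]
  have g10 : (fun a : Pt n => ∑ i : Fin 3, (![1, -1, -1] : Fin 3 → ℝ) i •
      (![fun a => A (Rv g p u v a) - Rv g p u v (A a), Rv g p (A u) v, Rv g p u (A v)] :
        Fin 3 → Pt n → Pt n) i a) = AR (Rv g p) A u v := by
    funext a
    simp only [Fin.sum_univ_three, Matrix.cons_val_zero, Matrix.cons_val_one, Matrix.cons_val,
      one_smul, neg_smul, AR]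
    abel
  rw [g10] at g9
  rw [g9]
  simp only [Fin.sum_univ_three, Matrix.cons_val_zero, Matrix.cons_val_one, Matrix.cons_val,
    one_mul, neg_mul]
  linarith

end

end Pool.Agent.Lib.MP_9d59e9_gt.KS
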