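import Pool.Agent.Lib.MP_9d59e9_gt.KS.SpecO

/-!
# MP_9d59e9_gt, project KS: `S_Oq`, orthogonal quadruples of curves
-/

set_option autoImplicit false

namespace Pool.Agent.Lib.MP_9d59e9_gt.KS

open scoped BigOperators ContDiff
open Set KO KO3

private theorem oq_lin {V : Type} [AddCommGroup V] [Module ℝ V] {B : V → V → ℝ} (hB : IP B)
    (u v w : V) (r : ℝ) : B (u + r • v) w = B u w + r * B v w := by
  have h1 : B (u + r • v) w = B u w + B (r • v) w := (hB.lin w).add u (r • v)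
  have h2 : B (r • v) w = r * B v w := (hB.lin w).smul r v
  rw [h1, h2]

private theorem oq_step {n : ℕ} {g : Pt n → Matrix (Fin n) (Fin n) ℝ}
    {Ω : Set (Pt n)} (hg : IsMetricOn g Ω) {p : Pt n} (hp : p ∈ Ω) (X : Pt n) {u v : ℝ → Pt n}
    {u₀ v₀ : Pt n} (hu : Cv g p X u u₀ 0) (hv : Cv g p X v v₀ 0) (hv0 : v₀ ≠ 0)
    (ho : ip g p u₀ v₀ = 0) :
    Cv g p X (fun t => (-(ip g (p + t • X) (u t) (v t) / ip g (p + t • X) (v t) (v t))) • v t)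
      0 0 := by
  obtain ⟨-, -, -, -, -, hip, -, -⟩ := sCvP n g Ω hg p hp X
  have hI : IP (ip g p) := (sOnb n g p (hg.pos p hp)).2.1
  have h0 : ip g (p + (0 : ℝ) • X) (v 0) (v 0) = ip g p v₀ v₀ := by
    rw [zero_smul, add_zero, hv.1]
  have h0' : ip g (p + (0 : ℝ) • X) (u 0) (v 0) = 0 := by
    rw [zero_smul, add_zero, hv.1, hu.1, ho]
  have hne : ip g (p + (0 : ℝ) • X) (v 0) (v 0) ≠ 0 := by
    rw [h0]
    exact (hI.pos v₀ hv0).ne'
  have hd : HasDerivAt (fun t : ℝ => -(ip g (p + t • X) (u t) (v t)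
      / ip g (p + t • X) (v t) (v t))) 0 0 := by
    have h := ((hip u u₀ v v₀ hu hv).div (hip v v₀ v v₀ hv hv) hne).neg
    have h2 : -((0 * ip g (p + (0 : ℝ) • X) (v 0) (v 0) - ip g (p + (0 : ℝ) • X) (u 0) (v 0) * 0)
        / ip g (p + (0 : ℝ) • X) (v 0) (v 0) ^ 2) = 0 := by ring
    rw [h2] at h
    exact h
  have hf0 : -(ip g (p + (0 : ℝ) • X) (u 0) (v 0) / ip g (p + (0 : ℝ) • X) (v 0) (v 0)) = 0 := by
    rw [h0', zero_div, neg_zero]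
  have h : Cv g p X
      (fun t => (-(ip g (p + t • X) (u t) (v t) / ip g (p + t • X) (v t) (v t))) • v t)
      ((-(ip g (p + (0 : ℝ) • X) (u 0) (v 0) / ip g (p + (0 : ℝ) • X) (v 0) (v 0))) • v₀)
      ((0 : ℝ) • v₀ + (-(ip g (p + (0 : ℝ) • X) (u 0) (v 0)
        / ip g (p + (0 : ℝ) • X) (v 0) (v 0))) • (0 : Pt n)) :=
    (sCvb n g p X).2.2.2 _ 0 v v₀ 0 hd hv
  rw [hf0, zero_smul, smul_zero, add_zero] at h
  exact h

theorem tOq : S_Oq := by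
  intro n g Ω hg p hp X a b c d h1 h2 hcd ha hb hc hd
  obtain ⟨α, β, γ, hα, hβ, hγ, hev⟩ := sOrC n g Ω hg p hp X a b c h1 ha hb hc
  obtain ⟨-, -, -, -, -, hip, -, hex⟩ := sCvP n g Ω hg p hp X
  have hI : IP (ip g p) := (sOnb n g p (hg.pos p hp)).2.1
  obtain ⟨δ₁, hδ₁⟩ := hex d
  have hadd := (sCvb n g p X).2.2.1
  obtain ⟨hab, had, hbd⟩ := h2
  have s1 := oq_step hg hp X hδ₁ hα ha (by rw [hI.symm]; exact had)
  have s2 := oq_step hg hp X hδ₁ hβ hb (by rw [hI.symm]; exact hbd)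
  have s3 := oq_step hg hp X hδ₁ hγ hc (by rw [hI.symm]; exact hcd)
  have hδ := hadd _ _ _ _ _ _ (hadd _ _ _ _ _ _ (hadd _ _ _ _ _ _ hδ₁ s1) s2) s3
  rw [add_zero, add_zero, add_zero, add_zero, add_zero, add_zero] at hδ
  refine ⟨α, β, γ, _, hα, hβ, hγ, hδ, ?_⟩
  have hcx : Filter.Tendsto (fun t : ℝ => p + t • X) (nhds 0) (nhds (p + (0 : ℝ) • X)) := by
    have : Continuous fun t : ℝ => p + t • X := by fun_prop
    exact this.tendsto 0
  rw [zero_smul, add_zero] at hcx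
  have hU : ∀ᶠ t : ℝ in nhds (0 : ℝ), p + t • X ∈ Ω := hcx.eventually (hg.isOpen.mem_nhds hp)
  filter_upwards [hU, hev] with t htU ht
  obtain ⟨⟨q1, q2, q3⟩, ht1, ht2, ht3⟩ := ht
  have hJ : IP (ip g (p + t • X)) := (sOnb n g _ (hg.pos _ htU)).2.1
  have hA := (hJ.pos _ ht1).ne'
  have hB := (hJ.pos _ ht2).ne'
  have hC := (hJ.pos _ ht3).ne'
  have q1' := q1
  have q2' := q2
  have q3' := q3
  rw [hJ.symm] at q1' q2' q3'
  refine ⟨⟨q1, q2, q3⟩, ⟨q1, ?_, ?_⟩, ?_⟩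
  · rw [hJ.symm, oq_lin hJ, oq_lin hJ, oq_lin hJ, q1', q2']
    field_simp
    ring
  · rw [hJ.symm, oq_lin hJ, oq_lin hJ, oq_lin hJ, q1, q3']
    field_simp
    ring
  · rw [hJ.symm, oq_lin hJ, oq_lin hJ, oq_lin hJ, q2, q3]
    field_simp
    ring

end Pool.Agent.Lib.MP_9d59e9_gt.KS
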