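import Pool.Agent.Lib.MP_9d59e9_gt.KS.SpecO

/-! KS, module `PF`: the structure at the points with `∇R ≠ 0`, order four. -/

set_option autoImplicit false

namespace Pool.Agent.Lib.MP_9d59e9_gt.KS

open scoped BigOperators ContDiff
open Set KO KO3

noncomputable section

section
variable {V : Type} [AddCommGroup V] [Module ℝ V]

private theorem PF_zero {f : V → ℝ} (hf : Lin1 f) : f 0 = 0 := by
  have h := hf.smul 0 0
  simpa using h

private theorem PF_sum {ι : Type} (s : Finset ι) {f : V → ℝ} (hf : Lin1 f) (g : ι → V) :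
    f (∑ i ∈ s, g i) = ∑ i ∈ s, f (g i) := by
  classical
  induction s using Finset.induction_on with
  | empty => simpa using PF_zero hf
  | insert a s ha ih => rw [Finset.sum_insert ha, Finset.sum_insert ha, hf.add, ih]

private theorem PF_sum2 {k : ℕ} {f : V → ℝ} (hf : Lin1 f) (w : Fin k → Fin k → ℝ)
    (g : Fin k → Fin k → V) :
    f (∑ i, ∑ j, w i j • g i j) = ∑ i, ∑ j, w i j * f (g i j) := by
  rw [PF_sum _ hf]
  refine Finset.sum_congr rfl fun i _ => ?_
  rw [PF_sum _ hf]
  exact Finset.sum_congr rfl fun j _ => hf.smul _ _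

private theorem PF_act4 {R : V → V → V → V → ℝ} (l1 : ∀ b c d, Lin1 fun a => R a b c d)
    (l2 : ∀ a c d, Lin1 fun b => R a b c d) (l3 : ∀ a b d, Lin1 fun c => R a b c d)
    (l4 : ∀ a b c, Lin1 fun d => R a b c d) {k : ℕ} (w : Fin k → Fin k → ℝ)
    (Ψ : Fin k → Fin k → V → V) (Φ : V → V) (hΦ : ∀ a, Φ a = ∑ i, ∑ j, w i j • Ψ i j a)
    (c d p q : V) :
    act4 Φ R c d p q = ∑ i, ∑ j, w i j * act4 (Ψ i j) R c d p q := by
  have e2 : R (Φ c) d p q = ∑ i, ∑ j, w i j * R (Ψ i j c) d p q := by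
    rw [hΦ c]
    exact PF_sum2 (f := fun a => R a d p q) (l1 d p q) w fun i j => Ψ i j c
  have e3 : R c (Φ d) p q = ∑ i, ∑ j, w i j * R c (Ψ i j d) p q := by
    rw [hΦ d]
    exact PF_sum2 (f := fun a => R c a p q) (l2 c p q) w fun i j => Ψ i j d
  have e4 : R c d (Φ p) q = ∑ i, ∑ j, w i j * R c d (Ψ i j p) q := by
    rw [hΦ p]
    exact PF_sum2 (f := fun a => R c d a q) (l3 c d q) w fun i j => Ψ i j p
  have e5 : R c d p (Φ q) = ∑ i, ∑ j, w i j * R c d p (Ψ i j q) := by
    rw [hΦ q]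
    exact PF_sum2 (f := fun a => R c d p a) (l4 c d p) w fun i j => Ψ i j q
  unfold act4
  rw [e2, e3, e4, e5]
  simp only [← Finset.sum_add_distrib, ← Finset.sum_neg_distrib]
  refine Finset.sum_congr rfl fun i _ => Finset.sum_congr rfl fun j _ => ?_
  ring

/-- combinations of rotations are skew -/
private theorem PF_skew {B : V → V → ℝ} (hB : IP B) {k : ℕ} (u v : Fin k → V)
    (w : Fin k → Fin k → ℝ) (a b : V) :
    B (∑ i, ∑ j, w i j • wd B (u i) (v j) a) b = -B a (∑ i, ∑ j, w i j • wd B (u i) (v j) b) := by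
  have e1 := PF_sum2 (f := fun a => B a b) (hB.lin b) w fun i j => wd B (u i) (v j) a
  have e2 := PF_sum2 (f := fun b => B b a) (hB.lin a) w fun i j => wd B (u i) (v j) b
  rw [hB.symm a, e1, e2]
  simp only [← Finset.sum_neg_distrib]
  refine Finset.sum_congr rfl fun i _ => Finset.sum_congr rfl fun j _ => ?_
  have hsub : ∀ (r t : ℝ) (p q z : V), B (r • p - t • q) z = r * B p z - t * B q z := by
    intro r t p q z
    rw [sub_eq_add_neg, ← neg_smul, (hB.lin z).add, (hB.lin z).smul, (hB.lin z).smul]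
    ring
  simp only [wd, hsub]
  ring

/-- a 3-tensor all of whose slices are multiples of one form -/
private theorem PF_split {N : V → V → V → V → V → ℝ} (hN : Dcrv N) {t : V → V → V → ℝ}
    (hl : ∀ a b, Lin1 (t a b)) (hW : ∀ a b y z c d p q, WW (t a b) N y z c d p q = 0)
    (hne : ∃ z a b c d, N z a b c d ≠ 0) :
    ∃ (C : V → V → ℝ) (θ : V → ℝ), ∀ a b w, t a b w = C a b * θ w := by
  by_cases h : ∀ a b w, t a b w = 0
  · exact ⟨fun _ _ => 0, fun _ => 0, fun a b w => by rw [h]; ring⟩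
  · push Not at h
    obtain ⟨a0, b0, w0, h0⟩ := h
    refine ⟨fun a b => t a b w0 / t a0 b0 w0, t a0 b0, fun a b w => ?_⟩
    have h2 : t a b w * t a0 b0 w0 = t a b w0 * t a0 b0 w := by
      by_contra hc
      obtain ⟨z, p, q, c, d, hz⟩ := hne
      exact hz (KO3.sTwo V N hN (t a b) (t a0 b0) (hl a b) (hl a0 b0) (hW a b) (hW a0 b0)
        ⟨w, w0, hc⟩ z p q c d)
    field_simp
    linarith

end

theorem tPF (h1 : S_La) (h2 : S_Ad) (h3 : S_Sb) (h4 : S_Kc) (h5 : S_Ea) (h6 : S_NfR)
    (h7 : S_Kp) (h8 : S_Wt) (h9 : S_Tq) (h10 : S_Qz) (h11 : S_Hy) : S_PF := by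
  intro n g Ω τ hn hK x hx hN
  have hQ := h10 n g Ω τ hn hK x hx hN
  refine ⟨fun h0 u v => hQ u v (h0 u) (h0 v), ?_⟩
  intro e s he _ hτ
  have hker : ∀ u, ip g x e u = 0 → e1 (τ 1) x u = 0 := by
    intro u hu
    rw [hτ u, hu, mul_zero]
  have hcR := (KO.sSym n g Ω hK.met x hx).1
  have hop := (KO.sSym n g Ω hK.met x hx).2.1
  have hAlg : Alg (ip g x) (n - 1) (e4 (R4 g) x) (Rv g x) :=
    ⟨KO3.sFrm n (n - 1) g x (by omega) (hK.met.pos x hx), by omega, hcR, hop, hK.ns x hx⟩
  have hB := hAlg.eu.ip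
  have hEa := h5 (Pt n) (ip g x) (n - 1) (e4 (R4 g) x) (Rv g x) hAlg e he
    (fun u v hu hv => hQ u v (hker u hu) (hker v hv))
  obtain ⟨q1, q2, q3, q4⟩ := (KO.sLin n x).2.2.2.2.2.2.1 (R4 g)
  have L6 : MlL (S g x) 6 := (h3 n g x).1.2 6 (by norm_num)
  have a4 : ∀ u v, ip g x e u = 0 → ip g x e v = 0 →
      ∀ a b c d, act4 (wd (ip g x) u v) (e4 (R4 g) x) a b c d = 0 := by
    intro u v hu hv a b c d
    obtain ⟨k, h, w, hh, hw⟩ := KO3.sGenD (Pt n) (ip g x) (n - 1) (e4 (R4 g) x) (Rv g x) hAlg e e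
      he he hEa u v hu hv
    rw [PF_act4 q4 q3 q2 q1 w (fun i j => Rv g x (h i) (h j)) (wd (ip g x) u v) hw]
    refine Finset.sum_eq_zero fun i _ => Finset.sum_eq_zero fun j _ => ?_
    rw [hQ (h i) (h j) (hker _ (hh i)) (hker _ (hh j)), mul_zero]
  obtain ⟨α, β, hαβ⟩ := h6 (Pt n) (ip g x) (n - 1) (e4 (R4 g) x) hAlg.eu hAlg.two hcR e he hEa a4
  refine ⟨⟨α, β, hαβ⟩, ?_⟩
  -- the values on the orthogonal complement of `e`
  have hR : ∀ u v, ip g x e u = 0 → ip g x e v = 0 → ∀ a b,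
      e4 (R4 g) x u v a b = α * G0 (ip g x) u v a b := by
    intro u v hu hv a b
    rw [hαβ]
    simp only [KN, hu, hv]
    ring
  have hα : α ≠ 0 := by
    intro h0
    obtain ⟨u, hu1, hu2, -⟩ := KO3.sPrp (Pt n) (ip g x) (n - 1) hAlg.eu (by omega) e e
    obtain ⟨v, hv1, hv2, hv3⟩ := KO3.sPrp (Pt n) (ip g x) (n - 1) hAlg.eu (by omega) e u
    have hv3' : ip g x v u = 0 := by rw [hB.symm, hv3]
    have hns := hK.ns x hx 2 ![u, v] !![0, 1; -1, 0] (by
      intro i j
      fin_cases i <;> fin_cases j <;> simp [hu1, hv1, hv3, hv3']) (by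
      intro i j
      fin_cases i <;> fin_cases j <;> simp) (by
      intro a b
      have e1 := hR u v hu2 hv2 a b
      have e2 := hR v u hv2 hu2 a b
      rw [h0, zero_mul] at e1 e2
      simp [Fin.sum_univ_two, e1, e2]) 0 1
    simp at hns
  -- the curvature operators
  have hRv : ∀ u v, ip g x e u = 0 → ip g x e v = 0 →
      Rv g x u v = fun a => α • wd (ip g x) u v a := by
    intro u v hu hv
    funext a
    refine (KO.sUp n g x (hK.met.pos x hx)).2 _ _ fun z => ?_
    rw [hop, hR u v hu hv, (hB.lin z).smul]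
    have hsub : ∀ (r t : ℝ) (p q z : Pt n), ip g x (r • p - t • q) z
        = r * ip g x p z - t * ip g x q z := by
      intro r t p q z
      rw [sub_eq_add_neg, ← neg_smul, (hB.lin z).add, (hB.lin z).smul, (hB.lin z).smul]
      ring
    simp only [wd, hsub, G0]
    ring
  have hL5 : ∀ l : List (Pt n), l.length = 6 → ∀ (ι : Type) (s : Finset ι) (w : ι → ℝ)
      (Φ : ι → Pt n → Pt n), dS (S g x) l (l.map fun a => ∑ i ∈ s, w i • Φ i a)
        = ∑ i ∈ s, w i * dS (S g x) l (l.map (Φ i)) := by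
    intro l hl
    exact (h1 (Pt n)).2.2.2.2.1 (S g x) l (by rw [hl]; exact L6)
  have hsm : ∀ u v, ip g x e u = 0 → ip g x e v = 0 → ∀ l : List (Pt n), l.length = 6 →
      dS (S g x) l (l.map (Rv g x u v)) = α * dS (S g x) l (l.map (wd (ip g x) u v)) := by
    intro u v hu hv l hl
    have := hL5 l hl Unit {()} (fun _ => α) (fun _ => wd (ip g x) u v)
    simp only [Finset.sum_singleton] at this
    rw [hRv u v hu hv, this]
  -- the third coefficient
  have hL3 := fun a b => (KO.sLin n x).2.2.2.2.2.1 (τ 3) |>.1 a b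
  obtain ⟨C, θ, hC⟩ := PF_split (t := e3 (τ 3) x) (KO.sBi2 n g Ω hK.met x hx) hL3
    (h8 n g Ω τ (by omega) hK x hx) hN
  have hLie : LieP fun Φ => Kl g x Φ 6 := h7 n g x 6 (by norm_num)
  have hmain := h11 (Pt n) (ip g x) (n - 1) hAlg.eu (by omega) (fun Φ => Kl g x Φ 6) hLie e he
    (fun u v => C u v - C v u) (by
      intro k u v w hu hv hw
      -- the action on lists of length six
      obtain ⟨f, hf1, hf2⟩ := (KO.sOnb n g x (hK.met.pos x hx)).1
      have hA := ((h2 (Pt n) n f).2.1 (ip g x) hB ⟨hf1, hf2⟩).2.2 6 (S g x) L6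
        (fun a => ∑ i, ∑ j, w i j • wd (ip g x) (u i) (v j) a)
        (fun a b => PF_skew hB u v w a b)
        (α⁻¹ * ∑ i, ∑ j, w i j * (e2 (τ 2) x (u i) (v j) - e2 (τ 2) x (v j) (u i)))
      have key : ∀ l : List (Pt n), l.length = 6 →
          dS (S g x) l (l.map fun a => ∑ i, ∑ j, w i j • wd (ip g x) (u i) (v j) a)
            = (α⁻¹ * ∑ i, ∑ j, w i j * (e2 (τ 2) x (u i) (v j) - e2 (τ 2) x (v j) (u i)))
              * S g x l := by
        intro l hl
        obtain ⟨c, l', rfl⟩ : ∃ c l', l = c :: l' := by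
          cases l with
          | nil => simp at hl
          | cons c l' => exact ⟨c, l', rfl⟩
        have hl' : l'.length = 5 := by simpa using hl
        have e1 : (fun a => ∑ i, ∑ j, w i j • wd (ip g x) (u i) (v j) a)
            = fun a => ∑ p ∈ (Finset.univ : Finset (Fin k × Fin k)),
              w p.1 p.2 • wd (ip g x) (u p.1) (v p.2) a := by
          funext a
          rw [Fintype.sum_prod_type]
        have e2' := hL5 (c :: l') hl (Fin k × Fin k) Finset.univ (fun p => w p.1 p.2)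
          (fun p => wd (ip g x) (u p.1) (v p.2))
        rw [e1, e2']
        have e3' : ∀ p : Fin k × Fin k,
            α * dS (S g x) (c :: l') ((c :: l').map (wd (ip g x) (u p.1) (v p.2)))
              = (e2 (τ 2) x (u p.1) (v p.2) - e2 (τ 2) x (v p.2) (u p.1)) * S g x (c :: l')
                + (C (u p.1) (v p.2) - C (v p.2) (u p.1)) * (θ c * S g x l') := by
          intro p
          rw [← hsm _ _ (hu p.1) (hv p.2) _ hl, h9 n g Ω τ (by omega) hK x hx _ _
            (hker _ (hu p.1)) (hker _ (hv p.2)) c l' hl', hC, hC]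
          ring
        have e4' : α * ∑ p : Fin k × Fin k, w p.1 p.2
            * dS (S g x) (c :: l') ((c :: l').map (wd (ip g x) (u p.1) (v p.2)))
            = (∑ i, ∑ j, w i j * (e2 (τ 2) x (u i) (v j) - e2 (τ 2) x (v j) (u i)))
              * S g x (c :: l') := by
          rw [Finset.mul_sum]
          have e5' : ∀ p : Fin k × Fin k, α * (w p.1 p.2
              * dS (S g x) (c :: l') ((c :: l').map (wd (ip g x) (u p.1) (v p.2))))
              = w p.1 p.2 * (e2 (τ 2) x (u p.1) (v p.2) - e2 (τ 2) x (v p.2) (u p.1))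
                  * S g x (c :: l')
                + w p.1 p.2 * (C (u p.1) (v p.2) - C (v p.2) (u p.1)) * (θ c * S g x l') := by
            intro p
            have := e3' p
            linear_combination (w p.1 p.2) * this
          rw [Finset.sum_congr rfl fun p _ => e5' p, Finset.sum_add_distrib, ← Finset.sum_mul,
            ← Finset.sum_mul, Fintype.sum_prod_type, Fintype.sum_prod_type]
          simp only
          rw [hw, zero_mul, add_zero]
        rw [mul_assoc, ← e4', ← mul_assoc, inv_mul_cancel₀ hα, one_mul]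
      intro l hl
      rcases hA key with h0 | h0
      · rw [key l hl, h0, zero_mul]
      · rw [key l hl, h0 l hl, mul_zero])
  intro u v hu hv
  exact (h4 n g x (wd (ip g x) u v)).2.2.1 (hmain u v hu hv)

end

end Pool.Agent.Lib.MP_9d59e9_gt.KS
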