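import Pool.Agent.Lib.MP_9d59e9_gt.KS.SpecO

/-! KS, module `PO`: the pointwise structure, odd order. -/

set_option autoImplicit false

namespace Pool.Agent.Lib.MP_9d59e9_gt.KS

open scoped BigOperators ContDiff
open Set KO KO3

noncomputable section

/-- the set where a family of continuous functions does not vanish identically is open -/
private theorem PO_open {n : ℕ} {ι : Type} {Ω : Set (Pt n)} (hΩ : IsOpen Ω) (f : ι → Pt n → ℝ)
    (hf : ∀ i, ContinuousOn (f i) Ω) : IsOpen {x | x ∈ Ω ∧ ∃ i, f i x ≠ 0} := by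
  have h : {x | x ∈ Ω ∧ ∃ i, f i x ≠ 0} = ⋃ i, Ω ∩ (f i) ⁻¹' {0}ᶜ := by
    ext x
    simp
  rw [h]
  exact isOpen_iUnion fun i => (hf i).isOpen_inter_preimage hΩ isOpen_compl_singleton

/-- Riesz with a unit vector -/
private theorem PO_riesz {V : Type} [AddCommGroup V] [Module ℝ V] {B : V → V → ℝ} (hB : IP B)
    {f : V → ℝ} (hf : Lin1 f) (hne : ∃ v, f v ≠ 0) :
    ∃ (e : V) (s : ℝ), B e e = 1 ∧ s ≠ 0 ∧ ∀ v, f v = s * B e v := by
  obtain ⟨T, hT⟩ := hB.riesz f hf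
  obtain ⟨v₀, hv₀⟩ := hne
  have hT0 : T ≠ 0 := by
    intro h
    apply hv₀
    rw [← hT v₀, h]
    have h2 := (hB.lin v₀).smul 0 0
    simpa using h2
  have hpos := hB.pos T hT0
  have hs : 0 < Real.sqrt (B T T) := Real.sqrt_pos.mpr hpos
  have hss : Real.sqrt (B T T) * Real.sqrt (B T T) = B T T := Real.mul_self_sqrt hpos.le
  have hl : ∀ v, B ((Real.sqrt (B T T))⁻¹ • T) v = (Real.sqrt (B T T))⁻¹ * B T v := fun v =>
    (hB.lin v).smul _ _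
  refine ⟨(Real.sqrt (B T T))⁻¹ • T, Real.sqrt (B T T), ?_, hs.ne', ?_⟩
  · rw [hl, hB.symm T ((Real.sqrt (B T T))⁻¹ • T), hl, ← mul_assoc]
    generalize Real.sqrt (B T T) = r at hs hss
    rw [← hss]
    field_simp
  · intro v
    rw [hl, ← mul_assoc, mul_inv_cancel₀ hs.ne', one_mul, hT]

theorem tPO (h1 : S_PO1) (h2 : S_Qd) (h3 : S_Wa) : S_PO := by
  intro n g Ω r τ hn hr hod hK hSy
  have hS := KO.sSmo n g Ω hK.met
  have hNs : Sm Ω (N g) := hS.2.2.2.2.2.2.1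
  have hev := hS.2.2.2.2.2.2.2.2.2.2.2
  let U : Set (Pt n) := {x | x ∈ Ω ∧ ∃ i : Pt n × Pt n × Pt n × Pt n × Pt n,
    e5 (N g) x i.1 i.2.1 i.2.2.1 i.2.2.2.1 i.2.2.2.2 ≠ 0}
  have hU : IsOpen U :=
    PO_open hK.met.isOpen (fun (i : Pt n × Pt n × Pt n × Pt n × Pt n) x =>
      e5 (N g) x i.1 i.2.1 i.2.2.1 i.2.2.2.1 i.2.2.2.2)
      fun i => (hev 5 (N g) hNs ![i.1, i.2.1, i.2.2.1, i.2.2.2.1, i.2.2.2.2]).continuousOn
  have hUΩ : U ⊆ Ω := fun x hx => hx.1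
  have hmU : IsMetricOn g U :=
    ⟨hU, fun i j => (hK.met.smooth i j).mono hUΩ, fun x hx => hK.met.pos x (hUΩ hx)⟩
  have hne : ∀ x ∈ U, ∃ z a b c d, e5 (N g) x z a b c d ≠ 0 := by
    rintro x ⟨-, ⟨z, a, b, c, d⟩, h⟩
    exact ⟨z, a, b, c, d, h⟩
  have hquad : ∀ x ∈ U, ∀ z a b c d, Orth g x a b c → Orth g x a b d → ip g x c d = 0 →
      e5 (N g) x z a b c d = 0 := by
    intro y hy z a b c d habc habd hcd
    have hyΩ := hUΩ hy
    obtain ⟨q1, q2⟩ := h1 n g Ω r τ hn hr hod hK hSy y hyΩ (hne y hy)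
    obtain ⟨e, s, he, hs, hes⟩ := PO_riesz (KO.sOnb n g y (hK.met.pos y hyΩ)).2.1
      ((KO.sLin n y).2.2.2.1 (τ 1)) q1
    obtain ⟨-, -, -, κ, k, hN⟩ := q2 e s he hs hes
    rw [hN]
    obtain ⟨i1, i2, i3⟩ := habc
    obtain ⟨-, i4, i5⟩ := habd
    have f0 : FF (ip g y) (ip g y e) z a b c d = 0 := by
      unfold FF G0
      rw [i2, i3, i4, i5]
      ring
    have t0 : TT (ip g y) (ip g y e) z a b c d = 0 := by
      unfold TT
      rw [i2, i3, i4, i5]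
      ring
    rw [f0, t0, mul_zero, mul_zero, add_zero]
  intro x hx hN
  have hxU : x ∈ U := by
    obtain ⟨z, a, b, c, d, h⟩ := hN
    exact ⟨hx, (z, a, b, c, d), h⟩
  obtain ⟨q1, q2⟩ := h1 n g Ω r τ hn hr hod hK hSy x hx hN
  refine ⟨fun h0 => ?_, ?_⟩
  · obtain ⟨v, hv⟩ := q1
    exact absurd (h0 v) hv
  intro e s he hs hes
  obtain ⟨hR, ⟨lam, hlam⟩, hI, -⟩ := q2 e s he hs hes
  refine ⟨?_, hI⟩
  refine h3 (Pt n) (ip g x) (n - 1) (e4 (R4 g) x)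
    (KO3.sFrm n (n - 1) g x (by omega) (hK.met.pos x hx)) (by omega)
    (KO.sSym n g Ω hK.met x hx).1 e lam he hR hlam ?_
  intro a b c d hab hac had hbc hbd hcd u v
  exact h2 n g U (by omega) hmU (fun y hy => hK.ns y (hUΩ hy)) hquad x hxU a b c d
    ⟨hab, hac, hbc⟩ ⟨hab, had, hbd⟩ hcd u v

end

end Pool.Agent.Lib.MP_9d59e9_gt.KS
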