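import Pool.Agent.Lib.MP_9d59e9_gt.KS.SpecO

/-!
# MP_9d59e9_gt, project KS: `S_PO1`, the pointwise structure, odd order
-/

set_option autoImplicit false

namespace Pool.Agent.Lib.MP_9d59e9_gt.KS

open scoped BigOperators ContDiff
open Set KO KO3

noncomputable section

private theorem PO1_sum {V : Type} [AddCommGroup V] [Module ℝ V] {P : (V → V) → Prop}
    (hP : LieP P) {ι : Type} (s : Finset ι) (Φ : ι → V → V) (h : ∀ i ∈ s, P (Φ i)) :
    P fun a => ∑ i ∈ s, Φ i a := by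
  classical
  induction s using Finset.induction_on with
  | empty =>
    simp only [Finset.sum_empty]
    exact hP.zero
  | insert i s hi ih =>
    have e : (fun a => ∑ j ∈ insert i s, Φ j a) = fun a => Φ i a + ∑ j ∈ s, Φ j a := by
      funext a
      exact Finset.sum_insert hi
    rw [e]
    exact hP.add _ _ (h i (Finset.mem_insert_self i s))
      (ih fun j hj => h j (Finset.mem_insert_of_mem hj))

private theorem PO1_sum2 {V : Type} [AddCommGroup V] [Module ℝ V] {P : (V → V) → Prop}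
    (hP : LieP P) {k : ℕ} (w : Fin k → Fin k → ℝ) (Ψ : Fin k → Fin k → V → V) (Φ : V → V)
    (hΦ : ∀ a, Φ a = ∑ i, ∑ j, w i j • Ψ i j a) (h : ∀ i j, P (Ψ i j)) : P Φ := by
  have e : Φ = fun a => ∑ i, ∑ j, w i j • Ψ i j a := funext hΦ
  rw [e]
  refine PO1_sum hP Finset.univ (fun i a => ∑ j, w i j • Ψ i j a) fun i _ => ?_
  exact PO1_sum hP Finset.univ (fun j a => w i j • Ψ i j a) fun j _ => hP.smul _ _ (h i j)

theorem tPO1 (_h1 : S_La) (_h2 : S_Sb) (h3 : S_Ds) (h4 : S_Kc) (h5 : S_To) (h6 : S_Kp)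
    (h7 : S_Oc) (h8 : S_Oa) (h9 : S_Ob) (h10 : S_Nz) (h11 : S_NfN) : S_PO1 := by
  intro n g Ω r τ hn hr hodd hK hSy x hx hNne
  have hcR := (KO.sSym n g Ω hK.met x hx).1
  have hop := (KO.sSym n g Ω hK.met x hx).2.1
  have hAlg : Alg (ip g x) (n - 1) (e4 (R4 g) x) (Rv g x) :=
    ⟨KO3.sFrm n (n - 1) g x (by omega) (hK.met.pos x hx), by omega, hcR, hop, hK.ns x hx⟩
  have hP : LieP fun Φ => Kl g x Φ 5 := h6 n g x 5 (by norm_num)
  have hP7 : LieP fun Φ => Kl g x Φ 7 := h6 n g x 7 (by norm_num)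
  have hD : Dcrv (e5 (N g) x) := KO.sBi2 n g Ω hK.met x hx
  have hnot : ¬ ∀ u v, Kl g x (wd (ip g x) u v) 5 := by
    intro hall
    obtain ⟨z, a, b, c, d, hne⟩ := hNne
    exact hne ((h10 (Pt n) (ip g x) (n - 1) hAlg.eu (e5 (N g) x) hD).1 (by omega)
      (fun u v => (h4 n g x _).2.1.1 (hall u v)) z a b c d)
  -- descent
  have hdesc : ∀ u v, ∀ k, 4 ≤ k → Kl g x (Rv g x u v) (k + 2) → Kl g x (Rv g x u v) k := by
    intro u v
    refine h3 n g Ω hK.met x hx 2 ![u, v] !![0, 1; 0, 0] (Rv g x u v) fun a => ?_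
    simp [Fin.sum_univ_two]
  have hdn : ∀ u v, ∀ t : ℕ, Kl g x (Rv g x u v) (2 * t + 7) → Kl g x (Rv g x u v) 7 := by
    intro u v t
    induction t with
    | zero => exact fun h => h
    | succ t ih =>
      intro h
      exact ih (hdesc u v (2 * t + 7) (by omega) h)
  have h77 : ∀ u v, e1 (τ 1) x u = 0 → e1 (τ 1) x v = 0 → Kl g x (Rv g x u v) 7 := by
    intro u v hu hv
    have hto := h5 n g Ω r τ (by omega) (by omega) hK hSy x hx u v hu hv
    obtain ⟨s, hs⟩ := hodd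
    refine hdn u v (s - 2) ?_
    have e : 2 * (s - 2) + 7 = r + 2 := by omega
    rw [e]
    exact hto
  have h55 : ∀ u v, e1 (τ 1) x u = 0 → e1 (τ 1) x v = 0 → Kl g x (Rv g x u v) 5 :=
    fun u v hu hv => hdesc u v 5 (by norm_num) (h77 u v hu hv)
  refine ⟨?_, ?_⟩
  · by_contra hcon
    push Not at hcon
    apply hnot
    intro u v
    obtain ⟨k, h, w, hw⟩ := KO3.sGenV (Pt n) (ip g x) (n - 1) (e4 (R4 g) x) (Rv g x) hAlg u v
    exact PO1_sum2 hP w (fun i j => Rv g x (h i) (h j)) _ hw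
      fun i j => h55 (h i) (h j) (hcon _) (hcon _)
  · intro e s he _ hτ
    have hker : ∀ u, ip g x e u = 0 → e1 (τ 1) x u = 0 := by
      intro u hu
      rw [hτ u, hu, mul_zero]
    have hOa : ∀ u v, ip g x e u = 0 → ip g x e v = 0 → ∀ a, e4 (R4 g) x u v e a = 0 :=
      h8 (Pt n) (ip g x) (n - 1) (e4 (R4 g) x) (Rv g x) hAlg (fun Φ => Kl g x Φ 5) hP hnot e he
        fun u v hu hv => ⟨h55 u v (hker u hu) (hker v hv), fun u' v' =>
          h7 n g Ω hK.met x hx (Rv g x u v) 5 (by norm_num) (h77 u v (hker u hu) (hker v hv))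
            (h55 u v (hker u hu) (hker v hv)) u' v'⟩
    have hwd : ∀ u v, ip g x e u = 0 → ip g x e v = 0 →
        Kl g x (wd (ip g x) u v) 7 ∧ Kl g x (wd (ip g x) u v) 5 := by
      intro u v hu hv
      obtain ⟨k, h, w, hh, hw⟩ := KO3.sGenD (Pt n) (ip g x) (n - 1) (e4 (R4 g) x) (Rv g x) hAlg
        e e he he hOa u v hu hv
      exact ⟨PO1_sum2 hP7 w (fun i j => Rv g x (h i) (h j)) _ hw
        fun i j => h77 (h i) (h j) (hker _ (hh i)) (hker _ (hh j)),
        PO1_sum2 hP w (fun i j => Rv g x (h i) (h j)) _ hw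
        fun i j => h55 (h i) (h j) (hker _ (hh i)) (hker _ (hh j))⟩
    have hInv : InvO g x e := fun u v hu hv => (h4 n g x _).2.1.1 (hwd u v hu hv).2
    refine ⟨hOa, ?_, hInv, ?_⟩
    · exact h9 (Pt n) (ip g x) (n - 1) (e4 (R4 g) x) (Rv g x) hAlg (fun Φ => Kl g x Φ 5) hP hnot
        e he fun u v hu hv => ⟨(hwd u v hu hv).2, fun u' v' =>
          h7 n g Ω hK.met x hx (wd (ip g x) u v) 5 (by norm_num) (hwd u v hu hv).1
            (hwd u v hu hv).2 u' v'⟩
    · exact h11 (Pt n) (ip g x) (n - 1) hAlg.eu (by omega) (e5 (N g) x) hD e he hInv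

end

end Pool.Agent.Lib.MP_9d59e9_gt.KS
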