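import Pool.Agent.Lib.MP_9d59e9_gt.KS.SpecO

/-!
# MP_9d59e9_gt, project KS, module Pr3: a unit vector orthogonal to three given vectors
-/

set_option autoImplicit false

namespace Pool.Agent.Lib.MP_9d59e9_gt.KS

open scoped BigOperators ContDiff
open Set KO KO3

noncomputable section

private theorem Pr3_sum {V : Type} [AddCommGroup V] [Module ℝ V] {B : V → V → ℝ} (h : IP B)
    {n : ℕ} (f : Fin n → V) (x : Fin n → ℝ) (a : V) :
    B (∑ i, x i • f i) a = ∑ i, x i * B (f i) a := by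
  have h0 : B 0 a = 0 := by simpa using (h.lin a).smul 0 0
  have key : ∀ s : Finset (Fin n), B (∑ i ∈ s, x i • f i) a = ∑ i ∈ s, x i * B (f i) a := by
    intro s
    classical
    induction s using Finset.induction_on with
    | empty => simpa using h0
    | insert i s hi ih =>
      rw [Finset.sum_insert hi, Finset.sum_insert hi, (h.lin a).add, ih, (h.lin a).smul]
  exact key _

theorem tPr3 : S_Pr3 := by
  intro V _ _ B m hE hm a b c
  obtain ⟨e, he⟩ := hE.ex
  obtain ⟨f, hf, -⟩ := hE.fr e he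
  have hIP := hE.ip
  -- the linear map
  let L : (Fin (m + 1) → ℝ) →ₗ[ℝ] (Fin 3 → ℝ) :=
    { toFun := fun x => ![∑ i, x i * B (f i) a, ∑ i, x i * B (f i) b, ∑ i, x i * B (f i) c]
      map_add' := by
        intro x y
        funext k
        fin_cases k <;> simp [add_mul, Finset.sum_add_distrib]
      map_smul' := by
        intro r x
        funext k
        fin_cases k <;> simp [mul_assoc, Finset.mul_sum] }
  have hker : LinearMap.ker L ≠ ⊥ := by
    refine LinearMap.ker_ne_bot_of_finrank_lt ?_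
    simp only [Module.finrank_fin_fun]
    omega
  obtain ⟨x, hx, hx0⟩ := (Submodule.ne_bot_iff _).1 hker
  have hLx : L x = 0 := LinearMap.mem_ker.1 hx
  have e0 : ∑ i, x i * B (f i) a = 0 := congrFun hLx 0
  have e1 : ∑ i, x i * B (f i) b = 0 := congrFun hLx 1
  have e2 : ∑ i, x i * B (f i) c = 0 := congrFun hLx 2
  obtain ⟨v, hv⟩ : ∃ v : V, v = ∑ i, x i • f i := ⟨_, rfl⟩
  have va : B v a = 0 := by rw [hv, Pr3_sum hIP, e0]
  have vb : B v b = 0 := by rw [hv, Pr3_sum hIP, e1]
  have vc : B v c = 0 := by rw [hv, Pr3_sum hIP, e2]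
  have vf : ∀ j, B v (f j) = x j := by
    intro j
    rw [hv, Pr3_sum hIP]
    simp [hf.on]
  have v0 : v ≠ 0 := by
    intro h0
    apply hx0
    funext j
    rw [← vf j, h0]
    simpa using (hIP.lin (f j)).smul 0 0
  have hp := hIP.pos v v0
  have sl : ∀ (r : ℝ) (y z : V), B (r • y) z = r * B y z := fun r y z => (hIP.lin z).smul r y
  have sr : ∀ (r : ℝ) (y z : V), B y (r • z) = r * B y z := fun r y z => by
    rw [hIP.symm, sl, hIP.symm]
  have hs : Real.sqrt (B v v) * Real.sqrt (B v v) = B v v := Real.mul_self_sqrt hp.le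
  have h0 : Real.sqrt (B v v) ≠ 0 := (Real.sqrt_pos.mpr hp).ne'
  refine ⟨(Real.sqrt (B v v))⁻¹ • v, ?_, ?_, ?_, ?_⟩
  · rw [sl, sr]
    calc (Real.sqrt (B v v))⁻¹ * ((Real.sqrt (B v v))⁻¹ * B v v)
        = (Real.sqrt (B v v))⁻¹ * ((Real.sqrt (B v v))⁻¹ *
          (Real.sqrt (B v v) * Real.sqrt (B v v))) := by rw [hs]
      _ = 1 := by field_simp
  · rw [sr, hIP.symm a, va, mul_zero]
  · rw [sr, hIP.symm b, vb, mul_zero]
  · rw [sr, hIP.symm c, vc, mul_zero]

end

end Pool.Agent.Lib.MP_9d59e9_gt.KS
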