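import Pool.Agent.Lib.MP_9d59e9_gt.KS.SpecO

/-!
# MP_9d59e9_gt, project KS: `S_Qd`, vanishing on orthogonal quadruples
-/

set_option autoImplicit false

namespace Pool.Agent.Lib.MP_9d59e9_gt.KS

open scoped BigOperators ContDiff
open Set KO KO3

private theorem qd_zero {V : Type} [AddCommGroup V] [Module ℝ V] {h : V → ℝ} (hh : Lin1 h) :
    h 0 = 0 := by
  have := hh.smul 0 0
  simpa using this

private theorem qd_lin {V : Type} [AddCommGroup V] [Module ℝ V] {h : V → ℝ} (hh : Lin1 h)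
    {ι : Type} (s : Finset ι) (v : ι → V) : h (∑ i ∈ s, v i) = ∑ i ∈ s, h (v i) := by
  classical
  induction s using Finset.induction_on with
  | empty => simpa using qd_zero hh
  | insert a s ha ih =>
    rw [Finset.sum_insert ha, Finset.sum_insert ha, hh.add, ih]

private theorem qd_lin2 {V : Type} [AddCommGroup V] [Module ℝ V] {h : V → ℝ} (hh : Lin1 h)
    {k : ℕ} (w : Fin k → Fin k → ℝ) (v : Fin k → Fin k → V) :
    h (∑ i, ∑ j, w i j • v i j) = ∑ i, ∑ j, w i j * h (v i j) := by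
  rw [qd_lin hh]
  refine Finset.sum_congr rfl fun i _ => ?_
  rw [qd_lin hh]
  exact Finset.sum_congr rfl fun j _ => hh.smul _ _

/-- `act4` is linear in the endomorphism -/
private theorem qd_act {V : Type} [AddCommGroup V] [Module ℝ V] {R : V → V → V → V → ℝ}
    (l1 : ∀ b c d, Lin1 fun a => R a b c d) (l2 : ∀ a c d, Lin1 fun b => R a b c d)
    (l3 : ∀ a b d, Lin1 fun c => R a b c d) (l4 : ∀ a b c, Lin1 fun d => R a b c d)
    {k : ℕ} (w : Fin k → Fin k → ℝ) (Φ : Fin k → Fin k → V → V) (Ψ : V → V)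
    (h : ∀ a, Ψ a = ∑ i, ∑ j, w i j • Φ i j a) (a b c d : V)
    (hz : ∀ i j, act4 (Φ i j) R a b c d = 0) : act4 Ψ R a b c d = 0 := by
  have e1 : R (Ψ a) b c d = ∑ i, ∑ j, w i j * R (Φ i j a) b c d := by
    rw [h]; exact qd_lin2 (l1 b c d) w _
  have e2 : R a (Ψ b) c d = ∑ i, ∑ j, w i j * R a (Φ i j b) c d := by
    rw [h]; exact qd_lin2 (l2 a c d) w _
  have e3 : R a b (Ψ c) d = ∑ i, ∑ j, w i j * R a b (Φ i j c) d := by
    rw [h]; exact qd_lin2 (l3 a b d) w _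
  have e4 : R a b c (Ψ d) = ∑ i, ∑ j, w i j * R a b c (Φ i j d) := by
    rw [h]; exact qd_lin2 (l4 a b c) w _
  have e : act4 Ψ R a b c d = ∑ i, ∑ j, w i j * act4 (Φ i j) R a b c d := by
    unfold act4
    rw [e1, e2, e3, e4]
    simp only [← Finset.sum_add_distrib, ← Finset.sum_neg_distrib]
    refine Finset.sum_congr rfl fun i _ => Finset.sum_congr rfl fun j _ => ?_
    ring
  rw [e]
  refine Finset.sum_eq_zero fun i _ => Finset.sum_eq_zero fun j _ => ?_
  rw [hz, mul_zero]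

theorem tQd (h1 : S_Oq) : S_Qd := by
  intro n g U hn hg hns hN p hp a b c d hQ1 hQ2 hQ3 u v
  have hEu : Eu (ip g p) (n - 1) := sFrm n (n - 1) g p (by omega) (hg.pos p hp)
  have hS := sSym n g U hg p hp
  have hL := (sLin n p).2.2.2.2.2.2.1 (R4 g)
  have l1 : ∀ b c d, Lin1 fun a => e4 (R4 g) p a b c d := fun b c d => hL.2.2.2 b c d
  have l2 : ∀ a c d, Lin1 fun b => e4 (R4 g) p a b c d := fun a c d => hL.2.2.1 a c d
  have l3 : ∀ a b d, Lin1 fun c => e4 (R4 g) p a b c d := fun a b d => hL.2.1 a b d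
  have l4 : ∀ a b c, Lin1 fun d => e4 (R4 g) p a b c d := fun a b c => hL.1 a b c
  have z1 : ∀ b c d, e4 (R4 g) p 0 b c d = 0 := fun b c d => qd_zero (l1 b c d)
  have z2 : ∀ a c d, e4 (R4 g) p a 0 c d = 0 := fun a c d => qd_zero (l2 a c d)
  have z3 : ∀ a b d, e4 (R4 g) p a b 0 d = 0 := fun a b d => qd_zero (l3 a b d)
  have z4 : ∀ a b c, e4 (R4 g) p a b c 0 = 0 := fun a b c => qd_zero (l4 a b c)
  have hw0 : wd (ip g p) u v 0 = 0 := by
    have e1 : ip g p v 0 = 0 := by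
      rw [hEu.ip.symm]
      exact qd_zero (hEu.ip.lin v)
    have e2 : ip g p u 0 = 0 := by
      rw [hEu.ip.symm]
      exact qd_zero (hEu.ip.lin u)
    unfold wd
    rw [e1, e2, zero_smul, zero_smul, sub_zero]
  by_cases ha : a = 0
  · unfold act4
    rw [ha, hw0, z1, z1, z1, z1]
    ring
  by_cases hb : b = 0
  · unfold act4
    rw [hb, hw0, z2, z2, z2, z2]
    ring
  by_cases hc : c = 0
  · unfold act4
    rw [hc, hw0, z3, z3, z3, z3]
    ring
  by_cases hd : d = 0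
  · unfold act4
    rw [hd, hw0, z4, z4, z4, z4]
    ring
  -- the second derivative
  have hM : ∀ X z, e6 (N2 g) p X z a b c d = 0 := by
    intro X z
    obtain ⟨α, β, γ, δ, hα, hβ, hγ, hδ, hev⟩ := h1 n g U hg p hp X a b c d hQ1 hQ2 hQ3 ha hb hc hd
    obtain ⟨-, -, -, h5, -, -, -, hex⟩ := sCvP n g U hg p hp X
    obtain ⟨ζ, hζ⟩ := hex z
    have hSm : Sm U (N g) := (sSmo n g U hg).2.2.2.2.2.2.1
    have d1 := h5 (N g) hSm ζ z α a β b γ c δ d hζ hα hβ hγ hδ
    have hU : ∀ᶠ t in nhds (0 : ℝ), p + t • X ∈ U := by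
      have hc0 : ContinuousAt (fun t : ℝ => p + t • X) 0 := by fun_prop
      refine hc0.eventually_mem ?_
      rw [zero_smul, add_zero]
      exact hg.isOpen.mem_nhds hp
    have d2 : HasDerivAt (fun t : ℝ => e5 (N g) (p + t • X) (ζ t) (α t) (β t) (γ t) (δ t)) 0 0 := by
      refine (hasDerivAt_const (0 : ℝ) (0 : ℝ)).congr_of_eventuallyEq ?_
      filter_upwards [hU, hev] with t ht1 ht2
      exact hN (p + t • X) ht1 (ζ t) (α t) (β t) (γ t) (δ t) ht2.1 ht2.2.1 ht2.2.2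
    exact d1.unique d2
  have hA : Alg (ip g p) (n - 1) (e4 (R4 g) p) (Rv g p) :=
    { eu := hEu
      two := by omega
      cR := hS.1
      op := hS.2.1
      ns := hns p hp }
  obtain ⟨k, h, w, hw⟩ := sGenV (Pt n) (ip g p) (n - 1) (e4 (R4 g) p) (Rv g p) hA u v
  refine qd_act l1 l2 l3 l4 w (fun i j => Rv g p (h i) (h j)) _ hw a b c d fun i j => ?_
  rw [sRc4 n g U hg p hp, hM, hM, sub_self]

end Pool.Agent.Lib.MP_9d59e9_gt.KS
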