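import Pool.Agent.Lib.MP_9d59e9_gt.KS.SpecO

/-!
# MP_9d59e9_gt, project KS, module Qf: the quadratic form
-/

set_option autoImplicit false

namespace Pool.Agent.Lib.MP_9d59e9_gt.KS

open scoped BigOperators ContDiff
open Set KO KO3

noncomputable section

private theorem Qf_sub {V : Type} (l : List V) : ∀ (m : List V) (F G : List V → ℝ),
    dS (fun l' => F l' - G l') l m = dS F l m - dS G l m := by
  induction l with
  | nil =>
    intro m F G
    simp only [dS, sub_self]
  | cons a l ih =>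
    intro m F G
    cases m with
    | nil => simp only [dS, sub_self]
    | cons b m =>
      simp only [dS]
      rw [ih m (fun l' => F (a :: l')) (fun l' => G (a :: l'))]
      ring

private theorem Qf_sumc {V : Type} {n : ℕ} (f : Fin n → V) (k : ℕ) : ∀ F G : List V → ℝ,
    (∀ l : List V, l.length = k → F l = G l) → sumL f k F = sumL f k G := by
  induction k with
  | zero => intro F G h; exact h [] rfl
  | succ k ih =>
    intro F G h
    simp only [sumL]
    refine Finset.sum_congr rfl fun i _ => ih _ _ fun l hl => h _ ?_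
    rw [List.length_cons, hl]

theorem tQf (h1 : S_La) (h2 : S_Ad) (h3 : S_Sb) (h4 : S_Sr) (h5 : S_Tq) : S_Qf := by
  intro n g Ω τ hn hK x hx f hf u v hu hv c d
  have hg : IsMetricOn g Ω := hK.met
  obtain ⟨-, hIP, -⟩ := sOnb n g x (hg.pos x hx)
  obtain ⟨cR, hop, -, -⟩ := sSym n g Ω hg x hx
  -- the operators are skew
  have rsk : ∀ u v a b : Pt n, ip g x (Rv g x u v a) b = -ip g x a (Rv g x u v b) := by
    intro u v a b
    rw [hop, hIP.symm a, hop, cR.a34]
  obtain ⟨a1, a2, -⟩ := h2 (Pt n) n f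
  obtain ⟨b1, -, -⟩ := a2 (ip g x) hIP hf
  obtain ⟨-, -, -, -, -, -, -, c8, -⟩ := h1 (Pt n)
  have mF : ∀ m, 4 ≤ m → MlL (S g x) m := (h3 n g x).1.2
  obtain ⟨Z, hZ⟩ : ∃ Z : Pt n → Pt n → List (Pt n) → ℝ,
    Z = fun u v l => S g x (u :: v :: l) - S g x (v :: u :: l) := ⟨_, rfl⟩
  have hZ' : ∀ u v l, Z u v l = S g x (u :: v :: l) - S g x (v :: u :: l) := fun u v l => by
    rw [hZ]
  have mZ : ∀ u v, MlL (Z u v) 4 := by
    intro u v l₁ l₂ hl
    have g1 := (c8 (fun l => S g x (u :: l)) 4 ((c8 (S g x) 5 (mF _ (by omega))).1 u)).1 v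
      l₁ l₂ hl
    have g2 := (c8 (fun l => S g x (v :: l)) 4 ((c8 (S g x) 5 (mF _ (by omega))).1 v)).1 u
      l₁ l₂ hl
    refine ⟨fun a b => ?_, fun r a => ?_⟩
    · rw [hZ', hZ', hZ']
      have e1 := g1.add a b
      have e2 := g2.add a b
      linarith
    · rw [hZ', hZ']
      have e1 : S g x (u :: v :: (l₁ ++ r • a :: l₂)) = r * S g x (u :: v :: (l₁ ++ a :: l₂)) :=
        g1.smul r a
      have e2 : S g x (v :: u :: (l₁ ++ r • a :: l₂)) = r * S g x (v :: u :: (l₁ ++ a :: l₂)) :=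
        g2.smul r a
      rw [e1, e2]
      ring
  have hZR : ∀ u v l, l.length = 4 → Z u v l = -dS (S g x) l (l.map (Rv g x u v)) := by
    intro u v l hl
    rw [hZ']
    exact h4 n g Ω hg x hx u v l (by omega)
  -- the inner products `⟨Z(a,b), F⟩` vanish
  have hb : ∀ a b, sumL f 4 (fun l => Z a b l * S g x l) = 0 := by
    intro a b
    have g1 := b1 4 (S g x) (S g x) (mF 4 (le_refl 4)) (mF 4 (le_refl 4)) (Rv g x a b) (rsk a b)
    have g2 : sumL f 4 (fun l => dS (S g x) l (l.map (Rv g x a b)) * S g x l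
        + S g x l * dS (S g x) l (l.map (Rv g x a b)))
        = sumL f 4 (fun l => (-2) * (Z a b l * S g x l) + 0 * S g x l) := by
      refine Qf_sumc f 4 _ _ fun l hl => ?_
      rw [hZR a b l hl]
      ring
    rw [g2, a1 4 (fun l => Z a b l * S g x l) (S g x) (-2) 0] at g1
    linarith
  -- the pairing of `dS (Z(c,d))` with `F`
  have hp : sumL f 4 (fun l => dS (Z c d) l (l.map (Rv g x u v)) * S g x l)
      = sumL f 4 (fun l => Z c d l * Z u v l) := by
    have g1 := b1 4 (Z c d) (S g x) (mZ c d) (mF 4 (le_refl 4)) (Rv g x u v) (rsk u v)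
    have g2 : sumL f 4 (fun l => dS (Z c d) l (l.map (Rv g x u v)) * S g x l
        + Z c d l * dS (S g x) l (l.map (Rv g x u v)))
        = sumL f 4 (fun l => 1 * (dS (Z c d) l (l.map (Rv g x u v)) * S g x l)
          + (-1) * (Z c d l * Z u v l)) := by
      refine Qf_sumc f 4 _ _ fun l hl => ?_
      rw [hZR u v l hl]
      ring
    rw [g2, a1 4 (fun l => dS (Z c d) l (l.map (Rv g x u v)) * S g x l)
      (fun l => Z c d l * Z u v l) 1 (-1)] at g1
    linarith
  -- the identity on lists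
  have hid : ∀ l : List (Pt n), l.length = 4 →
      dS (Z c d) l (l.map (Rv g x u v)) = (e2 (τ 2) x u v - e2 (τ 2) x v u) * Z c d l
        + (e3 (τ 3) x u v c - e3 (τ 3) x v u c) * S g x (d :: l)
        - (e3 (τ 3) x u v d - e3 (τ 3) x v u d) * S g x (c :: l)
        - Z (Rv g x u v c) d l - Z c (Rv g x u v d) l := by
    intro l hl
    have g1 := h5 n g Ω τ hn hK x hx u v hu hv c (d :: l) (by rw [List.length_cons, hl])
    have g2 := h5 n g Ω τ hn hK x hx u v hu hv d (c :: l) (by rw [List.length_cons, hl])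
    simp only [List.map_cons, dS] at g1 g2
    have g3 : dS (Z c d) l (l.map (Rv g x u v)) =
        dS (fun l' => S g x (c :: d :: l')) l (l.map (Rv g x u v))
        - dS (fun l' => S g x (d :: c :: l')) l (l.map (Rv g x u v)) := by
      rw [← Qf_sub, hZ]
    rw [g3, hZ', hZ', hZ']
    linarith
  have hs : sumL f 4 (fun l => Z c d l * Z u v l)
      = (e3 (τ 3) x u v c - e3 (τ 3) x v u c) * sumL f 4 (fun l => S g x (d :: l) * S g x l)
        - (e3 (τ 3) x u v d - e3 (τ 3) x v u d) * sumL f 4 (fun l => S g x (c :: l) * S g x l) := by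
    rw [← hp]
    have g1 : sumL f 4 (fun l => dS (Z c d) l (l.map (Rv g x u v)) * S g x l)
        = sumL f 4 (fun l =>
          (e3 (τ 3) x u v c - e3 (τ 3) x v u c) * (S g x (d :: l) * S g x l)
          + 1 * ((-(e3 (τ 3) x u v d - e3 (τ 3) x v u d)) * (S g x (c :: l) * S g x l)
          + 1 * ((e2 (τ 2) x u v - e2 (τ 2) x v u) * (Z c d l * S g x l)
          + 1 * ((-1) * (Z (Rv g x u v c) d l * S g x l)
            + (-1) * (Z c (Rv g x u v d) l * S g x l))))) := by
      refine Qf_sumc f 4 _ _ fun l hl => ?_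
      rw [hid l hl]
      ring
    rw [g1, a1 4 (fun l => S g x (d :: l) * S g x l), a1 4 (fun l => S g x (c :: l) * S g x l),
      a1 4 (fun l => Z c d l * S g x l), a1 4 (fun l => Z (Rv g x u v c) d l * S g x l),
      hb, hb, hb]
    ring
  -- the values on the frame
  have hv4 : ∀ a b e₁ e₂ e₃ e₄ : Pt n, Z a b [e₁, e₂, e₃, e₄]
      = act4 (Rv g x a b) (e4 (R4 g) x) e₁ e₂ e₃ e₄ := by
    intro a b e₁ e₂ e₃ e₄
    rw [hZ', (h3 n g x).2.1.2.2.1, (h3 n g x).2.1.2.2.1, sRc4 n g Ω hg x hx]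
  have q1 : sumL f 4 (fun l => Z c d l * Z u v l) = ∑ i, ∑ j, ∑ k, ∑ l,
      act4 (Rv g x c d) (e4 (R4 g) x) (f i) (f j) (f k) (f l)
        * act4 (Rv g x u v) (e4 (R4 g) x) (f i) (f j) (f k) (f l) := by
    simp only [sumL]
    refine Finset.sum_congr rfl fun i _ => Finset.sum_congr rfl fun j _ =>
      Finset.sum_congr rfl fun k _ => Finset.sum_congr rfl fun l _ => ?_
    rw [hv4, hv4]
  have q2 : ∀ a : Pt n, sumL f 4 (fun l => S g x (a :: l) * S g x l) = ∑ i, ∑ j, ∑ k, ∑ l,
      e5 (N g) x a (f i) (f j) (f k) (f l) * e4 (R4 g) x (f i) (f j) (f k) (f l) := by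
    intro a
    simp only [sumL]
    refine Finset.sum_congr rfl fun i _ => Finset.sum_congr rfl fun j _ =>
      Finset.sum_congr rfl fun k _ => Finset.sum_congr rfl fun l _ => ?_
    rw [(h3 n g x).2.1.2.1, (h3 n g x).2.1.1]
  rw [← q1, ← q2, ← q2]
  exact hs

end

end Pool.Agent.Lib.MP_9d59e9_gt.KS
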