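import Pool.Agent.Lib.MP_9d59e9_gt.KS.SpecO

/-! KS, module `Qz`: `R(u,v).R = 0` on the kernel of `t¹`, order four. -/

set_option autoImplicit false

namespace Pool.Agent.Lib.MP_9d59e9_gt.KS

open scoped BigOperators ContDiff
open Set KO KO3

noncomputable section

section
variable {V : Type} [AddCommGroup V] [Module ℝ V] {B : V → V → ℝ}

private theorem Qz_zero {f : V → ℝ} (hf : Lin1 f) : f 0 = 0 := by
  have h := hf.smul 0 0
  simpa using h

private theorem Qz_sum {ι : Type} (s : Finset ι) {f : V → ℝ} (hf : Lin1 f) (g : ι → V) :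
    f (∑ i ∈ s, g i) = ∑ i ∈ s, f (g i) := by
  classical
  induction s using Finset.induction_on with
  | empty => simpa using Qz_zero hf
  | insert a s ha ih => rw [Finset.sum_insert ha, Finset.sum_insert ha, hf.add, ih]

private theorem Qz_exp {n : ℕ} {f : Fin n → V} (hf : Fr B f) {φ : V → ℝ} (hφ : Lin1 φ)
    (h : ∀ i, φ (f i) = 0) (v : V) : φ v = 0 := by
  rw [hf.ex v, Qz_sum _ hφ]
  refine Finset.sum_eq_zero fun i _ => ?_
  rw [hφ.smul, h i, mul_zero]

private theorem Qz_ext (h : IP B) {u w : V} (huw : ∀ z, B u z = B w z) : u = w := by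
  by_contra hne
  have h1 : u - w ≠ 0 := sub_ne_zero.2 hne
  have h2 := h.pos _ h1
  have h3 : B (u - w) (u - w) = B u (u - w) - B w (u - w) := by
    have h4 := (h.lin (u - w)).add (u - w) w
    rw [sub_add_cancel] at h4
    linarith
  rw [h3, huw, sub_self] at h2
  exact lt_irrefl _ h2

private theorem Qz_l2 {R : V → V → V → V → ℝ} (hR : Crvt R) (a c d : V) :
    Lin1 fun b => R a b c d :=
  ⟨fun x y => by
    have h1 := hR.a12 (x + y) a c d
    have h2 := hR.a12 x a c d
    have h3 := hR.a12 y a c d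
    have h4 := (hR.lin a c d).add x y
    show R a (x + y) c d = R a x c d + R a y c d
    linarith,
  fun r x => by
    have h1 := hR.a12 (r • x) a c d
    have h2 := hR.a12 x a c d
    have h4 := (hR.lin a c d).smul r x
    show R a (r • x) c d = r * R a x c d
    rw [h1, h4, h2]
    ring⟩

private theorem Qz_l3 {R : V → V → V → V → ℝ} (hR : Crvt R) (a b d : V) :
    Lin1 fun c => R a b c d :=
  ⟨fun x y => by
    show R a b (x + y) d = R a b x d + R a b y d
    rw [← hR.sw a b (x + y) d, ← hR.sw a b x d, ← hR.sw a b y d]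
    exact (hR.lin d a b).add x y,
  fun r x => by
    show R a b (r • x) d = r * R a b x d
    rw [← hR.sw a b (r • x) d, ← hR.sw a b x d]
    exact (hR.lin d a b).smul r x⟩

private theorem Qz_l4 {R : V → V → V → V → ℝ} (hR : Crvt R) (a b c : V) :
    Lin1 fun d => R a b c d :=
  ⟨fun x y => by
    show R a b c (x + y) = R a b c x + R a b c y
    rw [← hR.sw a b c (x + y), ← hR.sw a b c x, ← hR.sw a b c y]
    exact (Qz_l2 hR c a b).add x y,
  fun r x => by
    show R a b c (r • x) = r * R a b c x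
    rw [← hR.sw a b c (r • x), ← hR.sw a b c x]
    exact (Qz_l2 hR c a b).smul r x⟩

/-- `act4 Φ R` vanishes if it vanishes on frame vectors -/
private theorem Qz_act {R : V → V → V → V → ℝ} (hR : Crvt R) {Φ : V → V} (hΦ : LinE Φ) {n : ℕ}
    {f : Fin n → V} (hf : Fr B f)
    (h : ∀ i j k l, act4 Φ R (f i) (f j) (f k) (f l) = 0) (a b c d : V) :
    act4 Φ R a b c d = 0 := by
  have s1 : ∀ b c d, Lin1 fun a => act4 Φ R a b c d := by
    intro b c d
    refine ⟨fun x y => ?_, fun r x => ?_⟩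
    · have e1 := (hR.lin b c d).add (Φ x) (Φ y)
      have e2 := (hR.lin (Φ b) c d).add x y
      have e3 := (hR.lin b (Φ c) d).add x y
      have e4 := (hR.lin b c (Φ d)).add x y
      unfold act4
      rw [hΦ.add, e1, e2, e3, e4]
      ring
    · have e1 := (hR.lin b c d).smul r (Φ x)
      have e2 := (hR.lin (Φ b) c d).smul r x
      have e3 := (hR.lin b (Φ c) d).smul r x
      have e4 := (hR.lin b c (Φ d)).smul r x
      unfold act4
      rw [hΦ.smul, e1, e2, e3, e4]
      ring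
  have s2 : ∀ a c d, Lin1 fun b => act4 Φ R a b c d := by
    intro a c d
    refine ⟨fun x y => ?_, fun r x => ?_⟩
    · have e1 := (Qz_l2 hR (Φ a) c d).add x y
      have e2 := (Qz_l2 hR a c d).add (Φ x) (Φ y)
      have e3 := (Qz_l2 hR a (Φ c) d).add x y
      have e4 := (Qz_l2 hR a c (Φ d)).add x y
      unfold act4
      rw [hΦ.add, e1, e2, e3, e4]
      ring
    · have e1 := (Qz_l2 hR (Φ a) c d).smul r x
      have e2 := (Qz_l2 hR a c d).smul r (Φ x)
      have e3 := (Qz_l2 hR a (Φ c) d).smul r x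
      have e4 := (Qz_l2 hR a c (Φ d)).smul r x
      unfold act4
      rw [hΦ.smul, e1, e2, e3, e4]
      ring
  have s3 : ∀ a b d, Lin1 fun c => act4 Φ R a b c d := by
    intro a b d
    refine ⟨fun x y => ?_, fun r x => ?_⟩
    · have e1 := (Qz_l3 hR (Φ a) b d).add x y
      have e2 := (Qz_l3 hR a (Φ b) d).add x y
      have e3 := (Qz_l3 hR a b d).add (Φ x) (Φ y)
      have e4 := (Qz_l3 hR a b (Φ d)).add x y
      unfold act4
      rw [hΦ.add, e1, e2, e3, e4]
      ring
    · have e1 := (Qz_l3 hR (Φ a) b d).smul r x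
      have e2 := (Qz_l3 hR a (Φ b) d).smul r x
      have e3 := (Qz_l3 hR a b d).smul r (Φ x)
      have e4 := (Qz_l3 hR a b (Φ d)).smul r x
      unfold act4
      rw [hΦ.smul, e1, e2, e3, e4]
      ring
  have s4 : ∀ a b c, Lin1 fun d => act4 Φ R a b c d := by
    intro a b c
    refine ⟨fun x y => ?_, fun r x => ?_⟩
    · have e1 := (Qz_l4 hR (Φ a) b c).add x y
      have e2 := (Qz_l4 hR a (Φ b) c).add x y
      have e3 := (Qz_l4 hR a b (Φ c)).add x y
      have e4 := (Qz_l4 hR a b c).add (Φ x) (Φ y)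
      unfold act4
      rw [hΦ.add, e1, e2, e3, e4]
      ring
    · have e1 := (Qz_l4 hR (Φ a) b c).smul r x
      have e2 := (Qz_l4 hR a (Φ b) c).smul r x
      have e3 := (Qz_l4 hR a b (Φ c)).smul r x
      have e4 := (Qz_l4 hR a b c).smul r (Φ x)
      unfold act4
      rw [hΦ.smul, e1, e2, e3, e4]
      ring
  have t1 : ∀ a j k l, act4 Φ R a (f j) (f k) (f l) = 0 := fun a j k l =>
    Qz_exp hf (s1 (f j) (f k) (f l)) (fun i => h i j k l) a
  have t2 : ∀ a b k l, act4 Φ R a b (f k) (f l) = 0 := fun a b k l =>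
    Qz_exp hf (s2 a (f k) (f l)) (fun j => t1 a j k l) b
  have t3 : ∀ a b c l, act4 Φ R a b c (f l) = 0 := fun a b c l =>
    Qz_exp hf (s3 a b (f l)) (fun k => t2 a b k l) c
  exact Qz_exp hf (s4 a b c) (fun l => t3 a b c l) d

/-- a sum of squares -/
private theorem Qz_sq {n : ℕ} (F : Fin n → Fin n → Fin n → Fin n → ℝ)
    (h : ∑ i, ∑ j, ∑ k, ∑ l, F i j k l * F i j k l = 0) (i j k l : Fin n) : F i j k l = 0 := by
  have p4 : ∀ i j k, 0 ≤ ∑ l, F i j k l * F i j k l := fun i j k =>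
    Finset.sum_nonneg fun l _ => mul_self_nonneg _
  have p3 : ∀ i j, 0 ≤ ∑ k, ∑ l, F i j k l * F i j k l := fun i j =>
    Finset.sum_nonneg fun k _ => p4 i j k
  have p2 : ∀ i, 0 ≤ ∑ j, ∑ k, ∑ l, F i j k l * F i j k l := fun i =>
    Finset.sum_nonneg fun j _ => p3 i j
  have h1 := (Finset.sum_eq_zero_iff_of_nonneg fun i _ => p2 i).1 h i (Finset.mem_univ i)
  have h2 := (Finset.sum_eq_zero_iff_of_nonneg fun j _ => p3 i j).1 h1 j (Finset.mem_univ j)
  have h3 := (Finset.sum_eq_zero_iff_of_nonneg fun k _ => p4 i j k).1 h2 k (Finset.mem_univ k)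
  have h4 := (Finset.sum_eq_zero_iff_of_nonneg fun l _ => mul_self_nonneg (F i j k l)).1 h3 l
    (Finset.mem_univ l)
  exact mul_self_eq_zero.1 h4

/-- the kernel of a linear form -/
private theorem Qz_ker (h : IP B) {τ : V → ℝ} (hτ : Lin1 τ) :
    ∃ e, (B e e = 1 ∨ e = 0) ∧ ∀ v, τ v = 0 ↔ B e v = 0 := by
  obtain ⟨T, hT⟩ := h.riesz τ hτ
  rcases eq_or_ne T 0 with rfl | hT0
  · exact ⟨0, Or.inr rfl, fun v => by rw [hT v]⟩
  · have hp := h.pos T hT0
    have hs0 : Real.sqrt (B T T) ≠ 0 := (Real.sqrt_pos.mpr hp).ne'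
    have hss : Real.sqrt (B T T) * Real.sqrt (B T T) = B T T := Real.mul_self_sqrt hp.le
    have sl : ∀ (r : ℝ) (a b : V), B (r • a) b = r * B a b := fun r a b => (h.lin b).smul r a
    have sr : ∀ (r : ℝ) (a b : V), B a (r • b) = r * B a b := fun r a b => by
      rw [h.symm a (r • b), sl, h.symm b a]
    refine ⟨(Real.sqrt (B T T))⁻¹ • T, Or.inl ?_, fun v => ?_⟩
    · rw [sl, sr]
      calc (Real.sqrt (B T T))⁻¹ * ((Real.sqrt (B T T))⁻¹ * B T T)
          = (Real.sqrt (B T T))⁻¹ * ((Real.sqrt (B T T))⁻¹ *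
            (Real.sqrt (B T T) * Real.sqrt (B T T))) := by rw [hss]
        _ = 1 := by field_simp
    · rw [sl, hT v, mul_eq_zero]
      constructor
      · exact fun h => Or.inr h
      · rintro (h | h)
        · exact absurd (inv_eq_zero.1 h) hs0
        · exact h

/-- the algebraic statement -/
private theorem Qz_alg (hH : S_H3) (hNf : S_NfR) {m n : ℕ} {R : V → V → V → V → ℝ}
    {Ro : V → V → V → V} (hA : Alg B m R Ro) (hm : 4 ≤ m) {N : V → V → V → V → V → ℝ}
    (hN : Dcrv N) (hN0 : ∃ z a b c d, N z a b c d ≠ 0) {t1 : V → ℝ} (ht1 : Lin1 t1)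
    {t3 : V → V → V → ℝ} (ht3 : ∀ a b, Lin1 (t3 a b))
    (hW : ∀ a b y z c d p q, WW (t3 a b) N y z c d p q = 0) {f : Fin n → V} (hf : Fr B f)
    (hQ : ∀ u v, t1 u = 0 → t1 v = 0 → ∀ c d,
      ∑ i, ∑ j, ∑ k, ∑ l, act4 (Ro c d) R (f i) (f j) (f k) (f l)
          * act4 (Ro u v) R (f i) (f j) (f k) (f l)
        = (t3 u v c - t3 v u c)
            * (∑ i, ∑ j, ∑ k, ∑ l, N d (f i) (f j) (f k) (f l) * R (f i) (f j) (f k) (f l))
          - (t3 u v d - t3 v u d)
            * ∑ i, ∑ j, ∑ k, ∑ l, N c (f i) (f j) (f k) (f l) * R (f i) (f j) (f k) (f l)) :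
    ∀ u v, t1 u = 0 → t1 v = 0 → ∀ a b c d, act4 (Ro u v) R a b c d = 0 := by
  have hip := hA.eu.ip
  have hcR := hA.cR
  have hop := hA.op
  -- linearity of the operators
  have hlin : ∀ u v, LinE (Ro u v) := by
    intro u v
    refine ⟨fun a b => Qz_ext hip fun z => ?_, fun r a => Qz_ext hip fun z => ?_⟩
    · have e1 := (hip.lin z).add (Ro u v a) (Ro u v b)
      have e2 := (Qz_l3 hcR u v z).add a b
      rw [hop, e1, e2, hop, hop]
    · have e1 := (hip.lin z).smul r (Ro u v a)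
      have e2 := (Qz_l3 hcR u v z).smul r a
      rw [hop, e1, e2, hop]
  -- a vanishing square
  have hz : ∀ u v, ∑ i, ∑ j, ∑ k, ∑ l, act4 (Ro u v) R (f i) (f j) (f k) (f l)
      * act4 (Ro u v) R (f i) (f j) (f k) (f l) = 0 → ∀ a b c d, act4 (Ro u v) R a b c d = 0 :=
    fun u v h => Qz_act hcR (hlin u v) hf
      (Qz_sq (fun i j k l => act4 (Ro u v) R (f i) (f j) (f k) (f l)) h)
  by_cases h3 : ∀ a b w, t3 a b w = 0
  · intro u v hu hv
    refine hz u v ?_
    rw [hQ u v hu hv u v, h3, h3, h3, h3]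
    ring
  · push Not at h3
    obtain ⟨a₀, b₀, w₀, hw₀⟩ := h3
    -- all forms are multiples of one
    have hmul : ∀ a b w, t3 a b w = t3 a b w₀ / t3 a₀ b₀ w₀ * t3 a₀ b₀ w := by
      intro a b w
      by_contra hne
      obtain ⟨z, x1, x2, x3, x4, hx⟩ := hN0
      refine hx (KO3.sTwo V N hN (t3 a₀ b₀) (t3 a b) (ht3 a₀ b₀) (ht3 a b) (hW a₀ b₀) (hW a b)
        ⟨w₀, w, ?_⟩ z x1 x2 x3 x4)
      intro heq
      refine hne ?_
      field_simp
      linarith
    -- the form `ψ`
    have hψ : Lin1 fun d => ∑ i, ∑ j, ∑ k, ∑ l, N d (f i) (f j) (f k) (f l)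
        * R (f i) (f j) (f k) (f l) := by
      refine ⟨fun a b => ?_, fun r a => ?_⟩
      · simp only [← Finset.sum_add_distrib]
        refine Finset.sum_congr rfl fun i _ => Finset.sum_congr rfl fun j _ =>
          Finset.sum_congr rfl fun k _ => Finset.sum_congr rfl fun l _ => ?_
        have e := (hN.lin (f i) (f j) (f k) (f l)).add a b
        rw [e]
        ring
      · simp only [Finset.mul_sum]
        refine Finset.sum_congr rfl fun i _ => Finset.sum_congr rfl fun j _ =>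
          Finset.sum_congr rfl fun k _ => Finset.sum_congr rfl fun l _ => ?_
        have e := (hN.lin (f i) (f j) (f k) (f l)).smul r a
        rw [e]
        ring
    obtain ⟨e, he, hker⟩ := Qz_ker hip ht1
    obtain ⟨p, hp⟩ := hip.riesz _ (ht3 a₀ b₀)
    obtain ⟨q, hq⟩ := hip.riesz _ hψ
    obtain ⟨g1, g2⟩ := hH V B m R Ro hA hm e p q he (by
      intro x y hex hpx hqx hey
      refine hz x y ?_
      have e1 := hp x
      have e2 := hq x
      rw [hpx] at e1
      rw [hqx] at e2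
      rw [hQ x y ((hker x).2 hex) ((hker y).2 hey) x y, hmul x y x, hmul y x x, ← e1, ← e2]
      ring)
    have hα : ∃ α : ℝ, ∀ u v, B e u = 0 → B e v = 0 → ∀ a b, R u v a b = α * G0 B u v a b := by
      rcases he with he | he
      · obtain ⟨α, β, hαβ⟩ := hNf V B m R hA.eu hA.two hcR e he g2 g1
        refine ⟨α, fun u v hu hv a b => ?_⟩
        rw [hαβ]
        simp only [KN, hu, hv]
        ring
      · subst he
        have h0 : ∀ u, B 0 u = 0 := fun u => Qz_zero (f := fun a => B a u) (hip.lin u)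
        obtain ⟨κ, hκ⟩ := KO3.sCIn.2 V B m R hA.eu (by omega) hcR
          (fun u v => g1 u v (h0 u) (h0 v))
        exact ⟨κ, fun u v _ _ a b => hκ u v a b⟩
    obtain ⟨α, hα⟩ := hα
    intro u v hu hv a b c d
    have hu' := (hker u).1 hu
    have hv' := (hker v).1 hv
    have hRo : ∀ a, Ro u v a = α • wd B u v a := by
      intro a
      refine Qz_ext hip fun z => ?_
      have e1 := (hip.lin z).smul α (wd B u v a)
      rw [hop, hα u v hu' hv' a z, e1]
      unfold wd G0
      have e2 := (hip.lin z).add (B v a • u) (-(B u a • v))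
      have e3 := (hip.lin z).smul (B v a) u
      have e4 := (hip.lin z).smul (-(B u a)) v
      rw [← neg_smul] at e2
      have e5 : B v a • u - B u a • v = B v a • u + -(B u a) • v := by
        rw [neg_smul, sub_eq_add_neg]
      rw [e5, e2, e3, e4]
      ring
    have key := g1 u v hu' hv' a b c d
    unfold act4 at key ⊢
    have f1 := (hcR.lin b c d).smul α (wd B u v a)
    have f2 := (Qz_l2 hcR a c d).smul α (wd B u v b)
    have f3 := (Qz_l3 hcR a b d).smul α (wd B u v c)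
    have f4 := (Qz_l4 hcR a b c).smul α (wd B u v d)
    rw [hRo a, hRo b, hRo c, hRo d, f1, f2, f3, f4]
    linear_combination α * key

end

theorem tQz (h1 : S_Wt) (h2 : S_Qf) (h3 : S_H3) (h4 : S_NfR) : S_Qz := by
  intro n g Ω τ hn hK x hx hN0
  have hcR := (KO.sSym n g Ω hK.met x hx).1
  have hop := (KO.sSym n g Ω hK.met x hx).2.1
  have hAlg : Alg (ip g x) (n - 1) (e4 (R4 g) x) (Rv g x) :=
    ⟨KO3.sFrm n (n - 1) g x (by omega) (hK.met.pos x hx), by omega, hcR, hop, hK.ns x hx⟩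
  obtain ⟨f, hf1, hf2⟩ := (KO.sOnb n g x (hK.met.pos x hx)).1
  have hf : Fr (ip g x) f := ⟨hf1, hf2⟩
  have hL := KO.sLin n x
  exact Qz_alg h3 h4 hAlg (by omega) (KO.sBi2 n g Ω hK.met x hx) hN0 (hL.2.2.2.1 (τ 1))
    ((hL.2.2.2.2.2.1 (τ 3)).1)
    (fun a b => h1 n g Ω τ (by omega) hK x hx a b) hf
    (fun u v hu hv c d => h2 n g Ω τ (by omega) hK x hx f hf u v hu hv c d)

end

end Pool.Agent.Lib.MP_9d59e9_gt.KS
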