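import Pool.Agent.Lib.MP_9d59e9_gt.KS.SpecO

/-!
# MP_9d59e9_gt, project KS, module Tq: the Ricci identity in the first two slots, order four
-/

set_option autoImplicit false

namespace Pool.Agent.Lib.MP_9d59e9_gt.KS

open scoped BigOperators ContDiff
open KO KO3

theorem tTq (h1 : S_Sb) (h2 : S_Sr) (h3 : S_Tr) : S_Tq := by
  intro n g Ω τ hn hk x hx u v hu hv c l hl
  obtain ⟨-, -, ⟨b1, b2, b3⟩, -⟩ := h1 n g x
  have key : ∀ a b : Pt n, e1 (τ 1) x a = 0 → S g x (a :: b :: c :: l) +
      (e2 (τ 2) x a b * S g x (c :: l) + e3 (τ 3) x a b c * S g x l) = 0 := by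
    intro a b ha
    have e := hk.ks x hx (a :: b :: c :: l) (by simp [hl])
    have e4 : el (τ 4) x ((a :: b :: c :: l).take 4) = 0 :=
      h3 n g Ω 4 τ hn (by norm_num) hk x hx _ (by simp [hl])
    have hI : Finset.Icc 1 4 = ({1, 2, 3, 4} : Finset ℕ) := by decide
    rw [hI, Finset.sum_insert (by decide), Finset.sum_insert (by decide),
      Finset.sum_insert (by decide), Finset.sum_singleton, e4] at e
    have t1 : (a :: b :: c :: l).take 1 = [a] := rfl
    have t2 : (a :: b :: c :: l).take 2 = [a, b] := rfl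
    have t3 : (a :: b :: c :: l).take 3 = [a, b, c] := rfl
    have d2 : (a :: b :: c :: l).drop 2 = c :: l := rfl
    have d3 : (a :: b :: c :: l).drop 3 = l := rfl
    rw [t1, t2, t3, d2, d3, b1, b2, b3, ha] at e
    linarith
  have k1 := key u v hu
  have k2 := key v u hv
  have r := h2 n g Ω hk.met x hx u v (c :: l) (by simp [hl])
  linarith

end Pool.Agent.Lib.MP_9d59e9_gt.KS
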