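import Pool.Agent.Lib.MP_9d59e9_gt.KS.SpecO

/-!
# MP_9d59e9_gt, project KS, module Wg: Walker's identity for all derivatives
-/

set_option autoImplicit false

namespace Pool.Agent.Lib.MP_9d59e9_gt.KS

open scoped BigOperators ContDiff
open Set KO KO3

noncomputable section

private theorem Wg_ind {n : ℕ} {g : Pt n → Matrix (Fin n) (Fin n) ℝ} {Ω : Set (Pt n)}
    (hg : IsMetricOn g Ω) (h2 : S_Sd) {r q : ℕ} (c : Fin r → ℝ) (idx : Fin r → List (Fin q))
    (h4 : ∀ i, 4 ≤ (idx i).length)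
    (h0 : ∀ x ∈ Ω, ∀ u : Fin q → Pt n, ∑ i, c i * S g x ((idx i).map u) = 0) :
    ∀ (m : ℕ) (w : List (Pt n)), w.length = m → ∀ x ∈ Ω, ∀ u : Fin q → Pt n,
      ∑ i, c i * S g x (w ++ (idx i).map u) = 0 := by
  intro m
  induction m with
  | zero =>
    intro w hw x hx u
    rw [List.length_eq_zero_iff] at hw
    subst hw
    exact h0 x hx u
  | succ m ih =>
    intro w hw p hp u
    obtain ⟨X, w', rfl⟩ : ∃ X w', w = X :: w' := by
      cases w with
      | nil => simp at hw
      | cons X w' => exact ⟨X, w', rfl⟩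
    have hw' : w'.length = m := by simpa using hw
    have hd : ∀ i, HasDerivAt
        (fun t : ℝ => S g (p + t • X) ((w' ++ (idx i).map u).map fun v => v - t • Chr g p X v))
        (S g p (X :: (w' ++ (idx i).map u))) 0 := by
      intro i
      refine (h2 n g Ω hg p hp X).2 _ ?_
      rw [List.length_append, List.length_map]
      exact (h4 i).trans (Nat.le_add_left _ _)
    have hs : HasDerivAt (fun t : ℝ => ∑ i, c i *
        S g (p + t • X) ((w' ++ (idx i).map u).map fun v => v - t • Chr g p X v))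
        (∑ i, c i * S g p (X :: (w' ++ (idx i).map u))) 0 :=
      HasDerivAt.fun_sum fun i _ => (hd i).const_mul (c i)
    have hc : ContinuousAt (fun t : ℝ => p + t • X) 0 := by fun_prop
    have he : ∀ᶠ t : ℝ in nhds 0, p + t • X ∈ Ω := by
      refine hc.eventually_mem ?_
      rw [zero_smul, add_zero]
      exact hg.isOpen.mem_nhds hp
    have hz : HasDerivAt (fun _ : ℝ => (0 : ℝ))
        (∑ i, c i * S g p (X :: (w' ++ (idx i).map u))) 0 := by
      refine hs.congr_of_eventuallyEq ?_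
      filter_upwards [he] with t ht
      have h := ih (w'.map fun v => v - t • Chr g p X v) (by rw [List.length_map, hw'])
        (p + t • X) ht (fun i => u i - t • Chr g p X (u i))
      rw [← h]
      refine Finset.sum_congr rfl fun i _ => ?_
      rw [List.map_append, List.map_map]
      rfl
    exact hz.unique (hasDerivAt_const (0 : ℝ) (0 : ℝ))

theorem tWg (h1 : S_Sb) (h2 : S_Sd) : S_Wg := by
  intro n g Ω hg x hx w y z c d p q
  have h := Wg_ind hg h2 (r := 6) (q := 6) ![1, -1, 1, -1, 1, -1]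
    ![[0, 1, 2, 3, 4, 5], [1, 0, 2, 3, 4, 5], [2, 3, 4, 5, 0, 1], [3, 2, 4, 5, 0, 1],
      [4, 5, 0, 1, 2, 3], [5, 4, 0, 1, 2, 3]]
    (by
      intro i
      fin_cases i
      all_goals exact (by decide : 4 ≤ 6))
    (by
      intro y hy u
      have s6 : ∀ (a b c d e f : Pt n), S g y [a, b, c, d, e, f] = e6 (N2 g) y a b c d e f :=
        (h1 n g y).2.1.2.2.1
      rw [Fin.sum_univ_six]
      change 1 * S g y [u 0, u 1, u 2, u 3, u 4, u 5]
        + -1 * S g y [u 1, u 0, u 2, u 3, u 4, u 5]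
        + 1 * S g y [u 2, u 3, u 4, u 5, u 0, u 1]
        + -1 * S g y [u 3, u 2, u 4, u 5, u 0, u 1]
        + 1 * S g y [u 4, u 5, u 0, u 1, u 2, u 3]
        + -1 * S g y [u 5, u 4, u 0, u 1, u 2, u 3] = 0
      rw [s6, s6, s6, s6, s6, s6]
      have hW := sWkr (Pt n) (ip g y) (e4 (R4 g) y) (Rv g y)
        (sOnb n g y (hg.pos y hy)).2.1 (sSym n g Ω hg y hy).1 (sSym n g Ω hg y hy).2.1
        (u 0) (u 1) (u 2) (u 3) (u 4) (u 5)
      rw [sRc4 n g Ω hg y hy, sRc4 n g Ω hg y hy, sRc4 n g Ω hg y hy] at hW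
      linarith) w.length w rfl x hx ![y, z, c, d, p, q]
  rw [Fin.sum_univ_six] at h
  change 1 * S g x (w ++ [y, z, c, d, p, q])
    + -1 * S g x (w ++ [z, y, c, d, p, q])
    + 1 * S g x (w ++ [c, d, p, q, y, z])
    + -1 * S g x (w ++ [d, c, p, q, y, z])
    + 1 * S g x (w ++ [p, q, y, z, c, d])
    + -1 * S g x (w ++ [q, p, y, z, c, d]) = 0 at h
  linarith

end

end Pool.Agent.Lib.MP_9d59e9_gt.KS
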