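import Pool.Agent.Lib.MP_9d59e9_gt.KS.SpecO

/-!
# MP_9d59e9_gt, project KS, module `Wt`: the Walker type identity for `t³`
-/

set_option autoImplicit false

namespace Pool.Agent.Lib.MP_9d59e9_gt.KS

open scoped BigOperators ContDiff
open Set KO KO3

noncomputable section

/-- the equation on a list of eight vectors -/
private theorem wt_key (h1 : S_Sb) (h2 : S_Tr) {n : ℕ} {g : Pt n → Matrix (Fin n) (Fin n) ℝ}
    {Ω : Set (Pt n)} {τ : (m : ℕ) → TF n m} (hn : 3 ≤ n) (hK : KSr g Ω 4 τ) {x : Pt n} (hx : x ∈ Ω)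
    (a b y z c d p q : Pt n) :
    S g x [a, b, y, z, c, d, p, q] = -(e1 (τ 1) x a * S g x [b, y, z, c, d, p, q]
      + e2 (τ 2) x a b * S g x [y, z, c, d, p, q] + e3 (τ 3) x a b y * e5 (N g) x z c d p q) := by
  obtain ⟨-, ⟨-, hN, -, -⟩, ⟨he1, he2, he3⟩, -, -⟩ := h1 n g x
  have h := hK.ks x hx [a, b, y, z, c, d, p, q] rfl
  have h4 : el (τ 4) x [a, b, y, z] = 0 := h2 n g Ω 4 τ hn (by norm_num) hK x hx [a, b, y, z] rfl
  have hI : Finset.Icc 1 4 = ({1, 2, 3, 4} : Finset ℕ) := rfl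
  rw [hI, Finset.sum_insert (by decide), Finset.sum_insert (by decide),
    Finset.sum_insert (by decide), Finset.sum_singleton] at h
  change S g x [a, b, y, z, c, d, p, q] + (el (τ 1) x [a] * S g x [b, y, z, c, d, p, q]
    + (el (τ 2) x [a, b] * S g x [y, z, c, d, p, q]
      + (el (τ 3) x [a, b, y] * S g x [z, c, d, p, q]
        + el (τ 4) x [a, b, y, z] * S g x [c, d, p, q]))) = 0 at h
  rw [he1, he2, he3, h4, hN] at h
  linear_combination h

theorem tWt (h1 : S_Sb) (h2 : S_Tr) (h3 : S_Wg) : S_Wt := by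
  intro n g Ω τ hn hK x hx a b y z c d p q
  have w2 := h3 n g Ω hK.met x hx [a, b] y z c d p q
  have w1 := h3 n g Ω hK.met x hx [b] y z c d p q
  have w0 := h3 n g Ω hK.met x hx [] y z c d p q
  change (S g x [a, b, y, z, c, d, p, q] - S g x [a, b, z, y, c, d, p, q])
    + (S g x [a, b, c, d, p, q, y, z] - S g x [a, b, d, c, p, q, y, z])
    + (S g x [a, b, p, q, y, z, c, d] - S g x [a, b, q, p, y, z, c, d]) = 0 at w2
  change (S g x [b, y, z, c, d, p, q] - S g x [b, z, y, c, d, p, q])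
    + (S g x [b, c, d, p, q, y, z] - S g x [b, d, c, p, q, y, z])
    + (S g x [b, p, q, y, z, c, d] - S g x [b, q, p, y, z, c, d]) = 0 at w1
  change (S g x [y, z, c, d, p, q] - S g x [z, y, c, d, p, q])
    + (S g x [c, d, p, q, y, z] - S g x [d, c, p, q, y, z])
    + (S g x [p, q, y, z, c, d] - S g x [q, p, y, z, c, d]) = 0 at w0
  rw [wt_key h1 h2 hn hK hx a b y z c d p q, wt_key h1 h2 hn hK hx a b z y c d p q,
    wt_key h1 h2 hn hK hx a b c d p q y z, wt_key h1 h2 hn hK hx a b d c p q y z,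
    wt_key h1 h2 hn hK hx a b p q y z c d, wt_key h1 h2 hn hK hx a b q p y z c d] at w2
  unfold WW
  linear_combination -w2 - e1 (τ 1) x a * w1 - e2 (τ 2) x a b * w0

end

end Pool.Agent.Lib.MP_9d59e9_gt.KS
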