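import Pool.Agent.Lib.MP_9d59e9_gt.KS.All
import Pool.Agent.Lib.MP_9d59e9_gt.KS.Cd
import Pool.Agent.Lib.MP_9d59e9_gt.KS.Kp
import Pool.Agent.Lib.MP_9d59e9_gt.KS.Oc
import Pool.Agent.Lib.MP_9d59e9_gt.KS.Pr3
import Pool.Agent.Lib.MP_9d59e9_gt.KS.Oa
import Pool.Agent.Lib.MP_9d59e9_gt.KS.Ob
import Pool.Agent.Lib.MP_9d59e9_gt.KS.Nz
import Pool.Agent.Lib.MP_9d59e9_gt.KS.CT
import Pool.Agent.Lib.MP_9d59e9_gt.KS.NfN
import Pool.Agent.Lib.MP_9d59e9_gt.KS.Wa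
import Pool.Agent.Lib.MP_9d59e9_gt.KS.Oq
import Pool.Agent.Lib.MP_9d59e9_gt.KS.Qd
import Pool.Agent.Lib.MP_9d59e9_gt.KS.PO1
import Pool.Agent.Lib.MP_9d59e9_gt.KS.PO
import Pool.Agent.Lib.MP_9d59e9_gt.KS.Ho
import Pool.Agent.Lib.MP_9d59e9_gt.KS.EnS
import Pool.Agent.Lib.MP_9d59e9_gt.KS.Wg
import Pool.Agent.Lib.MP_9d59e9_gt.KS.Wt
import Pool.Agent.Lib.MP_9d59e9_gt.KS.Tq
import Pool.Agent.Lib.MP_9d59e9_gt.KS.Qf
import Pool.Agent.Lib.MP_9d59e9_gt.KS.H1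
import Pool.Agent.Lib.MP_9d59e9_gt.KS.H2
import Pool.Agent.Lib.MP_9d59e9_gt.KS.H3
import Pool.Agent.Lib.MP_9d59e9_gt.KS.Qz
import Pool.Agent.Lib.MP_9d59e9_gt.KS.Hy
import Pool.Agent.Lib.MP_9d59e9_gt.KS.PF
import Pool.Agent.Lib.MP_9d59e9_gt.KS.EnF

/-!
# MP_9d59e9_gt, project KS: assembly, second part
-/

set_option autoImplicit false

namespace Pool.Agent.Lib.MP_9d59e9_gt.KS

open scoped BigOperators ContDiff
open KO KO3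

theorem sCd : S_Cd := tCd
theorem sKp : S_Kp := tKp sLa sSb
theorem sOc : S_Oc := tOc sLa sSb sSr
theorem sPr3 : S_Pr3 := tPr3
theorem sOa : S_Oa := tOa sCd
theorem sOb : S_Ob := tOb
theorem sNz : S_Nz := tNz sPr3
theorem sCT : S_CT := tCT
theorem sNfN : S_NfN := tNfN sNz sCT
theorem sWa : S_Wa := tWa
theorem sOq : S_Oq := tOq
theorem sQd : S_Qd := tQd sOq
theorem sPO1 : S_PO1 := tPO1 sLa sSb sDs sKc sTo sKp sOc sOa sOb sNz sNfN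
theorem sPO : S_PO := tPO sPO1 sQd sWa
theorem sHo : S_Ho := tHo sNn
theorem sEnS : S_EnS := tEnS sBt sBr3 sPO sHo sTh sEnE
theorem sWg : S_Wg := tWg sSb sSd
theorem sWt : S_Wt := tWt sSb sTr sWg
theorem sTq : S_Tq := tTq sSb sSr sTr
theorem sQf : S_Qf := tQf sLa sAd sSb sSr sTq
theorem sH1 : S_H1 := tH1 sPr3 sIj
theorem sH2 : S_H2 := tH2 sPr3 sIj
theorem sH3 : S_H3 := tH3 sPr3 sH1 sH2
theorem sQz : S_Qz := tQz sWt sQf sH3 sNfR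
theorem sHy : S_Hy := tHy sCd
theorem sPF : S_PF := tPF sLa sAd sSb sKc sEa sNfR sKp sWt sTq sQz sHy
theorem sEnF : S_EnF := tEnF sBt sPF sHe sTh

/-- the statement of the hand-in SymmetricCoefficients -/
theorem sFinS {n r : ℕ} (hn : 4 ≤ n) (hr : 4 ≤ r) (g : Pt n → Matrix (Fin n) (Fin n) ℝ)
    (Ω : Set (Pt n)) (hg : IsMetricOn g Ω) (hΩ : IsPreconnected Ω)
    (t : ℕ → List (Fin n) → Pt n → ℝ) (ht : ∀ m l, ContDiffOn ℝ ∞ (t m l) Ω)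
    (hKS : ∀ x ∈ Ω, KSAt g r (fun m l => t m l x) x)
    (hs : ∀ x ∈ Ω, ∀ m, 3 ≤ m → m < r → SymKer (fun m l => t m l x) m)
    (p : Pt n) (hp : p ∈ Ω) (hns : NonSing g p) :
    ∀ x ∈ Ω, ∀ a c b m q, nablaR g 1 a [c, b, m, q] x = 0 :=
  tCnn hg hΩ (fun q hq hnq => sEnS n g Ω r hn hr hg t ht hKS hs q hq hnq) hp hns

/-- the statement of the hand-in OrderFour -/
theorem sFinF {n : ℕ} (hn : 5 ≤ n) (g : Pt n → Matrix (Fin n) (Fin n) ℝ)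
    (Ω : Set (Pt n)) (hg : IsMetricOn g Ω) (hΩ : IsPreconnected Ω)
    (t : ℕ → List (Fin n) → Pt n → ℝ) (ht : ∀ m l, ContDiffOn ℝ ∞ (t m l) Ω)
    (hKS : ∀ x ∈ Ω, KSAt g 4 (fun m l => t m l x) x)
    (p : Pt n) (hp : p ∈ Ω) (hns : NonSing g p) :
    ∀ x ∈ Ω, ∀ a c b m q, nablaR g 1 a [c, b, m, q] x = 0 :=
  tCnn hg hΩ (fun q hq hnq => sEnF n g Ω hn hg t ht hKS q hq hnq) hp hns

end Pool.Agent.Lib.MP_9d59e9_gt.KS
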