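import Pool.Agent.Lib.MP_9d59e9_gt.KS.Spec

/-!
# MP_9d59e9_gt, project KS: Br1 (components of `∇^j R` in the two formalisms)
-/

set_option autoImplicit false

namespace Pool.Agent.Lib.MP_9d59e9_gt.KS

open scoped BigOperators ContDiff
open Set KO KO3

noncomputable section

private lemma br1Sw {n : ℕ} (A B : Fin n → ℝ) (C : Fin n → Fin n → ℝ) :
    ∑ e, A e * ∑ s, B s * C e s = ∑ s, B s * ∑ e, A e * C e s := by
  simp only [Finset.mul_sum]
  rw [Finset.sum_comm]
  refine Finset.sum_congr rfl fun s _ => Finset.sum_congr rfl fun e _ => ?_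
  ring

private lemma br1Pd {n : ℕ} {Ω : Set (Pt n)} (hO : IsOpen Ω) {f : Pt n → ℝ}
    (hf : ContDiffOn ℝ ∞ f Ω) (i : Fin n) : ContDiffOn ℝ ∞ (pd i f) Ω := by
  have h := hf.fderiv_of_isOpen hO (m := ∞) (by simp)
  exact h.clm_apply contDiffOn_const

private lemma br1Diff {n : ℕ} {Ω : Set (Pt n)} (hO : IsOpen Ω) {f : Pt n → ℝ}
    (hf : ContDiffOn ℝ ∞ f Ω) {x : Pt n} (hx : x ∈ Ω) : DifferentiableAt ℝ f x :=
  (hf.contDiffAt (hO.mem_nhds hx)).differentiableAt (by simp)

/-- covariant derivative of a lowered vector -/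
private lemma br1Low {n : ℕ} {g : Pt n → Matrix (Fin n) (Fin n) ℝ} {Ω : Set (Pt n)}
    (hg : IsMetricOn g Ω) {x : Pt n} (hx : x ∈ Ω) (F : Fin n → Pt n → ℝ)
    (hF : ∀ e, DifferentiableAt ℝ (F e) x) (c d : Fin n) :
    pd c (fun y => ∑ e, g y e d * F e y) x
      = ∑ e, g x e d * (pd c (F e) x + ∑ s, Gam g e c s x * F s x)
        + ∑ s, Gam g s c d x * ∑ e, g x e s * F e x := by
  have hgd : ∀ e, DifferentiableAt ℝ (fun y => g y e d) x := fun e =>
    br1Diff hg.isOpen (hg.smooth e d) hx
  have h1 : pd c (fun y => ∑ e, g y e d * F e y) x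
      = ∑ e, (pd c (fun y => g y e d) x * F e x + g x e d * pd c (F e) x) := by
    unfold pd
    have hs : fderiv ℝ (fun y => ∑ e, g y e d * F e y) x
        = ∑ e, fderiv ℝ (fun y => g y e d * F e y) x :=
      fderiv_fun_sum fun e _ => (hgd e).mul (hF e)
    rw [hs, ContinuousLinearMap.sum_apply]
    refine Finset.sum_congr rfl fun e _ => ?_
    have hm : fderiv ℝ (fun y => g y e d * F e y) x
        = g x e d • fderiv ℝ (F e) x + F e x • fderiv ℝ (fun y => g y e d) x :=
      fderiv_fun_mul (hgd e) (hF e)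
    rw [hm]
    simp only [ContinuousLinearMap.add_apply, ContinuousLinearMap.smul_apply, smul_eq_mul]
    ring
  have hme := (KO.sMet n g Ω hg x hx).2.2.2.2
  rw [h1]
  have h2 : ∀ e, pd c (fun y => g y e d) x * F e x + g x e d * pd c (F e) x
      = g x e d * pd c (F e) x + (F e x * ∑ s, Gam g s c e x * g x s d)
        + F e x * ∑ s, Gam g s c d x * g x e s := by
    intro e
    rw [hme c e d]
    ring
  rw [Finset.sum_congr rfl fun e _ => h2 e]
  rw [Finset.sum_add_distrib, Finset.sum_add_distrib]
  have h3 : ∑ e, F e x * ∑ s, Gam g s c e x * g x s d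
      = ∑ e, g x e d * ∑ s, Gam g e c s x * F s x := by
    simp only [Finset.mul_sum]
    rw [Finset.sum_comm]
    refine Finset.sum_congr rfl fun s _ => Finset.sum_congr rfl fun e _ => ?_
    ring
  have h4 : ∑ e, F e x * ∑ s, Gam g s c d x * g x e s
      = ∑ s, Gam g s c d x * ∑ e, g x e s * F e x := by
    rw [br1Sw]
    refine Finset.sum_congr rfl fun s _ => ?_
    congr 1
    refine Finset.sum_congr rfl fun e _ => ?_
    ring
  rw [h3, h4, ← Finset.sum_add_distrib]
  congr 1
  refine Finset.sum_congr rfl fun e _ => ?_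
  ring

/-! ### sums over the entries of a list -/

/-- the sum over the entries of the list -/
private def sl {n : ℕ} (G : Fin n → Fin n → ℝ) : (List (Fin n) → ℝ) → List (Fin n) → ℝ
  | _, [] => 0
  | φ, a :: l => ∑ s, G s a * φ (s :: l) + sl G (fun l' => φ (a :: l')) l

private lemma sl_eq {n : ℕ} (G : Fin n → Fin n → ℝ) (l : List (Fin n)) :
    ∀ φ : List (Fin n) → ℝ,
      ∑ k : Fin l.length, ∑ s, G s (l.get k) * φ (l.set k s) = sl G φ l := by
  induction l with
  | nil =>
    intro φ
    rfl
  | cons a l ih =>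
    intro φ
    have h := Fin.sum_univ_succ (fun k : Fin (l.length + 1) =>
      ∑ s, G s ((a :: l).get k) * φ ((a :: l).set k s))
    change (∑ k : Fin (l.length + 1), ∑ s, G s ((a :: l).get k) * φ ((a :: l).set k s)) = _
    rw [h]
    have h2 := ih fun l' => φ (a :: l')
    unfold sl
    rw [← h2]
    rfl

private lemma sl_append {n : ℕ} (G : Fin n → Fin n → ℝ) (l₁ l₂ : List (Fin n)) :
    ∀ φ : List (Fin n) → ℝ, sl G φ (l₁ ++ l₂)
      = sl G (fun l => φ (l ++ l₂)) l₁ + sl G (fun l => φ (l₁ ++ l)) l₂ := by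
  induction l₁ with
  | nil =>
    intro φ
    simp [sl]
  | cons a l ih =>
    intro φ
    have h := ih fun l' => φ (a :: l')
    simp only [List.cons_append, sl]
    rw [h]
    ring

private lemma sl_congr {n : ℕ} (G : Fin n → Fin n → ℝ) (l : List (Fin n)) :
    ∀ φ ψ : List (Fin n) → ℝ, (∀ l' : List (Fin n), l'.length = l.length → φ l' = ψ l') →
      sl G φ l = sl G ψ l := by
  induction l with
  | nil =>
    intro φ ψ _
    rfl
  | cons a l ih =>
    intro φ ψ h
    simp only [sl]
    rw [ih (fun l' => φ (a :: l')) (fun l' => ψ (a :: l')) fun l' hl' => h _ (by simp [hl'])]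
    congr 1
    exact Finset.sum_congr rfl fun s _ => by rw [h _ (by simp)]

private lemma sl_sum {n : ℕ} (G : Fin n → Fin n → ℝ) (w : Fin n → ℝ) (l : List (Fin n)) :
    ∀ φ : Fin n → List (Fin n) → ℝ,
      sl G (fun l' => ∑ e, w e * φ e l') l = ∑ e, w e * sl G (φ e) l := by
  induction l with
  | nil =>
    intro φ
    simp [sl]
  | cons a l ih =>
    intro φ
    simp only [sl]
    rw [ih fun e l' => φ e (a :: l')]
    simp only [mul_add, Finset.sum_add_distrib]
    rw [br1Sw w (fun s => G s a) fun e s => φ e (s :: l)]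

private lemma sl_four {n : ℕ} (G : Fin n → Fin n → ℝ) (φ : List (Fin n) → ℝ) (m p b d : Fin n) :
    sl G φ [m, p, b, d] = ∑ s, G s m * φ [s, p, b, d] + (∑ s, G s p * φ [m, s, b, d]
      + (∑ s, G s b * φ [m, p, s, d] + ∑ s, G s d * φ [m, p, b, s])) := by
  simp only [sl, add_zero]

private lemma sl_three {n : ℕ} (G : Fin n → Fin n → ℝ) (φ : List (Fin n) → ℝ) (b m p : Fin n) :
    sl G φ [b, m, p] = ∑ s, G s b * φ [s, m, p] + (∑ s, G s m * φ [b, s, p]
      + ∑ s, G s p * φ [b, m, s]) := by
  simp only [sl, add_zero]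

/-! ### components on lists -/

/-- the component of `T` on a list of length `K` -/
private def tl {n K : ℕ} (T : (Fin K → Fin n) → ℝ) (l : List (Fin n)) : ℝ :=
  if h : l.length = K then T (fun i => l.get (Fin.cast h.symm i)) else 0

private lemma tl_eq {n K : ℕ} (T : (Fin K → Fin n) → ℝ) (l : List (Fin n)) (h : l.length = K) :
    tl T l = T (fun i => l.get (Fin.cast h.symm i)) := dif_pos h

private lemma tl_sum {n K : ℕ} (G : Fin n → Fin n → ℝ) (T : (Fin K → Fin n) → ℝ)
    (l : List (Fin n)) (h : l.length = K) :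
    ∑ k : Fin K, ∑ s, G s (l.get (Fin.cast h.symm k))
      * T (Function.update (fun i => l.get (Fin.cast h.symm i)) k s) = sl G (tl T) l := by
  subst h
  rw [← sl_eq]
  refine Finset.sum_congr rfl fun k _ => Finset.sum_congr rfl fun s _ => ?_
  have hl : (l.set k s).length = l.length := List.length_set
  rw [tl_eq T (l.set k s) hl]
  have h2 : (Function.update (fun i => l.get (Fin.cast rfl i)) k s)
      = fun i => (l.set k s).get (Fin.cast hl.symm i) := by
    funext i
    by_cases hik : i = k
    · subst hik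
      simp
    · rw [Function.update_of_ne hik]
      have hne : (k : ℕ) ≠ i := fun h => hik (Fin.ext h.symm)
      simp [List.getElem_set, hne]
  rw [h2]
  rfl

private lemma tl_D {n K : ℕ} (g : Pt n → Matrix (Fin n) (Fin n) ℝ) (T : TF n K) (i₀ : Fin n)
    (l : List (Fin n)) (h : l.length = K) (x : Pt n) :
    tl (fun I => D g T I x) (i₀ :: l)
      = pd i₀ (fun y => tl (fun I => T I y) l) x
        - sl (fun s a => Gam g s i₀ a x) (tl fun I => T I x) l := by
  have h' : (i₀ :: l).length = K + 1 := by rw [List.length_cons, h]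
  rw [tl_eq _ _ h', ← tl_sum _ _ l h]
  have h3 : (fun y => tl (fun I => T I y) l) = T (fun i => l.get (Fin.cast h.symm i)) := by
    funext y
    exact tl_eq _ _ h
  rw [h3]
  rfl

/-! ### smoothness -/

private lemma br1Sm {n : ℕ} {g : Pt n → Matrix (Fin n) (Fin n) ℝ} {Ω : Set (Pt n)}
    (hg : IsMetricOn g Ω) (j : ℕ) : ∀ (a : Fin n) (l : List (Fin n)),
      ContDiffOn ℝ ∞ (nablaR g j a l) Ω := by
  obtain ⟨_, hG, hC, _⟩ := KO.sSmo n g Ω hg
  induction j with
  | zero =>
    intro a l
    have h0 : ContDiffOn ℝ ∞ (fun _ : Pt n => (0 : ℝ)) Ω := contDiffOn_const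
    match l with
    | [] => exact h0
    | [_] => exact h0
    | [_, _] => exact h0
    | [b, m, p] => exact hC a b m p
    | _ :: _ :: _ :: _ :: _ => exact h0
  | succ j ih =>
    intro a l
    match l with
    | [] =>
      have h0 : ContDiffOn ℝ ∞ (fun _ : Pt n => (0 : ℝ)) Ω := contDiffOn_const
      exact h0
    | c :: l =>
      have h : nablaR g (j + 1) a (c :: l) = fun x => pd c (nablaR g j a l) x
          + ∑ s, Gam g a c s x * nablaR g j s l x
          - ∑ k : Fin l.length, ∑ s, Gam g s c (l.get k) x * nablaR g j a (l.set k s) x := rfl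
      rw [h]
      refine ContDiffOn.sub (ContDiffOn.add (br1Pd hg.isOpen (ih a l) c) ?_) ?_
      · exact ContDiffOn.sum fun s _ => (hG a c s).mul (ih s l)
      · exact ContDiffOn.sum fun k _ => ContDiffOn.sum fun s _ =>
          (hG s c (l.get k)).mul (ih a (l.set k s))

/-! ### the main induction -/

private lemma br1Main {n : ℕ} {g : Pt n → Matrix (Fin n) (Fin n) ℝ} {Ω : Set (Pt n)}
    (hg : IsMetricOn g Ω) (j : ℕ) : ∀ x ∈ Ω, ∀ c : List (Fin n), c.length = j →
      ∀ m p b d : Fin n, tl (fun I => SJ g j I x) (c ++ [m, p, b, d])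
        = ∑ e, g x e d * nablaR g j e (c ++ [b, m, p]) x := by
  induction j with
  | zero =>
    intro x _ c hc m p b d
    have hc0 : c = [] := List.length_eq_zero_iff.1 hc
    subst hc0
    have h : ([] ++ [m, p, b, d] : List (Fin n)).length = 4 + 0 := rfl
    rw [tl_eq _ _ h]
    rfl
  | succ j ih =>
    intro x hx c hc m p b d
    match c, hc with
    | i₀ :: c, hc =>
      have hc' : c.length = j := by simpa using hc
      have hlen : (c ++ [m, p, b, d]).length = 4 + j := by simp [hc']; omega
      have hD := tl_D g (SJ g j) i₀ (c ++ [m, p, b, d]) hlen x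
      change tl (fun I => D g (SJ g j) I x) (i₀ :: (c ++ [m, p, b, d])) = _
      rw [hD]
      -- the derivative
      have hpd : pd i₀ (fun y => tl (fun I => SJ g j I y) (c ++ [m, p, b, d])) x
          = pd i₀ (fun y => ∑ e, g y e d * nablaR g j e (c ++ [b, m, p]) y) x := by
        unfold pd
        have he : (fun y => tl (fun I => SJ g j I y) (c ++ [m, p, b, d])) =ᶠ[nhds x]
            fun y => ∑ e, g y e d * nablaR g j e (c ++ [b, m, p]) y := by
          filter_upwards [hg.isOpen.mem_nhds hx] with y hy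
          exact ih y hy c hc' m p b d
        rw [he.fderiv_eq]
      rw [hpd, br1Low hg hx (fun e => nablaR g j e (c ++ [b, m, p]))
        (fun e => br1Diff hg.isOpen (br1Sm hg j e _) hx) i₀ d]
      set G : Fin n → Fin n → ℝ := fun s a => Gam g s i₀ a x with hG
      -- the sums over the slots
      rw [sl_append, sl_four]
      have hc1 : sl G (fun l => tl (fun I => SJ g j I x) (l ++ [m, p, b, d])) c
          = ∑ e, g x e d * sl G (fun l => nablaR g j e (l ++ [b, m, p]) x) c := by
        rw [← sl_sum]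
        exact sl_congr G c _ _ fun l' hl' => ih x hx l' (hl'.trans hc') m p b d
      rw [hc1]
      simp only [ih x hx c hc']
      have hcov : ∀ e, nablaR g (j + 1) e (i₀ :: (c ++ [b, m, p])) x
          = pd i₀ (nablaR g j e (c ++ [b, m, p])) x
            + ∑ s, Gam g e i₀ s x * nablaR g j s (c ++ [b, m, p]) x
            - (sl G (fun l => nablaR g j e (l ++ [b, m, p]) x) c
              + (∑ s, G s b * nablaR g j e (c ++ [s, m, p]) x
                + (∑ s, G s m * nablaR g j e (c ++ [b, s, p]) x
                + ∑ s, G s p * nablaR g j e (c ++ [b, m, s]) x))) := by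
        intro e
        rw [← sl_three G (fun l => nablaR g j e (c ++ l) x) b m p,
          ← sl_append G c [b, m, p] fun l => nablaR g j e l x, ← sl_eq]
        rfl
      change _ = ∑ e, g x e d * nablaR g (j + 1) e (i₀ :: (c ++ [b, m, p])) x
      simp only [hcov]
      have q1 := br1Sw (fun e => g x e d) (fun s => G s m)
        (fun e s => nablaR g j e (c ++ [b, s, p]) x)
      have q2 := br1Sw (fun e => g x e d) (fun s => G s p)
        (fun e s => nablaR g j e (c ++ [b, m, s]) x)
      have q3 := br1Sw (fun e => g x e d) (fun s => G s b)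
        (fun e s => nablaR g j e (c ++ [s, m, p]) x)
      simp only [mul_sub, mul_add, Finset.sum_sub_distrib, Finset.sum_add_distrib]
      linarith

private lemma br1S {n : ℕ} (g : Pt n → Matrix (Fin n) (Fin n) ℝ) (x : Pt n) (L : List (Fin n))
    (j : ℕ) (h : L.length = 4 + j) :
    S g x (L.map fun i => bv i) = tl (fun I => SJ g j I x) L := by
  have h1 : (L.map fun i => (bv i : Pt n)).length - 4 = j := by
    rw [List.length_map, h]
    omega
  have h2 : S g x (L.map fun i => bv i) = el (SJ g j) x (L.map fun i => bv i) := by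
    unfold S
    rw [h1]
  rw [h2, tl_eq _ _ h]
  unfold el
  rw [← (KO.sLin n x).2.1 (4 + j) (SJ g j)]
  congr 1
  funext i
  have hi : (i : ℕ) < L.length := by rw [h]; exact i.2
  rw [List.getD_eq_getElem _ _ (by rw [List.length_map]; exact hi)]
  simp

theorem tBr1 : S_Br1 := by
  intro n g Ω hg x hx c m p b d
  rw [br1S g x (c ++ [m, p, b, d]) c.length (by simp; omega)]
  exact br1Main hg c.length x hx c rfl m p b d

end

end Pool.Agent.Lib.MP_9d59e9_gt.KS
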