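import Pool.Agent.Lib.MP_9d59e9_gt.KO3.All

/-!
# MP_9d59e9_gt, project KS: definitions

The definitions of the projects KO and KO3 are used (`KO/Defs.lean`, `KO3/Defs.lean`).

First part: the only new definition of the final statement.  Second part: lists of vectors as arguments
of `∇^j R`.  Third part: the geometric data.  Fourth part: functions of one variable along the unit
vector field.
-/

set_option autoImplicit false

namespace Pool.Agent.Lib.MP_9d59e9_gt.KS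

open scoped BigOperators ContDiff
open KO KO3

noncomputable section

/-! ## part 1: definition of the final statement -/

/-- the tensor `t m` (components indexed by lists of length `m`) is symmetric in its first two slots
on the kernel of the 1-form `t 1` -/
def SymKer {n : ℕ} (t : ℕ → List (Fin n) → ℝ) (m : ℕ) : Prop :=
  ∀ u v : Pt n, ∑ i, t 1 [i] * u i = 0 → ∑ i, t 1 [i] * v i = 0 →
    ∀ l : List (Fin n), l.length + 2 = m →
      ∑ i, ∑ j, t m (i :: j :: l) * (u i * v j - v i * u j) = 0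

/-! ## part 2: lists of vectors -/

/-- derivation sum `∑ᵢ F(l with lᵢ replaced by mᵢ)` -/
def dS {V : Type} : (List V → ℝ) → List V → List V → ℝ
  | F, a :: l, b :: m => F (b :: l) + dS (fun l' => F (a :: l')) l m
  | _, _, _ => 0

/-- `F` is multilinear on lists of length `k` -/
def MlL {V : Type} [AddCommGroup V] [Module ℝ V] (F : List V → ℝ) (k : ℕ) : Prop :=
  ∀ l₁ l₂ : List V, l₁.length + l₂.length + 1 = k → Lin1 fun a => F (l₁ ++ a :: l₂)

/-- sum of the values of `F` on all lists of length `k` with entries from the family `f` -/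
def sumL {V : Type} {n : ℕ} (f : Fin n → V) : ℕ → (List V → ℝ) → ℝ
  | 0, F => F []
  | k + 1, F => ∑ i, sumL f k fun l => F (f i :: l)

/-- `∇^j R` as a covariant tensor field of rank `4 + j`; the derivative slots come first -/
def SJ {n : ℕ} (g : Pt n → Matrix (Fin n) (Fin n) ℝ) : (j : ℕ) → TF n (4 + j)
  | 0 => R4 g
  | j + 1 => D g (SJ g j)

/-- evaluation on the vectors of a list -/
def el {n k : ℕ} (T : TF n k) (x : Pt n) (l : List (Pt n)) : ℝ := ev T x fun i => l.getD i 0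

/-- the value of `∇^j R` at `x` on the list `l` of length `4 + j` -/
def S {n : ℕ} (g : Pt n → Matrix (Fin n) (Fin n) ℝ) (x : Pt n) (l : List (Pt n)) : ℝ :=
  el (SJ g (l.length - 4)) x l

/-- the endomorphism `Φ` annihilates `∇^(k-4) R` at `x` -/
def Kl {n : ℕ} (g : Pt n → Matrix (Fin n) (Fin n) ℝ) (x : Pt n) (Φ : Pt n → Pt n) (k : ℕ) : Prop :=
  ∀ l : List (Pt n), l.length = k → dS (S g x) l (l.map Φ) = 0

/-- the coefficient `t m` as a tensor field -/
def tT {n : ℕ} (t : ℕ → List (Fin n) → Pt n → ℝ) (m : ℕ) : TF n m := fun I x => t m (List.ofFn I) x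

/-! ## part 3: the geometric data -/

/-- the data of the theorem in the internal formalism -/
structure KSr {n : ℕ} (g : Pt n → Matrix (Fin n) (Fin n) ℝ) (Ω : Set (Pt n)) (r : ℕ)
    (τ : (m : ℕ) → TF n m) : Prop where
  met : IsMetricOn g Ω
  sm : ∀ m, Sm Ω (τ m)
  ks : ∀ x ∈ Ω, ∀ l : List (Pt n), l.length = r + 4 →
    S g x l + ∑ m ∈ Finset.Icc 1 r, el (τ m) x (l.take m) * S g x (l.drop m) = 0
  ns : ∀ x ∈ Ω, NSi (ip g x) (e4 (R4 g) x)

/-- the symmetry condition on the coefficients -/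
def Sy {n : ℕ} (Ω : Set (Pt n)) (r : ℕ) (τ : (m : ℕ) → TF n m) : Prop :=
  ∀ x ∈ Ω, ∀ m, 3 ≤ m → m < r → ∀ u v, e1 (τ 1) x u = 0 → e1 (τ 1) x v = 0 →
    ∀ l : List (Pt n), l.length + 2 = m → el (τ m) x (u :: v :: l) = el (τ m) x (v :: u :: l)

/-- rotations of the orthogonal complement of `e` annihilate `∇²R` at `x` -/
def InvE {n : ℕ} (g : Pt n → Matrix (Fin n) (Fin n) ℝ) (x e : Pt n) : Prop :=
  ∀ u v, ip g x e u = 0 → ip g x e v = 0 → ∀ a b c d p q,
    act6 (wd (ip g x) u v) (e6 (N2 g) x) a b c d p q = 0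

/-- rotations of the orthogonal complement of `e` annihilate `∇R` at `x` -/
def InvO {n : ℕ} (g : Pt n → Matrix (Fin n) (Fin n) ℝ) (x e : Pt n) : Prop :=
  ∀ u v, ip g x e u = 0 → ip g x e v = 0 → ∀ a b c d p,
    act5 (wd (ip g x) u v) (e5 (N g) x) a b c d p = 0

/-- the pointwise structure at the points with `∇R ≠ 0`; `J` is the invariance property which is
available (`InvE g` or `InvO g`) -/
def PtJ {n : ℕ} (g : Pt n → Matrix (Fin n) (Fin n) ℝ) (Ω : Set (Pt n)) (τ : TF n 1)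
    (J : Pt n → Pt n → Prop) : Prop :=
  ∀ x ∈ Ω, (∃ z a b c d, e5 (N g) x z a b c d ≠ 0) →
    ((∀ v, e1 τ x v = 0) → ∀ u v a b c d, act4 (Rv g x u v) (e4 (R4 g) x) a b c d = 0) ∧
    ∀ (e : Pt n) (s : ℝ), ip g x e e = 1 → s ≠ 0 → (∀ v, e1 τ x v = s * ip g x e v) →
      (∃ α β : ℝ, ∀ a b c d, e4 (R4 g) x a b c d = α * G0 (ip g x) a b c d
        + β * KN (ip g x) (fun p q => ip g x e p * ip g x e q) a b c d) ∧ J x e

/-- `R = α G0 + β KN(θ ⊗ θ)` on `U`, `β ≠ 0` -/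
structure Rot {n : ℕ} (g : Pt n → Matrix (Fin n) (Fin n) ℝ) (U : Set (Pt n)) (θ : TF n 1)
    (α β : Pt n → ℝ) : Prop where
  met : IsMetricOn g U
  un : Unit1 g U θ
  sa : ContDiffOn ℝ ∞ α U
  sb : ContDiffOn ℝ ∞ β U
  nb : ∀ x ∈ U, β x ≠ 0
  ns : ∀ x ∈ U, NSi (ip g x) (e4 (R4 g) x)
  R : ∀ x ∈ U, ∀ a b c d, e4 (R4 g) x a b c d = α x * G0 (ip g x) a b c d
    + β x * KN (ip g x) (fun p q => e1 θ x p * e1 θ x q) a b c d

/-- the final structure on `U` -/
structure Wst {n : ℕ} (g : Pt n → Matrix (Fin n) (Fin n) ℝ) (U : Set (Pt n)) (θ : TF n 1)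
    (α β c : Pt n → ℝ) : Prop where
  rot : Rot g U θ α β
  sc : ContDiffOn ℝ ∞ c U
  dt : ∀ x ∈ U, ∀ u v, e2 (D g θ) x u v = c x * (ip g x u v - e1 θ x u * e1 θ x v)
  da : ∀ x ∈ U, ∀ v, fderiv ℝ α x v = 2 * (c x * β x) * e1 θ x v
  db : ∀ x ∈ U, ∀ v, fderiv ℝ β x v = fderiv ℝ β x (du g θ x) * e1 θ x v
  dc : ∀ x ∈ U, ∀ v, fderiv ℝ c x v = (-(c x ^ 2) - α x - β x) * e1 θ x v

/-! ## part 4: functions along the unit vector field -/

/-- derivative along the vector field `W` -/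
def dV {n : ℕ} (W : Pt n → Pt n) (φ : Pt n → ℝ) : Pt n → ℝ := fun x => fderiv ℝ φ x (W x)

/-- the operator `∂ - k c` -/
def dE {n : ℕ} (W : Pt n → Pt n) (c : Pt n → ℝ) (k : ℝ) (φ : Pt n → ℝ) : Pt n → ℝ := fun x =>
  dV W φ x - k * (c x * φ x)

/-- `X_q = c (∂ - c)^q β` -/
def Xq {n : ℕ} (W : Pt n → Pt n) (c β : Pt n → ℝ) (q : ℕ) : Pt n → ℝ := fun x =>
  c x * ((dE W c 1)^[q] β) x

/-- `A_{p,q} = c (∂ - c)^p (c (∂ - 2c)^q β)` -/
def Apq {n : ℕ} (W : Pt n → Pt n) (c β : Pt n → ℝ) (p q : ℕ) : Pt n → ℝ := fun x =>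
  c x * ((dE W c 1)^[p] (fun y => c y * ((dE W c 2)^[q] β) y)) x

/-- smooth function whose differential is a multiple of `θ` -/
structure Rad {n : ℕ} (g : Pt n → Matrix (Fin n) (Fin n) ℝ) (U : Set (Pt n)) (θ : TF n 1)
    (φ : Pt n → ℝ) : Prop where
  sm : ContDiffOn ℝ ∞ φ U
  d : ∀ x ∈ U, ∀ v, fderiv ℝ φ x v = dV (du g θ) φ x * e1 θ x v

/-- symmetric product `u♭ ⊗ v♭ + v♭ ⊗ u♭` -/
def sy2 {V : Type} (f h : V → ℝ) (a b : V) : ℝ := f a * h b + h a * f b

/-- the word `W^k` followed by `l` -/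
abbrev wk {V : Type} (k : ℕ) (W : V) (l : List V) : List V := List.replicate k W ++ l

end

end Pool.Agent.Lib.MP_9d59e9_gt.KS
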