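import Pool.Agent.Lib.MP_9d59e9_gt.KS.SpecO

/-!
# MP_9d59e9_gt, project KS: algebra of order four, first part (`S_H1`)

Author helper69, after the docstring of `S_H1` (in homogeneous form, without normalisations).
-/

set_option autoImplicit false

namespace Pool.Agent.Lib.MP_9d59e9_gt.KS

open scoped BigOperators
open KO KO3

noncomputable section

section

variable {V : Type} [AddCommGroup V] [Module ℝ V]

/-- a unit vector orthogonal to `k` given vectors, dimension `m + 1 > k` -/
private lemma h1_ex {B : V → V → ℝ} {m : ℕ} (hE : Eu B m) {k : ℕ} (hk : k ≤ m) (v : Fin k → V) :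
    ∃ x, B x x = 1 ∧ ∀ j, B (v j) x = 0 := by
  classical
  have hB := hE.ip
  obtain ⟨e, he⟩ := hE.ex
  obtain ⟨f, hf, -⟩ := hE.fr e he
  let L : (Fin (m + 1) → ℝ) →ₗ[ℝ] (Fin k → ℝ) :=
    { toFun := fun w j => ∑ i, w i * B (f i) (v j)
      map_add' := by
        intro w w'
        funext j
        simp only [Pi.add_apply]
        rw [← Finset.sum_add_distrib]
        refine Finset.sum_congr rfl fun i _ => ?_
        ring
      map_smul' := by
        intro r w
        funext j
        simp only [Pi.smul_apply, smul_eq_mul, RingHom.id_apply]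
        rw [Finset.mul_sum]
        refine Finset.sum_congr rfl fun i _ => ?_
        ring }
  have hL : LinearMap.ker L ≠ ⊥ := by
    apply LinearMap.ker_ne_bot_of_finrank_lt
    rw [Module.finrank_fin_fun, Module.finrank_fin_fun]
    omega
  obtain ⟨w, hw, hw0⟩ := Submodule.exists_mem_ne_zero_of_ne_bot hL
  have hw' : ∀ j, ∑ i, w i * B (f i) (v j) = 0 := fun j => congrFun (LinearMap.mem_ker.1 hw) j
  set x : V := ∑ i, w i • f i with hx
  have hxf : ∀ j, B x (f j) = w j := by
    intro j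
    rw [hx, Sur.lin_sum (hB.lin (f j))]
    simp [hf.on]
  have hx0 : x ≠ 0 := by
    intro h0
    apply hw0
    funext j
    rw [← hxf j, h0, Sur.lin_zero (hB.lin (f j))]
    rfl
  have hpos := hB.pos x hx0
  have hsq : (Real.sqrt (B x x))⁻¹ * ((Real.sqrt (B x x))⁻¹ * B x x) = 1 := by
    have h1 := Real.mul_self_sqrt hpos.le
    have h2 : Real.sqrt (B x x) ≠ 0 := by
      intro h3
      rw [h3] at h1
      linarith
    conv_lhs => rw [← h1]
    rw [Real.sqrt_mul_self (Real.sqrt_nonneg _)]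
    field_simp
  refine ⟨(Real.sqrt (B x x))⁻¹ • x, ?_, ?_⟩
  · rw [(hB.lin _).smul, hB.symm x ((Real.sqrt (B x x))⁻¹ • x), (hB.lin x).smul]
    exact hsq
  · intro j
    rw [hB.symm (v j), (hB.lin (v j)).smul, hx, Sur.lin_sum (hB.lin (v j)), hw' j, mul_zero]

private lemma h1_l2 {R : V → V → V → V → ℝ} (hR : Crvt R) (x z w : V) :
    Lin1 fun y => R x y z w := by
  refine ⟨fun a b => ?_, fun r a => ?_⟩
  · rw [hR.a12 (a + b) x z w, hR.a12 a x z w, hR.a12 b x z w, (hR.lin x z w).add]
    ring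
  · rw [hR.a12 (r • a) x z w, hR.a12 a x z w, (hR.lin x z w).smul]
    ring

private lemma h1_l4 {R : V → V → V → V → ℝ} (hR : Crvt R) (x y z : V) :
    Lin1 fun w => R x y z w := by
  refine ⟨fun a b => ?_, fun r a => ?_⟩
  · rw [hR.a34 x y (a + b) z, hR.a34 x y a z, hR.a34 x y b z, (Sur.lin3 hR x y z).add]
    ring
  · rw [hR.a34 x y (r • a) z, hR.a34 x y a z, (Sur.lin3 hR x y z).smul]
    ring

private lemma h1_self {R : V → V → V → V → ℝ} (hR : Crvt R) (x z w : V) : R x x z w = 0 := by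
  have := hR.a12 x x z w
  linarith

private lemma h1_self' {R : V → V → V → V → ℝ} (hR : Crvt R) (x y z : V) : R x y z z = 0 := by
  have := hR.a34 x y z z
  linarith

/-- step (1) -/
private lemma h1_one (h2 : S_Ij) {B : V → V → ℝ} {m : ℕ} {R : V → V → V → V → ℝ}
    {Ro : V → V → V → V} (hA : Alg B m R Ro) (x y : V)
    (hyp : ∀ a b c d, act4 (Ro x y) R a b c d = 0) (hxy : B x y = 0) :
    (∀ z, B y y * R x y x z = R x y x y * B y z) ∧
      ∀ z, B x x * R x y y z = R x y y x * B x z := by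
  have hB := hA.eu.ip
  have hR := hA.cR
  have hop := hA.op
  have hyx : B y x = 0 := by rw [hB.symm, hxy]
  have key1 : ∀ a, wd B (Ro x y x) y a + wd B x (Ro x y y) a = 0 := by
    intro a
    have h := h2 V B m R hA.eu hR hA.ns 2 ![Ro x y x, x] ![y, Ro x y y] (by
      intro c d
      rw [Fin.sum_univ_two]
      change R (Ro x y x) y c d + R x (Ro x y y) c d = 0
      have e1 := hyp x y c d
      unfold act4 at e1
      have e2 : R x y (Ro x y c) d = -B (Ro x y d) (Ro x y c) := by
        rw [hop, hR.a34 x y d (Ro x y c)]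
      have e3 : R x y c (Ro x y d) = B (Ro x y c) (Ro x y d) := (hop x y c _).symm
      rw [e2, e3, hB.symm (Ro x y d)] at e1
      linarith) a
    rw [Fin.sum_univ_two] at h
    exact h
  have key2 : ∀ a z, B y a * R x y x z - R x y x a * B y z + R x y y a * B x z
      - B x a * R x y y z = 0 := by
    intro a z
    have h := congrArg (fun t => B t z) (key1 a)
    have e1 : ∀ u v : V, B (wd B u v a) z = B v a * B u z - B u a * B v z := by
      intro u v
      have e2 : wd B u v a = B v a • u + (-(B u a)) • v := by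
        rw [wd, neg_smul, sub_eq_add_neg]
      rw [e2, (hB.lin z).add, (hB.lin z).smul, (hB.lin z).smul]
      ring
    have e0 : B 0 z = 0 := Sur.lin_zero (hB.lin z)
    change B (wd B (Ro x y x) y a + wd B x (Ro x y y) a) z = B 0 z at h
    rw [(hB.lin z).add, e1, e1, e0, hop x y x z, hop x y y z, hop x y x a, hop x y y a] at h
    linarith
  refine ⟨fun z => ?_, fun z => ?_⟩
  · have h := key2 y z
    rw [h1_self' hR x y y, hxy] at h
    linarith
  · have h := key2 x z
    rw [h1_self' hR x y x, hyx] at h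
    linarith

end

theorem tH1 (h1 : S_Pr3) (h2 : S_Ij) : S_H1 := by
  intro V _ _ B m R Ro hA hm e p q he hyp
  have hB := hA.eu.ip
  have hR := hA.cR
  -- linear combinations
  have add2 : ∀ a u v, B a (u + v) = B a u + B a v := by
    intro a u v
    rw [hB.symm a, (hB.lin a).add, hB.symm u, hB.symm v]
  have smul2 : ∀ (a : V) (r : ℝ) (u : V), B a (r • u) = r * B a u := by
    intro a r u
    rw [hB.symm a, (hB.lin a).smul, hB.symm u]
  -- (1)
  have o1 : ∀ x y, B e x = 0 → B p x = 0 → B q x = 0 → B e y = 0 → B x y = 0 →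
      (∀ z, B y y * R x y x z = R x y x y * B y z) ∧
        ∀ z, B x x * R x y y z = R x y y x * B x z := fun x y a1 a2 a3 a4 a5 =>
    h1_one h2 hA x y (hyp x y a1 a2 a3 a4) a5
  have o2 : ∀ x y z, B e x = 0 → B p x = 0 → B q x = 0 → B e y = 0 → B x y = 0 → B y z = 0 →
      R x y x z = 0 := by
    intro x y z a1 a2 a3 a4 a5 a6
    by_cases h0 : y = 0
    · rw [h0]
      exact Sur.lin_zero (h1_l2 hR x x z)
    · have h := (o1 x y a1 a2 a3 a4 a5).1 z
      rw [a6, mul_zero] at h
      rcases mul_eq_zero.1 h with h3 | h3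
      · exact absurd h3 (hB.pos y h0).ne'
      · exact h3
  have o3 : ∀ x y z, B e x = 0 → B p x = 0 → B q x = 0 → B e y = 0 → B x y = 0 → B x z = 0 →
      R x y y z = 0 := by
    intro x y z a1 a2 a3 a4 a5 a6
    by_cases h0 : x = 0
    · rw [h0]
      exact Sur.lin_zero (hR.lin y y z)
    · have h := (o1 x y a1 a2 a3 a4 a5).2 z
      rw [a6, mul_zero] at h
      rcases mul_eq_zero.1 h with h3 | h3
      · exact absurd h3 (hB.pos x h0).ne'
      · exact h3
  -- (2) for orthogonal vectors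
  have s1 : ∀ x y y', B e x = 0 → B p x = 0 → B q x = 0 → B e y = 0 → B e y' = 0 → B x y = 0 →
      B x y' = 0 → B y y' = 0 → B y' y' * R x y x y = B y y * R x y' x y' := by
    intro x y y' a1 a2 a3 a4 a5 a6 a7 a8
    have a8' : B y' y = 0 := by rw [hB.symm, a8]
    have b1 : B e (y + y') = 0 := by rw [add2, a4, a5, add_zero]
    have b2 : B x (y + y') = 0 := by rw [add2, a6, a7, add_zero]
    have b3 : B (y + y') (B y' y' • y + (-(B y y)) • y') = 0 := by
      rw [add2, smul2, smul2, (hB.lin y).add, (hB.lin y').add, a8, a8']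
      ring
    have h := o2 x (y + y') (B y' y' • y + (-(B y y)) • y') a1 a2 a3 b1 b2 b3
    rw [(h1_l4 hR x (y + y') x).add, (h1_l4 hR x (y + y') x).smul, (h1_l4 hR x (y + y') x).smul,
      (h1_l2 hR x x y).add, (h1_l2 hR x x y').add, o2 x y' y a1 a2 a3 a5 a7 a8',
      o2 x y y' a1 a2 a3 a4 a6 a8] at h
    linarith
  -- (2) in general
  have s2 : ∀ x y y', B e x = 0 → B p x = 0 → B q x = 0 → B e y = 0 → B e y' = 0 → B x y = 0 →
      B x y' = 0 → B y' y' * R x y x y = B y y * R x y' x y' := by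
    intro x y y' a1 a2 a3 a4 a5 a6 a7
    obtain ⟨w, hw1, hw⟩ := h1_ex hA.eu hm ![e, x, y, y']
    have c1 : B e w = 0 := hw 0
    have c2 : B x w = 0 := hw 1
    have c3 : B y w = 0 := hw 2
    have c4 : B y' w = 0 := hw 3
    have d1 := s1 x y w a1 a2 a3 a4 c1 a6 c2 c3
    have d2 := s1 x y' w a1 a2 a3 a5 c1 a7 c2 c4
    rw [hw1, one_mul] at d1 d2
    rw [d1, d2]
    ring
  -- (3), (4)
  have t1 : ∀ x w y, B e x = 0 → B p x = 0 → B q x = 0 → B e w = 0 → B p w = 0 → B q w = 0 →
      B e y = 0 → B x y = 0 → B w y = 0 → B x w = 0 →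
      B w w * R x y y x = B x x * R w y y w := by
    intro x w y a1 a2 a3 a4 a5 a6 a7 a8 a9 a10
    have a10' : B w x = 0 := by rw [hB.symm, a10]
    have b1 : B e (x + w) = 0 := by rw [add2, a1, a4, add_zero]
    have b2 : B p (x + w) = 0 := by rw [add2, a2, a5, add_zero]
    have b3 : B q (x + w) = 0 := by rw [add2, a3, a6, add_zero]
    have b4 : B (x + w) y = 0 := by rw [(hB.lin y).add, a8, a9, add_zero]
    have b5 : B (x + w) (B w w • x + (-(B x x)) • w) = 0 := by
      rw [add2, smul2, smul2, (hB.lin x).add, (hB.lin w).add, a10, a10']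
      ring
    have h := o3 (x + w) y (B w w • x + (-(B x x)) • w) b1 b2 b3 a7 b4 b5
    rw [(h1_l4 hR (x + w) y y).add, (h1_l4 hR (x + w) y y).smul, (h1_l4 hR (x + w) y y).smul,
      (hR.lin y y x).add, (hR.lin y y w).add, o3 x y w a1 a2 a3 a7 a8 a10,
      o3 w y x a4 a5 a6 a7 a9 a10'] at h
    linarith
  have t2 : ∀ x x' y, B e x = 0 → B p x = 0 → B q x = 0 → B e x' = 0 → B p x' = 0 →
      B q x' = 0 → B e y = 0 → B x y = 0 → B x' y = 0 →
      B x' x' * R x y y x = B x x * R x' y y x' := by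
    intro x x' y a1 a2 a3 a4 a5 a6 a7 a8 a9
    by_cases h0 : x = 0
    · rw [h0, Sur.lin_zero (hR.lin y y 0), Sur.lin_zero (hB.lin 0)]
      ring
    · have hx := (hB.pos x h0).ne'
      set s : ℝ := B x x' / B x x with hs
      set w : V := x' + (-s) • x with hw
      have hx' : x' = s • x + w := by
        rw [hw, neg_smul]
        abel
      have b1 : B e w = 0 := by rw [hw, add2, smul2, a1, a4]; ring
      have b2 : B p w = 0 := by rw [hw, add2, smul2, a2, a5]; ring
      have b3 : B q w = 0 := by rw [hw, add2, smul2, a3, a6]; ring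
      have b4 : B w y = 0 := by
        rw [hw, (hB.lin y).add, (hB.lin y).smul, a8, a9]
        ring
      have b5 : B x w = 0 := by
        rw [hw, add2, smul2, hs]
        field_simp
        ring
      have b5' : B w x = 0 := by rw [hB.symm, b5]
      have h := t1 x w y a1 a2 a3 b1 b2 b3 a7 a8 b4 b5
      have c1 : R x' y y x' = s ^ 2 * R x y y x + R w y y w := by
        rw [hx', (hR.lin y y (s • x + w)).add, (hR.lin y y (s • x + w)).smul,
          (h1_l4 hR x y y).add, (h1_l4 hR x y y).smul, (h1_l4 hR w y y).add,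
          (h1_l4 hR w y y).smul, o3 x y w a1 a2 a3 a7 a8 b5, o3 w y x b1 b2 b3 a7 b4 b5']
        ring
      have c2 : B x' x' = s ^ 2 * B x x + B w w := by
        rw [hx', add2, smul2, (hB.lin x).add, (hB.lin x).smul, (hB.lin w).add, (hB.lin w).smul,
          b5, b5']
        ring
      rw [c1, c2]
      linear_combination h
  -- the constant
  obtain ⟨x₀, hx₀, x0e, x0p, x0q⟩ := h1 V B m hA.eu (by omega) e p q
  obtain ⟨y₀, hy₀, y0e, y0x, -⟩ := h1 V B m hA.eu (by omega) e x₀ x₀
  have main : ∀ x y, B e x = 0 → B p x = 0 → B q x = 0 → B e y = 0 → B x y = 0 →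
      R x y x y = R x₀ y₀ x₀ y₀ * (B x x * B y y) := by
    intro x y a1 a2 a3 a4 a5
    obtain ⟨y₁, hy₁, y1e, y1x, y1x0⟩ := h1 V B m hA.eu (by omega) e x x₀
    have d1 := s2 x y y₁ a1 a2 a3 a4 y1e a5 y1x
    have d2 := t2 x x₀ y₁ a1 a2 a3 x0e x0p x0q y1e y1x y1x0
    have d3 := s2 x₀ y₁ y₀ x0e x0p x0q y1e y0e y1x0 y0x
    rw [hy₁, one_mul] at d1
    rw [hx₀, one_mul, hR.a34 x y₁ x y₁, hR.a34 x₀ y₁ x₀ y₁] at d2
    rw [hy₀, hy₁, one_mul, one_mul] at d3
    rw [d3] at d2
    rw [d1]
    linear_combination (-(B y y)) * d2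
  refine ⟨-(R x₀ y₀ x₀ y₀), ?_⟩
  -- orthogonal vectors
  have u1 : ∀ x y z, B e x = 0 → B p x = 0 → B q x = 0 → B e y = 0 → B x y = 0 →
      R x y x z = R x₀ y₀ x₀ y₀ * (B x x * B y z) := by
    intro x y z a1 a2 a3 a4 a5
    by_cases h0 : y = 0
    · rw [h0, Sur.lin_zero (h1_l2 hR x x z), Sur.lin_zero (hB.lin z)]
      ring
    · have h := (o1 x y a1 a2 a3 a4 a5).1 z
      rw [main x y a1 a2 a3 a4 a5] at h
      have hy := (hB.pos y h0).ne'
      apply mul_left_cancel₀ hy
      rw [h]
      ring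
  have u2 : ∀ x y z, B e x = 0 → B p x = 0 → B q x = 0 → B e y = 0 → B x y = 0 →
      R x y y z = -(R x₀ y₀ x₀ y₀ * (B y y * B x z)) := by
    intro x y z a1 a2 a3 a4 a5
    by_cases h0 : x = 0
    · rw [h0, Sur.lin_zero (hR.lin y y z), Sur.lin_zero (hB.lin z)]
      ring
    · have h := (o1 x y a1 a2 a3 a4 a5).2 z
      rw [hR.a34 x y x y, main x y a1 a2 a3 a4 a5] at h
      have hx := (hB.pos x h0).ne'
      apply mul_left_cancel₀ hx
      rw [h]
      ring
  intro x y z a1 a2 a3 a4
  by_cases h0 : x = 0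
  · rw [h0, Sur.lin_zero (hR.lin y 0 z), Sur.lin_zero (hR.lin y y z)]
    simp only [G0]
    rw [Sur.lin_zero (hB.lin z), Sur.lin_zero (hB.lin 0), Sur.lin_zero (hB.lin y)]
    exact ⟨by ring, by ring⟩
  · have hx := (hB.pos x h0).ne'
    set s : ℝ := B x y / B x x with hs
    set w : V := y + (-s) • x with hw
    have hy : y = s • x + w := by
      rw [hw, neg_smul]
      abel
    have b1 : B e w = 0 := by rw [hw, add2, smul2, a1, a4]; ring
    have b5 : B x w = 0 := by
      rw [hw, add2, smul2, hs]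
      field_simp
      ring
    have b5' : B w x = 0 := by rw [hB.symm, b5]
    have v1 := u1 x w z a1 a2 a3 b1 b5
    have v2 := u2 x w z a1 a2 a3 b1 b5
    have e1 : R x y x z = R x w x z := by
      rw [hy, (h1_l2 hR x x z).add, (h1_l2 hR x x z).smul, h1_self hR]
      ring
    have e2 : R x y y z = R x w w z + s * R x w x z := by
      rw [hy, (h1_l2 hR x (s • x + w) z).add, (h1_l2 hR x (s • x + w) z).smul, h1_self hR,
        (Sur.lin3 hR x w z).add, (Sur.lin3 hR x w z).smul]
      ring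
    rw [e1, e2, v1, v2]
    simp only [G0]
    have f1 : B y x = s * B x x := by
      rw [hy, (hB.lin x).add, (hB.lin x).smul, b5']
      ring
    have f2 : B y z = s * B x z + B w z := by
      rw [hy, (hB.lin z).add, (hB.lin z).smul]
    have f3 : B x y = s * B x x := by rw [hB.symm, f1]
    have f4 : B y y = s ^ 2 * B x x + B w w := by
      rw [hy, add2, smul2, (hB.lin x).add, (hB.lin x).smul, (hB.lin w).add, (hB.lin w).smul,
        b5, b5']
      ring
    rw [f1, f2, f3, f4]
    exact ⟨by ring, by ring⟩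

end

end Pool.Agent.Lib.MP_9d59e9_gt.KS
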