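import Pool.Agent.Lib.MP_9d59e9_gt.KS.Spec

/-!
# MP_9d59e9_gt, project KS, module La: rules for derivation sums on lists
-/

set_option autoImplicit false

namespace Pool.Agent.Lib.MP_9d59e9_gt.KS

open scoped BigOperators ContDiff
open Set KO KO3

section La

variable {V : Type}

private lemma La_nil (F : List V → ℝ) (m : List V) : dS F [] m = 0 := by
  cases m <;> simp [dS]

private lemma La_cons (F : List V → ℝ) (a b : V) (l m : List V) :
    dS F (a :: l) (b :: m) = F (b :: l) + dS (fun l' => F (a :: l')) l m := by
  simp [dS]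

private lemma La_append (F : List V → ℝ) (l₁ m₁ l₂ m₂ : List V) (h : l₁.length = m₁.length) :
    dS F (l₁ ++ l₂) (m₁ ++ m₂)
      = dS (fun l => F (l ++ l₂)) l₁ m₁ + dS (fun l => F (l₁ ++ l)) l₂ m₂ := by
  induction l₁ generalizing F m₁ with
  | nil =>
    have hm : m₁ = [] := List.length_eq_zero_iff.1 h.symm
    subst hm
    rw [La_nil, zero_add]
    rfl
  | cons a l₁ ih =>
    cases m₁ with
    | nil => simp at h
    | cons b m₁ =>
      have h' : l₁.length = m₁.length := by simpa using h
      rw [List.cons_append, List.cons_append, La_cons, La_cons, ih (fun l' => F (a :: l')) m₁ h',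
        add_assoc]
      rfl

private lemma La_congr (F G : List V → ℝ) (l m : List V) (h : l.length = m.length)
    (hFG : ∀ l' : List V, l'.length = l.length → F l' = G l') : dS F l m = dS G l m := by
  induction l generalizing F G m with
  | nil => rw [La_nil, La_nil]
  | cons a l ih =>
    cases m with
    | nil => simp at h
    | cons b m =>
      have h' : l.length = m.length := by simpa using h
      rw [La_cons, La_cons, hFG (b :: l) (by simp),
        ih (fun l' => F (a :: l')) (fun l' => G (a :: l')) m h' (fun l' hl' => hFG _ (by simp [hl']))]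

private lemma La_rep (F : List V → ℝ) (k : ℕ) (a b : V) :
    dS F (List.replicate k a) (List.replicate k b)
      = ∑ i ∈ Finset.range k, F (wk i a (b :: List.replicate (k - 1 - i) a)) := by
  induction k generalizing F with
  | zero => rw [List.replicate_zero, La_nil, Finset.sum_range_zero]
  | succ k ih =>
    rw [List.replicate_succ, List.replicate_succ, La_cons, ih, Finset.sum_range_succ', add_comm]
    have h1 : F (b :: List.replicate k a) = F (wk 0 a (b :: List.replicate (k + 1 - 1 - 0) a)) := by
      simp [wk]
    rw [h1]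
    refine congrArg₂ (· + ·) (Finset.sum_congr rfl fun i _ => ?_) rfl
    have h2 : k + 1 - 1 - (i + 1) = k - 1 - i := by omega
    rw [h2]
    simp [wk, List.replicate_succ]

private lemma La_add (F G : List V → ℝ) (l m : List V) :
    dS (fun x => F x + G x) l m = dS F l m + dS G l m := by
  induction l generalizing F G m with
  | nil => rw [La_nil, La_nil, La_nil, add_zero]
  | cons a l ih =>
    cases m with
    | nil => simp [dS]
    | cons b m =>
      rw [La_cons, La_cons, La_cons, ih (fun l' => F (a :: l')) (fun l' => G (a :: l'))]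
      ring

private lemma La_set [Zero V] (F : List V → ℝ) (l m : List V) (h : l.length = m.length) :
    dS F l m = ∑ i ∈ Finset.range l.length, F (l.set i (m.getD i 0)) := by
  induction l generalizing F m with
  | nil => rw [La_nil, List.length_nil, Finset.sum_range_zero]
  | cons a l ih =>
    cases m with
    | nil => simp at h
    | cons b m =>
      have h' : l.length = m.length := by simpa using h
      rw [La_cons, ih (fun l' => F (a :: l')) m h', List.length_cons, Finset.sum_range_succ', add_comm]
      rfl

variable [AddCommGroup V] [Module ℝ V]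

private lemma La_zero {f : V → ℝ} (h : Lin1 f) : f 0 = 0 := by
  have := h.smul 0 0
  rwa [zero_smul, zero_mul] at this

private lemma La_sum {f : V → ℝ} (h : Lin1 f) {ι : Type} (s : Finset ι) (w : ι → ℝ) (v : ι → V) :
    f (∑ i ∈ s, w i • v i) = ∑ i ∈ s, w i * f (v i) := by
  classical
  induction s using Finset.induction_on with
  | empty => rw [Finset.sum_empty, Finset.sum_empty, La_zero h]
  | insert a s ha ih => rw [Finset.sum_insert ha, Finset.sum_insert ha, h.add, h.smul, ih]

private lemma La_tail {F : List V → ℝ} {k : ℕ} (h : MlL F (k + 1)) (a : V) :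
    MlL (fun l => F (a :: l)) k := by
  intro l₁ l₂ hl
  exact h (a :: l₁) l₂ (by simp only [List.length_cons]; omega)

private lemma La_head {F : List V → ℝ} {k : ℕ} (h : MlL F (k + 1)) (l : List V)
    (hl : l.length = k) : Lin1 fun a => F (a :: l) := by
  have := h [] l (by simp only [List.length_nil]; omega)
  simpa using this

private lemma La_dS0 (F : List V → ℝ) (l m : List V) (hF : MlL F l.length)
    (h : l.length = m.length) (hm : ∀ b ∈ m, b = 0) : dS F l m = 0 := by
  induction l generalizing F m with
  | nil => exact La_nil _ _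
  | cons a l ih =>
    cases m with
    | nil => simp at h
    | cons b m =>
      have h' : l.length = m.length := by simpa using h
      have hF' : MlL F (l.length + 1) := hF
      have hb : b = 0 := hm b (by simp)
      rw [La_cons, ih _ m (La_tail hF' a) h' (fun c hc => hm c (by simp [hc])), hb, add_zero]
      exact La_zero (La_head hF' l rfl)

private lemma La_comb (F : List V → ℝ) (l : List V) (hF : MlL F l.length) {ι : Type}
    (s : Finset ι) (w : ι → ℝ) (Φ : ι → V → V) :
    dS F l (l.map fun a => ∑ i ∈ s, w i • Φ i a) = ∑ i ∈ s, w i * dS F l (l.map (Φ i)) := by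
  induction l generalizing F with
  | nil =>
    rw [La_nil]
    refine (Finset.sum_eq_zero fun i _ => ?_).symm
    rw [La_nil, mul_zero]
  | cons a l ih =>
    have hF' : MlL F (l.length + 1) := hF
    simp only [List.map_cons, La_cons]
    rw [ih _ (La_tail hF' a), La_sum (La_head hF' l rfl) s w (fun i => Φ i a), ← Finset.sum_add_distrib]
    refine Finset.sum_congr rfl fun i _ => ?_
    ring

private lemma La_comm (F : List V → ℝ) (l : List V) (hF : MlL F l.length) (Φ Ψ : V → V) :
    dS (fun l' => dS F l' (l'.map Φ)) l (l.map Ψ) - dS (fun l' => dS F l' (l'.map Ψ)) l (l.map Φ)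
      = dS F l (l.map fun a => Φ (Ψ a) - Ψ (Φ a)) := by
  induction l generalizing F with
  | nil => rw [La_nil, La_nil, La_nil, sub_zero]
  | cons a l ih =>
    have hF' : MlL F (l.length + 1) := hF
    have h1 : ∀ Θ Ξ : V → V, dS (fun l' => dS F l' (l'.map Θ)) (a :: l) ((a :: l).map Ξ) =
        F (Θ (Ξ a) :: l) + dS (fun t => F (Ξ a :: t)) l (l.map Θ) +
          (dS (fun t => F (Θ a :: t)) l (l.map Ξ) +
            dS (fun l' => dS (fun t => F (a :: t)) l' (l'.map Θ)) l (l.map Ξ)) := by
      intro Θ Ξ
      rw [List.map_cons, La_cons, List.map_cons, La_cons, ← La_add]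
      refine congrArg₂ (· + ·) rfl (La_congr _ _ _ _ (by simp) fun l' _ => ?_)
      rw [List.map_cons, La_cons]
    have h2 := ih _ (La_tail hF' a)
    have h3 : F ((Φ (Ψ a) - Ψ (Φ a)) :: l) = F (Φ (Ψ a) :: l) - F (Ψ (Φ a) :: l) := by
      have hl := La_head hF' l rfl
      have e : Φ (Ψ a) - Ψ (Φ a) = Φ (Ψ a) + (-1 : ℝ) • Ψ (Φ a) := by
        rw [neg_one_smul, sub_eq_add_neg]
      have h4 := hl.add (Φ (Ψ a)) ((-1 : ℝ) • Ψ (Φ a))
      have h5 := hl.smul (-1) (Ψ (Φ a))
      rw [e]
      linarith
    rw [h1 Φ Ψ, h1 Ψ Φ, List.map_cons, La_cons, h3, ← h2]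
    ring

private lemma La_lin (G : V → List V → ℝ) (l m : List V) (hlen : l.length = m.length)
    (h : ∀ l' : List V, l'.length = l.length → Lin1 fun b => G b l') :
    Lin1 fun b => dS (G b) l m := by
  induction l generalizing G m with
  | nil =>
    have e : (fun b => dS (G b) [] m) = fun _ => 0 := by
      funext b
      exact La_nil _ _
    rw [e]
    exact ⟨fun _ _ => (add_zero 0).symm, fun r _ => (mul_zero r).symm⟩
  | cons a l ih =>
    cases m with
    | nil => simp at hlen
    | cons c m =>
      have h' : l.length = m.length := by simpa using hlen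
      have h1 := ih (fun b l' => G b (a :: l')) m h' (fun l' hl' => h (a :: l') (by simp [hl']))
      have h2 := h (c :: l) (by simp)
      refine ⟨fun x y => ?_, fun r x => ?_⟩
      · have h3 := h1.add x y
        have h4 := h2.add x y
        rw [La_cons, La_cons, La_cons, h4]
        linarith
      · have h3 := h1.smul r x
        have h4 := h2.smul r x
        rw [La_cons, La_cons, h4, mul_add]
        linarith

private lemma La_mll (F : List V → ℝ) (k : ℕ) (hF : MlL F k) (Φ : V → V) (hΦ : LinE Φ) :
    MlL (fun l => dS F l (l.map Φ)) k := by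
  intro l₁ l₂ hl
  have e : (fun b => dS F (l₁ ++ b :: l₂) ((l₁ ++ b :: l₂).map Φ)) = fun b =>
      dS (fun l => F (l ++ b :: l₂)) l₁ (l₁.map Φ) +
        (F (l₁ ++ Φ b :: l₂) + dS (fun l => F (l₁ ++ b :: l)) l₂ (l₂.map Φ)) := by
    funext b
    rw [List.map_append, List.map_cons, La_append _ _ _ _ _ (by simp), La_cons]
  rw [e]
  have h1 : Lin1 fun b => dS (fun l => F (l ++ b :: l₂)) l₁ (l₁.map Φ) :=
    La_lin (fun b l => F (l ++ b :: l₂)) l₁ (l₁.map Φ) (by simp)
      (fun l' hl' => hF l' l₂ (by omega))
  have h2 : Lin1 fun b => dS (fun l => F (l₁ ++ b :: l)) l₂ (l₂.map Φ) :=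
    La_lin (fun b l => F (l₁ ++ b :: l)) l₂ (l₂.map Φ) (by simp)
      (fun l' hl' => hF l₁ l' (by omega))
  have h3 := hF l₁ l₂ hl
  refine ⟨fun x y => ?_, fun r x => ?_⟩
  · have a1 := h1.add x y
    have a2 := h2.add x y
    have a3 := h3.add (Φ x) (Φ y)
    rw [hΦ.add]
    linarith
  · have a1 := h1.smul r x
    have a2 := h2.smul r x
    have a3 := h3.smul r (Φ x)
    rw [hΦ.smul, mul_add, mul_add]
    linarith

end La

theorem tLa : S_La := by
  intro V _ _
  exact ⟨La_append, La_rep, La_congr, La_dS0, fun F l hF ι s w Φ => La_comb F l hF s w Φ, La_comm,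
    La_mll, fun F k hF => ⟨La_tail hF, La_head hF⟩, La_set⟩

end Pool.Agent.Lib.MP_9d59e9_gt.KS
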