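import Pool.Agent.Lib.MP_9d59e9_gt.KS.Spec

/-!
# MP_9d59e9_gt, project KS: product rule for top degrees
-/

set_option autoImplicit false

namespace Pool.Agent.Lib.MP_9d59e9_gt.KS

open scoped BigOperators ContDiff
open KO KO3

noncomputable section

variable {n : ℕ} {U : Set (Pt n)} {W : Pt n → Pt n} {c : Pt n → ℝ}

private theorem le_congr (hU : IsOpen U) (k : ℝ) {φ ψ : Pt n → ℝ} (h : ∀ x ∈ U, φ x = ψ x) :
    ∀ x ∈ U, dE W c k φ x = dE W c k ψ x := by
  intro x hx
  have h1 : φ =ᶠ[nhds x] ψ := Filter.eventuallyEq_of_mem (hU.mem_nhds hx) h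
  unfold dE dV
  rw [h1.fderiv_eq, h x hx]

private theorem le_congrI (hU : IsOpen U) (k : ℝ) (j : ℕ) : ∀ {φ ψ : Pt n → ℝ},
    (∀ x ∈ U, φ x = ψ x) → ∀ x ∈ U, ((dE W c k)^[j] φ) x = ((dE W c k)^[j] ψ) x := by
  induction j with
  | zero => exact fun h => h
  | succ j ih =>
    intro φ ψ h x hx
    rw [Function.iterate_succ_apply, Function.iterate_succ_apply]
    exact ih (le_congr hU k h) x hx

private theorem le_sm (hU : IsOpen U) (hW : ∀ a, ContDiffOn ℝ ∞ (fun x => W x a) U)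
    (hc : ContDiffOn ℝ ∞ c U) (k : ℝ) {φ : Pt n → ℝ} (h : ContDiffOn ℝ ∞ φ U) :
    ContDiffOn ℝ ∞ (dE W c k φ) U := by
  have hW' : ContDiffOn ℝ ∞ W U := contDiffOn_pi.2 hW
  have h1 : ContDiffOn ℝ ∞ (fun x => fderiv ℝ φ x) U := h.fderiv_of_isOpen hU le_rfl
  exact (h1.clm_apply hW').sub (contDiffOn_const.mul (hc.mul h))

private theorem le_diff (hU : IsOpen U) {φ : Pt n → ℝ} (h : ContDiffOn ℝ ∞ φ U) {x : Pt n}
    (hx : x ∈ U) : DifferentiableAt ℝ φ x :=
  (h.contDiffAt (hU.mem_nhds hx)).differentiableAt (by simp)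

private theorem le_add (hU : IsOpen U) (k : ℝ) {φ ψ : Pt n → ℝ} (h1 : ContDiffOn ℝ ∞ φ U)
    (h2 : ContDiffOn ℝ ∞ ψ U) :
    ∀ x ∈ U, dE W c k (fun y => φ y + ψ y) x = dE W c k φ x + dE W c k ψ x := by
  intro x hx
  unfold dE dV
  rw [fderiv_fun_add (le_diff hU h1 hx) (le_diff hU h2 hx), add_apply]
  ring

private theorem le_addI (hU : IsOpen U) (hW : ∀ a, ContDiffOn ℝ ∞ (fun x => W x a) U)
    (hc : ContDiffOn ℝ ∞ c U) (k : ℝ) (j : ℕ) : ∀ {φ ψ : Pt n → ℝ}, ContDiffOn ℝ ∞ φ U →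
    ContDiffOn ℝ ∞ ψ U → ∀ x ∈ U, ((dE W c k)^[j] (fun y => φ y + ψ y)) x =
      ((dE W c k)^[j] φ) x + ((dE W c k)^[j] ψ) x := by
  induction j with
  | zero => exact fun _ _ _ _ => rfl
  | succ j ih =>
    intro φ ψ h1 h2 x hx
    rw [Function.iterate_succ_apply, Function.iterate_succ_apply, Function.iterate_succ_apply,
      ← ih (le_sm hU hW hc k h1) (le_sm hU hW hc k h2) x hx]
    exact le_congrI hU k j (le_add hU k h1 h2) x hx

private theorem le_zero (k : ℝ) (j : ℕ) (x : Pt n) :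
    ((dE W c k)^[j] (fun _ => (0 : ℝ))) x = 0 := by
  have h : dE W c k (fun _ => (0 : ℝ)) = fun _ => 0 := by
    funext y
    unfold dE dV
    simp
  have h2 : (dE W c k)^[j] (fun _ => (0 : ℝ)) = fun _ => 0 := by
    induction j with
    | zero => rfl
    | succ j ih => rw [Function.iterate_succ_apply, h, ih]
  rw [h2]

private theorem le_mul (hU : IsOpen U) (k l : ℝ) {φ ψ : Pt n → ℝ} (h1 : ContDiffOn ℝ ∞ φ U)
    (h2 : ContDiffOn ℝ ∞ ψ U) : ∀ x ∈ U, dE W c (k + l) (fun y => φ y * ψ y) x =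
      dE W c k φ x * ψ x + φ x * dE W c l ψ x := by
  intro x hx
  unfold dE dV
  rw [fderiv_fun_mul (le_diff hU h1 hx) (le_diff hU h2 hx), add_apply,
    smul_apply, smul_apply, smul_eq_mul, smul_eq_mul]
  ring

/-- the recursion -/
private theorem le_rec (hU : IsOpen U) (hW : ∀ a, ContDiffOn ℝ ∞ (fun x => W x a) U)
    (hc : ContDiffOn ℝ ∞ c U) (k l : ℝ) (j : ℕ) {φ ψ : Pt n → ℝ} (h1 : ContDiffOn ℝ ∞ φ U)
    (h2 : ContDiffOn ℝ ∞ ψ U) : ∀ x ∈ U,
      ((dE W c (k + l))^[j + 1] fun y => φ y * ψ y) x =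
        ((dE W c (k + l))^[j] fun y => dE W c k φ y * ψ y) x +
          ((dE W c (k + l))^[j] fun y => φ y * dE W c l ψ y) x := by
  intro x hx
  rw [Function.iterate_succ_apply,
    ← le_addI hU hW hc (k + l) j ((le_sm hU hW hc k h1).mul h2) (h1.mul (le_sm hU hW hc l h2)) x hx]
  exact le_congrI hU (k + l) j (le_mul hU k l h1 h2) x hx

theorem tLe : S_Le := by
  intro n U W c hU hW hc k l
  have main : ∀ s a b : ℕ, a + b = s → ∀ φ ψ : Pt n → ℝ, ContDiffOn ℝ ∞ φ U → ContDiffOn ℝ ∞ ψ U →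
      (∀ x ∈ U, ((dE W c k)^[a + 1] φ) x = 0) → (∀ x ∈ U, ((dE W c l)^[b + 1] ψ) x = 0) →
      (∀ x ∈ U, ((dE W c (k + l))^[s] fun y => φ y * ψ y) x
        = (s.choose a : ℝ) * (((dE W c k)^[a] φ) x * ((dE W c l)^[b] ψ) x)) ∧
      ∀ x ∈ U, ((dE W c (k + l))^[s + 1] fun y => φ y * ψ y) x = 0 := by
    intro s
    induction s with
    | zero =>
      intro a b hab φ ψ h1 h2 h3 h4
      obtain rfl : a = 0 := by omega
      obtain rfl : b = 0 := by omega
      refine ⟨fun x _ => ?_, fun x hx => ?_⟩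
      · simp
      · have e3 : dE W c k φ x = 0 := h3 x hx
        have e4 : dE W c l ψ x = 0 := h4 x hx
        have e : ((dE W c (k + l))^[0 + 1] fun y => φ y * ψ y) x =
            dE W c (k + l) (fun y => φ y * ψ y) x := rfl
        rw [e, le_mul hU k l h1 h2 x hx, e3, e4]
        ring
    | succ s ih =>
      intro a b hab φ ψ h1 h2 h3 h4
      -- first half
      have half1 : (∀ x ∈ U, ((dE W c (k + l))^[s] fun y => dE W c k φ y * ψ y) x =
          ((if a = 0 then 0 else s.choose (a - 1) : ℕ) : ℝ) *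
            (((dE W c k)^[a] φ) x * ((dE W c l)^[b] ψ) x)) ∧
          ∀ x ∈ U, ((dE W c (k + l))^[s + 1] fun y => dE W c k φ y * ψ y) x = 0 := by
        rcases Nat.eq_zero_or_pos a with ha | ha
        · subst ha
          have hz : ∀ x ∈ U, dE W c k φ x * ψ x = 0 := by
            intro x hx
            have e3 : dE W c k φ x = 0 := h3 x hx
            rw [e3, zero_mul]
          refine ⟨fun x hx => ?_, fun x hx => ?_⟩
          · rw [le_congrI hU (k + l) s hz x hx, le_zero]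
            simp
          · rw [le_congrI hU (k + l) (s + 1) hz x hx, le_zero]
        · obtain ⟨a', rfl⟩ : ∃ a', a = a' + 1 := ⟨a - 1, by omega⟩
          have h := ih a' b (by omega) (dE W c k φ) ψ (le_sm hU hW hc k h1) h2 h3 h4
          refine ⟨fun x hx => ?_, h.2⟩
          rw [h.1 x hx, if_neg (Nat.succ_ne_zero a'), Nat.add_sub_cancel]
          rfl
      have half2 : (∀ x ∈ U, ((dE W c (k + l))^[s] fun y => φ y * dE W c l ψ y) x =
          ((if b = 0 then 0 else s.choose a : ℕ) : ℝ) *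
            (((dE W c k)^[a] φ) x * ((dE W c l)^[b] ψ) x)) ∧
          ∀ x ∈ U, ((dE W c (k + l))^[s + 1] fun y => φ y * dE W c l ψ y) x = 0 := by
        rcases Nat.eq_zero_or_pos b with hb | hb
        · subst hb
          have hz : ∀ x ∈ U, φ x * dE W c l ψ x = 0 := by
            intro x hx
            have e4 : dE W c l ψ x = 0 := h4 x hx
            rw [e4, mul_zero]
          refine ⟨fun x hx => ?_, fun x hx => ?_⟩
          · rw [le_congrI hU (k + l) s hz x hx, le_zero]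
            simp
          · rw [le_congrI hU (k + l) (s + 1) hz x hx, le_zero]
        · obtain ⟨b', rfl⟩ : ∃ b', b = b' + 1 := ⟨b - 1, by omega⟩
          have h := ih a b' (by omega) φ (dE W c l ψ) h1 (le_sm hU hW hc l h2) h3 h4
          refine ⟨fun x hx => ?_, h.2⟩
          rw [h.1 x hx, if_neg (Nat.succ_ne_zero b')]
          rfl
      refine ⟨fun x hx => ?_, fun x hx => ?_⟩
      · rw [le_rec hU hW hc k l s h1 h2 x hx, half1.1 x hx, half2.1 x hx, ← add_mul, ← Nat.cast_add]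
        congr 2
        rcases Nat.eq_zero_or_pos a with ha | ha
        · subst ha
          have hb : b ≠ 0 := by omega
          simp [hb]
        · obtain ⟨a', rfl⟩ : ∃ a', a = a' + 1 := ⟨a - 1, by omega⟩
          rw [if_neg (Nat.succ_ne_zero a'), Nat.add_sub_cancel, Nat.choose_succ_succ]
          congr 1
          by_cases hb : b = 0
          · rw [if_pos hb]
            have : s < a' + 1 := by omega
            exact (Nat.choose_eq_zero_of_lt this).symm
          · rw [if_neg hb]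
      · rw [le_rec hU hW hc k l (s + 1) h1 h2 x hx, half1.2 x hx, half2.2 x hx, add_zero]
  intro a b φ ψ h1 h2 h3 h4
  exact main (a + b) a b rfl φ ψ h1 h2 h3 h4

end

end Pool.Agent.Lib.MP_9d59e9_gt.KS
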