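import Pool.Agent.Lib.MP_9d59e9_gt.KS.Spec

/-!
# MP_9d59e9_gt, project KS: module Mw (a component of the second derivative of the curvature)
-/

set_option autoImplicit false

namespace Pool.Agent.Lib.MP_9d59e9_gt.KS

open scoped BigOperators ContDiff Topology
open Set KO KO3

noncomputable section

private theorem Mw_near {n : ℕ} {Ω : Set (Pt n)} (hO : IsOpen Ω) {p : Pt n} (hp : p ∈ Ω)
    (X : Pt n) : ∀ᶠ t in 𝓝 (0 : ℝ), p + t • X ∈ Ω := by
  have h1 : Continuous fun t : ℝ => p + t • X :=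
    continuous_const.add (continuous_id.smul continuous_const)
  have h2 : (fun t : ℝ => p + t • X) 0 ∈ Ω := by simpa using hp
  exact h1.continuousAt.eventually (hO.mem_nhds h2)

/-- a curve orthogonal to the unit vector field -/
private theorem Mw_perp {n : ℕ} {g : Pt n → Matrix (Fin n) (Fin n) ℝ} {U : Set (Pt n)}
    (hg : IsMetricOn g U) {θ : TF n 1} (hθ : Unit1 g U θ) {x : Pt n} (hx : x ∈ U) (X : Pt n)
    {E : Pt n} (hW : Cv g x X (fun t => du g θ (x + t • X)) (du g θ x) E)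
    {a : Pt n} (ha : e1 θ x a = 0) :
    ∃ as : ℝ → Pt n, Cv g x X as a (-(e2 (D g θ) x X a) • du g θ x) ∧
      ∀ᶠ t in 𝓝 (0 : ℝ), e1 θ (x + t • X) (as t) = 0 := by
  obtain ⟨h1, -, -, -, -, -, -, hex⟩ := KO3.sCvP n g U hg x hx X
  obtain ⟨-, -, b3, b4⟩ := KO.sCvb n g x X
  obtain ⟨a1, ha1⟩ := hex a
  have hd := h1 θ hθ.sm a1 a ha1
  have hf := b4 _ _ _ _ _ hd.neg hW
  have hs := b3 _ _ _ _ _ _ ha1 hf
  refine ⟨fun t => a1 t + (-(e1 θ (x + t • X) (a1 t))) • du g θ (x + t • X), ?_, ?_⟩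
  · simp only [Pi.neg_apply, zero_smul, add_zero, ha1.1, ha, neg_zero, zero_add] at hs
    exact hs
  · filter_upwards [Mw_near hg.isOpen hx X] with t ht
    have hl := (KO.sLin n (x + t • X)).2.2.2.1 θ
    have hone : e1 θ (x + t • X) (du g θ (x + t • X)) = 1 := by
      rw [hθ.dual _ ht, hθ.one _ ht]
    rw [hl.add, hl.smul, hone]
    ring

/-- two orthogonal curves which are orthogonal to the unit vector field -/
private theorem Mw_curves {n : ℕ} {g : Pt n → Matrix (Fin n) (Fin n) ℝ} {U : Set (Pt n)}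
    (hg : IsMetricOn g U) {θ : TF n 1} (hθ : Unit1 g U θ) {x : Pt n} (hx : x ∈ U) (X : Pt n)
    {E : Pt n} (hW : Cv g x X (fun t => du g θ (x + t • X)) (du g θ x) E)
    {a c : Pt n} (ha : e1 θ x a = 0) (hc : e1 θ x c = 0) (hac : ip g x a c = 0) (ha0 : a ≠ 0) :
    ∃ as cs : ℝ → Pt n, Cv g x X as a (-(e2 (D g θ) x X a) • du g θ x) ∧
      Cv g x X cs c (-(e2 (D g θ) x X c) • du g θ x) ∧
      ∀ᶠ t in 𝓝 (0 : ℝ), e1 θ (x + t • X) (as t) = 0 ∧ e1 θ (x + t • X) (cs t) = 0 ∧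
        ip g (x + t • X) (as t) (cs t) = 0 := by
  obtain ⟨as, hA, hA0⟩ := Mw_perp hg hθ hx X hW ha
  obtain ⟨c1, hC, hC0⟩ := Mw_perp hg hθ hx X hW hc
  obtain ⟨-, -, b3, b4⟩ := KO.sCvb n g x X
  have hB := (KO.sOnb n g x (hg.pos x hx)).2.1
  have hn := KO.sCvI n g U hg x hx X _ _ _ _ _ _ hC hA
  have hdn := KO.sCvI n g U hg x hx X _ _ _ _ _ _ hA hA
  have wa : ip g x (du g θ x) a = 0 := by rw [← hθ.dual x hx, ha]
  have wc : ip g x c (du g θ x) = 0 := by rw [hB.symm, ← hθ.dual x hx, hc]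
  have z1 : ip g x (-(e2 (D g θ) x X c) • du g θ x) a
      + ip g x c (-(e2 (D g θ) x X a) • du g θ x) = 0 := by
    rw [(hB.lin a).smul, hB.symm c, (hB.lin c).smul, wa, hB.symm (du g θ x) c, wc]
    ring
  rw [z1] at hn
  have d0 : ip g x a a ≠ 0 := (hB.pos a ha0).ne'
  have n0 : (fun t : ℝ => ip g (x + t • X) (c1 t) (as t)) 0 = 0 := by
    simp only [zero_smul, add_zero, hA.1, hC.1]
    rw [hB.symm, hac]
  have e0 : (fun t : ℝ => ip g (x + t • X) (as t) (as t)) 0 = ip g x a a := by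
    simp only [zero_smul, add_zero, hA.1]
  have e0' : (fun t : ℝ => ip g (x + t • X) (as t) (as t)) 0 ≠ 0 := by rw [e0]; exact d0
  have hq := (hn.div hdn e0').neg
  have hq' : HasDerivAt (fun t : ℝ => -(ip g (x + t • X) (c1 t) (as t)
      / ip g (x + t • X) (as t) (as t))) 0 0 := by
    refine hq.congr_deriv ?_
    have h := n0
    simp only at h
    rw [h]
    simp
  have hf := b4 _ _ _ _ _ hq' hA
  have hs := b3 _ _ _ _ _ _ hC hf
  have q0 : ip g x (c1 0) (as 0) = 0 := by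
    rw [hA.1, hC.1, hB.symm, hac]
  simp only [zero_smul, add_zero, q0, zero_div, neg_zero] at hs
  refine ⟨as, _, hA, hs, ?_⟩
  have hne : ∀ᶠ t in 𝓝 (0 : ℝ), ip g (x + t • X) (as t) (as t) ≠ 0 :=
    hdn.continuousAt.eventually_ne e0'
  filter_upwards [Mw_near hg.isOpen hx X, hA0, hC0, hne] with t ht h1 h2 h3
  have hl := (KO.sLin n (x + t • X)).2.2.2.1 θ
  have hB' := (KO.sOnb n g (x + t • X) (hg.pos _ ht)).2.1
  refine ⟨h1, ?_, ?_⟩
  · rw [hl.add, hl.smul, h1, h2]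
    ring
  · rw [hB'.symm, (hB'.lin _).add, (hB'.lin _).smul]
    field_simp
    ring

theorem tMw (h1 : S_Nn) : S_Mw := by
  intro n g U θ α β hR x hx a c ha hc hac ha0
  obtain ⟨n1, n2, n3⟩ := h1 n g U θ α β hR x hx
  have hg := hR.met
  have hθ := hR.un
  have hB := (KO.sOnb n g x (hg.pos x hx)).2.1
  have hup := fun v => (KO.sUp n g x (hg.pos x hx)).1 1 (D g θ) ![du g θ x] v
  have hcvW := n3 (du g θ x)
  have hone : ip g x (du g θ x) (du g θ x) = 1 := hθ.one x hx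
  have hdual := hθ.dual x hx
  have hW2 := n2 (du g θ x)
  obtain ⟨as, cs, hA, hC, hev⟩ := Mw_curves hg hθ hx (du g θ x) hcvW ha hc hac ha0
  obtain ⟨-, -, -, -, -, -, -, hex⟩ := KO3.sCvP n g U hg x hx (du g θ x)
  obtain ⟨ζ, hζ⟩ := hex (du g θ x)
  obtain ⟨-, -, -, -, -, -, hN, -⟩ := KO.sSmo n g U hg
  obtain ⟨-, -, -, h5⟩ := KO.sCvE n g U hg.isOpen x hx (du g θ x)
  have hd := h5 (N g) hN _ _ _ _ _ _ _ _ _ _ _ _ _ _ _ hζ hA hcvW hcvW hC
  have hs : ∀ v : Pt n, (Fin.snoc (![du g θ x] : Fin 1 → Pt n) v : Fin 2 → Pt n)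
      = ![du g θ x, v] := by
    intro v
    funext i
    fin_cases i <;> rfl
  have hEv : ∀ v, ip g x (up g (D g θ) x ![du g θ x]) v = e2 (D g θ) x (du g θ x) v := by
    intro v
    have := hup v
    rw [hs] at this
    exact this
  set W := du g θ x with hWd
  set E := up g (D g θ) x ![W] with hEd
  have hz : HasDerivAt (fun t : ℝ => e5 (N g) (x + t • W) (ζ t) (as t) (du g θ (x + t • W))
      (du g θ (x + t • W)) (cs t)) 0 0 := by
    refine (hasDerivAt_const (0 : ℝ) (0 : ℝ)).congr_of_eventuallyEq ?_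
    filter_upwards [Mw_near hg.isOpen hx W, hev] with t ht he
    obtain ⟨k1, k2, k3⟩ := he
    rw [(h1 n g U θ α β hR _ ht).1]
    have hB' := (KO.sOnb n g (x + t • W) (hg.pos _ ht)).2.1
    have k1' : ip g (x + t • W) (as t) (du g θ (x + t • W)) = 0 := by
      rw [hB'.symm, ← hθ.dual _ ht, k1]
    have k2' : ip g (x + t • W) (du g θ (x + t • W)) (cs t) = 0 := by
      rw [← hθ.dual _ ht, k2]
    simp only [G0, KN, sy2, k1, k2, k3, k1', k2']
    ring
  have h0 := hd.unique hz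
  obtain ⟨l5, l4, l3, l2, l1⟩ := (KO.sLin n x).2.2.2.2.2.2.2.1 (N g)
  have y1 : e5 (N g) x 0 a W W c = 0 := by
    have := (l1 a W W c).smul 0 0
    simpa using this
  have wa : ip g x a W = 0 := by rw [hB.symm, ← hdual, ha]
  have wc : ip g x W c = 0 := by rw [← hdual, hc]
  have wW : e1 θ x W = 1 := by rw [hdual, hone]
  have EW : ip g x E W = 0 := by rw [hEv, hW2]
  have WE : ip g x W E = 0 := by rw [hB.symm, EW]
  have tE : e1 θ x E = 0 := by rw [hdual, WE]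
  have Ec := hEv c
  have aE : ip g x a E = e2 (D g θ) x W a := by rw [hB.symm, hEv]
  have y2 : e5 (N g) x W (-(e2 (D g θ) x W a) • W) W W c = 0 := by
    rw [(l2 W W W c).smul, n1]
    simp only [G0, KN, sy2]
    ring
  have y5 : e5 (N g) x W a W W (-(e2 (D g θ) x W c) • W) = 0 := by
    rw [(l5 W a W W).smul, n1]
    simp only [G0, KN, sy2]
    ring
  have y3 : e5 (N g) x W a E W c = -(β x * (e2 (D g θ) x W a * e2 (D g θ) x W c)) := by
    rw [n1]
    simp only [G0, KN, sy2, hac, wa, wW, EW, tE, ha, hc, Ec, hW2]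
    ring
  have y4 : e5 (N g) x W a W E c = -(β x * (e2 (D g θ) x W a * e2 (D g θ) x W c)) := by
    rw [n1]
    simp only [G0, KN, sy2, hac, wc, wW, WE, tE, ha, hc, aE, hW2]
    ring
  rw [y1, y2, y3, y4, y5] at h0
  have h6 : e6 (N2 g) x W W a W W c = e6 (D g (N g)) x W W a W W c := rfl
  rw [h6]
  linarith

end

end Pool.Agent.Lib.MP_9d59e9_gt.KS
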