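import Pool.Agent.Lib.MP_9d59e9_gt.KS.Defs

/-!
# MP_9d59e9_gt, project KS (owner helper51): all orders, symmetric coefficients

THEOREM SYM.  Let `n ≥ 4`, `r ≥ 4`, `g` a smooth Riemannian metric on a connected open set `Ω ⊆ ℝⁿ`
with `∇^r R + ∑ t^m ⊗ ∇^{r-m} R = 0`, where `t^m` (`3 ≤ m < r`) is symmetric in its first two slots on
`ker t¹` (no condition on `t¹, t², t^r`).  If the curvature operator is injective at one point, then
`∇R = 0`.

Every `S_X` is a statement with its complete proof in the docstring; it is to be proved as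
`theorem tX (h… : the statements listed as Available, in that order) : S_X` in the file `X.lean` of
this directory (import `Pool.Agent.Lib.MP_9d59e9_gt.KS.Spec`).  The theorems of the projects KO and KO3
are proved and can be used directly (they are imported): `KO.sSmo`, `KO.sLin`, `KO.sCrv`, `KO.sCvb`,
`KO.sCvE`, `KO.sMet`, `KO.sOnb`, `KO.sUp`, `KO.sCvI`, `KO.sCvU`, `KO.sRic`, `KO.sSym`, `KO.sCvR`,
`KO.sOpn`, `KO.sBi2`, `KO.sBi3`, `KO.sBrg`, `KO.sSkw`, and `KO3.sPol`, `KO3.sPrp`, `KO3.sSur`,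
`KO3.sGenV`, `KO3.sGenD`, `KO3.sCi4`, `KO3.sCi23`, `KO3.sCIn`, `KO3.sKNa`, `KO3.sKNb`, `KO3.sCvP`,
`KO3.sFrm`, `KO3.sNsC`, `KO3.sNsO`, `KO3.sRc4`, `KO3.sRns`, `KO3.sCb2`, `KO3.sUni`, `KO3.sOrC`,
`KO3.sCi23`, `KO3.tCnn` (statements with proofs in `KO/Spec.lean`, `KO3/Spec.lean`).

Notation: `S(l) = S g x l` is the value of `∇^j R` at `x` on the list `l` of `j + 4` vectors, the
derivative slots come first; `⟨a,b⟩ = ip g x a b` or `B a b`; `W = du g θ x`; `θ(v) = e1 θ x v = ⟨W,v⟩`;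
`K = W^⊥`; `wk k W l` is the list `W, …, W` (`k` times) followed by `l`.
-/

set_option autoImplicit false

namespace Pool.Agent.Lib.MP_9d59e9_gt.KS

open scoped BigOperators ContDiff
open Set KO KO3

noncomputable section

/-! ## A. lists of vectors -/

/-- **La** (rules for `dS` and `MlL`).  Proof: everything by induction on the list (generalising `F`).
(1), (2), (3), (9) directly from the definition (for (2): `List.replicate (k+1) a = a :: replicate k a`,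
`Finset.sum_range_succ'`).  `MlL F (k+1)` gives `MlL (fun l => F (a :: l)) k` (take `a :: l₁` instead of
`l₁`) and, for a list `l` of length `k`, `Lin1 fun a => F (a :: l)` (take `l₁ = []`): this is (8), and it
is what is used in the inductions for (4) (a linear function vanishes at `0`) and (5) (`F` is linear in
the first slot: `F ((∑ wᵢ • Φᵢ a) :: l) = ∑ wᵢ F (Φᵢ a :: l)` by `Finset.induction_on`).  (6): induction.
With `l = a :: l'`:
`dS (l ↦ dS F l (l.map Φ)) (a :: l') ((a :: l').map Ψ)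
 = F (Φ (Ψ a) :: l') + dS (F (Ψ a :: ·)) l' (l'.map Φ) + dS (l'' ↦ F (Φ a :: l'')) l' (l'.map Ψ)
   + dS (l'' ↦ dS (F (a :: ·)) l'' (l''.map Φ)) l' (l'.map Ψ)`
(`dS` is additive in `F`: include this as a lemma); subtract the same with `Φ, Ψ` exchanged: the middle
terms cancel, the last ones are the induction hypothesis, and
`F (Φ (Ψ a) :: l') - F (Ψ (Φ a) :: l') = F ((Φ (Ψ a) - Ψ (Φ a)) :: l')` by linearity.  (7): write
`l = l₁ ++ b :: l₂`, use (1) twice: `dS F l (l.map Φ)` is the sum of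
`dS (F (· ++ b :: l₂)) l₁ (l₁.map Φ)`, `F (l₁ ++ Φ b :: l₂)` and `dS (F (l₁ ++ b :: ·)) l₂ (l₂.map Φ)`; the
first and the third are sums ((9)) of values of `F` on lists which contain `b` at the same place, the
second is linear in `b` because `Φ` is linear. -/
def S_La : Prop :=
  ∀ (V : Type) [AddCommGroup V] [Module ℝ V],
    (∀ (F : List V → ℝ) (l₁ m₁ l₂ m₂ : List V), l₁.length = m₁.length →
      dS F (l₁ ++ l₂) (m₁ ++ m₂)
        = dS (fun l => F (l ++ l₂)) l₁ m₁ + dS (fun l => F (l₁ ++ l)) l₂ m₂) ∧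
    (∀ (F : List V → ℝ) (k : ℕ) (a b : V), dS F (List.replicate k a) (List.replicate k b)
      = ∑ i ∈ Finset.range k, F (wk i a (b :: List.replicate (k - 1 - i) a))) ∧
    (∀ (F G : List V → ℝ) (l m : List V), l.length = m.length →
      (∀ l' : List V, l'.length = l.length → F l' = G l') → dS F l m = dS G l m) ∧
    (∀ (F : List V → ℝ) (l m : List V), MlL F l.length → l.length = m.length →
      (∀ b ∈ m, b = 0) → dS F l m = 0) ∧
    (∀ (F : List V → ℝ) (l : List V), MlL F l.length → ∀ (ι : Type) (s : Finset ι) (w : ι → ℝ)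
      (Φ : ι → V → V), dS F l (l.map fun a => ∑ i ∈ s, w i • Φ i a)
        = ∑ i ∈ s, w i * dS F l (l.map (Φ i))) ∧
    (∀ (F : List V → ℝ) (l : List V), MlL F l.length → ∀ Φ Ψ : V → V,
      dS (fun l' => dS F l' (l'.map Φ)) l (l.map Ψ) - dS (fun l' => dS F l' (l'.map Ψ)) l (l.map Φ)
        = dS F l (l.map fun a => Φ (Ψ a) - Ψ (Φ a))) ∧
    (∀ (F : List V → ℝ) (k : ℕ), MlL F k → ∀ Φ : V → V, LinE Φ →
      MlL (fun l => dS F l (l.map Φ)) k) ∧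
    (∀ (F : List V → ℝ) (k : ℕ), MlL F (k + 1) → (∀ a, MlL (fun l => F (a :: l)) k) ∧
      ∀ l : List V, l.length = k → Lin1 fun a => F (a :: l)) ∧
    ∀ (F : List V → ℝ) (l m : List V), l.length = m.length →
      dS F l m = ∑ i ∈ Finset.range l.length, F (l.set i (m.getD i 0))

/-- **Ad** (skew endomorphisms act skewly; vanishing; eigenvalues).  Available: `S_La`.  Proof.
(1) `sumL` is linear: induction on `k`.  (2) Induction on `k` (generalising `F, G`).  For `k + 1` the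
summand on `f i :: l` is
`F (Φ f_i :: l) G (f_i :: l) + F (f_i :: l) G (Φ f_i :: l)` plus the summand of the induction hypothesis
for `F (f_i :: ·)`, `G (f_i :: ·)`.  Insert `Φ f_i = ∑_s ⟨Φ f_i, f_s⟩ f_s` (`Fr.ex`; linearity in the first
slot, `S_La` (8)): the sum over `i, s` of `⟨Φ f_i, f_s⟩ (F (f_s :: l) G (f_i :: l) + F (f_i :: l) G (f_s :: l))`
vanishes for every `l`, because `⟨Φ f_i, f_s⟩ = -⟨f_i, Φ f_s⟩ = -⟨Φ f_s, f_i⟩` and the bracket is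
symmetric; so its `sumL` vanishes (`sumL` of `0`, and `∑ᵢ sumL = sumL ∑ᵢ`).  (3) `sumL` of squares is `≥ 0`
and vanishes only if all values on frame lists vanish (induction); then expand the slots one after the
other (induction on `k`, `Fr.ex`, (8)).  (4) `F = G` in (2) and the hypothesis: `2 c · sumL F² = 0`; (3).
(5) Induction on `k`: for fixed `l` expand the first vector; the function `F (f i :: ·)` vanishes on
frame lists of length `k`, so on all lists. -/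
def S_Ad : Prop :=
  ∀ (V : Type) [AddCommGroup V] [Module ℝ V] (n : ℕ) (f : Fin n → V),
    (∀ (k : ℕ) (F G : List V → ℝ) (a b : ℝ),
      sumL f k (fun l => a * F l + b * G l) = a * sumL f k F + b * sumL f k G) ∧
    (∀ (B : V → V → ℝ), IP B → Fr B f →
      (∀ (k : ℕ) (F G : List V → ℝ), MlL F k → MlL G k → ∀ Φ : V → V,
        (∀ a b, B (Φ a) b = -B a (Φ b)) →
        sumL f k (fun l => dS F l (l.map Φ) * G l + F l * dS G l (l.map Φ)) = 0) ∧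
      (∀ (k : ℕ) (F : List V → ℝ), MlL F k → sumL f k (fun l => F l ^ 2) = 0 →
        ∀ l : List V, l.length = k → F l = 0) ∧
      (∀ (k : ℕ) (F : List V → ℝ), MlL F k → ∀ Φ : V → V, (∀ a b, B (Φ a) b = -B a (Φ b)) →
        ∀ c : ℝ, (∀ l : List V, l.length = k → dS F l (l.map Φ) = c * F l) →
          c = 0 ∨ ∀ l : List V, l.length = k → F l = 0)) ∧
    ∀ (k : ℕ) (F : List V → ℝ), MlL F k → (∀ v, ∃ a : Fin n → ℝ, v = ∑ i, a i • f i) →
      (∀ l : List V, l.length = k → (∀ v ∈ l, ∃ i, v = f i) → F l = 0) →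
      ∀ l : List V, l.length = k → F l = 0

/-- **Sb** (first properties of `S`).  Proof.  (1) `el T x l = ev T x (fun i => l.getD i 0)`, and
replacing the entry number `i` of `l` replaces the value at `i` of the tuple (`Function.update`);
`KO.sLin`.  For `S`: on lists of length `k ≥ 4` `S g x l = el (SJ g (k-4)) x l` and
`4 + (k - 4) = k`.  (2) `SJ g 0 = R4 g`, `SJ g 1 = N g`, `SJ g 2 = N2 g`, `SJ g 3 = N3 g` by definition; the
tuples agree (`funext i; fin_cases i; rfl`).  (3) the same.  (4) Induction on `j`, `KO.sSmo`.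
(5) On a list of coordinate vectors `ev` is the component (`KO.sLin`). -/
def S_Sb : Prop :=
  ∀ (n : ℕ) (g : Pt n → Matrix (Fin n) (Fin n) ℝ) (x : Pt n),
    ((∀ (k : ℕ) (T : TF n k), MlL (el T x) k) ∧ ∀ k : ℕ, 4 ≤ k → MlL (S g x) k) ∧
    ((∀ a b c d, S g x [a, b, c, d] = e4 (R4 g) x a b c d) ∧
      (∀ z a b c d, S g x [z, a, b, c, d] = e5 (N g) x z a b c d) ∧
      (∀ y z a b c d, S g x [y, z, a, b, c, d] = e6 (N2 g) x y z a b c d) ∧
      ∀ w y z a b c d, S g x [w, y, z, a, b, c, d] = e7 (N3 g) x w y z a b c d) ∧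
    ((∀ (T : TF n 1) (a : Pt n), el T x [a] = e1 T x a) ∧
      (∀ (T : TF n 2) (a b : Pt n), el T x [a, b] = e2 T x a b) ∧
      ∀ (T : TF n 3) (a b c : Pt n), el T x [a, b, c] = e3 T x a b c) ∧
    (∀ Ω : Set (Pt n), IsMetricOn g Ω → ∀ j, Sm Ω (SJ g j)) ∧
    ∀ (k : ℕ) (T : TF n k) (I : Fin k → Fin n),
      el T x ((List.ofFn I).map fun i => bv i) = T I x

/-- **Sd** (the curve lemma for lists).  Available: `S_La`, `S_Sb`.  `L` is a list of triples (curve of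
vectors, its value at `0`, its covariant derivative).  Proof: `KO.sCrv` for `T = SJ g (L.length - 4)`
(smooth by `S_Sb`), with the tuples `v j = (L.get j).1` etc.; `S g y l = el (SJ g (l.length - 4)) y l` and all
lists in question have the length of `L` (one more for `X :: …`, and `SJ g (j+1) = D g (SJ g j)`).  The sum
over the slots is `dS` by `S_La` (9) (`List.getD_map`, `List.getD_set`, `Function.update`).
Second statement: apply the first one to the curves `t ↦ v - t • Chr g p X v` (`KO.sCvb`) with covariant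
derivative `0`; the `dS` vanishes by `S_La` (4). -/
def S_Sd : Prop :=
  ∀ (n : ℕ) (g : Pt n → Matrix (Fin n) (Fin n) ℝ) (Ω : Set (Pt n)), IsMetricOn g Ω →
    ∀ p ∈ Ω, ∀ X : Pt n,
      (∀ L : List ((ℝ → Pt n) × Pt n × Pt n), 4 ≤ L.length →
        (∀ e ∈ L, Cv g p X e.1 e.2.1 e.2.2) →
        HasDerivAt (fun t : ℝ => S g (p + t • X) (L.map fun e => e.1 t))
          (S g p (X :: L.map fun e => e.2.1)
            + dS (S g p) (L.map fun e => e.2.1) (L.map fun e => e.2.2)) 0) ∧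
      ∀ l : List (Pt n), 4 ≤ l.length →
        HasDerivAt (fun t : ℝ => S g (p + t • X) (l.map fun v => v - t • Chr g p X v))
          (S g p (X :: l)) 0

/-- **Sr** (Ricci identity for lists).  Available: `S_La`, `S_Sb`.  Proof: `KO.sRic` for
`T = SJ g (l.length - 4)`; the sum over the slots is `dS` by `S_La` (9). -/
def S_Sr : Prop :=
  ∀ (n : ℕ) (g : Pt n → Matrix (Fin n) (Fin n) ℝ) (Ω : Set (Pt n)), IsMetricOn g Ω →
    ∀ p ∈ Ω, ∀ (x y : Pt n) (l : List (Pt n)), 4 ≤ l.length →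
      S g p (x :: y :: l) - S g p (y :: x :: l) = -dS (S g p) l (l.map (Rv g p x y))

/-- **Sc** (symmetries of `∇^j R`).  Available: `S_Sb`, `S_Sd`.  Proof: induction on the length of `w`,
for all points of `Ω` at once.  For `w = []`: `KO.sSym`, `KO.sBi2`, `S_Sb` (2).  Step: each of the
identities (e.g. `S(w ++ [b,a,c,d]) + S(w ++ [a,b,c,d]) = 0`) holds at the points `p + tX`, `t` near `0`,
with every vector `v` replaced by `v - t • Chr g p X v`; differentiate at `t = 0` (second part of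
`S_Sd`, `List.map_append`): the same identity for `X :: w`.  Linearity in the first of the four slots:
`S_Sb` (1). -/
def S_Sc : Prop :=
  ∀ (n : ℕ) (g : Pt n → Matrix (Fin n) (Fin n) ℝ) (Ω : Set (Pt n)), IsMetricOn g Ω →
    ∀ x ∈ Ω, ∀ w : List (Pt n), Crvt (fun a b c d => S g x (w ++ [a, b, c, d])) ∧
      ∀ z a b c d, S g x (w ++ [z, a, b, c, d]) + S g x (w ++ [a, b, z, c, d])
        + S g x (w ++ [b, z, a, c, d]) = 0

/-- **Ds** (descent).  Available: `S_La`, `S_Ad`, `S_Sb`, `S_Sr`.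
Let `F = S g p` on lists of length `k`, `Z(u,v)(l) = S(u :: v :: l) - S(v :: u :: l)
= -dS F l (l.map (Rv g p u v))` (`S_Sr`), `f` an orthonormal basis (`KO.sOnb`), `⟨F,G⟩ = sumL f k (F G)`.
`Rv g p u v` and `A` are linear and skew (`KO.sSym`: `⟨R(u,v)a,b⟩ = R(u,v,a,b)`, `a34`; nondegeneracy).
Proof.  (a) The hypothesis on the lists `u :: v :: l` and `v :: u :: l`, subtracted:
`dS (Z(u,v)) l (l.map A) = -Z(Au,v)(l) - Z(u,Av)(l)`  (definition of `dS` twice; `dS` is additive in `F`).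
(b) `⟨Z(u,v),F⟩ = 0` for all `u, v`: `S_Ad` (2) with `G = F`, `Φ = Rv g p u v`.
(c) Let `G(l) = dS F l (l.map A)` (multilinear, `S_La` (7)).  By `S_Ad` (2) for `Z(u,v)` and `F`:
`⟨Z(u,v),G⟩ = -⟨dS (Z(u,v)) A, F⟩ = ⟨Z(Au,v) + Z(u,Av),F⟩ = 0`.
(d) `G(l) = ∑ w_{ij} dS F l (l.map (Rv g p (h i) (h j))) = -∑ w_{ij} Z(h_i,h_j)(l)` (`S_La` (5)), so
`⟨G,G⟩ = -∑ w_{ij} ⟨Z(h_i,h_j),G⟩ = 0`, and `G = 0` by `S_Ad` (3). -/
def S_Ds : Prop :=
  ∀ (n : ℕ) (g : Pt n → Matrix (Fin n) (Fin n) ℝ) (Ω : Set (Pt n)), IsMetricOn g Ω →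
    ∀ p ∈ Ω, ∀ (j : ℕ) (h : Fin j → Pt n) (w : Fin j → Fin j → ℝ) (A : Pt n → Pt n),
      (∀ a, A a = ∑ i, ∑ i', w i i' • Rv g p (h i) (h i') a) →
      ∀ k, 4 ≤ k → Kl g p A (k + 2) → Kl g p A k

/-- **Kc** (the conditions `Kl` for `R`, `∇R`, `∇²R`).  Available: `S_Sb`.  Proof: a list of length `4`
is `[a, b, c, d]` etc. (`List.length_eq_succ_iff` or pattern matching); unfold `dS`; `S_Sb` (2); sign. -/
def S_Kc : Prop :=
  ∀ (n : ℕ) (g : Pt n → Matrix (Fin n) (Fin n) ℝ) (x : Pt n) (Φ : Pt n → Pt n),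
    (Kl g x Φ 4 ↔ ∀ a b c d, act4 Φ (e4 (R4 g) x) a b c d = 0) ∧
    (Kl g x Φ 5 ↔ ∀ z a b c d, act5 Φ (e5 (N g) x) z a b c d = 0) ∧
    (Kl g x Φ 6 ↔ ∀ y z a b c d, act6 Φ (e6 (N2 g) x) y z a b c d = 0)

/-! ## B. the equation -/

/-- **Tr** (`t^r = 0`).  Available: `S_Sb`, `S_Sc`.  Proof.  Let `l` have length `r ≥ 1`,
`l = w ++ [c]`.  Take the equation `ks` on the three lists `w ++ [c,u,v,z,z']`, `w ++ [u,v,c,z,z']`,
`w ++ [v,c,u,z,z']` and add.  The sum of the first terms vanishes (`S_Sc`, second part); for `m < r`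
(`m ≤ w.length`) `take m` is the same list for all three and the sum of the `S(drop m …)` vanishes
(`S_Sc`; `List.take_append_of_le_length`, `List.drop_append_of_le_length`).  There remains the term `m = r`:
`σ(c) R(u,v,z,z') + σ(u) R(v,c,z,z') + σ(v) R(c,u,z,z') = 0` with `σ(c) = el (τ r) x (w ++ [c])`, a linear
form.  Suppose `σ ≠ 0`; Riesz (`KO.sOnb`, `IP.riesz`): `σ = ⟨T,·⟩`, `T ≠ 0`, `e = T/√⟨T,T⟩`, frame `f` with
`f 0 = e` (`KO3.sFrm`, `Eu.fr`, `n ≥ 3`).  For `(c,u,v) = (e, f 1, f 2)`: `σ(e) R(f₁,f₂,z,z') = 0`, a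
contradiction to `NSi` for the orthonormal pair `f 1, f 2` and the matrix `(0 1; -1 0)` (as in
`KO3/T3.lean`). -/
def S_Tr : Prop :=
  ∀ (n : ℕ) (g : Pt n → Matrix (Fin n) (Fin n) ℝ) (Ω : Set (Pt n)) (r : ℕ)
    (τ : (m : ℕ) → TF n m), 3 ≤ n → 1 ≤ r → KSr g Ω r τ → ∀ x ∈ Ω, ∀ l : List (Pt n),
      l.length = r → el (τ r) x l = 0

/-- **To** (`R(u,v)` annihilates `∇^{r-2} R` for `u, v ∈ ker t¹`).  Available: `S_Ad`, `S_Sb`, `S_Sr`,
`S_Tr`.  Proof.  Let `l` have length `r + 2`.  Subtract the equations `ks` for `u :: v :: l` and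
`v :: u :: l`.  `m = 1`: `el (τ 1) [u] = 0 = el (τ 1) [v]`.  `m = 2`: `c S(l)`, `c = t²(u,v) - t²(v,u)`.
`3 ≤ m < r`: `take m` is `u :: v :: l.take (m-2)` and `drop m` is `l.drop (m-2)`; the difference vanishes
by `Sy`.  `m = r`: `S_Tr`.  So `S(u :: v :: l) - S(v :: u :: l) = -c S(l)`, and by `S_Sr`
`dS (S g p) l (l.map (Rv g p u v)) = c S(l)`.  `Rv g p u v` is skew; `S_Ad` (4) (frame from `KO.sOnb`):
`c = 0` or `S = 0` on lists of this length; in both cases the right side vanishes. -/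
def S_To : Prop :=
  ∀ (n : ℕ) (g : Pt n → Matrix (Fin n) (Fin n) ℝ) (Ω : Set (Pt n)) (r : ℕ)
    (τ : (m : ℕ) → TF n m), 3 ≤ n → 3 ≤ r → KSr g Ω r τ → Sy Ω r τ → ∀ p ∈ Ω, ∀ u v,
      e1 (τ 1) p u = 0 → e1 (τ 1) p v = 0 → Kl g p (Rv g p u v) (r + 2)

/-- **Br1** (components of `∇^j R` in the two formalisms).  Proof: induction on `j`, for all points of
`Ω` at once; compare `KO/Brg.lean` (the lemmas `brLow`, `brN`, `brN2` there are the cases `j = 1, 2`; copy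
`brLow` and `brPd`, which are private).  `j = 0` is the definition of `R4`.  Step: let `i₀ :: c` have
length `j + 1`.  By definition of `D`, `SJ g (j+1)` on the multi-index `i₀ :: c ++ [m,p,b,d]` is
`∂_{i₀}` of the component of `SJ g j` on `c ++ [m,p,b,d]` minus the sum over the slots of this list of
`∑_s Γ^s_{i₀ l_k} SJ g j (l with l_k := s)`.  Insert the induction hypothesis (valid on the open set
`Ω`, so also for the derivative).  The terms of the slots `c, m, p, b` are `∑_e g_{ed}` times the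
corresponding terms of `cov g (nablaR g j)`; the derivative together with the term of the slot `d` is
`∑_e g_{ed} (∂_{i₀} T_e + ∑_s Γ^e_{i₀ s} T_s)` by `brLow`, `T_e = nablaR g j e (c ++ [b,m,p])`.  To compare
the sums over slots write both as a sum over the entries of `c` and four, resp. three, more terms
(`Fin.sum_univ_add`, `Fin.sum_univ_four`, `Fin.sum_univ_three`; `List.get_append`, `List.set_append`). -/
def S_Br1 : Prop :=
  ∀ (n : ℕ) (g : Pt n → Matrix (Fin n) (Fin n) ℝ) (Ω : Set (Pt n)), IsMetricOn g Ω →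
    ∀ x ∈ Ω, ∀ (c : List (Fin n)) (m p b d : Fin n),
      S g x ((c ++ [m, p, b, d]).map fun i => bv i)
        = ∑ e, g x e d * nablaR g c.length e (c ++ [b, m, p]) x

/-- **Br2** (the equation on vectors).  Available: `S_Ad`, `S_Sb`, `S_Br1`.  Proof.  The left side of
the claim is a multilinear function of `l` (a slot is in `take m` or in `drop m`; `S_Sb` (1),
`List.take_append`, `List.drop_append`), so by `S_Ad` (5) with the coordinate vectors `f i = bv i` it is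
enough to prove the claim for `l = L.map bv`, `L = c ++ [m,p,b,d]` (`c` of length `r`).  Take the equation
`KSAt` for `e` and the list `c ++ [b,m,p]`, multiply by `g_{ed}` and sum over `e`.  For `m' ≤ r` the
`take m'` is `c.take m'` for both lists and `drop m'` is `c.drop m' ++ …`; `S_Br1`, and
`el (tT t m') x ((c.take m').map bv) = t m' (c.take m') x` (`S_Sb` (5), `List.ofFn_get`). -/
def S_Br2 : Prop :=
  ∀ (n : ℕ) (g : Pt n → Matrix (Fin n) (Fin n) ℝ) (Ω : Set (Pt n)) (r : ℕ), IsMetricOn g Ω →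
    ∀ t : ℕ → List (Fin n) → Pt n → ℝ, (∀ x ∈ Ω, KSAt g r (fun m l => t m l x) x) →
    ∀ x ∈ Ω, ∀ l : List (Pt n), l.length = r + 4 →
      S g x l + ∑ m ∈ Finset.Icc 1 r, el (tT t m) x (l.take m) * S g x (l.drop m) = 0

/-- **Br3** (the symmetry condition on vectors).  Available: `S_Ad`, `S_Sb`.  Proof.
`e1 (tT t 1) x u = ∑ i, t 1 [i] x * u i` (expand `ev` over `Fin 1 → Fin n`).  For fixed `u, v` the function
`l ↦ el (tT t m) x (u :: v :: l) - el (tT t m) x (v :: u :: l)` is multilinear in the list `l` of length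
`m - 2`, so by `S_Ad` (5) it is enough to take `l = L.map bv`; then by linearity in the first two slots
(`u = ∑ u i • bv i`) it is `∑ i j, t m (i :: j :: L) x * (u i * v j - v i * u j)`. -/
def S_Br3 : Prop :=
  ∀ (n : ℕ) (Ω : Set (Pt n)) (r : ℕ) (t : ℕ → List (Fin n) → Pt n → ℝ),
    (∀ x ∈ Ω, ∀ m, 3 ≤ m → m < r → SymKer (fun m l => t m l x) m) → Sy Ω r (tT t)

/-! ## C. algebra at a point, even order -/

/-- **Ij** (the curvature operator is injective on sums of bivectors).  Proof.  Let `f` be a frame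
(`Eu.ex`, `Eu.fr`).  Expand `u i = ∑_k ⟨u i,f_k⟩ f_k`, `v i` the same.  The matrix
`w_{kl} = ∑_i (⟨u i,f_k⟩⟨v i,f_l⟩ - ⟨v i,f_k⟩⟨u i,f_l⟩)` is skew and
`∑_{kl} w_{kl} R(f_k,f_l,a,b) = ∑_i (R(u i,v i,a,b) - R(v i,u i,a,b)) = 2 ∑_i R(u i,v i,a,b) = 0`
(linearity, `a12`), so `w = 0` by `NSi`.  `⟨∑_i (u i ∧ v i) a, b⟩ = ∑_i (⟨v i,a⟩⟨u i,b⟩ - ⟨u i,a⟩⟨v i,b⟩)
= ∑_{kl} w_{kl} ⟨f_l,a⟩⟨f_k,b⟩ = 0` for all `b`; nondegeneracy. -/
def S_Ij : Prop :=
  ∀ (V : Type) [AddCommGroup V] [Module ℝ V] (B : V → V → ℝ) (m : ℕ) (R : V → V → V → V → ℝ),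
    Eu B m → Crvt R → NSi B R → ∀ (k : ℕ) (u v : Fin k → V),
      (∀ a b, ∑ i, R (u i) (v i) a b = 0) → ∀ a, ∑ i, wd B (u i) (v i) a = 0

/-- **Ea** (the curvature operators of the planes in `e^⊥` annihilate `e`).  Available: `S_Ij`.
Proof.  Let `x, y ⊥ e`, `A = Ro x y` (`⟨Aa,b⟩ = R(x,y,a,b)`, skew).  The hypothesis on `(x,y,c,d)`:
`R(Ax,y,c,d) + R(x,Ay,c,d) + R(x,y,Ac,d) + R(x,y,c,Ad) = 0`, and the last two terms are
`⟨A(Ac),d⟩ + ⟨Ac,Ad⟩ = 0`.  `S_Ij` (`k = 2`): `Ax ∧ y + x ∧ Ay = 0`, i.e. for all `a`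
`⟨y,a⟩ Ax - ⟨Ax,a⟩ y + ⟨Ay,a⟩ x - ⟨x,a⟩ Ay = 0`.  Inner product with `e`:
`⟨y,a⟩⟨Ax,e⟩ = ⟨x,a⟩⟨Ay,e⟩`.  For `x ⊥ y` and `a = y`: `⟨y,y⟩ R(x,y,x,e) = 0`, so `R(x,y,x,e) = 0` for
orthogonal `x, y ∈ e^⊥`, and then for all `x, y ∈ e^⊥` (subtract from `y` its component along `x`;
`R(x,x,…) = 0`; `x = 0` is trivial).  Polarise in `x`: `T(x,y,z) = R(x,y,z,e)` satisfies
`T(x,y,z) = -T(z,y,x)` on `e^⊥`, and `T(x,y,z) = -T(y,x,z)`, so `T(x,y,z) = T(y,z,x) = T(z,x,y)` and the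
Bianchi identity gives `3T = 0`.  Finally `R(x,y,e,a)` for `a = ⟨e,a⟩e + a'`: `R(x,y,e,e) = 0` and
`R(x,y,e,a') = -T(x,y,a') = 0`. -/
def S_Ea : Prop :=
  ∀ (V : Type) [AddCommGroup V] [Module ℝ V] (B : V → V → ℝ) (m : ℕ) (R : V → V → V → V → ℝ)
    (Ro : V → V → V → V), Alg B m R Ro → ∀ e, B e e = 1 →
      (∀ x y, B e x = 0 → B e y = 0 → ∀ a b c d, act4 (Ro x y) R a b c d = 0) →
      ∀ x y, B e x = 0 → B e y = 0 → ∀ a, R x y e a = 0

/-- **NfR** (normal form of `R`).  Proof.  Let `f` be a frame with `f 0 = e`, `d_i = f i.succ`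
(`i : Fin m`, `m ≥ 2`).  `KO3.sCIn` (first part): `R(d_k,d_l,d_p,d_q) = κ G0(d_k,d_l,d_p,d_q)`.
`h_{ij} = R(e,d_i,e,d_j)` is symmetric (`sw`) and `rt2 i j h = 0` (`(d_i ∧ d_j) e = 0`,
`(d_i ∧ d_j) d_i = -d_j`, `(d_i ∧ d_j) d_j = d_i`; the hypothesis on `(e,d_a,e,d_b)`), so
`h_{ab} = h δ_{ab}` (`KO3.sCi23`).  `R(d_i,d_j,e,d_k) = 0` by hypothesis, so also `R(e,d_k,d_i,d_j) = 0`.
Put `α = κ`, `β = -h - κ`: `G0(e,x,e,y) = -⟨x,y⟩ = KN(e²)(e,x,e,y)` for `x, y ⊥ e`, and `KN(e²)` vanishes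
on lists with `0`, `1` entries `e` and all others orthogonal to `e`; compare the values on frame vectors
(symmetries `a12, a34, sw` of both sides), then multilinearity. -/
def S_NfR : Prop :=
  ∀ (V : Type) [AddCommGroup V] [Module ℝ V] (B : V → V → ℝ) (m : ℕ) (R : V → V → V → V → ℝ),
    Eu B m → 2 ≤ m → Crvt R → ∀ e, B e e = 1 →
      (∀ x y, B e x = 0 → B e y = 0 → ∀ a, R x y e a = 0) →
      (∀ u v, B e u = 0 → B e v = 0 → ∀ a b c d, act4 (wd B u v) R a b c d = 0) →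
      ∃ α β : ℝ, ∀ a b c d, R a b c d = α * G0 B a b c d
        + β * KN B (fun p q => B e p * B e q) a b c d

/-- **PE** (the pointwise structure, even order).  Available: `S_Sb`, `S_Ds`, `S_Kc`, `S_To`, `S_Ea`,
`S_NfR`.  Proof.  Let `x ∈ Ω`, `u, v ∈ ker (τ 1)`.  `S_To`: `Kl g x (Rv g x u v) (r+2)`; descend in steps of
two (`S_Ds` with `j = 2`, `h = ![u, v]`, `w = !![0, 1; 0, 0]`): `Kl … 6` and `Kl … 4` (`r` even, `r ≥ 4`), i.e.
(`S_Kc`) `act6 (Rv g x u v) (e6 (N2 g) x) = 0` and `act4 (Rv g x u v) (e4 (R4 g) x) = 0`.  If `τ 1 = 0` at `x`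
this is the first statement.  Second statement: `e1 (τ 1) x v = s⟨e,v⟩`, so the above holds for
`u, v ⊥ e`.  `Alg (ip g x) (n-1) (e4 (R4 g) x) (Rv g x)` (`KO3.sFrm`, `KO.sSym`, `KSr.ns`).  `S_Ea`:
`R(x,y,e,a) = 0` for `x, y ⊥ e`.  `KO3.sGenD` with `ν = e`: every `u ∧ v`, `u, v ⊥ e`, is a combination of the
`Rv g x (h i) (h j)`, `h i ⊥ e`; `act4`, `act6` are linear in the endomorphism (`KO.sLin`), so `u ∧ v`
annihilates `R` and `∇²R`.  `S_NfR`. -/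
def S_PE : Prop :=
  ∀ (n : ℕ) (g : Pt n → Matrix (Fin n) (Fin n) ℝ) (Ω : Set (Pt n)) (r : ℕ)
    (τ : (m : ℕ) → TF n m), 3 ≤ n → 4 ≤ r → Even r → KSr g Ω r τ → Sy Ω r τ →
      PtJ g Ω (τ 1) (InvE g)

/-! ## D. the structure on an open set -/

/-- **Sco** (the coefficients are smooth).  Proof.  Choose `α(x), β(x)` by the hypothesis for `x ∈ U`.
Let `p ∈ U`, `f` a frame at `p` with `f 0 = du g θ p` (`KO3.sFrm`, `Eu.fr`), `a₀ = f 1`, `b₀ = f 2`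
(constant vectors).  With `W(x) = du g θ x` (smooth: `(du g θ x) a = ∑_b (g x)⁻¹ a b θ ![b] x`, `KO.sSmo`)
put `A = a₀ - θ(a₀) W`, `C' = b₀ - θ(b₀) W`, `C = C' - (⟨C',A⟩/⟨A,A⟩) A`; near `p` these are smooth,
`⟨A,A⟩, ⟨C,C⟩ > 0`, and `A, C, W` are mutually orthogonal (at `p` they are `a₀, b₀, W`).  The formula gives
`R(A,C,C,A) = α ⟨A,A⟩⟨C,C⟩` and `R(A,W,W,A) = (α + β) ⟨A,A⟩`, so near `p` `α` and `β` are quotients of smooth
functions (`e4 (R4 g) x` of smooth vector fields is smooth: expand `ev`).  So `α, β` are smooth on `U`. -/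
def S_Sco : Prop :=
  ∀ (n : ℕ) (g : Pt n → Matrix (Fin n) (Fin n) ℝ) (U : Set (Pt n)) (θ : TF n 1), 3 ≤ n →
    IsMetricOn g U → Unit1 g U θ →
    (∀ x ∈ U, ∃ α β : ℝ, ∀ a b c d, e4 (R4 g) x a b c d = α * G0 (ip g x) a b c d
      + β * KN (ip g x) (fun p q => ip g x (du g θ x) p * ip g x (du g θ x) q) a b c d) →
    ∃ α β : Pt n → ℝ, ContDiffOn ℝ ∞ α U ∧ ContDiffOn ℝ ∞ β U ∧ ∀ x ∈ U, ∀ a b c d,
      e4 (R4 g) x a b c d = α x * G0 (ip g x) a b c d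
        + β x * KN (ip g x) (fun p q => e1 θ x p * e1 θ x q) a b c d

/-- **Re** (reduction to an open set).  Available: `S_Sco`.  Proof.  `U₀ = {x ∈ Ω : ∇R ≠ 0 at x}` is
open (the components of `N g` are continuous; `KO.sLin`: `N ≠ 0` at `x` if and only if some component is
not `0`) and contains `p`.  (a) `e1 τ x = 0` for all `x ∈ U₀` is impossible: then
`act4 (Rv g x u v) R = 0` on `U₀` by `PtJ`, so `∇R = 0` on `U₀` by `KO3.sCb2`.  So
`U₁ = {x ∈ U₀ : e1 τ x ≠ 0}` is open and nonempty.  `KO3.sUni`: `θ` with `Unit1 g U₁ θ`,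
`e1 τ x v = s e1 θ x v = s ⟨du g θ x, v⟩`, `s ≠ 0`.  `PtJ` with `e = du g θ x` gives the formula for `R` on
`U₁` and `J x e`; `S_Sco`: smooth `α, β`.  (b) `β = 0` on all of `U₁` is impossible: then `R = α G0` and
`act4 Φ R = 0` for all skew `Φ` (`G0 = KN(½⟨·,·⟩)`, `KO3.sKNa` (4), (2), and `act2 Φ ⟨·,·⟩ = 0`), in
particular for `Rv g x u v`, so again `∇R = 0` on `U₁` by `KO3.sCb2`.  So `U = {x ∈ U₁ : β x ≠ 0}` is open
and nonempty.  All hypotheses restrict to open subsets. -/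
def S_Re : Prop :=
  ∀ (n : ℕ) (g : Pt n → Matrix (Fin n) (Fin n) ℝ) (Ω : Set (Pt n)) (τ : TF n 1)
    (J : Pt n → Pt n → Prop), 3 ≤ n → IsMetricOn g Ω → Sm Ω τ →
    (∀ x ∈ Ω, NSi (ip g x) (e4 (R4 g) x)) → PtJ g Ω τ J →
    ∀ p ∈ Ω, (∃ z a b c d, e5 (N g) p z a b c d ≠ 0) →
      ∃ U ⊆ Ω, U.Nonempty ∧ ∃ (θ : TF n 1) (α β : Pt n → ℝ), Rot g U θ α β ∧
        ∀ x ∈ U, J x (du g θ x)

/-- **Nn** (`∇R`).  Proof.  (1) Insert curves with vanishing covariant derivative along `z` for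
`a, b, c, d` (`KO3.sCvP`, last part) into the formula for `R` at `x + tz` and differentiate at `t = 0`
(`KO3.sCvP`: ranks 4 and 1, inner products; chain rule for `α(x + tz)`, `β(x + tz)`).
(2) `θ(W) = 1` on `U`; differentiate along `X`: the curve `du g θ (x + tX)` has covariant derivative
`E = up g (D g θ) x ![X]` (`KO.sCvU` with `k = 0`), so `0 = (Dθ)(X,W) + θ(E) = 2 (Dθ)(X,W)`
(`θ(E) = ⟨W,E⟩ = (Dθ)(X,W)`, `KO.sUp`), as in step (3) of `KO3/Kz2.lean`.  (3) is `KO.sCvU` with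
`k = 0` (`Fin 0 → …` is a subsingleton). -/
def S_Nn : Prop :=
  ∀ (n : ℕ) (g : Pt n → Matrix (Fin n) (Fin n) ℝ) (U : Set (Pt n)) (θ : TF n 1)
    (α β : Pt n → ℝ), Rot g U θ α β → ∀ x ∈ U,
    (∀ z a b c d, e5 (N g) x z a b c d = fderiv ℝ α x z * G0 (ip g x) a b c d
      + fderiv ℝ β x z * KN (ip g x) (fun p q => e1 θ x p * e1 θ x q) a b c d
      + β x * KN (ip g x) (sy2 (e1 θ x) (e2 (D g θ) x z)) a b c d) ∧
    (∀ X, e2 (D g θ) x X (du g θ x) = 0) ∧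
    ∀ X, Cv g x X (fun t => du g θ (x + t • X)) (du g θ x) (up g (D g θ) x ![X])

/-- **Bn** (consequences of the second Bianchi identity, `n ≥ 4`).  Available: `S_Nn`.
Write `b(z,a) = (Dθ)(z,a)`, `h(a) = b(W,a)`, `x, y, z, a, c, d ∈ K = W^⊥`; `b(·,W) = 0`; `KO.sBi2`.
Fix one frame `f` at `x` with `f 0 = W` (`KO3.sFrm`, `Eu.fr`, length `n ≥ 4`): it is enough to prove the
relations for the frame vectors `f_i`, `i ≥ 1` (then expand every vector by `Fr.ex`).  Proof.  Values from `S_Nn` (`KN(S)(a,b,c,d) = ⟨a,d⟩S(b,c) + S(a,d)⟨b,c⟩ - ⟨a,c⟩S(b,d) - S(a,c)⟨b,d⟩`):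
`N(z;a,b,c,d) = dα(z) G0(a,b,c,d)` (all in `K`, also for `z = W`),
`N(z;a,W,c,d) = β (⟨a,d⟩ b(z,c) - ⟨a,c⟩ b(z,d))`, `N(z;a,W,y,W) = -(dα + dβ)(z) ⟨a,y⟩`,
`N(W;z,a,y,W) = β (h(z)⟨a,y⟩ - h(a)⟨z,y⟩)`.
(1) Bianchi for `(z,a,b) = (f_i,f_j,f_k)`, `i, j, k ≥ 1` distinct, on `(b,a)`: `dα(f_i) = 0`.
(2) Bianchi for `(z,a,W)` on `(c,d)`:
`β [⟨a,d⟩ b(z,c) - ⟨a,c⟩ b(z,d) - ⟨z,d⟩ b(a,c) + ⟨z,c⟩ b(a,d)] + dα(W) (⟨z,d⟩⟨a,c⟩ - ⟨z,c⟩⟨a,d⟩) = 0`.
With `z = f_i`, `d = a = f_j`, `c = z`: `β (b(f_i,f_i) + b(f_j,f_j)) = dα(W)` for `i ≠ j` (`≥ 1`); as there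
are at least three indices, all `b(f_i,f_i)` agree, value `c`, and `dα(W) = 2cβ`.  With `z = f_i`,
`c = f_k`, `d = a = f_j`, `i, j, k` distinct: `b(f_i,f_k) = 0`.  So `b(u,v) = c⟨u,v⟩` on `K`, and
`dα(v) = 2cβ θ(v)` for all `v`.
(3) Bianchi for `(z,a,W)` on `(y,W)` with `y = a = f_j`, `z = f_i`, `i ≠ j`:
`-(dα+dβ)(z) + β h(z) = 0` (the term `N(a;W,z,a,W) = -N(a;z,W,a,W) = (dα+dβ)(a)⟨z,a⟩ = 0`), and
`dα(z) = 0` by (1). -/
def S_Bn : Prop :=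
  ∀ (n : ℕ) (g : Pt n → Matrix (Fin n) (Fin n) ℝ) (U : Set (Pt n)) (θ : TF n 1)
    (α β : Pt n → ℝ), 4 ≤ n → Rot g U θ α β → ∀ x ∈ U, ∃ c : ℝ,
    (∀ u v, e1 θ x u = 0 → e1 θ x v = 0 → e2 (D g θ) x u v = c * ip g x u v) ∧
    (∀ v, fderiv ℝ α x v = 2 * (c * β x) * e1 θ x v) ∧
    ∀ z, e1 θ x z = 0 → fderiv ℝ β x z = β x * e2 (D g θ) x (du g θ x) z

/-- **Mw** (a component of `∇²R`).  Available: `S_Nn`.  Let `b(z,a) = (Dθ)(z,a)`.  Proof.
(1) By `S_Nn`: for `z` arbitrary and `a, c ∈ K` orthogonal `N(z;a,W,W,c) = 0`, at all points of `U`.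
(2) Differentiate (1) at `x` along `X`.  Curves: `ζ` through `z` with vanishing covariant derivative;
`W(t) = du g θ (x + tX)`, covariant derivative `E = up g (D g θ) x ![X]` (`S_Nn`), `⟨E,v⟩ = b(X,v)`,
`θ(E) = 0`; `a₁, c₁` with vanishing covariant derivative through `a, c`, `a(t) = a₁ - θ(a₁) W(t)`,
`c'(t) = c₁ - θ(c₁) W(t)`, `c(t) = c' - (⟨c',a(t)⟩/⟨a(t),a(t)⟩) a(t)` (`a ≠ 0`; near `t = 0`): they are
orthogonal to each other and to `W(t)`; `θ(a₁)` has value `0` and derivative `b(X,a)`, so `a(t)` has the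
covariant derivative `-b(X,a) W` and `c'` the covariant derivative `-b(X,c) W`; `⟨c',a⟩` has value `0` and
derivative `⟨-b(X,c)W,a⟩ + ⟨c,-b(X,a)W⟩ = 0`, so `c(t)` has the covariant derivative `-b(X,c) W`
(`KO.sCvb`, `KO.sCvI`).  So by `KO.sCvE` (rank 5; terms with a vanishing vector are `0`)
`0 = M(X,z;a,W,W,c) + N(z;-b(X,a)W,W,W,c) + N(z;a,E,W,c) + N(z;a,W,E,c) + N(z;a,W,W,-b(X,c)W)`.
The second and the last term vanish (`a12`, `a34`).  By `S_Nn` (`E ∈ K`, `a ⊥ c`)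
`N(z;a,E,W,c) = -β b(z,a) ⟨E,c⟩ = -β b(z,a) b(X,c)` and `N(z;a,W,E,c) = -β ⟨a,E⟩ b(z,c) = -β b(X,a) b(z,c)`.
So `M(X,z;a,W,W,c) = β (b(z,a) b(X,c) + b(X,a) b(z,c))`; take `X = z = W`. -/
def S_Mw : Prop :=
  ∀ (n : ℕ) (g : Pt n → Matrix (Fin n) (Fin n) ℝ) (U : Set (Pt n)) (θ : TF n 1)
    (α β : Pt n → ℝ), Rot g U θ α β → ∀ x ∈ U, ∀ a c, e1 θ x a = 0 → e1 θ x c = 0 →
      ip g x a c = 0 → a ≠ 0 →
      e6 (N2 g) x (du g θ x) (du g θ x) a (du g θ x) (du g θ x) c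
        = 2 * (β x * (e2 (D g θ) x (du g θ x) a * e2 (D g θ) x (du g θ x) c))

/-- **He** (`∇_W W = 0`, even order).  Available: `S_Nn`, `S_Mw`.  Proof.  `h(v) = (Dθ)(W,v)`, `h(W) = 0`
(`S_Nn`).  Let `a, c ∈ K` be orthonormal.  `InvE` for `u = a`, `v = c` on `(W,W,a,W,W,a)`: the rotation
`a ∧ c` annihilates `W` and maps `a` to `-c`, so `M(W,W;c,W,W,a) + M(W,W;a,W,W,c) = 0`; by `S_Mw` and
`β ≠ 0`: `h(a) h(c) = 0`.  The same for the orthonormal pair `(a+c)/√2, (a-c)/√2`: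
`(h(a)+h(c))(h(a)-h(c)) = 0`.  So `h(a) = 0`.  Every unit vector `a ∈ K` has an orthogonal unit vector
`c ∈ K` (`KO3.sPrp`, `n ≥ 3`), so `h = 0` on `K` (linearity). -/
def S_He : Prop :=
  ∀ (n : ℕ) (g : Pt n → Matrix (Fin n) (Fin n) ℝ) (U : Set (Pt n)) (θ : TF n 1)
    (α β : Pt n → ℝ), 3 ≤ n → Rot g U θ α β → (∀ x ∈ U, InvE g x (du g θ x)) →
    ∀ x ∈ U, ∀ v, e2 (D g θ) x (du g θ x) v = 0

/-- **Rd** (functions with differential a multiple of `θ`).  Proof.  (1), (2), (3): rules for `fderiv`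
(`U` is open; `φ, ψ` are differentiable at the points of `U`).  (4) `dV W φ x = ∑_a (∂_a φ)(x) (W x) a`,
`W = du g θ` is smooth on `U` (`(du g θ x) a = ∑_b (g x)⁻¹ a b θ ![b] x`, `KO.sSmo`).
(5) Let `φ₁ = dV W φ`, smooth by (4).  For fixed vectors `X, Y` and `y ∈ U`
`fderiv φ y Y = φ₁(y) (e1 θ y Y)`; differentiate at `x` along `X` and subtract the same with `X, Y`
exchanged; second derivatives are symmetric (`ContDiffAt.isSymmSndFDerivAt`):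
`0 = dφ₁(X) θ(Y) - dφ₁(Y) θ(X) + φ₁ (∂_X (θ(Y)) - ∂_Y (θ(X)))`.  By the curve lemma for constant vectors
(`KO.sCvE` rank 1, `KO.sCvb`) `∂_X (θ(Y)) = (Dθ)(X,Y) + θ(Γ(X,Y))`, and `Γ` (`KO.sMet`) and `Dθ` are symmetric,
so the last bracket vanishes.  With `Y = W`, `θ(W) = 1`: `dφ₁(X) = dφ₁(W) θ(X)`.
(6) By (1)–(5) and induction on `q` (resp. `p`, `q`): `dE W c k φ = dV W φ - k c φ`. -/
def S_Rd : Prop :=
  ∀ (n : ℕ) (g : Pt n → Matrix (Fin n) (Fin n) ℝ) (U : Set (Pt n)) (θ : TF n 1), IsMetricOn g U →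
    Unit1 g U θ → (∀ x ∈ U, ∀ u v, e2 (D g θ) x u v = e2 (D g θ) x v u) →
    (∀ φ ψ, Rad g U θ φ → Rad g U θ ψ → Rad g U θ (fun x => φ x + ψ x) ∧
      Rad g U θ fun x => φ x * ψ x) ∧
    (∀ (r : ℝ), Rad g U θ fun _ => r) ∧
    (∀ φ ψ, Rad g U θ φ → (∀ x ∈ U, ψ x = φ x) → Rad g U θ ψ) ∧
    (∀ φ, ContDiffOn ℝ ∞ φ U → ContDiffOn ℝ ∞ (dV (du g θ) φ) U) ∧
    (∀ φ, Rad g U θ φ → Rad g U θ (dV (du g θ) φ)) ∧
    ∀ c β, Rad g U θ c → Rad g U θ β → (∀ q, Rad g U θ (Xq (du g θ) c β q)) ∧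
      ∀ p q, Rad g U θ (Apq (du g θ) c β p q)

/-- **Ws** (the final structure).  Available: `S_Nn`, `S_Bn`, `S_Rd`.  Let `W = du g θ`, `h = 0` the
hypothesis.  Proof.  `c(x) = dα(W)/(2β)`, smooth.  The `c` of `S_Bn` at `x` is `c(x)` (`v = W`).
`da`: `S_Bn`.  `dt`: decompose `u = θ(u) W + u'`, `v = θ(v) W + v'`: `(Dθ)(W,·) = 0`, `(Dθ)(·,W) = 0` (`S_Nn`),
so `(Dθ)(u,v) = c⟨u',v'⟩ = c (⟨u,v⟩ - θ(u)θ(v))`.  In particular `Dθ` is symmetric.  `db`: `dβ(z) = 0` for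
`z ∈ K` by `S_Bn`.  `dc`: `α` is `Rad`, so `dV W α = 2cβ` is `Rad` (`S_Rd` (5)), `β` is `Rad` and nowhere `0`,
so `c` is `Rad` (quotient rule): `dc(v) = dc(W) θ(v)`.  `dc(W)`: differentiate `dt` along `X` (curves with
vanishing covariant derivative, `KO3.sCvP`): `(DDθ)(X,Y,Z) = dc(X) (⟨Y,Z⟩ - θ(Y)θ(Z))
- c ((Dθ)(X,Y)θ(Z) + θ(Y)(Dθ)(X,Z))`.  For a unit vector `y ∈ K`: `(DDθ)(W,y,y) = dc(W)` and
`(DDθ)(y,W,y) = -c (Dθ)(y,y) = -c²`.  Ricci identity (`KO.sRic`, rank 1):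
`(DDθ)(W,y,y) - (DDθ)(y,W,y) = -θ(R(W,y)y) = -R(W,y,y,W) = -(α + β)` (`Rot.R`). -/
def S_Ws : Prop :=
  ∀ (n : ℕ) (g : Pt n → Matrix (Fin n) (Fin n) ℝ) (U : Set (Pt n)) (θ : TF n 1)
    (α β : Pt n → ℝ), 4 ≤ n → Rot g U θ α β → (∀ x ∈ U, ∀ v, e2 (D g θ) x (du g θ x) v = 0) →
    ∃ c, Wst g U θ α β c

/-- **Cz** (`c` does not vanish on an open set).  Proof.  If `c = 0` on `U`, then `fderiv ℝ c x = 0`, and
`dc` with `v = W`: `α + β = 0` at `x`.  Let `f` be a frame with `f 0 = W` (`KO3.sFrm`).  `Rot.R` gives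
`R(W,f₁,a,b) = (α + β) (⟨W,b⟩⟨f₁,a⟩ - ⟨W,a⟩⟨f₁,b⟩) = 0` for all `a, b`: contradiction to `NSi` for the
pair `W, f 1`.  So `c(x₀) ≠ 0` for some `x₀ ∈ U`; `U' = {x ∈ U : c x ≠ 0}` is open; restrict everything
(`fderiv` does not depend on the set; `du g θ`, `e1 θ` are the same). -/
def S_Cz : Prop :=
  ∀ (n : ℕ) (g : Pt n → Matrix (Fin n) (Fin n) ℝ) (U : Set (Pt n)) (θ : TF n 1)
    (α β c : Pt n → ℝ), 3 ≤ n → Wst g U θ α β c → U.Nonempty →
    ∃ U' ⊆ U, U'.Nonempty ∧ Wst g U' θ α β c ∧ ∀ x ∈ U', c x ≠ 0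

/-! ## E. words -/

/-- **Cl** (closed forms).  `W, c, β` smooth on the open set `U`; functions are compared on `U` (`dV`,
`dE` at a point of `U` only depend on the function near the point, so if `φ = ψ` on `U` then
`dV W φ = dV W ψ` on `U`, and the same for iterates and for `dE`; all functions involved are smooth on
`U`, so `dV` is additive: `dV W (φ - ψ) = dV W φ - dV W ψ` on `U`).
Proof.  Let `P, Q` be two of the operators `dV W`, `dE W c 1`, `dE W c 2`, with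
`(P - Q) φ = k c φ`.  Telescoping (induction on `q`, using
`P^{q+1} φ - Q^{q+1} φ = P (P^q φ - Q^q φ) + (P - Q)(Q^q φ)` and additivity of `P`; the other form of the sum
by reindexing `i ↦ q - 1 - i`, `Finset.sum_range_reflect`):
`P^q φ - Q^q φ = ∑_{i<q} P^i ((P - Q) (Q^{q-1-i} φ))` on `U`.   (*)
(1) `P = dV W`, `Q = dE W c 1`, `φ = β`: `(P - Q)(Q^j β) = c Q^j β = Xq j`, so
`(dV W)^q β - Q^q β = ∑_{i<q} (dV W)^i (Xq (q-1-i))`; multiply by `c`.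
(2) Put `T_q = c (dE W c 2)^q β`, so `Apq p q = c (dE W c 1)^p T_q`.  (*) with `P = dV W`, `Q = dE W c 1`,
`φ = T_q`: `(dV W)^p T_q - Q^p T_q = ∑_{i<p} (dV W)^i (Apq (p-1-i) q)`.   (a)
(*) with `P = dE W c 1`, `Q = dE W c 2`, `φ = β`: `(dE W c 1)^q β - (dE W c 2)^q β =
∑_{i<q} (dE W c 1)^i T_{q-1-i}`; times `c`: `Xq q = T_q + ∑_{i<q} Apq i (q-1-i)`.   (b)
Apply `(dV W)^p` to (b) and insert (a):
`(dV W)^p (Xq q) = Q^p T_q + ∑_{i<p} (dV W)^i (Apq (p-1-i) q) + ∑_{i<q} (dV W)^p (Apq i (q-1-i))`, and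
`c Q^p T_q = Apq p q`. -/
def S_Cl : Prop :=
  ∀ (n : ℕ) (U : Set (Pt n)) (W : Pt n → Pt n) (c β : Pt n → ℝ), IsOpen U →
    (∀ a, ContDiffOn ℝ ∞ (fun x => W x a) U) → ContDiffOn ℝ ∞ c U → ContDiffOn ℝ ∞ β U →
    (∀ q, ∀ x ∈ U, Xq W c β q x = c x * (((dV W)^[q] β) x
      - ∑ i ∈ Finset.range q, ((dV W)^[i] (Xq W c β (q - 1 - i))) x)) ∧
    ∀ p q, ∀ x ∈ U, Apq W c β p q x = c x * (((dV W)^[p] (Xq W c β q)) x
      - ∑ i ∈ Finset.range p, ((dV W)^[i] (Apq W c β (p - 1 - i) q)) x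
      - ∑ i ∈ Finset.range q, ((dV W)^[p] (Apq W c β i (q - 1 - i))) x)

/-- **Cw** (curves for the words).  Available: `S_Nn`.  Let `W(t) = du g θ (x + tX)`.  Proof.
(1) By `S_Nn` (3) the covariant derivative of `W(t)` is `up g (D g θ) x ![X]`, and
`⟨up g (D g θ) x ![X], v⟩ = (Dθ)(X,v) = c (⟨X,v⟩ - θ(X)θ(v)) = ⟨c (X - θ(X) W), v⟩` (`KO.sUp`); nondegeneracy.
(2) Let `u₁` be a curve with vanishing covariant derivative through `u` (`KO3.sCvP`, last part) and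
`u(t) = u₁(t) - θ(u₁(t)) W(t)`.  `θ(u₁(t))` has value `θ(u) = 0` and derivative
`(Dθ)(X,u) = c ⟨X,u⟩` (`KO3.sCvP`, rank 1), so by `KO.sCvb` the covariant derivative of `u(t)` is
`-c⟨X,u⟩ W`.  `θ(u(t)) = 0` as `θ(W(t)) = 1` on `U`.
(3) The same for `v₁`: `v'(t) = v₁ - θ(v₁) W`, and `v(t) = v' - (⟨v',u(t)⟩/⟨u(t),u(t)⟩) u(t)` (for `t` near
`0` the denominator is `≠ 0`; for other `t` use the same formula, division by zero is zero).  `⟨v',u⟩`
has value `0` and derivative `⟨-c⟨X,v⟩W, u⟩ + ⟨v, -c⟨X,u⟩W⟩ = 0` (`KO.sCvI`), so `v(t)` has the covariant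
derivative `-c⟨X,v⟩ W`; `θ(v(t)) = 0` and `⟨u(t),v(t)⟩ = 0` near `0`. -/
def S_Cw : Prop :=
  ∀ (n : ℕ) (g : Pt n → Matrix (Fin n) (Fin n) ℝ) (U : Set (Pt n)) (θ : TF n 1)
    (α β c : Pt n → ℝ), Wst g U θ α β c → ∀ x ∈ U, ∀ X,
    Cv g x X (fun t => du g θ (x + t • X)) (du g θ x) (c x • (X - e1 θ x X • du g θ x)) ∧
    (∀ u, e1 θ x u = 0 → ∃ us : ℝ → Pt n, Cv g x X us u (-(c x * ip g x X u) • du g θ x) ∧
      ∀ᶠ t in nhds (0 : ℝ), e1 θ (x + t • X) (us t) = 0) ∧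
    ∀ u v, e1 θ x u = 0 → e1 θ x v = 0 → ip g x u v = 0 → u ≠ 0 → ∃ us vs : ℝ → Pt n,
      Cv g x X us u (-(c x * ip g x X u) • du g θ x) ∧
      Cv g x X vs v (-(c x * ip g x X v) • du g θ x) ∧
      ∀ᶠ t in nhds (0 : ℝ), e1 θ (x + t • X) (us t) = 0 ∧ e1 θ (x + t • X) (vs t) = 0 ∧
        ip g (x + t • X) (us t) (vs t) = 0 ∧ us t ≠ 0

/-- **W1** (the words `W^j`).  Available: `S_Sb`, `S_Sd`, `S_La`, `S_Rd`, `S_Cw`.  `W = du g θ`.
Proof.  Induction on `j`, for all `x ∈ U` and all `a, b, c, d`.  `j = 0`: `Rot.R`, `S_Sb` (2).  Step: let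
`X = W(x)`; curves: `W(t)` has covariant derivative `c (X - θ(X) W) = 0` (`S_Cw`), `a(t), …, d(t)` have
covariant derivative `0` (`KO3.sCvP`).  The induction hypothesis at `x + tX` (`t` near `0`) for these
vectors; differentiate at `0`.  Left: `S_Sd` with the list of triples
`replicate j (W(·), W, 0) ++ [(a(·), a, 0), …]` (the `dS` vanishes, `S_La` (4)): `S(W :: wk j W [a,b,c,d])`.
Right: `G0` and `KN(θ ⊗ θ)` of these curves have derivative `0` (inner products `KO3.sCvP`;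
`θ(a(t))' = (Dθ)(W,a) = 0` by `Wst.dt`), and `φ(x + tX)` has derivative `dV W φ x`. -/
def S_W1 : Prop :=
  ∀ (n : ℕ) (g : Pt n → Matrix (Fin n) (Fin n) ℝ) (U : Set (Pt n)) (θ : TF n 1)
    (α β c : Pt n → ℝ), Wst g U θ α β c → ∀ j, ∀ x ∈ U, ∀ a b c' d,
      S g x (wk j (du g θ x) [a, b, c', d]) = ((dV (du g θ))^[j] α) x * G0 (ip g x) a b c' d
        + ((dV (du g θ))^[j] β) x * KN (ip g x) (fun p q => e1 θ x p * e1 θ x q) a b c' d

/-- **W2** (the words `W^p u W^q`, `u ⊥ W`).  Available: `S_Sb`, `S_Sd`, `S_La`, `S_Rd`, `S_Cl`, `S_Cw`,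
`S_W1`.  `W = du g θ`, `α, β, c` are `Rad` (`Wst`), so all the functions below are `Rad` (`S_Rd`).
Proof.  Induction on `N = p + q` (strong), for all `x ∈ U`, all `u ⊥ W(x)`, all `a, b, c', d`.
(A) `p = 0`.  Differentiate the formula `S_W1` for `j = q` along `X = u`: curves `W(t)` (covariant
derivative `c u`), `a(t), …` with covariant derivative `0`.  Left (`S_Sd`, `S_La` (1), (2), (4)):
`S(u :: wk q W [a,b,c',d]) + ∑_{i<q} c S(wk i W (u :: wk (q-1-i) W [a,b,c',d]))` (linearity in the slot,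
`S_Sb` (1)).  Right: `d(dV^q α)(u) = 0 = d(dV^q β)(u)` (`Rad`, `θ(u) = 0`), the inner products have
derivative `0`, `θ(a(t))' = (Dθ)(u,a) = c⟨u,a⟩`, so the right side is
`c (dV^q β) KN(u♭ ⊗ θ + θ ⊗ u♭)`.  The sum is given by the induction hypothesis:
`S(u :: wk q W […]) = c (dV^q β - ∑_{i<q} dV^i (Xq (q-1-i))) KN(…) = Xq q · KN(…)` by `S_Cl`.
(B) `p = p' + 1`.  Differentiate the formula for `(p', q)` (total `N - 1`) along `X = W(x)`: curves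
`W(t)` with covariant derivative `0`, `u(t)` from `S_Cw` (2) (covariant derivative `-c⟨W,u⟩W = 0`,
`θ(u(t)) = 0` near `0`), `a(t), …` with covariant derivative `0`.  Left: `S(W :: wk p' W (u :: …))`.  Right:
all inner products and `θ(a(t))` have derivative `0`; `dV (dV^{p'} (Xq q))`. -/
def S_W2 : Prop :=
  ∀ (n : ℕ) (g : Pt n → Matrix (Fin n) (Fin n) ℝ) (U : Set (Pt n)) (θ : TF n 1)
    (α β c : Pt n → ℝ), Wst g U θ α β c → ∀ p q, ∀ x ∈ U, ∀ u, e1 θ x u = 0 → ∀ a b c' d,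
      S g x (wk p (du g θ x) (u :: wk q (du g θ x) [a, b, c', d]))
        = ((dV (du g θ))^[p] (Xq (du g θ) c β q)) x
          * KN (ip g x) (sy2 (ip g x u) (e1 θ x)) a b c' d

/-- **W3** (the words `W^k u W^p v W^q`, `u, v, W` mutually orthogonal).  Available: `S_Sb`, `S_Sd`,
`S_La`, `S_Rd`, `S_Cl`, `S_Cw`, `S_W2`.  Proof.  If `u = 0` both sides vanish (linearity, `S_Sb` (1)); let
`u ≠ 0`.  Strong induction on `N = k + p + q`, for all `x ∈ U` and all such `u, v`.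
(A) `k = 0`.  Differentiate the formula `S_W2` for `(p, q)` and `v` along `X = u`: curves `W(t)` (covariant
derivative `c u`), `v(t)` from `S_Cw` (2) (covariant derivative `-c⟨u,v⟩W = 0`), `a(t), …` with covariant
derivative `0`.  Left (`S_Sd`, `S_La` (1), (2), (4); the list is `W^p`, `v`, `W^q`, `[a,b,c',d]`):
`S(u :: wk p W (v :: wk q W […])) + c ∑_{i<p} S(wk i W (u :: wk (p-1-i) W (v :: wk q W […])))
+ c ∑_{i<q} S(wk p W (v :: wk i W (u :: wk (q-1-i) W […])))`.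
Right: `φ = dV^p (Xq q)` is `Rad`, so `dφ(u) = 0`; `⟨v(t),a(t)⟩' = 0`, `θ(a(t))' = c⟨u,a⟩`, so the
derivative of `KN(v♭ ⊗ θ + θ ⊗ v♭)` is `c KN(v♭ ⊗ u♭ + u♭ ⊗ v♭)`.  By the induction hypothesis (totals
`p - 1 + q` and `p + q - 1`; for the second sum with the roles of `u, v` exchanged, `v ≠ 0` or trivial;
`KN(u♭ ⊗ v♭ + v♭ ⊗ u♭)` is symmetric in `u, v`):
`S(u :: …) = c (φ - ∑_{i<p} dV^i (Apq (p-1-i) q) - ∑_{i<q} dV^p (Apq i (q-1-i))) KN(…) = Apq p q · KN(…)`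
by `S_Cl`.
(B) `k = k' + 1`.  Differentiate the formula for `(k', p, q)` along `X = W(x)`: all the curves
(`W(t)`; `u(t), v(t)` from `S_Cw` (3); `a(t), …`) have covariant derivative `0`. -/
def S_W3 : Prop :=
  ∀ (n : ℕ) (g : Pt n → Matrix (Fin n) (Fin n) ℝ) (U : Set (Pt n)) (θ : TF n 1)
    (α β c : Pt n → ℝ), Wst g U θ α β c → ∀ k p q, ∀ x ∈ U, ∀ u v, e1 θ x u = 0 → e1 θ x v = 0 →
      ip g x u v = 0 → ∀ a b c' d,
      S g x (wk k (du g θ x) (u :: wk p (du g θ x) (v :: wk q (du g θ x) [a, b, c', d])))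
        = ((dV (du g θ))^[k] (Apq (du g θ) c β p q)) x
          * KN (ip g x) (sy2 (ip g x u) (ip g x v)) a b c' d

/-- **W4** (the equation on words).  Available: `S_W1`, `S_W2`, `S_W3`.  Proof.  Let `f` be a frame at
`x` with `f 0 = W = du g θ x` (`KO3.sFrm`, `n ≥ 3`), `u = f 1`, `v = f 2`.  Take `ks` for the list
`l = u :: wk p W (v :: wk q W [u, W, W, v])` of length `p + q + 2 + 4 = r + 4`.  `S(l) = Apq p q ·
KN(sy2 u♭ v♭)(u,W,W,v) = Apq p q` (`S_W3` with `k = 0`; `KN(S)(u,W,W,v) = ⟨u,v⟩S(W,W) + S(u,v)⟨W,W⟩ - …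
= S(u,v) = ⟨u,u⟩⟨v,v⟩ + ⟨u,v⟩² = 1`).  For `m ≥ 1` the list `l.drop m` is
`wk (p + 1 - m) W (v :: wk q W [u,W,W,v])` if `m ≤ p + 1`, and `wk (r - m) W [u,W,W,v]` if `p + 1 < m ≤ r`
(`List.drop_append`, `List.drop_replicate`); in the first case `S(l.drop m)` is a multiple of
`KN(sy2 v♭ θ)(u,W,W,v) = v♭(u)θ(v) + θ(u)v♭(v) = 0` by `S_W2`, in the second case a combination of
`G0(u,W,W,v) = 0` and `KN(θ ⊗ θ)(u,W,W,v) = ⟨u,v⟩ + θ(u)θ(v) = 0` by `S_W1`. -/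
def S_W4 : Prop :=
  ∀ (n : ℕ) (g : Pt n → Matrix (Fin n) (Fin n) ℝ) (U : Set (Pt n)) (θ : TF n 1)
    (α β c : Pt n → ℝ) (r : ℕ) (τ : (m : ℕ) → TF n m), 3 ≤ n → Wst g U θ α β c → KSr g U r τ →
    ∀ p q, p + q + 2 = r → ∀ x ∈ U, Apq (du g θ) c β p q x = 0

/-- **Le** (product rule for top degrees).  `W, c, φ, ψ` smooth on the open set `U`; write
`E_k = dE W c k`.  All functions are compared on `U` (see `S_Cl`).  Proof.
`E_{k+l} (φ ψ) = (E_k φ) ψ + φ (E_l ψ)` on `U` (product rule).  Put, for natural numbers `a, b`,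
`P(a,b)`: for all smooth `φ, ψ` with `E_k^{a+1} φ = 0`, `E_l^{b+1} ψ = 0` on `U`:
`E_{k+l}^{a+b} (φ ψ) = C(a+b,a) (E_k^a φ) (E_l^b ψ)` and `E_{k+l}^{a+b+1} (φ ψ) = 0` on `U`.
Induction on `a + b`.  `a = b = 0`: clear from the product rule.  Let `a + b > 0`.
`E^{a+b} (φψ) = E^{a+b-1} ((E_k φ) ψ) + E^{a+b-1} (φ (E_l ψ))` (additivity of `E_{k+l}`).  If `a ≥ 1`, the first
term is by `P(a-1,b)` equal to `C(a+b-1,a-1) (E_k^a φ)(E_l^b ψ)`; if `a = 0`, `E_k φ = 0` and it vanishes.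
The same for the second term, `C(a+b-1,a)` resp. `0`.  Pascal's rule.  Similarly for `E^{a+b+1}`. -/
def S_Le : Prop :=
  ∀ (n : ℕ) (U : Set (Pt n)) (W : Pt n → Pt n) (c : Pt n → ℝ), IsOpen U →
    (∀ a, ContDiffOn ℝ ∞ (fun x => W x a) U) → ContDiffOn ℝ ∞ c U →
    ∀ (k l : ℝ) (a b : ℕ) (φ ψ : Pt n → ℝ), ContDiffOn ℝ ∞ φ U → ContDiffOn ℝ ∞ ψ U →
      (∀ x ∈ U, ((dE W c k)^[a + 1] φ) x = 0) → (∀ x ∈ U, ((dE W c l)^[b + 1] ψ) x = 0) →
      (∀ x ∈ U, ((dE W c (k + l))^[a + b] fun y => φ y * ψ y) x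
        = ((a + b).choose a : ℝ) * (((dE W c k)^[a] φ) x * ((dE W c l)^[b] ψ) x)) ∧
      ∀ x ∈ U, ((dE W c (k + l))^[a + b + 1] fun y => φ y * ψ y) x = 0

/-- **Fi** (the final contradiction).  Available: `S_Le`.  `E_k = dE W c k`; all functions are compared
on open subsets of `U` (see `S_Cl`).  Proof.
(1) The hypothesis for `p = 0`, `q = r - 2` (`c ≠ 0`): `E_2^{r-2} β = 0` on `U`.  Let `e` be the least
number with `E_2^{e+1} β = 0` on `U` (`β ≠ 0`, so `r - 2 ≥ 1` and `e ≤ r - 3`).  `T = E_2^e β` is not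
identically `0` on `U` (for `e = 0` it is `β`), so `U' = {x ∈ U : T ≠ 0}` is open and nonempty.
(2) The hypothesis for `q = e`, `p = r - 2 - e`: `E_1^p (c T) = 0`.  `E_2 T = 0` and `c T` is a product of
weights `-1` and `2`: `E_1 (φ T) = (E_{-1} φ) T` for all smooth `φ`, so `E_1^p (c T) = (E_{-1}^p c) T` and
`E_{-1}^p c = 0` on `U'`.  `c = E_{-1} 1` (`dV W 1 = 0`), so `E_{-1}^{p+1} 1 = 0` on `U'`.  Let `d` be the
least number with `E_{-1}^{d+1} 1 = 0` on `U'`; `d ≥ 1` since `E_{-1} 1 = c ≠ 0`.  Choose `x₁ ∈ U'` with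
`E_{-1}^d 1 ≠ 0` at `x₁`.
(3) `S_Le` four times for `β · 1 · 1 · 1 · 1` (weights `2, -1, -1, -1, -1`; degrees `e, d, d, d, d`; use that
the product so far has degree exactly the sum, with a positive binomial factor): on `U'`
`E_{-2}^{e+4d} β = κ T (E_{-1}^d 1)^4`, `κ > 0`; at `x₁` this is not `0`.
(4) On the other hand `β = -(E_{-1} c) · 1 - (α + c²) + c · c` because `E_{-1} c = dV W c + c² = -α - β`.
`E_{-2} (α + c²) = dV W α + 2c dV W c + 2c(α + c²) = 0`.  `c = E_{-1} 1` has `E_{-1}^{d} c = 0`, so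
`E_{-2}^{2d-1} (c · c) = 0` (`S_Le` with `a = b = d - 1`, weights `-1, -1`), and
`E_{-2}^{2d-1} ((E_{-1} c) · 1) = 0`: for `d ≥ 2` by `S_Le` with `a = d - 2`, `b = d`; for `d = 1`
`E_{-1} c = 0`.  As `e + 4d ≥ 2d - 1` and `e + 4d ≥ 1`: `E_{-2}^{e+4d} β = 0` on `U'` (if an iterate
vanishes on `U'` so do the later ones), a contradiction. -/
def S_Fi : Prop :=
  ∀ (n : ℕ) (U : Set (Pt n)) (W : Pt n → Pt n) (c α β : Pt n → ℝ) (r : ℕ), IsOpen U →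
    U.Nonempty → (∀ a, ContDiffOn ℝ ∞ (fun x => W x a) U) → ContDiffOn ℝ ∞ c U →
    ContDiffOn ℝ ∞ α U → ContDiffOn ℝ ∞ β U → (∀ x ∈ U, β x ≠ 0) → (∀ x ∈ U, c x ≠ 0) →
    (∀ x ∈ U, dV W α x = 2 * (c x * β x)) → (∀ x ∈ U, dV W c x = -(c x ^ 2) - α x - β x) →
    2 ≤ r → (∀ p q, p + q + 2 = r → ∀ x ∈ U, Apq W c β p q x = 0) → False

/-! ## G. conclusion -/

/-- **Th** (`∇R = 0`).  Available: `S_Re`, `S_Ws`, `S_Cz`, `S_W4`, `S_Fi`.  Proof.  Suppose `∇R ≠ 0` at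
`p ∈ Ω`.  `S_Re` gives `U ⊆ Ω`, `θ, α, β` with `Rot g U θ α β` and `J`; by hypothesis `(Dθ)(W,·) = 0` on
`U`; `S_Ws`, `S_Cz`: `Wst g U' θ α β c`, `c ≠ 0` on the nonempty open set `U'`.  `KSr` restricts to `U'`.
`S_W4`, `S_Fi` with `W = du g θ` (smooth: `(du g θ x) a = ∑_b (g x)⁻¹ a b θ ![b] x`; `dV W α = 2cβ`, `dV W c`
from `Wst` with `v = W`, `θ(W) = 1`). -/
def S_Th : Prop :=
  ∀ (n : ℕ) (g : Pt n → Matrix (Fin n) (Fin n) ℝ) (Ω : Set (Pt n)) (r : ℕ)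
    (τ : (m : ℕ) → TF n m) (J : Pt n → Pt n → Prop), 4 ≤ n → 2 ≤ r → KSr g Ω r τ →
    PtJ g Ω (τ 1) J →
    (∀ U ⊆ Ω, ∀ (θ : TF n 1) (α β : Pt n → ℝ), Rot g U θ α β → (∀ x ∈ U, J x (du g θ x)) →
      ∀ x ∈ U, ∀ v, e2 (D g θ) x (du g θ x) v = 0) →
    ∀ x ∈ Ω, ∀ z a b c d, e5 (N g) x z a b c d = 0

/-- **Bt** (the data on the set of nonsingular points).  Available: `S_Br2`.  Proof.
`Ω' = {x ∈ Ω : NonSing g x}` is open (`KO3.sNsO`), `NSi` holds there (`KO3.sNsC`); `tT t m` is smooth; the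
metric restricts to `Ω'`; `S_Br2`. -/
def S_Bt : Prop :=
  ∀ (n : ℕ) (g : Pt n → Matrix (Fin n) (Fin n) ℝ) (Ω : Set (Pt n)) (r : ℕ), IsMetricOn g Ω →
    ∀ t : ℕ → List (Fin n) → Pt n → ℝ, (∀ m l, ContDiffOn ℝ ∞ (t m l) Ω) →
    (∀ x ∈ Ω, KSAt g r (fun m l => t m l x) x) →
    KSr g {x | x ∈ Ω ∧ NonSing g x} r (tT t)

/-- **EnE** (even order).  Available: `S_Bt`, `S_Br3`, `S_PE`, `S_He`, `S_Th`.  Proof: `Ω'` as in
`S_Bt`; `S_Br3` (on `Ω'`), `S_PE`, `S_Th` with `J = InvE g` and `S_He`; the second part of `KO.sBrg`. -/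
def S_EnE : Prop :=
  ∀ (n : ℕ) (g : Pt n → Matrix (Fin n) (Fin n) ℝ) (Ω : Set (Pt n)) (r : ℕ), 4 ≤ n → 4 ≤ r →
    Even r → IsMetricOn g Ω →
    ∀ t : ℕ → List (Fin n) → Pt n → ℝ, (∀ m l, ContDiffOn ℝ ∞ (t m l) Ω) →
    (∀ x ∈ Ω, KSAt g r (fun m l => t m l x) x) →
    (∀ x ∈ Ω, ∀ m, 3 ≤ m → m < r → SymKer (fun m l => t m l x) m) →
    ∀ p ∈ Ω, NonSing g p → ∀ a c b m q, nablaR g 1 a [c, b, m, q] p = 0

end

end Pool.Agent.Lib.MP_9d59e9_gt.KS
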