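import Pool.Agent.Lib.MP_9d59e9_gt.KS.Spec

/-!
# MP_9d59e9_gt, project KS, second part: odd orders, and order four with arbitrary coefficients

The conventions are those of `KS/Spec.lean`; the statements `S_X` of that file which are listed as
Available are hypotheses of `tX` (in the order of the list).

THEOREM FOUR.  Let `n ≥ 5`, `g` a smooth Riemannian metric on a connected open set `Ω ⊆ ℝⁿ` with
`∇⁴R + t¹ ⊗ ∇³R + t² ⊗ ∇²R + t³ ⊗ ∇R + t⁴ ⊗ R = 0` for smooth `t¹, …, t⁴` (no symmetry assumed).  If the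
curvature operator is injective at one point, then `∇R = 0`.
-/

set_option autoImplicit false

namespace Pool.Agent.Lib.MP_9d59e9_gt.KS

open scoped BigOperators ContDiff
open Set KO KO3

noncomputable section

/-- a set of endomorphisms closed under linear combinations and commutators -/
structure LieP {V : Type} [AddCommGroup V] [Module ℝ V] (P : (V → V) → Prop) : Prop where
  zero : P fun _ => 0
  add : ∀ Φ Ψ, P Φ → P Ψ → P fun a => Φ a + Ψ a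
  smul : ∀ (r : ℝ) Φ, P Φ → P fun a => r • Φ a
  br : ∀ Φ Ψ, P Φ → P Ψ → P fun a => Φ (Ψ a) - Ψ (Φ a)

/-- the commutator `[A, R(u,v)] - R(Au,v) - R(u,Av)`, i.e. the value of `A.R` on `(u,v)` -/
def AR {V : Type} [AddCommGroup V] (Ro : V → V → V → V) (A : V → V) (u v a : V) : V :=
  A (Ro u v a) - Ro u v (A a) - Ro (A u) v a - Ro u (A v) a

/-! ## H. general facts -/

/-- **Cd** (a subalgebra of `so(n)` which contains a hyperplane is everything).  Proof.  Let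
`⟨X,Y⟩ = ∑ X_{ij} Y_{ij}` (`= tr(Xᵀ Y)`).  `E_{ij}` the elementary matrices, `C_{ij} = ½ φ(E_{ij} - E_{ji})`,
a skew matrix; for skew `X = ½ ∑ X_{ij} (E_{ij} - E_{ji})`: `φ(X) = ⟨X,C⟩`.  If `C = 0` we are done.  Let
`C_{ab} ≠ 0`, `a ≠ b`, and `c ≠ a, b`.  `X₀ = E_{bc} - E_{cb}`, `X = X₀ - (⟨X₀,C⟩/⟨C,C⟩) C` (skew,
`φ(X) = 0`, so `X ∈ Q`), `Y = CX - XC = CX₀ - X₀C`, skew.  `Y_{ac} = C_{ab} ≠ 0` (`(X₀)_{ak} = 0` for all `k`).
`⟨Y,C⟩ = 0` (`tr((CX - XC) C) = 0`), so `Y ∈ Q`, hence `Z = YX - XY ∈ Q`.  `tr(ZC) = tr(YXC - XYC) =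
tr(Y(XC - CX)) = -tr(YY) = ⟨Y,Y⟩ > 0` and `⟨Z,C⟩ = -tr(ZC) ≠ 0` (`Zᵀ = -Z`).  Every skew `X'` is
`(X' - λ Z) + λ Z` with `φ(X' - λ Z) = 0`. -/
def S_Cd : Prop :=
  ∀ n : ℕ, 3 ≤ n → ∀ (Q : Submodule ℝ (Matrix (Fin n) (Fin n) ℝ)),
    (∀ X ∈ Q, ∀ Y ∈ Q, X * Y - Y * X ∈ Q) →
    ∀ φ : Matrix (Fin n) (Fin n) ℝ →ₗ[ℝ] ℝ,
      (∀ X : Matrix (Fin n) (Fin n) ℝ, X.transpose = -X → φ X = 0 → X ∈ Q) →
      ∀ X : Matrix (Fin n) (Fin n) ℝ, X.transpose = -X → X ∈ Q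

/-- **Kp** (the endomorphisms which annihilate `∇^{k-4} R` form a Lie algebra).  Available: `S_La`,
`S_Sb`.  Proof: `Kl g x Φ k` for all `l` of length `k`; `S g x` is multilinear on such lists (`S_Sb`).
`zero`: `S_La` (4).  `add`, `smul`: `S_La` (5) (with `ι = Bool` or `Fin 2`).  `br`: `S_La` (6); on lists `l'`
of length `k` the inner function `dS (S g x) l' (l'.map Φ)` is `0`, so the outer `dS` is `0` (`S_La` (3)). -/
def S_Kp : Prop :=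
  ∀ (n : ℕ) (g : Pt n → Matrix (Fin n) (Fin n) ℝ) (x : Pt n) (k : ℕ), 4 ≤ k →
    LieP fun Φ => Kl g x Φ k

/-- **Oc** (`A.R` takes its values in the stabiliser).  Available: `S_La`, `S_Sb`, `S_Sr`.  Let
`F = S g p` on lists of length `k`, `Φ = Rv g p u v`.  Proof.  As in `S_Ds` (a): the hypothesis
`Kl g p A (k+2)` on `u :: v :: l` and `v :: u :: l`, subtracted, and `S_Sr`
(`Z(u,v)(l) = -dS F l (l.map (Rv g p u v))`):
`-dS (l' ↦ dS F l' (l'.map Φ)) l (l.map A) = dS F l (l.map (Rv g p (Au) v)) + dS F l (l.map (Rv g p u (Av)))`.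
`Kl g p A k` and `S_La` (6), (3): `dS (l' ↦ dS F l' (l'.map Φ)) l (l.map A) = dS F l (l.map (Φ A - A Φ))`.
Combine (`S_La` (5)). -/
def S_Oc : Prop :=
  ∀ (n : ℕ) (g : Pt n → Matrix (Fin n) (Fin n) ℝ) (Ω : Set (Pt n)), IsMetricOn g Ω →
    ∀ p ∈ Ω, ∀ (A : Pt n → Pt n) (k : ℕ), 4 ≤ k → Kl g p A (k + 2) → Kl g p A k →
      ∀ u v, Kl g p (AR (Rv g p) A u v) k

/-- **Pr3** (a unit vector orthogonal to three given vectors, dimension `m + 1 ≥ 4`).  Proof.  Let `f` be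
a frame (`Eu.ex`, `Eu.fr`).  The linear map `(x_i) ↦ (∑ x_i ⟨f_i,a⟩, ∑ x_i ⟨f_i,b⟩, ∑ x_i ⟨f_i,c⟩)` from
`ℝ^{m+1}` to `ℝ³` has a nonzero kernel vector (`LinearMap.exists_ne_zero_of…`, e.g.
`Matrix.exists_mulVec_eq_zero_iff` is not needed: `LinearMap.ker_ne_bot_of_finrank_lt`); `x = ∑ x_i f_i ≠ 0`
is orthogonal to `a, b, c`; normalise. -/
def S_Pr3 : Prop :=
  ∀ (V : Type) [AddCommGroup V] [Module ℝ V] (B : V → V → ℝ) (m : ℕ), Eu B m → 3 ≤ m →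
    ∀ a b c, ∃ x, B x x = 1 ∧ B a x = 0 ∧ B b x = 0 ∧ B c x = 0

/-! ## O. odd order: algebra at a point -/

/-- **Oa** (if a curvature operator of a plane in `e^⊥` moves `e` then the stabiliser is everything).
Available: `S_Cd`.  `K = e^⊥`.
Proof.  Suppose `x, y ∈ K`, `A = Ro x y`, `u = A e ≠ 0` (`⟨u,e⟩ = R(x,y,e,e) = 0`).  All `Ro a b` are linear
and skew (`Alg.op`, `a34`, nondegeneracy).
(1) Let `z ∈ K`, `z ⊥ u`.  `Ro z u ∈ P` and `A ∈ P`, so their commutator is in `P`, and `AR Ro A z u ∈ P`; so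
`Ro (Az) u + Ro z (Au) ∈ P`.  `⟨Az,e⟩ = -⟨z,u⟩ = 0`, so `Ro (Az) u ∈ P`; so `Ro z (Au) ∈ P`.
`Au = -⟨u,u⟩ e + u'` with `u' ∈ K` (`⟨Au,e⟩ = -⟨u,u⟩`), `Ro z u' ∈ P`, so `Ro z e ∈ P`.
(2) Let `f` be a frame with `f 0 = e` (`Eu.fr`).  For a matrix `X` let `Φ_X a = ∑_{ij} X_{ij} ⟨f_j,a⟩ f_i`
(so `Φ_X Φ_Y = Φ_{XY}`, and `wd B (f i) (f j) = Φ_{E_{ij} - E_{ji}}`).  `Q = {X : Φ_X ∈ P}` is a submodule closed
under commutators.  On the space `Sk` of skew matrices consider `L(w)_{kl} = ∑_{ij} w_{ij} R(f_i,f_j,f_l,f_k)`,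
so `Φ_{L(w)} = ∑ w_{ij} Ro (f i) (f j)`; `L` is injective (`Alg.ns`: `NSi`, expanding `a, b` in the frame), so
a linear bijection of the finite dimensional space `Sk`.  `Ro (f i) (f j) ∈ P` for `i, j ≥ 1`, so by (1)
`Φ_{L(w)} ∈ P` if the vector `z = 2 ∑_{i≥1} w_{i0} f_i` is orthogonal to `u`, i.e. if
`h(w) = ∑_i w_{i0} ⟨f_i,u⟩ = 0`.  So `φ(X) = h(L⁻¹((X - Xᵀ)/2))` satisfies the hypothesis of `S_Cd`
(`n = m + 1 ≥ 3`): all skew `X` are in `Q`, so all `wd B (f i) (f j) ∈ P`, hence all `wd B u v ∈ P`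
(bilinear in `u, v`): contradiction. -/
def S_Oa : Prop :=
  ∀ (V : Type) [AddCommGroup V] [Module ℝ V] (B : V → V → ℝ) (m : ℕ) (R : V → V → V → V → ℝ)
    (Ro : V → V → V → V), Alg B m R Ro → ∀ P : (V → V) → Prop, LieP P →
      ¬ (∀ u v, P (wd B u v)) → ∀ e, B e e = 1 →
      (∀ x y, B e x = 0 → B e y = 0 → P (Ro x y) ∧ ∀ u v, P (AR Ro (Ro x y) u v)) →
      ∀ x y, B e x = 0 → B e y = 0 → ∀ a, R x y e a = 0

/-- **Ob** (`R(e,x,e,y)` is a multiple of the inner product).  Proof.  `K = e^⊥`, `Lz = Ro e z e ∈ K` for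
`z ∈ K`, `⟨Lz,z'⟩ = R(e,z,e,z')`.  For a skew linear `X` and all `a, b`: `[X, a ∧ b] = Xa ∧ b + a ∧ Xb`
(`wd B a b c = ⟨b,c⟩ a - ⟨a,c⟩ b`).
(1) Let `A = wd B x y`, `x, y, z ∈ K`, `X = AR Ro A e z ∈ P`.  As `Ae = 0`: `X e = A (Lz) - L (Az)`, in `K`.
Claim `ξ = X e = 0`.  Suppose not.  `X' = X - wd B ξ e` is skew, linear, `X' e = 0`
(`wd B ξ e e = ξ`), so `X'` is a combination of the `wd B (f i) (f j)`, `i, j ≥ 1`, `f` a frame with `f 0 = e`,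
and `X' ∈ P`; so `wd B ξ e ∈ P`.  For `u ∈ K`, `u ⊥ ξ`: `[wd B u ξ, wd B ξ e] = ⟨ξ,ξ⟩ wd B u e ∈ P`.  So
`wd B u e ∈ P` for all `u ∈ K`, and all `wd B u v ∈ P`: contradiction.
(2) So `h(z,z') = R(e,z,e,z')` (symmetric) satisfies `h(Az,z') + h(z,Az') = ⟨L(Az),z'⟩ - ⟨A(Lz),z'⟩ = 0`
for all `A = wd B x y`; in the frame `rt2 i j h = 0` for `i ≠ j`, so `h = lam⟨·,·⟩` (`KO3.sCi23`,
`m ≥ 2`). -/
def S_Ob : Prop :=
  ∀ (V : Type) [AddCommGroup V] [Module ℝ V] (B : V → V → ℝ) (m : ℕ) (R : V → V → V → V → ℝ)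
    (Ro : V → V → V → V), Alg B m R Ro → ∀ P : (V → V) → Prop, LieP P →
      ¬ (∀ u v, P (wd B u v)) → ∀ e, B e e = 1 →
      (∀ x y, B e x = 0 → B e y = 0 → P (wd B x y) ∧ ∀ u v, P (AR Ro (wd B x y) u v)) →
      ∃ lam : ℝ, ∀ x y, B e x = 0 → B e y = 0 → R e x e y = lam * B x y

/-- **Nz** (rotation invariant `∇R`).  Available: `S_Pr3`.  Proof.  (a) Let `u, v` be vectors and `x` a
unit vector orthogonal to `u` and `v`, `u` a unit vector, such that `wd B u x` annihilates `N`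
(`x ↦ u`, `u ↦ -x`, `v ↦ -⟨u,v⟩ x`; replace `v` by `v - ⟨u,v⟩ u`: this does not change `N(u;u,v,u,v)`, so let
`v ⊥ u`, then `v ↦ 0`).  Let `a = N(u;u,v,u,v)`,
`b = N(x;u,v,u,v) + N(u;x,v,u,v) + N(u;u,v,x,v)`, `c = N(x;x,v,u,v) + N(x;u,v,x,v) + N(u;x,v,x,v)`,
`d = N(x;x,v,x,v)`.  The hypothesis on `(x;x,v,x,v)` gives `c = 0`.  The sum of the hypotheses on
`(x;u,v,u,v)`, `(u;x,v,u,v)`, `(u;u,v,x,v)` gives `3a - 2c = 0`.  So `a = 0`.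
(1) `N(u;u,v,u,v) = 0` for all `u, v`: homogeneous in `u`, so let `u` be a unit vector (or `u = 0`);
`KO3.sPrp` gives `x`.  `KO3.sPol`.  (2) Let `πa = a - ⟨e,a⟩ e` and `N'(a,b,c,d,f) = N(πa,πb,πc,πd,πf)`,
`Dcrv N'`.  For all `u, v`: `N'(u;u,v,u,v) = 0` by (a) for `πu, πv` and a unit vector `x` orthogonal to `e`,
`πu`, `πv` (`S_Pr3`).  `KO3.sPol`: `N' = 0`. -/
def S_Nz : Prop :=
  ∀ (V : Type) [AddCommGroup V] [Module ℝ V] (B : V → V → ℝ) (m : ℕ), Eu B m →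
    ∀ N : V → V → V → V → V → ℝ, Dcrv N →
    (2 ≤ m → (∀ u v, ∀ z a b c d, act5 (wd B u v) N z a b c d = 0) →
      ∀ z a b c d, N z a b c d = 0) ∧
    ∀ e, B e e = 1 → 3 ≤ m →
      (∀ u v, B e u = 0 → B e v = 0 → ∀ z a b c d, act5 (wd B u v) N z a b c d = 0) →
      ∀ z a b c d, B e z = 0 → B e a = 0 → B e b = 0 → B e c = 0 → B e d = 0 → N z a b c d = 0

/-- **CT** (invariant arrays).  Proof (`i, j, k, l` distinct; `m ≥ 3`).  `rt4 p q T` at a multi-index is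
the sum over the slots: an entry `p` is replaced by `q` with a minus sign, an entry `q` by `p`.
(1) `rt4 j k` at `(i,i,i,j)`: `T_{iiik} = 0`.  (2) `rt4 i k` at `(k,i,i,j)`, `(i,k,i,j)`, `(i,i,k,j)`, with
(1): `T_{kkij} + T_{kikj} = 0`, `T_{kkij} + T_{ikkj} = 0`, `T_{kikj} + T_{ikkj} = 0`; so
`T_{kikj} = T_{ikkj} = T_{kkij} = 0`.  (3) `rt4 k l` at `(k,i,k,j)` and `(i,k,k,j)`, with (2):
`T_{likj} = -T_{kilj}`, `T_{ilkj} = -T_{iklj}`: on distinct indices `T` is antisymmetric in slots `1,3` and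
`2,3`, hence totally antisymmetric (with the antisymmetry in `3,4`), and the Bianchi identity gives
`3T = 0`.  (4) `rt4 i j` at `(i,i,i,j)`: `-T_{jiij} - T_{ijij} = 0`, so `T_{ijij} = T_{jiji}`; `rt4 j k` at
`(i,j,i,k)`: `T_{ikik} = T_{ijij}`.  So all `T_{ijij}` agree, value `-κ`.  (5) With the antisymmetry in `3,4`
all components are determined. -/
def S_CT : Prop :=
  ∀ (m : ℕ) (T : Fin m → Fin m → Fin m → Fin m → ℝ), 3 ≤ m →
    (∀ a b c d, T a b d c = -T a b c d) →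
    (∀ a b c d, T a b c d + T a c d b + T a d b c = 0) →
    (∀ i j, i ≠ j → ∀ a b c d, rt4 i j T a b c d = 0) →
    ∃ κ : ℝ, ∀ a b c d, T a b c d = κ * ((if a = d then 1 else 0) * (if b = c then 1 else 0)
      - (if a = c then 1 else 0) * (if b = d then 1 else 0))

/-- **NfN** (normal form of `N`).  Available: `S_Nz`, `S_CT`.  Let `f` be a frame with `f 0 = e`,
`d_i = f i.succ` (`i : Fin m`), `D = e^⊥`; compare `KO3/Nfm.lean`, where the same is proved under another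
hypothesis.  Proof.  For `i ≠ j` the rotation `d_i ∧ d_j` annihilates `e`, maps `d_i` to `-d_j` and `d_j` to
`d_i`, so the arrays of components of `N` on the `d_i` (and `e`) are annihilated by `rt2`, `rt3`, `rt4`.
(1) `N(z;a,b,c,d) = 0` on `D`: `S_Nz` (2).
(2) `T_{abcd} = N(d_a;e,d_b,d_c,d_d)` is antisymmetric in `c, d`, and the first Bianchi identity (with
`a12, a34, sw`) is `T_{abcd} + T_{acdb} + T_{adbc} = 0`; `S_CT`: `N(z;e,b,c,d) = κ G0(z,b,c,d)` on `D`.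
(3) `bi2` for `(e,p,q)` on `(c,d)`: `N(e;p,q,c,d) = N(p;e,q,c,d) - N(q;e,p,c,d) = 2κ G0(p,q,c,d)` on `D`.
(4) `S_{abc} = N(d_a;e,d_b,e,d_c)` is symmetric in `b, c`, so `S = 0` (`KO3.sCi23`).
(5) `bi2` for `(e,a,b)` on `(e,c)`: `N(e;a,b,e,c) = N(a;e,b,e,c) - N(b;e,a,e,c) = 0` on `D`; by `sw`
`N(e;e,c,a,b) = 0`.  (6) `h_{ab} = N(e;e,d_a,e,d_b)` is symmetric, so `h_{ab} = h δ_{ab}` (`KO3.sCi23`); put
`k = h + 4κ`.  (7) Compare `N` and `κ FF + k TT` on frame vectors and use multilinearity, exactly as in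
steps (8), (9) of `KO3.S_Nfm`. -/
def S_NfN : Prop :=
  ∀ (V : Type) [AddCommGroup V] [Module ℝ V] (B : V → V → ℝ) (m : ℕ), Eu B m → 3 ≤ m →
    ∀ N : V → V → V → V → V → ℝ, Dcrv N → ∀ e, B e e = 1 →
      (∀ u v, B e u = 0 → B e v = 0 → ∀ z a b c d, act5 (wd B u v) N z a b c d = 0) →
      ∃ κ k : ℝ, ∀ z a b c d, N z a b c d = κ * FF B (B e) z a b c d + k * TT B (B e) z a b c d

/-- **Wa** (curvature tensors with special values on orthogonal quadruples).  `K = e^⊥`.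
Proof.  (1) Let `a, b, c, d` be orthonormal; the hypothesis for `u = a`, `v = c`
(`a ↦ -c`, `c ↦ a`, `b, d ↦ 0`): `R(c,b,c,d) = R(a,b,a,d)`.  (2) With `a = e`, `b, c, d ∈ K` orthonormal:
`R(c,b,c,d) = R(e,b,e,d) = lam⟨b,d⟩ = 0`.  (3) Replace `b, d` by `(b+d)/√2, (b-d)/√2`:
`R(c,b,c,b) = R(c,d,c,d)`.  Let `d_i = f i.succ`, `f` a frame with `f 0 = e` (`i : Fin m`, `m ≥ 3`).  By (3) and
`sw`, `a12`, `a34` all `R(d_i,d_j,d_i,d_j)`, `i ≠ j`, agree: value `-α`.  (4) For `i, j, k, l` distinct replace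
`c` by `(d_i + d_k)/√2` in (2), with `b = d_j`, `d = d_l`: `R(d_i,d_j,d_k,d_l) = -R(d_k,d_j,d_i,d_l)`, so with
`a12` the values on distinct indices are totally antisymmetric in the first three slots and the Bianchi
identity gives `0`.  (5) So `R = α G0` on `K`; `R(x,y,e,z) = 0` on `K`, `R(e,x,e,y) = lam⟨x,y⟩`; put
`β = -lam - α` and compare on frame vectors as in `S_NfR`. -/
def S_Wa : Prop :=
  ∀ (V : Type) [AddCommGroup V] [Module ℝ V] (B : V → V → ℝ) (m : ℕ) (R : V → V → V → V → ℝ),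
    Eu B m → 3 ≤ m → Crvt R → ∀ (e : V) (lam : ℝ), B e e = 1 →
      (∀ x y, B e x = 0 → B e y = 0 → ∀ a, R x y e a = 0) →
      (∀ x y, B e x = 0 → B e y = 0 → R e x e y = lam * B x y) →
      (∀ a b c d, B a b = 0 → B a c = 0 → B a d = 0 → B b c = 0 → B b d = 0 → B c d = 0 →
        ∀ u v, act4 (wd B u v) R a b c d = 0) →
      ∃ α β : ℝ, ∀ a b c d, R a b c d = α * G0 B a b c d
        + β * KN B (fun p q => B e p * B e q) a b c d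

/-! ## O. odd order: geometry -/

/-- **Oq** (orthogonal quadruples of curves).  Proof: `KO3.sOrC` gives curves `α, β, γ` for `a, b, c`
(mutually orthogonal and nonzero near `t = 0`, covariant derivative `0`).  Let `δ₁` be a curve with
vanishing covariant derivative through `d` and
`δ = δ₁ - (⟨δ₁,α⟩/⟨α,α⟩) α - (⟨δ₁,β⟩/⟨β,β⟩) β - (⟨δ₁,γ⟩/⟨γ,γ⟩) γ`: the coefficients have value `0` and derivative
`0` at `t = 0`, as in `KO3/OrC.lean` (copy the private lemmas `orc_lin`, `orc_step`, `orc_ne`). -/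
def S_Oq : Prop :=
  ∀ (n : ℕ) (g : Pt n → Matrix (Fin n) (Fin n) ℝ) (Ω : Set (Pt n)), IsMetricOn g Ω → ∀ p ∈ Ω,
    ∀ X a b c d : Pt n, Orth g p a b c → Orth g p a b d → ip g p c d = 0 →
    a ≠ 0 → b ≠ 0 → c ≠ 0 → d ≠ 0 →
    ∃ α β γ δ : ℝ → Pt n, Cv g p X α a 0 ∧ Cv g p X β b 0 ∧ Cv g p X γ c 0 ∧ Cv g p X δ d 0 ∧
      ∀ᶠ t in nhds (0 : ℝ), Orth g (p + t • X) (α t) (β t) (γ t) ∧
        Orth g (p + t • X) (α t) (β t) (δ t) ∧ ip g (p + t • X) (γ t) (δ t) = 0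

/-- **Qd** (if `∇R` vanishes on orthogonal quadruples then so does `A.R`).  Available: `S_Oq`.  Proof.
Let `a, b, c, d` be mutually orthogonal at `p`; if one of them is `0` the claim is clear (`act4` of the zero
vector: `Rv` is linear in the last slot, `KO.sLin`).  Differentiate `N(ζ;α,β,γ,δ) = 0` at `p` along `X`
with the curves of `S_Oq` and a curve `ζ` with vanishing covariant derivative through `z` (`KO3.sCvP`,
rank 5): `M(X,z;a,b,c,d) = 0`.  `KO3.sRc4`: `act4 (Rv g p x y) R (a,b,c,d) = M(x,y;…) - M(y,x;…) = 0`.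
`KO3.sGenV` (`Alg (ip g p) (n-1) …` by `KO3.sFrm`, `KO.sSym`) and linearity of `act4` in the endomorphism. -/
def S_Qd : Prop :=
  ∀ (n : ℕ) (g : Pt n → Matrix (Fin n) (Fin n) ℝ) (U : Set (Pt n)), 3 ≤ n → IsMetricOn g U →
    (∀ x ∈ U, NSi (ip g x) (e4 (R4 g) x)) →
    (∀ x ∈ U, ∀ z a b c d, Orth g x a b c → Orth g x a b d → ip g x c d = 0 →
      e5 (N g) x z a b c d = 0) →
    ∀ p ∈ U, ∀ a b c d, Orth g p a b c → Orth g p a b d → ip g p c d = 0 →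
      ∀ u v, act4 (wd (ip g p) u v) (e4 (R4 g) p) a b c d = 0

/-- **PO1** (pointwise structure, odd order).  Available: `S_La`, `S_Sb`, `S_Ds`, `S_Kc`, `S_To`,
`S_Kp`, `S_Oc`, `S_Oa`, `S_Ob`, `S_Nz`, `S_NfN`.  Let `P Φ = Kl g x Φ 5`, a `LieP` (`S_Kp`); by `S_Kc` `P Φ`
is `act5 Φ (e5 (N g) x) = 0`.  `Alg (ip g x) (n-1) (e4 (R4 g) x) (Rv g x)` (`KO3.sFrm`, `KO.sSym`).  `N ≠ 0` and
`S_Nz` (1) (`KO.sBi2`): not all `wd (ip g x) u v` are in `P`.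
Proof.  (1) Let `u, v ∈ ker (τ 1)`, `A = Rv g x u v`.  `S_To`: `Kl g x A (r+2)`; descend in steps of two
(`S_Ds` with `j = 2`): `Kl g x A 7` and `Kl g x A 5` (`r` odd, `r ≥ 5`).  If `τ 1 = 0` at `x` then by
`KO3.sGenV` all `wd u v` are in `P`, a contradiction: first statement.  (2) Let `e1 (τ 1) x v = s⟨e,v⟩`,
`s ≠ 0`.  `S_Oc` (`k = 5`) and `S_Oa`: `R(x,y,e,a) = 0` for `x, y ⊥ e`.  `KO3.sGenD` (`ν = e`): every
`A = wd u v`, `u, v ⊥ e`, is a combination of the `Rv g x (h i) (h j)`, `h i ⊥ e`, so `Kl g x A 7`,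
`Kl g x A 5` (`S_Kp`, or `S_La` (5)); `S_Oc` and `S_Ob`: `lam`.  `S_NfN`. -/
def S_PO1 : Prop :=
  ∀ (n : ℕ) (g : Pt n → Matrix (Fin n) (Fin n) ℝ) (Ω : Set (Pt n)) (r : ℕ)
    (τ : (m : ℕ) → TF n m), 4 ≤ n → 5 ≤ r → Odd r → KSr g Ω r τ → Sy Ω r τ → ∀ x ∈ Ω,
      (∃ z a b c d, e5 (N g) x z a b c d ≠ 0) →
      (∃ v, e1 (τ 1) x v ≠ 0) ∧
      ∀ (e : Pt n) (s : ℝ), ip g x e e = 1 → s ≠ 0 → (∀ v, e1 (τ 1) x v = s * ip g x e v) →
        (∀ u v, ip g x e u = 0 → ip g x e v = 0 → ∀ a, e4 (R4 g) x u v e a = 0) ∧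
        (∃ lam : ℝ, ∀ u v, ip g x e u = 0 → ip g x e v = 0 →
          e4 (R4 g) x e u e v = lam * ip g x u v) ∧
        InvO g x e ∧
        ∃ κ k : ℝ, ∀ z a b c d, e5 (N g) x z a b c d = κ * FF (ip g x) (ip g x e) z a b c d
          + k * TT (ip g x) (ip g x e) z a b c d

/-- **PO** (the structure at the points with `∇R ≠ 0`, odd order).  Available: `S_PO1`, `S_Qd`, `S_Wa`.
Proof.  The first statement of `PtJ` is vacuous by `S_PO1`.  Second statement: `U = {y ∈ Ω : ∇R ≠ 0 at y}`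
is open and contains `x`.  At every `y ∈ U` `τ 1 ≠ 0` by `S_PO1`; Riesz (`KO.sOnb`): `e1 (τ 1) y = s⟨e,·⟩` with
a unit vector `e`, `s ≠ 0`, and the normal form of `∇R` at `y`.  It vanishes on mutually orthogonal
`a, b, c, d`: in `FF` every term contains `G0` of four vectors of which at least three are among
`a, b, c, d`, so a factor `⟨·,·⟩` of two of them in each product; in `TT` every term contains such a factor.
`S_Qd`, `S_Wa` at `x` (`m = n - 1 ≥ 3`). -/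
def S_PO : Prop :=
  ∀ (n : ℕ) (g : Pt n → Matrix (Fin n) (Fin n) ℝ) (Ω : Set (Pt n)) (r : ℕ)
    (τ : (m : ℕ) → TF n m), 4 ≤ n → 5 ≤ r → Odd r → KSr g Ω r τ → Sy Ω r τ →
      PtJ g Ω (τ 1) (InvO g)

/-- **Ho** (`∇_W W = 0`, odd order).  Available: `S_Nn`.  Let `f` be a frame at `x` with
`f 0 = W = du g θ x`, `h(v) = (Dθ)(W,v)`, `h(W) = 0`.  Proof.  Let `z, a, b` be three different vectors of
`f_1, …, f_{n-1}` (`n ≥ 4`).  `InvO` for `u = z`, `v = a` (`a ↦ z`, `W, b ↦ 0`) on `(W;a,b,b,W)`: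
`N(W;z,b,b,W) = 0`.  By `S_Nn` `N(W;z,b,b,W) = dα(W) G0(z,b,b,W) + dβ(W) KN(θθ)(z,b,b,W)
+ β KN(sy2 θ h)(z,b,b,W) = β h(z)` (`G0(z,b,b,W) = 0`, `KN(θθ)(z,b,b,W) = θ(z)θ(W)⟨b,b⟩ = 0`,
`KN(sy2 θ h)(z,b,b,W) = (θ(z)h(W) + h(z)θ(W))⟨b,b⟩ = h(z)`).  So `h(z) = 0` for all frame vectors. -/
def S_Ho : Prop :=
  ∀ (n : ℕ) (g : Pt n → Matrix (Fin n) (Fin n) ℝ) (U : Set (Pt n)) (θ : TF n 1)
    (α β : Pt n → ℝ), 4 ≤ n → Rot g U θ α β → (∀ x ∈ U, InvO g x (du g θ x)) →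
    ∀ x ∈ U, ∀ v, e2 (D g θ) x (du g θ x) v = 0

/-- **EnS** (THEOREM SYM, all orders `r ≥ 4`).  Available: `S_Bt`, `S_Br3`, `S_PO`, `S_Ho`, `S_Th`,
`S_EnE`.  Proof: `r` even: `S_EnE`.  `r` odd: the same with `S_PO`, `J = InvO g` and `S_Ho` (the second
part of `KO.sBrg`). -/
def S_EnS : Prop :=
  ∀ (n : ℕ) (g : Pt n → Matrix (Fin n) (Fin n) ℝ) (Ω : Set (Pt n)) (r : ℕ), 4 ≤ n → 4 ≤ r →
    IsMetricOn g Ω →
    ∀ t : ℕ → List (Fin n) → Pt n → ℝ, (∀ m l, ContDiffOn ℝ ∞ (t m l) Ω) →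
    (∀ x ∈ Ω, KSAt g r (fun m l => t m l x) x) →
    (∀ x ∈ Ω, ∀ m, 3 ≤ m → m < r → SymKer (fun m l => t m l x) m) →
    ∀ p ∈ Ω, NonSing g p → ∀ a c b m q, nablaR g 1 a [c, b, m, q] p = 0

/-! ## F. order four, arbitrary coefficients -/

/-- **Wg** (Walker's identity for all derivatives).  Available: `S_Sb`, `S_Sd`.  Proof: induction on the
length of `w`, for all points of `Ω`.  `w = []`: `KO3.sWkr` with `Ro = Rv g x` (`KO.sSym`, `KO.sOnb`) and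
`KO3.sRc4`, `S_Sb` (2).  Step: the identity at `p + tX` with every vector `v` replaced by
`v - t • Chr g p X v`; differentiate at `t = 0` (second part of `S_Sd`). -/
def S_Wg : Prop :=
  ∀ (n : ℕ) (g : Pt n → Matrix (Fin n) (Fin n) ℝ) (Ω : Set (Pt n)), IsMetricOn g Ω →
    ∀ x ∈ Ω, ∀ (w : List (Pt n)) (y z c d p q : Pt n),
      (S g x (w ++ [y, z, c, d, p, q]) - S g x (w ++ [z, y, c, d, p, q]))
        + (S g x (w ++ [c, d, p, q, y, z]) - S g x (w ++ [d, c, p, q, y, z]))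
        + (S g x (w ++ [p, q, y, z, c, d]) - S g x (w ++ [q, p, y, z, c, d])) = 0

/-- **Wt** (`W(t³(a,b,·))[N] = 0`).  Available: `S_Sb`, `S_Tr`, `S_Wg`.  Proof.  Insert `ks` (`r = 4`,
lists `[a,b,y,z,c,d,p,q]` etc.; `Finset.Icc 1 4`, `S_Sb`) into `S_Wg` with `w = [a,b]`.  The terms with
`t¹(a)` give `t¹(a)` times `S_Wg` for `w = [b]`, the terms with `t²(a,b)` give `S_Wg` for `w = []`, `t⁴ = 0`
(`S_Tr`), and the terms with `t³` are `-W(t³(a,b,·))[N](y,z,c,d,p,q)`. -/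
def S_Wt : Prop :=
  ∀ (n : ℕ) (g : Pt n → Matrix (Fin n) (Fin n) ℝ) (Ω : Set (Pt n)) (τ : (m : ℕ) → TF n m),
    3 ≤ n → KSr g Ω 4 τ → ∀ x ∈ Ω, ∀ a b y z c d p q,
      WW (e3 (τ 3) x a b) (e5 (N g) x) y z c d p q = 0

/-- **Tq** (the Ricci identity in the first two slots, order four).  Available: `S_Sb`, `S_Sr`,
`S_Tr`.  Proof.  `ks` for `u :: v :: c :: l` and `v :: u :: c :: l` (`l` of length `5`), subtracted:
`m = 1` vanishes, `m = 2`, `m = 3` give the right side with a minus sign, `m = 4` vanishes (`S_Tr`);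
`S_Sr`. -/
def S_Tq : Prop :=
  ∀ (n : ℕ) (g : Pt n → Matrix (Fin n) (Fin n) ℝ) (Ω : Set (Pt n)) (τ : (m : ℕ) → TF n m),
    3 ≤ n → KSr g Ω 4 τ → ∀ x ∈ Ω, ∀ u v, e1 (τ 1) x u = 0 → e1 (τ 1) x v = 0 →
      ∀ (c : Pt n) (l : List (Pt n)), l.length = 5 →
      dS (S g x) (c :: l) ((c :: l).map (Rv g x u v))
        = (e2 (τ 2) x u v - e2 (τ 2) x v u) * S g x (c :: l)
          + (e3 (τ 3) x u v c - e3 (τ 3) x v u c) * S g x l

/-- **Qf** (the quadratic form).  Available: `S_La`, `S_Ad`, `S_Sb`, `S_Sr`, `S_Tq`.  Let `f` be a frame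
at `x` (`KO.sOnb`), `⟨F,G⟩ = sumL f 4 (F G)`, `F(l) = S(l)` on lists of length `4`,
`Z(a,b)(l) = S(a :: b :: l) - S(b :: a :: l) = -dS F l (l.map (Rv g x a b))` (`S_Sr`), `A = Rv g x u v`.
Proof.  `S_Tq` for the lists `c :: d :: l` and `d :: c :: l` (`l` of length `4`), subtracted:
`Z(Ac,d)(l) + Z(c,Ad)(l) + dS (Z(c,d)) l (l.map A) = t²(η) Z(c,d)(l) + t³(η,c) S(d :: l) - t³(η,d) S(c :: l)`.
Multiply by `F(l)` and sum.  `⟨Z(a,b),F⟩ = 0` for all `a, b` (`S_Ad` (2) with `F = G`), and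
`⟨dS (Z(c,d)) A, F⟩ = -⟨Z(c,d), dS F A⟩ = ⟨Z(c,d), Z(u,v)⟩` (`S_Ad` (2)).  Finally
`Z(a,b)(l) = act4 (Rv g x a b) (e4 (R4 g) x)` on the four entries of `l` (`S_Sb`). -/
def S_Qf : Prop :=
  ∀ (n : ℕ) (g : Pt n → Matrix (Fin n) (Fin n) ℝ) (Ω : Set (Pt n)) (τ : (m : ℕ) → TF n m),
    3 ≤ n → KSr g Ω 4 τ → ∀ x ∈ Ω, ∀ f : Fin n → Pt n, Fr (ip g x) f →
      ∀ u v, e1 (τ 1) x u = 0 → e1 (τ 1) x v = 0 → ∀ c d,
      ∑ i, ∑ j, ∑ k, ∑ l, act4 (Rv g x c d) (e4 (R4 g) x) (f i) (f j) (f k) (f l)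
          * act4 (Rv g x u v) (e4 (R4 g) x) (f i) (f j) (f k) (f l)
        = (e3 (τ 3) x u v c - e3 (τ 3) x v u c)
            * (∑ i, ∑ j, ∑ k, ∑ l, e5 (N g) x d (f i) (f j) (f k) (f l)
              * e4 (R4 g) x (f i) (f j) (f k) (f l))
          - (e3 (τ 3) x u v d - e3 (τ 3) x v u d)
            * ∑ i, ∑ j, ∑ k, ∑ l, e5 (N g) x c (f i) (f j) (f k) (f l)
              * e4 (R4 g) x (f i) (f j) (f k) (f l)

/-- **H1** (algebra: `K' = {x ∈ K : x ⊥ p, q}`, first part).  `K = {y : ⟨e,y⟩ = 0}` where `e` is a unit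
vector or `e = 0`; `K' = {x ∈ K : ⟨p,x⟩ = ⟨q,x⟩ = 0}`; dimension `m + 1 ≥ 5`.  Available: `S_Pr3`, `S_Ij`.
Proof.  (1) Let `x ∈ K'`, `y ∈ K` be orthonormal, `A = Ro x y`.  As in `S_Ea` (the hypothesis on
`(x,y,c,d)` and `S_Ij`): `⟨y,a⟩ Ax - ⟨Ax,a⟩ y + ⟨Ay,a⟩ x - ⟨x,a⟩ Ay = 0` for all `a`.  `a = y` and `a = x`:
`Ax = ⟨Ax,y⟩ y`, `Ay = ⟨Ay,x⟩ x`.  So with `k(x,y) = R(x,y,y,x)`: `R(x,y,x,z) = -k(x,y)⟨y,z⟩`,
`R(x,y,y,z) = k(x,y)⟨x,z⟩` for all `z`.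
(2) For fixed `x`: if `y, y' ∈ K` are unit vectors orthogonal to `x` then `k(x,y) = k(x,y')`: first if
`y ⊥ y'` (apply `R(x,·,x,·) = 0` on orthogonal pairs to `(y+y')/√2, (y-y')/√2`), in general through a unit
vector `y'' ∈ K` orthogonal to `x, y, y'`: it exists since `dim K ≥ 4` (a linear system of four equations
`⟨e,·⟩, ⟨x,·⟩, ⟨y,·⟩, ⟨y',·⟩` in dimension `≥ 5`, as in `S_Pr3`).
(3) For fixed unit `y ∈ K` and orthonormal `x, x' ∈ K'` orthogonal to `y`: `R(x,y,y,x') = 0`, and the same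
for `(x+x')/√2, (x-x')/√2`, so `k(x,y) = k(x',y)`.  (4) Two unit vectors `x, x' ∈ K'`: choose a unit
`y ∈ K` orthogonal to both (`S_Pr3` for `e, x, x'`).  If `x' = ±x` then `k(x,y) = k(x',y)`.  Otherwise
`x' = s x + t x''`, `x'' ∈ K'` a unit vector orthogonal to `x`, and `k(x',y) = R(x',y,y,x') = s² k(x,y) +
t² k(x'',y) + 2 s t R(x,y,y,x'') = k(x,y)` by (3).  With (2): all values `k(x,y)`, `x ∈ K'`, `y ∈ K`
orthonormal, agree; call the value `κ` (if there is no such pair take `κ = 0`).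
(5) `D = R - κ G0`.  `D(x,y,x,z) = 0` and `D(x,y,y,z) = 0` for orthonormal `x ∈ K'`, `y ∈ K`, by (1), hence
for orthogonal ones (homogeneity; `x = 0` or `y = 0` trivial), hence for all `x ∈ K'`, `y ∈ K`
(`y = y₀ + s x`, `y₀ ⊥ x`: `D(x,y,x,z) = D(x,y₀,x,z)`, `D(x,y,y,z) = D(x,y₀,y₀,z) + s D(x,y₀,x,z)`). -/
def S_H1 : Prop :=
  ∀ (V : Type) [AddCommGroup V] [Module ℝ V] (B : V → V → ℝ) (m : ℕ) (R : V → V → V → V → ℝ)
    (Ro : V → V → V → V), Alg B m R Ro → 4 ≤ m → ∀ e p q : V, (B e e = 1 ∨ e = 0) →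
      (∀ x y, B e x = 0 → B p x = 0 → B q x = 0 → B e y = 0 →
        ∀ a b c d, act4 (Ro x y) R a b c d = 0) →
      ∃ κ : ℝ, ∀ x y z, B e x = 0 → B p x = 0 → B q x = 0 → B e y = 0 →
        R x y x z = κ * G0 B x y x z ∧ R x y y z = κ * G0 B x y y z

/-- **H2** (second part).  Notation of `S_H1`; `dim K' ≥ 2` because `m + 1 ≥ 5` (`S_Pr3` for `e, p, q`
gives a unit vector of `K'`, and a linear system of four equations in dimension `≥ 5` a unit vector of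
`K'` orthogonal to a given one).  Available: `S_Pr3`, `S_Ij`.  Let `D = R - κ G0`, a curvature tensor
(`KO3.sKNa`, or directly); `x, x' ∈ K'`, `y, y', y'' ∈ K`, `z` arbitrary.
Proof.  (a) polarise: `D(x,y,x',z) = -D(x',y,x,z)`.  (b) `D(x,y,y',z) = -D(x,y',y,z)`.  (c) Bianchi identity
for `(x,y,y')` and (b): `D(y,y',x,z) = -2 D(x,y,y',z)`.
(1) `D(x,x',y,z) = 0`: (c) with `y := x'`, `y' := y` is `D(x',y,x,z) = -2 D(x,x',y,z)`, and by (a), (b)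
`D(x',y,x,z) = -D(x,y,x',z) = D(x,x',y,z)`.  So `D(x,x',a,b) = 0` for all `a, b` (if `a, b` are `e` and a
vector of `K`, exchange them; `e, e` is clear).
(2) `κ ≠ 0`: for orthonormal `x, x' ∈ K'` `R(x,x',a,b) = κ G0(x,x',a,b)`; if `κ = 0` then `S_Ij` (`k = 1`) gives
`wd x x' = 0`, but `wd x x' x' = x ≠ 0`.
(3) `D(x,y,x',z) = 0` for all `z`: by (b) `D(x,y,x',z) = -D(x,x',y,z) = 0`.
(4) `D(x,y,y',y'') = 0`: it is antisymmetric in `y, y'` (b) and in `y', y''`, so totally antisymmetric on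
`K`, and vanishes if one of the three vectors is in `K'` (by (3), with the antisymmetry).  Every vector of
`K` is a combination of two fixed vectors `p', q'` (the components of `p, q` in `K`; more precisely
`y = y₀ + k'` with `k' ∈ K'` and `y₀` in the span of `p', q'`: orthogonal decomposition of `y` with respect
to the span of `p', q'`) and a vector of `K'`; a totally antisymmetric form in three vectors of a
two-dimensional space vanishes.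
(5) `D(x',y,y',e) = 0` for unit `x'` (`e` the unit vector; for `e = 0` trivial): choose a unit `x ∈ K'`,
`x ⊥ x'`.  `Ro x x' = κ wd x x'` by (1), so `act4 (wd x x') R = 0` by (2).  Let first `y, y' ⊥ x, x'`.  On
`(x,y,y',e)` (`wd x x'` maps `x` to `-x'` and `y, y', e` to `0`): `R(x',y,y',e) = 0`, and
`G0(x',y,y',e) = 0`.  In general `y, y'` differ from such vectors by combinations of `x, x' ∈ K'`, which do
not contribute by (3), (1).  So, with (4): `D(x,y,y',z) = 0` for all `z`.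
(6) So `D(x,y,a,b) = 0` for `x ∈ K'`, `y ∈ K` and all `a, b`. -/
def S_H2 : Prop :=
  ∀ (V : Type) [AddCommGroup V] [Module ℝ V] (B : V → V → ℝ) (m : ℕ) (R : V → V → V → V → ℝ)
    (Ro : V → V → V → V), Alg B m R Ro → 4 ≤ m → ∀ e p q : V, (B e e = 1 ∨ e = 0) →
      (∀ x y, B e x = 0 → B p x = 0 → B q x = 0 → B e y = 0 →
        ∀ a b c d, act4 (Ro x y) R a b c d = 0) → ∀ κ : ℝ,
      (∀ x y z, B e x = 0 → B p x = 0 → B q x = 0 → B e y = 0 →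
        R x y x z = κ * G0 B x y x z ∧ R x y y z = κ * G0 B x y y z) →
      κ ≠ 0 ∧ ∀ x y a b, B e x = 0 → B p x = 0 → B q x = 0 → B e y = 0 →
        R x y a b = κ * G0 B x y a b

/-- **H3** (third part: all rotations of `K` annihilate `R`).  Available: `S_Pr3`, `S_H1`, `S_H2`.
Proof.  `S_H1`, `S_H2`: `Ro x y = κ wd x y` for `x ∈ K'`, `y ∈ K`, `κ ≠ 0`, so `act4 (wd x y) R = 0`.
Fix a unit vector `x ∈ K'` (`S_Pr3`).  (1) Let `u, v ∈ K` be orthogonal to `x`.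
`(wd x u)((wd x v) a) - (wd x v)((wd x u) a) = -wd u v a` for all `a` (compute), and `act4` of a commutator
vanishes if `act4` of both skew endomorphisms vanishes (`act4 Φ (act4 Ψ R) - act4 Ψ (act4 Φ R)
= act4 (ΦΨ - ΨΦ) R` up to sign, by multilinearity), so `act4 (wd u v) R = 0`.  In general
`u = u' + s x`, `v = v' + t x`: `wd u v = wd u' v' + t wd u' x + s wd x v'`.
(2) `R(u,v,e,a) = 0` for `u, v ∈ K` (trivial for `e = 0`): it is enough that `R(u,v,z,e) = 0` for `z ∈ K`.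
If `u = x`: `R(x,v,z,e) = κ G0(x,v,z,e) = 0`; the same for `v = x`.  Let `u, v ⊥ x`: `act4 (wd x u) R = 0` on
`(x,v,z,e)` (`x ↦ -u`, `e ↦ 0`): `R(u,v,z,e) = R(x,(wd x u) v,z,e) + R(x,v,(wd x u) z,e) = 0`. -/
def S_H3 : Prop :=
  ∀ (V : Type) [AddCommGroup V] [Module ℝ V] (B : V → V → ℝ) (m : ℕ) (R : V → V → V → V → ℝ)
    (Ro : V → V → V → V), Alg B m R Ro → 4 ≤ m → ∀ e p q : V, (B e e = 1 ∨ e = 0) →
      (∀ x y, B e x = 0 → B p x = 0 → B q x = 0 → B e y = 0 →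
        ∀ a b c d, act4 (Ro x y) R a b c d = 0) →
      (∀ u v, B e u = 0 → B e v = 0 → ∀ a b c d, act4 (wd B u v) R a b c d = 0) ∧
      ∀ u v, B e u = 0 → B e v = 0 → ∀ a, R u v e a = 0

/-- **Qz** (`R(u,v).R = 0` for `u, v ∈ ker t¹`).  Available: `S_Wt`, `S_Qf`, `S_H3`, `S_NfR`.
`n ≥ 5`, `∇R ≠ 0` at `x`.  Proof.  Let `K = ker (τ 1)` at `x`: by Riesz `K = {y : ⟨e,y⟩ = 0}` with a unit
vector `e`, or `e = 0` if `τ 1 = 0`.  `f` a frame, `Z(a,b) = act4 (Rv g x a b) R`, `⟨·,·⟩` the sum over the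
frame of the products of values, `ψ(d) = ⟨N(d;·),R⟩`, a linear form.
If `t³ = 0` at `x`, `S_Qf` with `c = u`, `d = v` gives `⟨Z(u,v),Z(u,v)⟩ = 0`, so `Z(u,v)` vanishes on frame
vectors and hence everywhere.  Otherwise let `θ = t³(a₀,b₀,·) ≠ 0`.  `S_Wt` and `KO3.sTwo` (`N ≠ 0`,
`KO.sBi2`): for all `a, b` `t³(a,b,·)` is a multiple of `θ`: `t³(a,b,w) = C(a,b) θ(w)` with
`C(a,b) = t³(a,b,w₀)/θ(w₀)`, `θ(w₀) ≠ 0`.  Put `γ(u,v) = C(u,v) - C(v,u)`, `b(u,v) = θ(u)ψ(v) - θ(v)ψ(u)`;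
`S_Qf`: `⟨Z(c,d),Z(u,v)⟩ = γ(u,v) b(c,d)` for `u, v ∈ K` and all `c, d`.
Suppose `Z(u₀,v₀) ≠ 0` with `u₀, v₀ ∈ K`: `γ(u₀,v₀) b(u₀,v₀) = |Z(u₀,v₀)|² > 0`.  For `u, v ∈ K` the left side
is symmetric: `γ(u,v) b(u₀,v₀) = γ(u₀,v₀) b(u,v)`.  Let `p, q` be the vectors dual to `θ, ψ` (Riesz), `x ⊥ p, q`,
`x ∈ K`, `y ∈ K`: `b(x,y) = 0`, so `γ(x,y) = 0` and `|Z(x,y)|² = γ(x,y) b(x,y) = 0`: `Z(x,y) = 0`.  `S_H3`
(`m = n - 1 ≥ 4`): `act4 (wd u v) R = 0` for `u, v ∈ K` and `R(u,v,e,a) = 0`.  If `e` is a unit vector,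
`S_NfR` gives `R = α G0 + β KN(e ⊗ e)`, so `Rv g x u v = α wd u v` for `u, v ∈ K` (the term with `β` vanishes
there) and `Z(u₀,v₀) = 0`, a contradiction.  If `e = 0`, `K` is everything and `KO3.sCIn` (second part) gives
`R = κ G0`, `Rv g x u v = κ wd u v` and the same contradiction. -/
def S_Qz : Prop :=
  ∀ (n : ℕ) (g : Pt n → Matrix (Fin n) (Fin n) ℝ) (Ω : Set (Pt n)) (τ : (m : ℕ) → TF n m),
    5 ≤ n → KSr g Ω 4 τ → ∀ x ∈ Ω, (∃ z a b c d, e5 (N g) x z a b c d ≠ 0) →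
      ∀ u v, e1 (τ 1) x u = 0 → e1 (τ 1) x v = 0 → ∀ a b c d,
        act4 (Rv g x u v) (e4 (R4 g) x) a b c d = 0

/-- **Hy** (a hyperplane of `so(e^⊥)` suffices).  Available: `S_Cd`.  Proof.  Let `f` be a frame with
`f 0 = e`, `d_i = f i.succ` (`i : Fin m`, `m ≥ 3`).  For an `m × m` matrix `X` let
`Φ_X a = ∑_{ij} X_{ij} ⟨d_j,a⟩ d_i`, so `Φ_X Φ_Y = Φ_{XY}` and `Φ_{E_{ij} - E_{ji}} = wd B (d i) (d j)`; a skew `X`
is `½ ∑ X_{ij} (E_{ij} - E_{ji})`, so `Φ_X = ½ ∑ X_{ij} wd B (d i) (d j)`.  `Q = {X : P Φ_X}` is a submodule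
closed under commutators.  `φ(X) = ½ ∑ X_{ij} γ(d_i,d_j)`, a linear form.  If `X` is skew and `φ(X) = 0` then
`P Φ_X` by hypothesis (`k = m`, `u = v = d`, `w = ½ X`).  `S_Cd`: all skew `X` are in `Q`; so
`P (wd B (d i) (d j))`, and all `wd B u v`, `u, v ⊥ e`, are combinations of these. -/
def S_Hy : Prop :=
  ∀ (V : Type) [AddCommGroup V] [Module ℝ V] (B : V → V → ℝ) (m : ℕ), Eu B m → 3 ≤ m →
    ∀ P : (V → V) → Prop, LieP P → ∀ e, B e e = 1 → ∀ γ : V → V → ℝ,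
      (∀ (k : ℕ) (u v : Fin k → V) (w : Fin k → Fin k → ℝ), (∀ i, B e (u i) = 0) →
        (∀ i, B e (v i) = 0) → ∑ i, ∑ j, w i j * γ (u i) (v j) = 0 →
        P fun a => ∑ i, ∑ j, w i j • wd B (u i) (v j) a) →
      ∀ u v, B e u = 0 → B e v = 0 → P (wd B u v)

/-- **PF** (the structure at the points with `∇R ≠ 0`, order four).  Available: `S_La`, `S_Ad`, `S_Sb`,
`S_Kc`, `S_Ea`, `S_NfR`, `S_Kp`, `S_Wt`, `S_Tq`, `S_Qz`, `S_Hy`.  Proof.  The first statement of `PtJ` is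
`S_Qz`.  Second statement: let `e` be as there, `u, v ⊥ e`: `act4 (Rv g x u v) R = 0` by `S_Qz`.  As in
`S_PE`: `S_Ea`, `KO3.sGenD` (`ν = e`), `S_NfR`: `R = α G0 + β KN(e ⊗ e)`.  So `R(u,v,a,b) = α G0(u,v,a,b)`, i.e.
`Rv g x u v = α wd u v`, for `u, v ⊥ e`; `α ≠ 0` by `NSi` (an orthonormal pair `u, v ⊥ e`).
`InvE`: `P Φ = Kl g x Φ 6`, a `LieP` (`S_Kp`); `S_Kc`.  `γ(u,v) = α⁻¹ (C(u,v) - C(v,u))` where
`t³(a,b,w) = C(a,b) θ(w)`: if `t³ = 0` at `x` take `C = 0`, otherwise as in `S_Qz` (`S_Wt`, `KO3.sTwo`).  Let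
`A a = ∑ w_{ij} • wd (u i) (v j) a` with `∑ w_{ij} γ(u_i,v_j) = 0`.  By `S_Tq` and `S_La` (5), for `c :: l`
of length `6`: `dS S (c :: l) (map A) = s S(c :: l) + (∑ w_{ij} γ(u_i,v_j)) θ(c) S(l) = s S(c :: l)` with
a constant `s`.  `A` is skew; `S_Ad` (4): `s = 0` or `S = 0` on lists of length `6`; in both cases
`Kl g x A 6`.  `S_Hy` (`m = n - 1 ≥ 3`). -/
def S_PF : Prop :=
  ∀ (n : ℕ) (g : Pt n → Matrix (Fin n) (Fin n) ℝ) (Ω : Set (Pt n)) (τ : (m : ℕ) → TF n m),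
    5 ≤ n → KSr g Ω 4 τ → PtJ g Ω (τ 1) (InvE g)

/-- **EnF** (THEOREM FOUR).  Available: `S_Bt`, `S_PF`, `S_He`, `S_Th`.  Proof: as `S_EnE` with `S_PF`
(`r = 4`). -/
def S_EnF : Prop :=
  ∀ (n : ℕ) (g : Pt n → Matrix (Fin n) (Fin n) ℝ) (Ω : Set (Pt n)), 5 ≤ n → IsMetricOn g Ω →
    ∀ t : ℕ → List (Fin n) → Pt n → ℝ, (∀ m l, ContDiffOn ℝ ∞ (t m l) Ω) →
    (∀ x ∈ Ω, KSAt g 4 (fun m l => t m l x) x) →
    ∀ p ∈ Ω, NonSing g p → ∀ a c b m q, nablaR g 1 a [c, b, m, q] p = 0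

end

end Pool.Agent.Lib.MP_9d59e9_gt.KS
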