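import Pool.Agent.Lib.MP_9d59e9_gt.KS.SpecO

/-!
# MP_9d59e9_gt, project KS: module Wa

Curvature tensors with special values on orthogonal quadruples.
-/

set_option autoImplicit false

namespace Pool.Agent.Lib.MP_9d59e9_gt.KS

open scoped BigOperators
open KO KO3

noncomputable section

section
variable {V : Type} [AddCommGroup V] [Module ℝ V]

private theorem Wa_cmb {φ : V → ℝ} (h : Lin1 φ) (r s : ℝ) (a b : V) :
    φ (r • a - s • b) = r * φ a - s * φ b := by
  have e : r • a - s • b = r • a + (-s) • b := by rw [neg_smul, sub_eq_add_neg]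
  rw [e, h.add, h.smul, h.smul]
  ring

private theorem Wa_zero {φ : V → ℝ} (h : Lin1 φ) : φ 0 = 0 := by
  have := h.smul 0 0
  rwa [zero_smul, zero_mul] at this

private theorem Wa_sum {φ : V → ℝ} (h : Lin1 φ) {ι : Type} (s : Finset ι) (c : ι → ℝ)
    (f : ι → V) : φ (∑ i ∈ s, c i • f i) = ∑ i ∈ s, c i * φ (f i) := by
  classical
  induction s using Finset.induction_on with
  | empty => simp [Wa_zero h]
  | insert a s ha ih => rw [Finset.sum_insert ha, Finset.sum_insert ha, h.add, h.smul, ih]

private theorem Wa_ext {B : V → V → ℝ} {n : ℕ} {f : Fin n → V} (hf : Fr B f) {φ : V → ℝ}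
    (h : Lin1 φ) (h0 : ∀ i, φ (f i) = 0) (v : V) : φ v = 0 := by
  rw [hf.ex v, Wa_sum h]
  exact Finset.sum_eq_zero fun i _ => by rw [h0 i, mul_zero]

private theorem Wa_lc {φ ψ : V → ℝ} (h : Lin1 φ) (e : ∀ v, ψ v = φ v) : Lin1 ψ := by
  have : ψ = φ := funext e
  rw [this]
  exact h

/-- linear in the first slot, antisymmetric in both pairs, symmetric under exchange -/
private structure Wa_C (T : V → V → V → V → ℝ) : Prop where
  lin : ∀ b c d, Lin1 fun a => T a b c d
  a12 : ∀ a b c d, T b a c d = -T a b c d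
  a34 : ∀ a b c d, T a b d c = -T a b c d
  sw : ∀ a b c d, T c d a b = T a b c d

private theorem Wa_l2 {T : V → V → V → V → ℝ} (h : Wa_C T) (a c d : V) :
    Lin1 fun b => T a b c d := by
  constructor
  · intro x y
    change T a (x + y) c d = T a x c d + T a y c d
    have := (h.lin a c d).add x y
    rw [h.a12 (x + y) a, h.a12 x a, h.a12 y a, this]
    ring
  · intro r x
    change T a (r • x) c d = r * T a x c d
    have := (h.lin a c d).smul r x
    rw [h.a12 (r • x) a, h.a12 x a, this]
    ring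

private theorem Wa_l3 {T : V → V → V → V → ℝ} (h : Wa_C T) (a b d : V) :
    Lin1 fun c => T a b c d :=
  Wa_lc (h.lin d a b) fun v => (h.sw a b v d).symm

private theorem Wa_l4 {T : V → V → V → V → ℝ} (h : Wa_C T) (a b c : V) :
    Lin1 fun d => T a b c d :=
  Wa_lc (Wa_l2 h c a b) fun v => (h.sw a b c v).symm

private theorem Wa_sub {T S : V → V → V → V → ℝ} (h : Wa_C T) (k : Wa_C S) :
    Wa_C fun a b c d => T a b c d - S a b c d where
  lin b c d := by
    constructor
    · intro x y
      change T (x + y) b c d - S (x + y) b c d = T x b c d - S x b c d + (T y b c d - S y b c d)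
      rw [(h.lin b c d).add, (k.lin b c d).add]
      ring
    · intro r x
      change T (r • x) b c d - S (r • x) b c d = r * (T x b c d - S x b c d)
      rw [(h.lin b c d).smul, (k.lin b c d).smul]
      ring
  a12 a b c d := by
    change T b a c d - S b a c d = -(T a b c d - S a b c d)
    rw [h.a12, k.a12]
    ring
  a34 a b c d := by
    change T a b d c - S a b d c = -(T a b c d - S a b c d)
    rw [h.a34, k.a34]
    ring
  sw a b c d := by
    change T c d a b - S c d a b = T a b c d - S a b c d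
    rw [h.sw, k.sw]

private theorem Wa_cr {T : V → V → V → V → ℝ} (h : Crvt T) : Wa_C T :=
  ⟨h.lin, h.a12, h.a34, h.sw⟩

/-- a tensor with these symmetries vanishes on a frame if it vanishes on the three types -/
private theorem Wa_16 {T : V → V → V → V → ℝ} (h : Wa_C T) {m : ℕ} (f : Fin (m + 1) → V)
    (H1 : ∀ i j k l : Fin m, T (f i.succ) (f j.succ) (f k.succ) (f l.succ) = 0)
    (H2 : ∀ j k l : Fin m, T (f 0) (f j.succ) (f k.succ) (f l.succ) = 0)
    (H3 : ∀ j l : Fin m, T (f 0) (f j.succ) (f 0) (f l.succ) = 0) (i j k l : Fin (m + 1)) :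
    T (f i) (f j) (f k) (f l) = 0 := by
  have d1 : ∀ a c d, T a a c d = 0 := fun a c d => by
    have := h.a12 a a c d
    linarith
  have d3 : ∀ a b c, T a b c c = 0 := fun a b c => by
    have := h.a34 a b c c
    linarith
  have K2 : ∀ (j : Fin m) (k l : Fin (m + 1)), T (f 0) (f j.succ) (f k) (f l) = 0 := by
    intro j k l
    refine Fin.cases ?_ (fun k => ?_) k
    · refine Fin.cases ?_ (fun l => ?_) l
      · exact d3 _ _ _
      · exact H3 j l
    · refine Fin.cases ?_ (fun l => ?_) l
      · rw [h.a34, H3 j k, neg_zero]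
      · exact H2 j k l
  have K1 : ∀ (i j : Fin m) (k l : Fin (m + 1)), T (f i.succ) (f j.succ) (f k) (f l) = 0 := by
    intro i j k l
    refine Fin.cases ?_ (fun k => ?_) k
    · refine Fin.cases ?_ (fun l => ?_) l
      · exact d3 _ _ _
      · rw [← h.sw]
        exact H2 l i j
    · refine Fin.cases ?_ (fun l => ?_) l
      · rw [h.a34, ← h.sw, H2 k i j, neg_zero]
      · exact H1 i j k l
  refine Fin.cases ?_ (fun i => ?_) i
  · refine Fin.cases ?_ (fun j => ?_) j
    · exact d1 _ _ _
    · exact K2 j k l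
  · refine Fin.cases ?_ (fun j => ?_) j
    · rw [h.a12, K2 i k l, neg_zero]
    · exact K1 i j k l

end

theorem tWa : S_Wa := by
  intro V _ _ B m R hE hm hR e lam he h1 h2 hact
  obtain ⟨f, hf, hf0⟩ := hE.fr e he
  have hB := hE.ip
  have hRC : Wa_C R := Wa_cr hR
  have hBe : Lin1 (B e) := Wa_lc (hB.lin e) fun v => hB.symm e v
  have hd0 : ∀ i : Fin m, B e (f i.succ) = 0 := by
    intro i
    rw [← hf0, hf.on]
    exact if_neg (Fin.succ_ne_zero i).symm
  have hdd : ∀ i j : Fin m, B (f i.succ) (f j.succ) = if i = j then 1 else 0 := by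
    intro i j
    rw [hf.on]
    by_cases h : i = j
    · rw [h, if_pos rfl, if_pos rfl]
    · rw [if_neg h, if_neg fun h' => h (Fin.succ_injective m h')]
  have hde : ∀ i : Fin m, B (f i.succ) e = 0 := fun i => by rw [hB.symm, hd0 i]
  have z1 : ∀ b c d, R 0 b c d = 0 := fun b c d => Wa_zero (hR.lin b c d)
  have z2 : ∀ a c d, R a 0 c d = 0 := fun a c d => Wa_zero (Wa_l2 hRC a c d)
  have z3 : ∀ a b d, R a b 0 d = 0 := fun a b d => Wa_zero (Wa_l3 hRC a b d)
  have z4 : ∀ a b c, R a b c 0 = 0 := fun a b c => Wa_zero (Wa_l4 hRC a b c)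
  -- (2)
  have p2 : ∀ b c d, B e b = 0 → B e c = 0 → B e d = 0 → B b c = 0 → B b d = 0 → B c d = 0 →
      R c b c d = 0 := by
    intro b c d hb hc hd hbc hbd hcd
    have h := hact e b c d hb hc hd hbc hbd hcd e c
    have w1 : wd B e c e = -c := by
      simp only [wd]
      rw [hB.symm c e, hc, he, zero_smul, one_smul, zero_sub]
    have w2 : wd B e c b = 0 := by
      simp only [wd]
      rw [hB.symm c b, hbc, hb, zero_smul, zero_smul, sub_zero]
    have w3 : wd B e c c = B c c • e := by
      simp only [wd]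
      rw [hc, zero_smul, sub_zero]
    have w4 : wd B e c d = 0 := by
      simp only [wd]
      rw [hcd, hd, zero_smul, zero_smul, sub_zero]
    simp only [act4, w1, w2, w3, w4, z2, z4] at h
    have h3 := (Wa_l3 hRC e b d).smul (B c c) e
    have h4 := h2 b d hb hd
    rw [hbd, mul_zero] at h4
    have h5 := (hR.lin b c d).smul (-1) c
    rw [neg_one_smul] at h5
    change R (-c) b c d = -1 * R c b c d at h5
    change R e b (B c c • e) d = B c c * R e b e d at h3
    rw [h3, h4, h5] at h
    linarith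
  -- (3)
  have p3 : ∀ i j l : Fin m, i ≠ j → i ≠ l →
      R (f i.succ) (f j.succ) (f i.succ) (f j.succ) =
        R (f i.succ) (f l.succ) (f i.succ) (f l.succ) := by
    intro i j l hij hil
    by_cases hjl : j = l
    · rw [hjl]
    · have b1 : B (f j.succ) (f l.succ) = 0 := by rw [hdd, if_neg hjl]
      have b2 : B (f l.succ) (f j.succ) = 0 := by rw [hdd, if_neg fun h => hjl h.symm]
      have b3 : B (f i.succ) (f j.succ) = 0 := by rw [hdd, if_neg hij]
      have b4 : B (f i.succ) (f l.succ) = 0 := by rw [hdd, if_neg hil]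
      have b5 : B (f j.succ) (f i.succ) = 0 := by rw [hB.symm, b3]
      have b6 : B (f l.succ) (f i.succ) = 0 := by rw [hB.symm, b4]
      have b7 : B (f j.succ) (f j.succ) = 1 := by rw [hdd, if_pos rfl]
      have b8 : B (f l.succ) (f l.succ) = 1 := by rw [hdd, if_pos rfl]
      have hr : ∀ u, Lin1 (B u) := fun u => Wa_lc (hB.lin u) fun v => hB.symm u v
      have q1 := p2 (f j.succ) (f i.succ) (f l.succ) (hd0 j) (hd0 i) (hd0 l) b5 b1 b4
      have q2 := p2 (f l.succ) (f i.succ) (f j.succ) (hd0 l) (hd0 i) (hd0 j) b6 b2 b3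
      have q3 := p2 (f j.succ + f l.succ) (f i.succ) ((1 : ℝ) • f j.succ - (1 : ℝ) • f l.succ)
        (by rw [hBe.add, hd0, hd0, add_zero]) (hd0 i)
        (by rw [Wa_cmb hBe, hd0, hd0, mul_zero, sub_zero])
        (by rw [(hB.lin _).add, b5, b6, add_zero])
        (by
          rw [Wa_cmb (hr _), (hB.lin _).add, (hB.lin _).add, b1, b2, b7, b8]
          ring)
        (by rw [Wa_cmb (hr _), b3, b4, mul_zero, sub_zero])
      have r1 := Wa_cmb (Wa_l4 hRC (f i.succ) (f j.succ + f l.succ) (f i.succ)) 1 1 (f j.succ)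
        (f l.succ)
      rw [r1] at q3
      have r2 := (Wa_l2 hRC (f i.succ) (f i.succ) (f j.succ)).add (f j.succ) (f l.succ)
      have r3 := (Wa_l2 hRC (f i.succ) (f i.succ) (f l.succ)).add (f j.succ) (f l.succ)
      rw [r2, r3, q1, q2] at q3
      linarith
  have sy : ∀ i j : Fin m, R (f i.succ) (f j.succ) (f i.succ) (f j.succ) =
      R (f j.succ) (f i.succ) (f j.succ) (f i.succ) := by
    intro i j
    rw [hR.a12 (f j.succ) (f i.succ), hR.a34 _ _ (f j.succ) (f i.succ)]
    ring
  obtain ⟨κ, hκ⟩ : ∃ κ : ℝ, ∀ i j : Fin m, i ≠ j →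
      R (f i.succ) (f j.succ) (f i.succ) (f j.succ) = -κ := by
    refine ⟨-R (f (⟨0, by omega⟩ : Fin m).succ) (f (⟨1, by omega⟩ : Fin m).succ)
      (f (⟨0, by omega⟩ : Fin m).succ) (f (⟨1, by omega⟩ : Fin m).succ), fun i j hij => ?_⟩
    rw [neg_neg]
    have h01 : (⟨0, by omega⟩ : Fin m) ≠ (⟨1, by omega⟩ : Fin m) := by
      intro h
      have := congrArg Fin.val h
      simp at this
    generalize (⟨0, _⟩ : Fin m) = k at h01 ⊢
    generalize (⟨1, _⟩ : Fin m) = l at h01 ⊢
    by_cases hik : i = k
    · subst hik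
      exact p3 i j l hij h01
    · rw [p3 i j k hij hik, sy, p3 k i l (fun h => hik h.symm) h01]
  -- (4)
  have hz : ∀ i j l : Fin m, i ≠ j → i ≠ l → j ≠ l →
      R (f i.succ) (f j.succ) (f i.succ) (f l.succ) = 0 := by
    intro i j l hij hil hjl
    refine p2 (f j.succ) (f i.succ) (f l.succ) (hd0 j) (hd0 i) (hd0 l) ?_ ?_ ?_
    · rw [hdd, if_neg fun h => hij h.symm]
    · rw [hdd, if_neg hjl]
    · rw [hdd, if_neg hil]
  have p4 : ∀ i j k l : Fin m, i ≠ j → i ≠ k → i ≠ l → j ≠ k → j ≠ l → k ≠ l →
      R (f i.succ) (f j.succ) (f k.succ) (f l.succ) =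
        -R (f k.succ) (f j.succ) (f i.succ) (f l.succ) := by
    intro i j k l hij hik hil hjk hjl hkl
    have hr : ∀ u, Lin1 (B u) := fun u => Wa_lc (hB.lin u) fun v => hB.symm u v
    have b1 : B (f j.succ) (f i.succ) = 0 := by rw [hdd, if_neg fun h => hij h.symm]
    have b2 : B (f j.succ) (f k.succ) = 0 := by rw [hdd, if_neg hjk]
    have b3 : B (f j.succ) (f l.succ) = 0 := by rw [hdd, if_neg hjl]
    have b4 : B (f i.succ) (f l.succ) = 0 := by rw [hdd, if_neg hil]
    have b5 : B (f k.succ) (f l.succ) = 0 := by rw [hdd, if_neg hkl]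
    have q := p2 (f j.succ) (f i.succ + f k.succ) (f l.succ) (hd0 j)
      (by rw [hBe.add, hd0, hd0, add_zero]) (hd0 l)
      (by rw [(hr _).add, b1, b2, add_zero]) b3
      (by rw [(hB.lin _).add, b4, b5, add_zero])
    have r1 := (hR.lin (f j.succ) (f i.succ + f k.succ) (f l.succ)).add (f i.succ) (f k.succ)
    rw [r1] at q
    have r2 := (Wa_l3 hRC (f i.succ) (f j.succ) (f l.succ)).add (f i.succ) (f k.succ)
    have r3 := (Wa_l3 hRC (f k.succ) (f j.succ) (f l.succ)).add (f i.succ) (f k.succ)
    rw [r2, r3, hz i j l hij hil hjl, hz k j l (fun h => hjk h.symm) hkl hjl] at q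
    linarith
  have p5 : ∀ i j k l : Fin m, i ≠ j → i ≠ k → i ≠ l → j ≠ k → j ≠ l → k ≠ l →
      R (f i.succ) (f j.succ) (f k.succ) (f l.succ) = 0 := by
    intro i j k l hij hik hil hjk hjl hkl
    have b := hR.bi (f i.succ) (f j.succ) (f k.succ) (f l.succ)
    have c1 := p4 j k i l hjk (fun h => hij h.symm) hjl (fun h => hik h.symm) hkl hil
    have c2 := p4 k i j l (fun h => hik h.symm) (fun h => hjk h.symm) hkl hij hil hjl
    have c3 := hR.a12 (f i.succ) (f k.succ) (f j.succ) (f l.succ)
    have c4 := hR.a12 (f j.succ) (f i.succ) (f k.succ) (f l.succ)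
    linarith
  -- values on the complement
  have hK : ∀ i j k l : Fin m, R (f i.succ) (f j.succ) (f k.succ) (f l.succ)
      = κ * G0 B (f i.succ) (f j.succ) (f k.succ) (f l.succ) := by
    intro i j k l
    simp only [G0, hdd]
    by_cases hij : i = j
    · subst hij
      have := hR.a12 (f i.succ) (f i.succ) (f k.succ) (f l.succ)
      have h0 : R (f i.succ) (f i.succ) (f k.succ) (f l.succ) = 0 := by linarith
      rw [h0]
      ring
    by_cases hkl : k = l
    · subst hkl
      have := hR.a34 (f i.succ) (f j.succ) (f k.succ) (f k.succ)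
      have h0 : R (f i.succ) (f j.succ) (f k.succ) (f k.succ) = 0 := by linarith
      rw [h0]
      ring
    have hji : j ≠ i := fun h => hij h.symm
    by_cases hik : i = k
    · subst hik
      by_cases hjl : j = l
      · subst hjl
        rw [hκ i j hij, if_neg hij, if_neg hji, if_pos rfl, if_pos rfl]
        ring
      · rw [hz i j l hij hkl hjl, if_neg hkl, if_neg hjl]
        ring
    by_cases hil : i = l
    · subst hil
      by_cases hjk : j = k
      · subst hjk
        rw [hR.a34, hκ i j hij, if_pos rfl, if_pos rfl, if_neg hik]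
        ring
      · rw [hR.a34, hz i j k hij hik hjk, if_neg hjk, if_neg hik]
        ring
    by_cases hjk : j = k
    · subst hjk
      rw [hR.a12, hz j i l hji hkl hil, if_neg hil, if_neg hik]
      ring
    by_cases hjl : j = l
    · subst hjl
      rw [hR.a12, hR.a34, hz j i k hji hjk hik, if_neg hil, if_neg hik]
      ring
    · rw [p5 i j k l hij hik hil hjk hjl hkl, if_neg hil, if_neg hik]
      ring
  -- the difference
  have hS : SyB fun p q => κ / 2 * B p q + (-lam - κ) * (B e p * B e q) := by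
    constructor
    · intro b
      constructor
      · intro x y
        change κ / 2 * B (x + y) b + (-lam - κ) * (B e (x + y) * B e b) = _
        rw [(hB.lin b).add, hBe.add]
        ring
      · intro r x
        change κ / 2 * B (r • x) b + (-lam - κ) * (B e (r • x) * B e b) = _
        rw [(hB.lin b).smul, hBe.smul]
        ring
    · intro a b
      rw [hB.symm a b]
      ring
  have hT := Wa_sub hRC (Wa_cr ((sKNa V B hB).1 _ hS))
  have Tz : ∀ i j k l : Fin (m + 1), R (f i) (f j) (f k) (f l)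
      - KN B (fun p q => κ / 2 * B p q + (-lam - κ) * (B e p * B e q)) (f i) (f j) (f k) (f l)
        = 0 := by
    refine Wa_16 hT f ?_ ?_ ?_
    · intro i j k l
      have s := hK i j k l
      simp only [KN, hd0]
      rw [s]
      simp only [G0]
      ring
    · intro j k l
      have s1 := h1 (f k.succ) (f l.succ) (hd0 k) (hd0 l) (f j.succ)
      have s2 := hR.sw e (f j.succ) (f k.succ) (f l.succ)
      rw [hf0]
      simp only [KN, hd0, he]
      rw [← s2, s1]
      ring
    · intro j l
      have s := h2 (f j.succ) (f l.succ) (hd0 j) (hd0 l)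
      have t := hdd j l
      rw [hf0]
      simp only [KN, hd0, he, hde]
      rw [s, t]
      by_cases hjl : j = l
      · rw [if_pos hjl]
        ring
      · rw [if_neg hjl]
        ring
  refine ⟨κ, -lam - κ, ?_⟩
  have t4 : ∀ i j k d, R (f i) (f j) (f k) d
      - KN B (fun p q => κ / 2 * B p q + (-lam - κ) * (B e p * B e q)) (f i) (f j) (f k) d = 0 :=
    fun i j k d => Wa_ext hf (Wa_l4 hT (f i) (f j) (f k)) (fun l => Tz i j k l) d
  have t3 : ∀ i j c d, R (f i) (f j) c d
      - KN B (fun p q => κ / 2 * B p q + (-lam - κ) * (B e p * B e q)) (f i) (f j) c d = 0 :=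
    fun i j c d => Wa_ext hf (Wa_l3 hT (f i) (f j) d) (fun k => t4 i j k d) c
  have t2 : ∀ i b c d, R (f i) b c d
      - KN B (fun p q => κ / 2 * B p q + (-lam - κ) * (B e p * B e q)) (f i) b c d = 0 :=
    fun i b c d => Wa_ext hf (Wa_l2 hT (f i) c d) (fun j => t3 i j c d) b
  have t1 : ∀ a b c d, R a b c d
      - KN B (fun p q => κ / 2 * B p q + (-lam - κ) * (B e p * B e q)) a b c d = 0 :=
    fun a b c d => Wa_ext hf (hT.lin b c d) (fun i => t2 i b c d) a
  intro a b c d
  have t := t1 a b c d
  simp only [KN] at t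
  simp only [KN, G0]
  linarith

end

end Pool.Agent.Lib.MP_9d59e9_gt.KS
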